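import Pool.Agent.Lib.MP_0c5642_al.W.Defs

/-! ROW w-A1: closure properties of almost invariant sets and of the algebras. -/

set_option autoImplicit false

namespace WQ

open scoped Pointwise

variable {G : Type*} [Group G] {V : Subgroup G} {E F : Set G}

theorem AI.compl (h : AI V E) : AI V ((V : Set G) \ E) := by
  refine ⟨Set.sdiff_subset, fun g hg => (h.2 g hg).subset ?_⟩
  intro x hx hx'
  apply hx
  have hV : x ∈ V ↔ x * g ∈ V := (Subgroup.mul_mem_cancel_right V hg).symm
  rw [Set.mem_sdiff, Set.mem_sdiff, SetLike.mem_coe, SetLike.mem_coe, hV, hx']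

theorem AI.inter (h : AI V E) (h' : AI V F) : AI V (E ∩ F) := by
  refine ⟨Set.inter_subset_left.trans h.1, fun g hg => ((h.2 g hg).union (h'.2 g hg)).subset ?_⟩
  intro x hx
  by_contra hcon
  rw [Set.mem_union, not_or] at hcon
  simp only [Set.mem_ofPred_eq, not_not] at hcon
  apply hx
  rw [Set.mem_inter_iff, Set.mem_inter_iff, hcon.1, hcon.2]

theorem AI.smul (h : AI V E) {g : G} (hg : g ∈ V) : AI V (g • E) := by
  refine ⟨?_, fun k hk => ((h.2 k hk).image (fun x => g * x)).subset ?_⟩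
  · rintro _ ⟨x, hx, rfl⟩
    exact V.mul_mem hg (h.1 hx)
  · intro x hx
    refine ⟨g⁻¹ * x, ?_, by simp⟩
    intro hx'
    apply hx
    rw [Set.mem_smul_set_iff_inv_smul_mem, Set.mem_smul_set_iff_inv_smul_mem, smul_eq_mul, smul_eq_mul,
      ← mul_assoc, hx']

theorem AI.of_finite (h : E ⊆ (V : Set G)) (hf : E.Finite) : AI V E := by
  refine ⟨h, fun g _ => (hf.union (hf.image (fun x => x * g⁻¹))).subset ?_⟩
  intro x hx
  by_contra hcon
  rw [Set.mem_union, not_or] at hcon
  apply hx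
  constructor
  · intro h1
    exact absurd h1 hcon.1
  · intro h1
    exact absurd ⟨x * g, h1, by simp⟩ hcon.2

theorem AI.symmDiff_finite (h : AI V E) (hF : F ⊆ (V : Set G)) (hf : (symmDiff E F).Finite) : AI V F := by
  refine ⟨hF, fun g hg => (((h.2 g hg).union hf).union (hf.image (fun x => x * g⁻¹))).subset ?_⟩
  intro x hx
  by_contra hcon
  rw [Set.mem_union, Set.mem_union, not_or, not_or] at hcon
  obtain ⟨⟨h1, h2⟩, h3⟩ := hcon
  simp only [Set.mem_ofPred_eq, not_not] at h1
  have h4 : x * g ∉ symmDiff E F := fun h4 => h3 ⟨x * g, h4, by simp⟩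
  have key : ∀ y, y ∉ symmDiff E F → (y ∈ E ↔ y ∈ F) := by
    intro y hy
    rw [Set.mem_symmDiff] at hy
    tauto
  apply hx
  rw [← key x h2, ← key _ h4, h1]

theorem isAlg_BB (V : Subgroup G) : IsAlg V (BB V) where
  ai _ hE := hE
  compl _ hE := AI.compl hE
  inter _ hE _ hF := AI.inter hE hF
  smul _ hE _ hg := AI.smul hE hg
  fin _ hE hf := AI.of_finite hE hf

variable {R : Set (Set G)}

theorem IsAlg.union (hR : IsAlg V R) (hE : E ∈ R) (hF : F ∈ R) : E ∪ F ∈ R := by
  have h := hR.compl _ (hR.inter _ (hR.compl _ hE) _ (hR.compl _ hF))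
  have e : (V : Set G) \ (((V : Set G) \ E) ∩ ((V : Set G) \ F)) = E ∪ F := by
    ext x
    have h1 : x ∈ E → x ∈ (V : Set G) := fun hx => (hR.ai _ hE).1 hx
    have h2 : x ∈ F → x ∈ (V : Set G) := fun hx => (hR.ai _ hF).1 hx
    simp only [Set.mem_sdiff, Set.mem_inter_iff, Set.mem_union]
    tauto
  rwa [e] at h

theorem IsAlg.diff (hR : IsAlg V R) (hE : E ∈ R) (hF : F ∈ R) : E \ F ∈ R := by
  have h := hR.inter _ hE _ (hR.compl _ hF)
  have e : E ∩ ((V : Set G) \ F) = E \ F := by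
    ext x
    have h1 : x ∈ E → x ∈ (V : Set G) := fun hx => (hR.ai _ hE).1 hx
    simp only [Set.mem_sdiff, Set.mem_inter_iff]
    tauto
  rwa [e] at h

theorem IsAlg.symmDiff (hR : IsAlg V R) (hE : E ∈ R) (hF : F ∈ R) : symmDiff E F ∈ R :=
  hR.union (hR.diff hE hF) (hR.diff hF hE)

theorem IsAlg.univ (hR : IsAlg V R) : (V : Set G) ∈ R := by
  have h := hR.compl _ (hR.fin ∅ (Set.empty_subset _) Set.finite_empty)
  rwa [Set.sdiff_empty] at h

theorem IsAlg.biUnion (hR : IsAlg V R) {ι : Type*} (s : Finset ι) (A : ι → Set G) (hA : ∀ i ∈ s, A i ∈ R) :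
    (⋃ i ∈ s, A i) ∈ R := by
  classical
  induction s using Finset.induction_on with
  | empty =>
    have e : (⋃ i ∈ (∅ : Finset ι), A i) = ∅ := by simp
    rw [e]
    exact hR.fin ∅ (Set.empty_subset _) Set.finite_empty
  | insert a s _ ih =>
    rw [Finset.set_biUnion_insert]
    exact hR.union (hA a (Finset.mem_insert_self a s))
      (ih fun i hi => hA i (Finset.mem_insert_of_mem hi))

/-- a set which differs finitely from a member is a member -/
theorem IsAlg.of_symmDiff (hR : IsAlg V R) (hE : E ∈ R) (hF : F ⊆ (V : Set G)) (hf : (_root_.symmDiff E F).Finite) :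
    F ∈ R := by
  have h1 : _root_.symmDiff E F ⊆ (V : Set G) := by
    intro x hx
    rw [Set.mem_symmDiff] at hx
    rcases hx with hx | hx
    · exact (hR.ai _ hE).1 hx.1
    · exact hF hx.1
  have h2 := hR.symmDiff hE (hR.fin _ h1 hf)
  rwa [symmDiff_symmDiff_cancel_left] at h2

end WQ
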