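import Pool.Agent.Lib.MP_0c5642_al.W.A1

/-! ROW w-A2: splitting of cosets. -/

set_option autoImplicit false

namespace WQ

open scoped Pointwise

variable {G : Type*} [Group G] {U V W : Subgroup G} {E F : Set G}

theorem A2_diff_res (x : G) : ((U : Set G) \ res U E x) = {u | u ∈ U ∧ x * u ∉ E} := by
  ext u
  simp only [res, Set.mem_diff, SetLike.mem_coe, Set.mem_setOf_eq, not_and]
  exact ⟨fun h => ⟨h.1, h.2 h.1⟩, fun h => ⟨h.1, fun _ => h.2⟩⟩

theorem A2_preimage_finite (hE : E.Finite) (x : G) : {u | x * u ∈ E}.Finite :=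
  hE.preimage (mul_right_injective x).injOn

/-- an infinite set contained in the union of `B` and a finite set -/
theorem A2_infinite {A B C : Set G} (hA : A.Infinite) (hC : C.Finite) (h : A ⊆ B ∪ C) : B.Infinite := by
  intro hB
  exact hA ((hB.union hC).subset h)

theorem A2_shift (P : G → Prop) {u : G} (hu : u ∈ U) :
    {v | v ∈ U ∧ P (u * v)}.Infinite ↔ {v | v ∈ U ∧ P v}.Infinite := by
  have h : {v | v ∈ U ∧ P v} = (fun v => u * v) '' {v | v ∈ U ∧ P (u * v)} := by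
    ext v
    constructor
    · rintro ⟨h1, h2⟩
      refine ⟨u⁻¹ * v, ⟨U.mul_mem (U.inv_mem hu) h1, ?_⟩, ?_⟩
      · rw [mul_inv_cancel_left]
        exact h2
      · exact mul_inv_cancel_left u v
    · rintro ⟨w, ⟨h1, h2⟩, rfl⟩
      exact ⟨U.mul_mem hu h1, h2⟩
  rw [h, Set.infinite_image_iff (mul_right_injective u).injOn]

theorem split_iff (x : G) : Split U E x ↔ (res U E x).Infinite ∧ ((U : Set G) \ res U E x).Infinite := by
  rw [A2_diff_res]
  exact Iff.rfl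

theorem AI.res (hUV : U ≤ V) (h : AI V E) {x : G} (hx : x ∈ V) : AI U (res U E x) := by
  refine ⟨fun u hu => hu.1, ?_⟩
  intro g hg
  refine (A2_preimage_finite (h.2 g (hUV hg)) x).subset ?_
  intro u hu
  simp only [Set.mem_setOf_eq, WQ.res] at hu ⊢
  intro hc
  apply hu
  have h1 : u * g ∈ U ↔ u ∈ U := U.mul_mem_cancel_right hg
  rw [h1, ← mul_assoc, hc]

theorem Split.mono (hUV : U ≤ V) {x : G} (h : Split U E x) : Split V E x :=
  ⟨h.1.mono fun _ hu => ⟨hUV hu.1, hu.2⟩, h.2.mono fun _ hu => ⟨hUV hu.1, hu.2⟩⟩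

theorem split_smul (g x : G) : Split U (g • E) x ↔ Split U E (g⁻¹ * x) := by
  unfold Split
  simp only [Set.mem_smul_set_iff_inv_smul_mem, smul_eq_mul, mul_assoc]

theorem split_mul {u : G} (hu : u ∈ U) (x : G) : Split U E (x * u) ↔ Split U E x := by
  unfold Split
  have h1 := A2_shift (U := U) (fun v => x * v ∈ E) hu
  have h2 := A2_shift (U := U) (fun v => x * v ∉ E) hu
  simp only [← mul_assoc] at h1 h2
  rw [h1, h2]

theorem split_res (hWU : W ≤ U) {u : G} (hu : u ∈ U) (x : G) : Split W (res U E x) u ↔ Split W E (x * u) := by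
  have h1 : {w | w ∈ W ∧ u * w ∈ res U E x} = {w | w ∈ W ∧ x * u * w ∈ E} := by
    ext w
    simp only [res, Set.mem_setOf_eq, mul_assoc]
    exact ⟨fun h => ⟨h.1, h.2.2⟩, fun h => ⟨h.1, U.mul_mem hu (hWU h.1), h.2⟩⟩
  have h2 : {w | w ∈ W ∧ u * w ∉ res U E x} = {w | w ∈ W ∧ x * u * w ∉ E} := by
    ext w
    simp only [res, Set.mem_setOf_eq, mul_assoc]
    exact ⟨fun h => ⟨h.1, fun h' => h.2 ⟨U.mul_mem hu (hWU h.1), h'⟩⟩,
      fun h => ⟨h.1, fun h' => h.2 h'.2⟩⟩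
  unfold Split
  rw [h1, h2]

theorem A2_congr (h : (symmDiff E F).Finite) {x : G} (hs : Split U E x) : Split U F x := by
  have hf := A2_preimage_finite h x
  refine ⟨A2_infinite hs.1 hf ?_, A2_infinite hs.2 hf ?_⟩
  · rintro u ⟨h1, h2⟩
    by_cases h3 : x * u ∈ F
    · exact Or.inl ⟨h1, h3⟩
    · exact Or.inr (Or.inl ⟨h2, h3⟩)
  · rintro u ⟨h1, h2⟩
    by_cases h3 : x * u ∈ F
    · exact Or.inr (Or.inr ⟨h3, h2⟩)
    · exact Or.inl ⟨h1, h3⟩

theorem split_congr (h : (symmDiff E F).Finite) (x : G) : Split U E x ↔ Split U F x :=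
  ⟨A2_congr h, A2_congr (by rw [symmDiff_comm]; exact h)⟩

/-- a split coset of `U ≤ V` lies in `V` -/
theorem Split.mem (hUV : U ≤ V) (h : E ⊆ (V : Set G)) {x : G} (hs : Split U E x) : x ∈ V := by
  obtain ⟨u, h1, h2⟩ := hs.1.nonempty
  exact (V.mul_mem_cancel_right (hUV h1)).1 (h h2)

theorem Ell.mono (hUV : U ≤ V) (h : Ell V E) : Ell U E := fun x hs => h x (hs.mono hUV)

theorem Ell.compl (hUV : U ≤ V) (h : Ell U E) : Ell U ((V : Set G) \ E) := by
  intro x hs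
  have hx : x ∈ V := hs.mem hUV Set.diff_subset
  refine h x ⟨hs.2.mono ?_, hs.1.mono ?_⟩
  · rintro u ⟨h1, h2⟩
    refine ⟨h1, ?_⟩
    by_contra h3
    exact h2 ⟨V.mul_mem hx (hUV h1), h3⟩
  · rintro u ⟨h1, h2⟩
    exact ⟨h1, h2.2⟩

theorem Ell.inter (h : Ell U E) (h' : Ell U F) : Ell U (E ∩ F) := by
  intro x hs
  have h1 : {u | u ∈ U ∧ x * u ∈ E}.Infinite := hs.1.mono fun u hu => ⟨hu.1, hu.2.1⟩
  have h2 : {u | u ∈ U ∧ x * u ∈ F}.Infinite := hs.1.mono fun u hu => ⟨hu.1, hu.2.2⟩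
  have h3 : {u | u ∈ U ∧ x * u ∉ E}.Finite := by
    by_contra h3
    exact h x ⟨h1, h3⟩
  have h4 : {u | u ∈ U ∧ x * u ∉ F}.Finite := by
    by_contra h4
    exact h' x ⟨h2, h4⟩
  refine hs.2 ((h3.union h4).subset ?_)
  rintro u ⟨h5, h6⟩
  by_cases h7 : x * u ∈ E
  · exact Or.inr ⟨h5, fun h8 => h6 ⟨h7, h8⟩⟩
  · exact Or.inl ⟨h5, h7⟩

theorem Ell.smul (h : Ell U E) (g : G) : Ell U (g • E) := fun x hs => h _ ((split_smul g x).1 hs)

theorem Ell.of_finite (h : E.Finite) : Ell U E := fun x hs =>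
  hs.1 ((A2_preimage_finite h x).subset fun _ hu => hu.2)

/-- the members of an algebra for which `U` is elliptic form an algebra -/
theorem isAlg_ell {R : Set (Set G)} (hR : IsAlg V R) (hUV : U ≤ V) : IsAlg V {E | E ∈ R ∧ Ell U E} where
  ai := fun E hE => hR.ai E hE.1
  compl := fun E hE => ⟨hR.compl E hE.1, hE.2.compl hUV⟩
  inter := fun E hE F hF => ⟨hR.inter E hE.1 F hF.1, hE.2.inter hF.2⟩
  smul := fun E hE g hg => ⟨hR.smul E hE.1 g hg, hE.2.smul g⟩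
  fin := fun E hE hf => ⟨hR.fin E hE hf, Ell.of_finite hf⟩

theorem A2_conj_set (P : G → Prop) (g : G) :
    {w | w ∈ U.map (MulAut.conj g).toMonoidHom ∧ P w}.Infinite ↔
      {u | u ∈ U ∧ P (g * u * g⁻¹)}.Infinite := by
  have h : {w | w ∈ U.map (MulAut.conj g).toMonoidHom ∧ P w} =
      (fun u => g * u * g⁻¹) '' {u | u ∈ U ∧ P (g * u * g⁻¹)} := by
    ext w
    constructor
    · rintro ⟨h1, h2⟩
      obtain ⟨u, hu, hw⟩ := Subgroup.mem_map.1 h1
      have hw' : g * u * g⁻¹ = w := hw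
      refine ⟨u, ⟨hu, ?_⟩, hw'⟩
      rw [hw']
      exact h2
    · rintro ⟨u, ⟨h1, h2⟩, rfl⟩
      exact ⟨Subgroup.mem_map.2 ⟨u, h1, rfl⟩, h2⟩
  rw [h, Set.infinite_image_iff]
  intro u _ v _ huv
  have h2 : g * u * g⁻¹ = g * v * g⁻¹ := huv
  exact mul_left_cancel (mul_right_cancel h2)

theorem A2_conj_aux (h : AI V E) {g : G} (hg : g ∈ V) (x : G) (P Q : G → Prop)
    (hPQ : ∀ y, (y ∈ E ↔ y * g⁻¹ ∈ E) → (P (y * g⁻¹) ↔ Q y)) :
    {u | u ∈ U ∧ P (x * (g * u * g⁻¹))}.Infinite ↔ {u | u ∈ U ∧ Q (x * g * u)}.Infinite := by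
  have hf : {u | ¬ (x * g * u ∈ E ↔ x * g * u * g⁻¹ ∈ E)}.Finite :=
    A2_preimage_finite (h.2 g⁻¹ (V.inv_mem hg)) (x * g)
  have he : ∀ u, x * (g * u * g⁻¹) = x * g * u * g⁻¹ := fun u => by simp only [mul_assoc]
  constructor
  · intro hi
    refine A2_infinite hi hf ?_
    rintro u ⟨h1, h2⟩
    by_cases h3 : (x * g * u ∈ E ↔ x * g * u * g⁻¹ ∈ E)
    · rw [he] at h2
      exact Or.inl ⟨h1, (hPQ _ h3).1 h2⟩
    · exact Or.inr h3
  · intro hi
    refine A2_infinite hi hf ?_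
    rintro u ⟨h1, h2⟩
    by_cases h3 : (x * g * u ∈ E ↔ x * g * u * g⁻¹ ∈ E)
    · refine Or.inl ⟨h1, ?_⟩
      rw [he]
      exact (hPQ _ h3).2 h2
    · exact Or.inr h3

/-- conjugate subgroups -/
theorem split_conj (h : AI V E) {g : G} (hg : g ∈ V) (x : G) :
    Split (U.map (MulAut.conj g).toMonoidHom) E x ↔ Split U E (x * g) := by
  unfold Split
  rw [A2_conj_set (fun w => x * w ∈ E) g, A2_conj_set (fun w => x * w ∉ E) g,
    A2_conj_aux h hg x (fun y => y ∈ E) (fun y => y ∈ E) (fun y hy => hy.symm),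
    A2_conj_aux h hg x (fun y => y ∉ E) (fun y => y ∉ E) (fun y hy => not_congr hy.symm)]

theorem NF.mono {U' : Subgroup G} (h : NF U V) (hUU : U ≤ U') : NF U' V :=
  fun E hE hel => h E hE (hel.mono hUU)

/-- a nontrivial almost invariant set splits a coset of `U` -/
theorem NF.exists_split (h : NF U V) (hE : AI V E) (h1 : E.Infinite) (h2 : ((V : Set G) \ E).Infinite) :
    ∃ x, Split U E x := by
  by_contra hc
  rcases h E hE fun x hs => hc ⟨x, hs⟩ with h3 | h3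
  · exact h1 h3
  · exact h2 h3

end WQ
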