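import Pool.Agent.Lib.MP_0c5642_al.W.A2

/-! ROW w-A3: finitely generated subgroups: almost all cosets are exact. -/

set_option autoImplicit false

namespace WQ

open scoped Pointwise

variable {G : Type*} [Group G] {U V : Subgroup G} {E F : Set G}

/-- A finite set `F` such that every coset `x U` missing `F` is empty or full. (If a coset is not exact there are a generator `s^±` of `U` and
`y ∈ x U` with `¬ (y ∈ E ↔ y s ∈ E)`; put all such `y` in `F`.) -/
theorem exact_fin (hUV : U ≤ V) (hU : U.FG) (h : AI V E) :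
    ∃ F : Finset G, ∀ x ∈ V, (∀ u ∈ U, x * u ∉ F) → (∀ u ∈ U, x * u ∈ E) ∨ (∀ u ∈ U, x * u ∉ E) := by
  classical
  obtain ⟨S, hS⟩ := hU
  have hSU : ∀ s ∈ S, s ∈ U := by
    intro s hs
    rw [← hS]
    exact Subgroup.subset_closure hs
  have hfin : (⋃ s ∈ S, ({x | ¬ (x ∈ E ↔ x * s ∈ E)} ∪ {x | ¬ (x ∈ E ↔ x * s⁻¹ ∈ E)})).Finite := by
    refine Set.Finite.biUnion S.finite_toSet fun s hs => ?_
    exact (h.2 s (hUV (hSU s hs))).union (h.2 s⁻¹ (hUV (U.inv_mem (hSU s hs))))
  refine ⟨hfin.toFinset, fun x _ hF => ?_⟩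
  have key : ∀ u ∈ U, (x * u ∈ E ↔ x ∈ E) := by
    intro u hu
    rw [← hS] at hu
    induction hu using Subgroup.closure_induction_right with
    | one => rw [mul_one]
    | mul_right u hu s hs ih =>
      rw [hS] at hu
      rw [← ih, ← mul_assoc]
      by_contra hne
      apply hF u hu
      rw [Set.Finite.mem_toFinset, Set.mem_iUnion₂]
      exact ⟨s, hs, Or.inl fun h1 => hne h1.symm⟩
    | mul_inv_cancel u hu s hs ih =>
      rw [hS] at hu
      rw [← ih, ← mul_assoc]
      by_contra hne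
      apply hF u hu
      rw [Set.Finite.mem_toFinset, Set.mem_iUnion₂]
      exact ⟨s, hs, Or.inr fun h1 => hne h1.symm⟩
  by_cases hx : x ∈ E
  · exact Or.inl fun u hu => (key u hu).2 hx
  · exact Or.inr fun u hu h1 => hx ((key u hu).1 h1)

/-- the union of the cosets which are full or meet `E` in an infinite set -/
def A3_T (U V : Subgroup G) (E : Set G) : Set G :=
  {x | x ∈ V ∧ ((∀ u ∈ U, x * u ∈ E) ∨ {u | u ∈ U ∧ x * u ∈ E}.Infinite)}

theorem A3_inf {x v : G} (hv : v ∈ U) (h : {u | u ∈ U ∧ x * u ∈ E}.Infinite) :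
    {u | u ∈ U ∧ x * v * u ∈ E}.Infinite := by
  have e : {u | u ∈ U ∧ x * v * u ∈ E} = (fun u => v * u) ⁻¹' {u | u ∈ U ∧ x * u ∈ E} := by
    ext u
    simp only [Set.mem_setOf_eq, Set.mem_preimage]
    rw [U.mul_mem_cancel_left hv, mul_assoc]
  rw [e]
  intro hfin
  apply h
  have h1 : {u | u ∈ U ∧ x * u ∈ E} =
      (fun u => v * u) '' ((fun u => v * u) ⁻¹' {u | u ∈ U ∧ x * u ∈ E}) := by
    rw [Set.image_preimage_eq]
    intro z
    exact ⟨v⁻¹ * z, mul_inv_cancel_left v z⟩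
  rw [h1]
  exact hfin.image _

theorem A3_T_mul (hUV : U ≤ V) {x v : G} (hv : v ∈ U) (hx : x ∈ A3_T U V E) : x * v ∈ A3_T U V E := by
  refine ⟨V.mul_mem hx.1 (hUV hv), ?_⟩
  rcases hx.2 with h | h
  · refine Or.inl fun u hu => ?_
    rw [mul_assoc]
    exact h _ (U.mul_mem hv hu)
  · exact Or.inr (A3_inf hv h)

theorem A3_T_inv (hUV : U ≤ V) {v : G} (hv : v ∈ U) : Inv (A3_T U V E) v := by
  intro x
  refine ⟨A3_T_mul hUV hv, fun h => ?_⟩
  have := A3_T_mul hUV (U.inv_mem hv) h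
  rwa [mul_inv_cancel_right] at this

theorem A3_one (hUV : U ≤ V) (h : AI V E) (f : G) :
    {x | x ∈ symmDiff E (A3_T U V E) ∧ ¬ Split U E x ∧ ∃ u ∈ U, x * u = f}.Finite := by
  rcases Set.eq_empty_or_nonempty
    {x | x ∈ symmDiff E (A3_T U V E) ∧ ¬ Split U E x ∧ ∃ u ∈ U, x * u = f} with h0 | ⟨x0, hx0, hs, u0, hu0, hf⟩
  · rw [h0]
    exact Set.finite_empty
  have hcos : ∀ x, (∃ u ∈ U, x * u = f) → ∃ u ∈ U, x = x0 * u := by
    rintro x ⟨u, hu, hx⟩
    refine ⟨u0 * u⁻¹, U.mul_mem hu0 (U.inv_mem hu), ?_⟩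
    rw [← mul_assoc, hf, ← hx, mul_inv_cancel_right]
  have hx0V : x0 ∈ V := by
    rcases hx0 with h1 | h1
    · exact h.1 h1.1
    · exact h1.1.1
  by_cases hinf : {u | u ∈ U ∧ x0 * u ∈ E}.Infinite
  · have hfin : {u | u ∈ U ∧ x0 * u ∉ E}.Finite := by
      by_contra h1
      exact hs ⟨hinf, h1⟩
    refine (hfin.image fun u => x0 * u).subset ?_
    rintro x ⟨hx, _, hxf⟩
    obtain ⟨u, hu, rfl⟩ := hcos x hxf
    refine ⟨u, ⟨hu, fun h1 => ?_⟩, rfl⟩
    have h2 : x0 * u ∈ A3_T U V E := A3_T_mul hUV hu ⟨hx0V, Or.inr hinf⟩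
    rcases hx with h3 | h3
    · exact h3.2 h2
    · exact h3.2 h1
  · rw [Set.not_infinite] at hinf
    refine (hinf.image fun u => x0 * u).subset ?_
    rintro x ⟨hx, _, hxf⟩
    obtain ⟨u, hu, rfl⟩ := hcos x hxf
    refine ⟨u, ⟨hu, ?_⟩, rfl⟩
    rcases hx with h3 | h3
    · exact h3.1
    · exfalso
      rcases h3.1.2 with h4 | h4
      · apply h3.2
        have := h4 1 U.one_mem
        rwa [mul_one] at this
      · have h5 := A3_inf (U.inv_mem hu) h4
        rw [mul_inv_cancel_right] at h5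
        exact h5 hinf

theorem A3_fin (hUV : U ≤ V) (hU : U.FG) (h : AI V E) :
    {x | x ∈ symmDiff E (A3_T U V E) ∧ ¬ Split U E x}.Finite := by
  obtain ⟨F, hF⟩ := exact_fin hUV hU h
  have h1 : (⋃ f ∈ F, {x | x ∈ symmDiff E (A3_T U V E) ∧ ¬ Split U E x ∧ ∃ u ∈ U, x * u = f}).Finite :=
    Set.Finite.biUnion F.finite_toSet fun f _ => A3_one hUV h f
  refine h1.subset ?_
  rintro x ⟨hx, hs⟩
  have hxV : x ∈ V := by
    rcases hx with h1 | h1
    · exact h.1 h1.1
    · exact h1.1.1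
  have hmeet : ∃ u ∈ U, x * u ∈ F := by
    by_contra hno
    push Not at hno
    rcases hF x hxV hno with h2 | h2
    · have hxE : x ∈ E := by
        have := h2 1 U.one_mem
        rwa [mul_one] at this
      have hxT : x ∈ A3_T U V E := ⟨hxV, Or.inl h2⟩
      rcases hx with h3 | h3
      · exact h3.2 hxT
      · exact h3.2 hxE
    · have hxE : x ∉ E := by
        have := h2 1 U.one_mem
        rwa [mul_one] at this
      have hxT : x ∉ A3_T U V E := by
        rintro ⟨_, h3 | h3⟩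
        · apply hxE
          have := h3 1 U.one_mem
          rwa [mul_one] at this
        · apply h3
          have e : {u | u ∈ U ∧ x * u ∈ E} = ∅ := by
            ext u
            simp only [Set.mem_setOf_eq, Set.mem_empty_iff_false, iff_false]
            exact fun h4 => h2 u h4.1 h4.2
          rw [e]
          exact Set.finite_empty
      rcases hx with h3 | h3
      · exact hxE h3.1
      · exact hxT h3.1
  obtain ⟨u, hu, hf⟩ := hmeet
  rw [Set.mem_iUnion₂]
  exact ⟨x * u, hf, hx, hs, u, hu, rfl⟩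

/-- If no coset is split, a finite change makes `E` right invariant under `U`. -/
theorem make_inv (hUV : U ≤ V) (hU : U.FG) (h : AI V E) (hell : Ell U E) :
    ∃ E', AI V E' ∧ (symmDiff E E').Finite ∧ ∀ u ∈ U, Inv E' u := by
  have hfin : (symmDiff E (A3_T U V E)).Finite :=
    (A3_fin hUV hU h).subset fun x hx => ⟨hx, hell x⟩
  exact ⟨A3_T U V E, h.symmDiff_finite (fun x hx => hx.1) hfin, hfin, fun u hu => A3_T_inv hUV hu⟩

/-- If only the coset `U` is split, a finite change makes `E` clean without changing the trace on `U`. -/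
theorem make_clean (hUV : U ≤ V) (hU : U.FG) (h : AI V E) (hs : ∀ x ∈ V, Split U E x → x ∈ U) :
    ∃ E', Clean U V E' ∧ (symmDiff E E').Finite ∧ E' ∩ (U : Set G) = E ∩ (U : Set G) := by
  let E' : Set G := {x | (x ∈ U ∧ x ∈ E) ∨ (x ∉ U ∧ x ∈ A3_T U V E)}
  have hfin : (symmDiff E E').Finite := by
    refine (A3_fin hUV hU h).subset fun x hx => ?_
    have hxU : x ∉ U := by
      intro hxU
      rcases hx with h1 | h1
      · exact h1.2 (Or.inl ⟨hxU, h1.1⟩)
      · rcases h1.1 with h2 | h2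
        · exact h1.2 h2.2
        · exact h2.1 hxU
    have hiff : x ∈ E' ↔ x ∈ A3_T U V E := by
      constructor
      · rintro (h1 | h1)
        · exact absurd h1.1 hxU
        · exact h1.2
      · exact fun h1 => Or.inr ⟨hxU, h1⟩
    have hx' : x ∈ symmDiff E (A3_T U V E) := by
      rcases hx with h1 | h1
      · exact Or.inl ⟨h1.1, fun h2 => h1.2 (hiff.2 h2)⟩
      · exact Or.inr ⟨hiff.1 h1.1, h1.2⟩
    have hxV : x ∈ V := by
      rcases hx' with h1 | h1
      · exact h.1 h1.1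
      · exact h1.1.1
    exact ⟨hx', fun h1 => hxU (hs x hxV h1)⟩
  have hsub : E' ⊆ (V : Set G) := by
    rintro x (h1 | h1)
    · exact hUV h1.1
    · exact h1.2.1
  refine ⟨E', ⟨h.symmDiff_finite hsub hfin, fun g _ hg => ?_⟩, hfin, ?_⟩
  · have hgu : ∀ u ∈ U, g * u ∉ U := fun u hu h1 => hg ((U.mul_mem_cancel_right hu).1 h1)
    by_cases hgT : g ∈ A3_T U V E
    · exact Or.inl fun u hu => Or.inr ⟨hgu u hu, A3_T_mul hUV hu hgT⟩
    · refine Or.inr fun u hu h1 => ?_
      rcases h1 with h2 | h2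
      · exact hgu u hu h2.1
      · exact hgT ((A3_T_inv hUV hu g).2 h2.2)
  · ext x
    constructor
    · rintro ⟨h1 | h1, h2⟩
      · exact ⟨h1.2, h2⟩
      · exact absurd h2 h1.1
    · rintro ⟨h1, h2⟩
      exact ⟨Or.inl ⟨h2, h1⟩, h2⟩

/-- a set whose right translates by generators are almost equal is almost invariant -/
theorem ai_of_closure (S : Set G) (hS : Subgroup.closure S = V) (hE : E ⊆ (V : Set G))
    (h : ∀ s ∈ S, {x | ¬ (x ∈ E ↔ x * s ∈ E)}.Finite) : AI V E := by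
  refine ⟨hE, fun g hg => ?_⟩
  rw [← hS] at hg
  induction hg using Subgroup.closure_induction with
  | mem s hs => exact h s hs
  | one =>
    have e : {x | ¬ (x ∈ E ↔ x * 1 ∈ E)} = ∅ := by
      ext x
      simp
    rw [e]
    exact Set.finite_empty
  | mul a b _ _ iha ihb =>
    have h1 : ((fun x => x * a) ⁻¹' {x | ¬ (x ∈ E ↔ x * b ∈ E)}).Finite :=
      ihb.preimage (mul_left_injective a).injOn
    refine (iha.union h1).subset fun x hx => ?_
    by_contra hno
    rw [Set.mem_union, not_or] at hno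
    apply hx
    have h2 : x ∈ E ↔ x * a ∈ E := not_not.1 hno.1
    have h3 : x * a ∈ E ↔ x * a * b ∈ E := not_not.1 hno.2
    rw [h2, h3, mul_assoc]
  | inv a _ iha =>
    have h1 : ((fun x => x * a⁻¹) ⁻¹' {x | ¬ (x ∈ E ↔ x * a ∈ E)}).Finite :=
      iha.preimage (mul_left_injective a⁻¹).injOn
    refine h1.subset fun x hx => ?_
    intro h2
    apply hx
    change (x * a⁻¹ ∈ E ↔ x * a⁻¹ * a ∈ E) at h2
    rw [inv_mul_cancel_right] at h2
    exact h2.symm

end WQ
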