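import Pool.Agent.Lib.MP_0c5642_al.W.A2

/-! ROW w-A4a: a nontrivial free group has a nontrivial almost invariant set. -/

set_option autoImplicit false

namespace WQ

open scoped Pointwise

variable {G : Type*} [Group G] {V : Subgroup G} {E F : Set G}

/-- right multiplication by a basis element changes the first letter only at two elements -/
theorem A4a_head {α : Type*} [DecidableEq α] (y : α) (g : FreeGroup α) (h1 : g ≠ 1) (h2 : g ≠ (FreeGroup.of y)⁻¹) :
    (g * FreeGroup.of y).toWord.head? = g.toWord.head? := by
  have hL : FreeGroup.IsReduced g.toWord := FreeGroup.isReduced_toWord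
  rcases List.eq_nil_or_concat g.toWord with h | ⟨L, z, h⟩
  · exact absurd (FreeGroup.toWord_eq_nil_iff.1 h) h1
  · rw [List.concat_eq_append] at h
    rw [h] at hL
    have hg : g = FreeGroup.mk (L ++ [z]) := by rw [← h, FreeGroup.mk_toWord]
    by_cases hz : z = (y, false)
    · subst hz
      have hg' : g = FreeGroup.mk L * (FreeGroup.of y)⁻¹ := by
        rw [hg, ← FreeGroup.mul_mk]
        rfl
      have hne : L ≠ [] := by
        rintro rfl
        refine h2 ?_
        rw [hg']
        exact one_mul _
      have hLr : FreeGroup.IsReduced L := List.IsChain.left_of_append hL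
      have h3 : (g * FreeGroup.of y).toWord = L := by
        rw [hg', inv_mul_cancel_right, FreeGroup.toWord_mk, hLr.reduce_eq]
      rw [h3, h]
      rcases L with _ | ⟨a, L⟩
      · exact absurd rfl hne
      · rfl
    · have hr : FreeGroup.IsReduced (L ++ [z] ++ [(y, true)]) := by
        refine FreeGroup.IsReduced.append_overlap hL ?_ (by simp)
        show FreeGroup.IsReduced (z :: [(y, true)])
        rw [FreeGroup.isReduced_cons_cons]
        refine ⟨?_, FreeGroup.IsReduced.singleton⟩
        intro hy
        by_contra hb
        refine hz ?_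
        rcases z with ⟨z1, z2⟩
        simp only at hy hb
        rw [hy]
        cases z2
        · rfl
        · exact absurd rfl hb
      have h3 : (g * FreeGroup.of y).toWord = L ++ [z] ++ [(y, true)] := by
        rw [hg]
        show (FreeGroup.mk (L ++ [z]) * FreeGroup.mk [(y, true)]).toWord = _
        rw [FreeGroup.mul_mk, FreeGroup.toWord_mk, hr.reduce_eq]
      rw [h3, h]
      rcases L with _ | ⟨a, L⟩
      · rfl
      · rfl

/-- words starting with a given letter: almost invariant in the free group -/
theorem A4a_ai {α : Type*} [DecidableEq α] (a : α) (g : FreeGroup α) :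
    {x : FreeGroup α | ¬ (x.toWord.head? = some (a, true) ↔ (x * g).toWord.head? = some (a, true))}.Finite := by
  have hinv : ∀ g : FreeGroup α,
      {x : FreeGroup α | ¬ (x.toWord.head? = some (a, true) ↔ (x * g).toWord.head? = some (a, true))}.Finite →
      {x : FreeGroup α | ¬ (x.toWord.head? = some (a, true) ↔ (x * g⁻¹).toWord.head? = some (a, true))}.Finite := by
    intro g hg
    refine (hg.image fun x => x * g).subset ?_
    intro x hx
    refine ⟨x * g⁻¹, ?_, inv_mul_cancel_right x g⟩
    intro h
    refine hx ?_
    rw [inv_mul_cancel_right] at h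
    exact h.symm
  induction g using FreeGroup.induction_on with
  | C1 =>
    refine Set.finite_empty.subset ?_
    intro x hx
    refine hx ?_
    rw [mul_one]
  | of y =>
    refine (Set.toFinite {1, (FreeGroup.of y)⁻¹}).subset ?_
    intro x hx
    by_contra hc
    rw [Set.mem_insert_iff, Set.mem_singleton_iff, not_or] at hc
    refine hx ?_
    have := A4a_head y x hc.1 hc.2
    rw [this]
  | inv_of y hy => exact hinv _ hy
  | mul x y hx hy =>
    refine (hx.union (hy.preimage (f := fun z => z * x) ((mul_left_injective x).injOn))).subset ?_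
    intro z hz
    by_contra hc
    rw [Set.mem_union, not_or] at hc
    obtain ⟨h1, h2⟩ := hc
    refine hz ?_
    have h1' := not_not.1 h1
    have h2' := not_not.1 h2
    rw [← mul_assoc]
    exact h1'.trans h2'

/-- Take a basis element `x` and `E` = elements whose reduced word starts with `x`; it contains `x^n` (`n ≥ 1`), not `x^(-n)`; right multiplication by a
basis element changes `E` only at `1` or at one element. `V` need not be finitely generated. -/
theorem exists_nontrivial (hf : IsFreeGroup V) (hne : V ≠ ⊥) :
    ∃ E, AI V E ∧ E.Infinite ∧ ((V : Set G) \ E).Infinite := by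
  classical
  let e := IsFreeGroup.toFreeGroup V
  have hnt : Nonempty (IsFreeGroup.Generators V) := by
    by_contra hc
    rw [not_nonempty_iff] at hc
    refine hne ?_
    rw [eq_bot_iff]
    intro v hv
    have h1 : e ⟨v, hv⟩ = 1 := Subsingleton.elim _ _
    have h2 : (⟨v, hv⟩ : V) = 1 := by
      have := e.map_eq_one_iff.1 h1
      exact this
    have h3 := congrArg Subtype.val h2
    rw [Subgroup.mem_bot]
    exact h3
  obtain ⟨a⟩ := hnt
  let emb : FreeGroup (IsFreeGroup.Generators V) → G := fun x => ((e.symm x : V) : G)
  have hinj : Function.Injective emb := by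
    intro x y hxy
    have h1 : e.symm x = e.symm y := Subtype.ext hxy
    exact e.symm.injective h1
  have hpow : Function.Injective (fun n : ℕ => (FreeGroup.of a) ^ n) := by
    intro n m hnm
    have h1 := congrArg (fun z => z.toWord.length) hnm
    simpa [FreeGroup.toWord_of_pow] using h1
  let E0 : Set (FreeGroup (IsFreeGroup.Generators V)) := {x | x.toWord.head? = some (a, true)}
  refine ⟨emb '' E0, ⟨?_, ?_⟩, ?_, ?_⟩
  · rintro _ ⟨x, _, rfl⟩
    exact (e.symm x).2
  · intro g hg
    have h1 := A4a_ai a (e ⟨g, hg⟩)
    refine (h1.image emb).subset ?_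
    intro x hx
    have hxV : x ∈ V := by
      by_contra hc
      refine hx (iff_of_false ?_ ?_)
      · rintro ⟨y, _, rfl⟩
        exact hc (e.symm y).2
      · rintro ⟨y, _, hy⟩
        refine hc ?_
        have h2 : x * g ∈ V := by
          rw [← hy]
          exact (e.symm y).2
        exact (Subgroup.mul_mem_cancel_right V hg).1 h2
    have hxe : emb (e ⟨x, hxV⟩) = x := by
      show ((e.symm (e ⟨x, hxV⟩) : V) : G) = x
      rw [MulEquiv.symm_apply_apply]
    have hxg : emb (e ⟨x, hxV⟩ * e ⟨g, hg⟩) = x * g := by
      show ((e.symm (e ⟨x, hxV⟩ * e ⟨g, hg⟩) : V) : G) = x * g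
      rw [map_mul, MulEquiv.symm_apply_apply, MulEquiv.symm_apply_apply]
      rfl
    refine ⟨e ⟨x, hxV⟩, ?_, hxe⟩
    intro hc
    refine hx ?_
    rw [← hxg]
    nth_rewrite 1 [← hxe]
    rw [hinj.mem_set_image, hinj.mem_set_image]
    exact hc
  · refine Set.Infinite.image hinj.injOn ?_
    refine Set.infinite_of_injective_forall_mem (f := fun n : ℕ => (FreeGroup.of a) ^ (n + 1)) ?_ ?_
    · intro n m hnm
      have := hpow hnm
      omega
    · intro n
      show ((FreeGroup.of a) ^ (n + 1)).toWord.head? = some (a, true)
      rw [FreeGroup.toWord_of_pow]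
      rfl
  · refine Set.infinite_of_injective_forall_mem (f := fun n : ℕ => emb (((FreeGroup.of a) ^ n)⁻¹)) ?_ ?_
    · intro n m hnm
      exact hpow (inv_injective (hinj hnm))
    · intro n
      refine ⟨(e.symm _).2, ?_⟩
      rw [hinj.mem_set_image]
      show ¬ (((FreeGroup.of a) ^ n)⁻¹).toWord.head? = some (a, true)
      rw [FreeGroup.toWord_inv, FreeGroup.toWord_of_pow]
      intro h
      have h5 := List.mem_of_head? h
      simp [FreeGroup.invRev] at h5

/-- nontrivial subgroups of a torsion-free group are infinite -/
theorem infinite_of_ne_bot (htf : ∀ g : G, IsOfFinOrder g → g = 1) (hne : V ≠ ⊥) : (V : Set G).Infinite := by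
  obtain ⟨v, hv⟩ := Subgroup.ne_bot_iff_exists_ne_one.1 hne
  obtain ⟨g, hg, hg1⟩ : ∃ g : G, g ∈ V ∧ g ≠ 1 := ⟨v.1, v.2, fun h => hv (Subtype.ext h)⟩
  have h1 : ¬ IsOfFinOrder g := fun h => hg1 (htf g h)
  have h2 : (Subgroup.zpowers g : Set G).Infinite := infinite_zpowers.2 h1
  exact h2.mono (Subgroup.zpowers_le.2 hg)

end WQ
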