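import Pool.Agent.Lib.MP_0c5642_al.W.A2

/-! ROW w-A4b: a relative version. -/

set_option autoImplicit false

namespace WQ

open scoped Pointwise

variable {G : Type*} [Group G] {V : Subgroup G} {E F : Set G}

section free

variable {α : Type*} [DecidableEq α]

/-- reduced word starts with the letter `p` -/
def A4b_S (p : α × Bool) : Set (FreeGroup α) := {g | g.toWord.head? = some p}

theorem A4b_head (p : α × Bool) (x : FreeGroup α) (a : α) (c : Bool)
    (h : ¬ (x ∈ A4b_S p ↔ x * FreeGroup.mk [(a, c)] ∈ A4b_S p)) :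
    a = p.1 ∧ (x = 1 ∨ x = FreeGroup.mk [(a, !c)]) := by
  have hx : x = FreeGroup.mk x.toWord := FreeGroup.mk_toWord.symm
  have hr : FreeGroup.IsReduced x.toWord := FreeGroup.isReduced_toWord
  rcases List.eq_nil_or_concat x.toWord with h0 | ⟨L', r, h0⟩
  · have h1 : x = 1 := FreeGroup.toWord_eq_nil_iff.mp h0
    refine ⟨?_, Or.inl h1⟩
    by_contra hne
    apply h
    unfold A4b_S
    rw [Set.mem_ofPred_eq, Set.mem_ofPred_eq, h0, h1, one_mul, FreeGroup.toWord_mk,
      FreeGroup.reduce_singleton]
    simp only [List.head?_nil, List.head?_cons, Option.some.injEq, reduceCtorEq, false_iff]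
    intro h2
    exact hne (congrArg Prod.fst h2)
  · rw [List.concat_eq_append] at h0
    rw [h0] at hx hr
    by_cases hra : r = (a, !c)
    · subst hra
      have h2 : x * FreeGroup.mk [(a, c)] = FreeGroup.mk L' := by
        rw [hx, FreeGroup.mul_mk, List.append_assoc]
        refine Quot.sound ?_
        have := FreeGroup.Red.Step.not (L₁ := L') (L₂ := []) (x := a) (b := !c)
        simpa using this
      have h3 : FreeGroup.IsReduced L' := (List.isChain_append.mp hr).1
      have h4 : (x * FreeGroup.mk [(a, c)]).toWord = L' := by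
        rw [h2, FreeGroup.toWord_mk, h3.reduce_eq]
      rcases L' with _ | ⟨s, L'⟩
      · refine ⟨?_, Or.inr ?_⟩
        · by_contra hne
          apply h
          unfold A4b_S
          rw [Set.mem_ofPred_eq, Set.mem_ofPred_eq, h0, h4]
          simp only [List.nil_append, List.head?_nil, List.head?_cons, Option.some.injEq,
            reduceCtorEq, iff_false]
          intro h5
          exact hne (congrArg Prod.fst h5)
        · rw [hx]
          rfl
      · exfalso
        apply h
        unfold A4b_S
        rw [Set.mem_ofPred_eq, Set.mem_ofPred_eq, h0, h4]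
        rfl
    · exfalso
      apply h
      have h2 : FreeGroup.IsReduced (L' ++ [r] ++ [(a, c)]) := by
        unfold FreeGroup.IsReduced at hr ⊢
        rw [List.isChain_append]
        refine ⟨hr, List.isChain_singleton _, ?_⟩
        intro y hy z hz h5
        simp only [List.getLast?_append, List.getLast?_singleton, Option.some_or, Option.mem_def,
          Option.some.injEq, List.head?_cons] at hy hz
        subst hy hz
        by_contra h6
        apply hra
        refine Prod.ext h5 ?_
        have h7 : ∀ u v : Bool, ¬ u = v → u = !v := by decide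
        exact h7 _ _ h6
      have h4 : (x * FreeGroup.mk [(a, c)]).toWord = L' ++ [r] ++ [(a, c)] := by
        rw [hx, FreeGroup.mul_mk, FreeGroup.toWord_mk, h2.reduce_eq]
      unfold A4b_S
      rw [Set.mem_ofPred_eq, Set.mem_ofPred_eq, h0, h4]
      rcases L' with _ | ⟨s, L'⟩ <;> rfl

theorem A4b_fin (p : α × Bool) (w : FreeGroup α) :
    {x : FreeGroup α | ¬ (x ∈ A4b_S p ↔ x * w ∈ A4b_S p)}.Finite := by
  have hl : ∀ (a : α) (c : Bool),
      {x : FreeGroup α | ¬ (x ∈ A4b_S p ↔ x * FreeGroup.mk [(a, c)] ∈ A4b_S p)}.Finite :=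
    fun a c => (Set.toFinite {1, FreeGroup.mk [(a, !c)]}).subset fun x hx =>
      (A4b_head p x a c hx).2
  induction w using FreeGroup.induction_on with
  | C1 => simp
  | of a => exact hl a true
  | inv_of a _ => exact hl a false
  | mul w w' h h' =>
    have h1 : ((fun x : FreeGroup α => x * w) ⁻¹'
        {x : FreeGroup α | ¬ (x ∈ A4b_S p ↔ x * w' ∈ A4b_S p)}).Finite :=
      h'.preimage (mul_left_injective w).injOn
    refine (h.union h1).subset fun x hx => ?_
    by_contra h2
    rw [Set.mem_union, not_or] at h2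
    obtain ⟨h3, h4⟩ := h2
    rw [Set.mem_ofPred_eq, not_not] at h3
    rw [Set.mem_preimage, Set.mem_ofPred_eq, not_not] at h4
    exact hx (h3.trans (by rw [h4, mul_assoc]))

end free

/-- If `V` is free on a finite family `b : Fin (n+1) → V` and `U` is generated by the first `n` elements, there is a nontrivial almost
invariant set for which `U` is elliptic. -/
theorem exists_nontrivial_ell (n : ℕ) (b : FreeGroupBasis (Fin (n + 1)) V) :
    ∃ E, AI V E ∧ E.Infinite ∧ ((V : Set G) \ E).Infinite ∧
      Ell (Subgroup.closure (Set.range fun i : Fin n => ((b i.castSucc : V) : G))) E := by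
  classical
  let p : Fin (n + 1) × Bool := (Fin.last n, true)
  let E : Set G := {g | ∃ h : g ∈ V, b.repr ⟨g, h⟩ ∈ A4b_S p}
  have hmem : ∀ v : V, (v : G) ∈ E ↔ b.repr v ∈ A4b_S p := fun v =>
    ⟨fun ⟨_, h⟩ => h, fun h => ⟨v.2, h⟩⟩
  have hEV : E ⊆ (V : Set G) := fun g hg => hg.1
  have hdiff : ∀ (g x : G), g ∈ V → ¬ (x ∈ E ↔ x * g ∈ E) → x ∈ V := by
    intro g x hg hx
    by_contra h
    apply hx
    exact ⟨fun h' => absurd (hEV h') h, fun h' => absurd ((Subgroup.mul_mem_cancel_right V hg).mp (hEV h')) h⟩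
  have hpow : ∀ k : ℕ, b.repr ((b (Fin.last n)) ^ k) = FreeGroup.of (Fin.last n) ^ k := fun k => by
    rw [map_pow, FreeGroupBasis.repr_apply_coe]
  have hinj : Function.Injective fun k : ℕ => (((b (Fin.last n)) ^ k : V) : G) := by
    intro k l hkl
    have h1 : (b (Fin.last n)) ^ k = (b (Fin.last n)) ^ l := Subtype.ext hkl
    have h2 := congrArg (fun v => (b.repr v).norm) h1
    simp only [hpow, FreeGroup.norm_of_pow] at h2
    exact h2
  refine ⟨E, ⟨hEV, fun g hg => ?_⟩, ?_, ?_, ?_⟩
  · have h1 := A4b_fin p (b.repr ⟨g, hg⟩)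
    have h2 := h1.image (fun w => ((b.repr.symm w : V) : G))
    refine h2.subset fun x hx => ?_
    have hxV := hdiff g x hg hx
    refine ⟨b.repr ⟨x, hxV⟩, ?_, congrArg Subtype.val (b.repr.symm_apply_apply ⟨x, hxV⟩)⟩
    rw [Set.mem_ofPred_eq, ← map_mul]
    have h3 := hmem ⟨x, hxV⟩
    have h4 := hmem (⟨x, hxV⟩ * ⟨g, hg⟩)
    rw [← h3, ← h4]
    exact hx
  · refine Set.infinite_of_injective_forall_mem (f := fun k : ℕ => (((b (Fin.last n)) ^ (k + 1) : V) : G))
      (fun k l hkl => Nat.succ_injective (hinj hkl)) fun k => ?_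
    rw [hmem, hpow]
    unfold A4b_S
    rw [Set.mem_ofPred_eq, FreeGroup.toWord_of_pow, List.replicate_succ]
    rfl
  · refine Set.infinite_of_injective_forall_mem (f := fun k : ℕ => ((((b (Fin.last n)) ^ k)⁻¹ : V) : G))
      (fun k l hkl => hinj (by
        have h1 : ((((b (Fin.last n)) ^ k : V) : G))⁻¹ = ((((b (Fin.last n)) ^ l : V) : G))⁻¹ := hkl
        exact inv_injective h1)) fun k => ⟨(((b (Fin.last n)) ^ k)⁻¹ : V).2, fun h => ?_⟩
    rw [hmem, map_inv, hpow] at h
    unfold A4b_S at h
    rw [Set.mem_ofPred_eq, FreeGroup.toWord_inv, FreeGroup.toWord_of_pow, FreeGroup.invRev,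
      List.map_replicate, List.reverse_replicate] at h
    rcases k with _ | k
    · simp at h
    · rw [List.replicate_succ] at h
      simp [p] at h
  · have hinv : ∀ g ∈ Subgroup.closure (Set.range fun i : Fin n => ((b i.castSucc : V) : G)),
        ∀ x, x ∈ E ↔ x * g ∈ E := by
      intro g hg
      induction hg using Subgroup.closure_induction with
      | mem g hg =>
        obtain ⟨i, rfl⟩ := hg
        intro x
        by_contra h
        have hxV := hdiff _ x (b i.castSucc).2 h
        have h3 := hmem ⟨x, hxV⟩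
        have h4 := hmem (⟨x, hxV⟩ * b i.castSucc)
        have h5 : ¬ (b.repr ⟨x, hxV⟩ ∈ A4b_S p ↔
            b.repr ⟨x, hxV⟩ * FreeGroup.mk [(i.castSucc, true)] ∈ A4b_S p) := by
          rw [map_mul, FreeGroupBasis.repr_apply_coe] at h4
          have h6 : FreeGroup.of i.castSucc = FreeGroup.mk [(i.castSucc, true)] := rfl
          rw [h6] at h4
          rw [← h3, ← h4]
          exact h
        have h6 := (A4b_head p _ _ _ h5).1
        exact absurd h6 (Fin.castSucc_lt_last i).ne
      | one => intro x; rw [mul_one]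
      | mul g g' _ _ h h' => intro x; rw [h x, h' (x * g), mul_assoc]
      | inv g _ h => intro x; rw [h (x * g⁻¹), inv_mul_cancel_right]
    intro x hs
    obtain ⟨u, hu, hu'⟩ := hs.1.nonempty
    obtain ⟨v, hv, hv'⟩ := hs.2.nonempty
    exact hv' ((hinv v hv x).mp ((hinv u hu x).mpr hu'))

end WQ
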