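import Pool.Agent.Lib.MP_0c5642_al.W.Defs

/-! ROW w-B0: the subgroups `VI a t i j`. -/

set_option autoImplicit false

namespace WQ

open scoped Pointwise

variable {G : Type*} [Group G] (a t : G)

theorem aa_conj (i k : ℤ) : t ^ k * aa a t i * (t ^ k)⁻¹ = aa a t (i + k) := by
  unfold aa
  rw [add_comm i k, zpow_add, mul_inv_rev]
  simp only [mul_assoc]

theorem aa_inv (i : ℤ) : aa a t⁻¹ i = aa a t (-i) := by
  unfold aa
  rw [inv_zpow']

theorem aa_mem_VI {i j k : ℤ} (h1 : i ≤ k) (h2 : k < j) : aa a t k ∈ VI a t i j :=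
  Subgroup.subset_closure ⟨k, ⟨h1, h2⟩, rfl⟩

theorem VI_mono {i j i' j' : ℤ} (h1 : i' ≤ i) (h2 : j ≤ j') : VI a t i j ≤ VI a t i' j' :=
  Subgroup.closure_mono (Set.image_mono (Set.Ico_subset_Ico h1 h2))

theorem VI_conj (i j k : ℤ) :
    (VI a t i j).map (MulAut.conj (t ^ k)).toMonoidHom = VI a t (i + k) (j + k) := by
  unfold VI
  rw [MonoidHom.map_closure]
  congr 1
  ext x
  constructor
  · rintro ⟨y, ⟨n, hn, rfl⟩, rfl⟩
    refine ⟨n + k, ⟨by have := hn.1; omega, by have := hn.2; omega⟩, ?_⟩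
    exact (aa_conj a t n k).symm
  · rintro ⟨n, hn, rfl⟩
    refine ⟨aa a t (n - k), ⟨n - k, ⟨by have := hn.1; omega, by have := hn.2; omega⟩, rfl⟩, ?_⟩
    have h := aa_conj a t (n - k) k
    rw [sub_add_cancel] at h
    exact h

theorem VI_sup {i j i' j' : ℤ} (h1 : i ≤ i') (h2 : i' ≤ j) (h3 : j ≤ j') :
    VI a t i j ⊔ VI a t i' j' = VI a t i j' := by
  unfold VI
  rw [← Subgroup.closure_union, ← Set.image_union]
  congr 2
  ext n
  simp only [Set.mem_union, Set.mem_Ico]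
  omega

theorem VI_succ {i j : ℤ} (h : i ≤ j) : VI a t i (j + 1) = VI a t i j ⊔ Subgroup.zpowers (aa a t j) := by
  unfold VI
  rw [Subgroup.zpowers_eq_closure, ← Subgroup.closure_union, ← Set.image_singleton,
    ← Set.image_union]
  congr 2
  ext n
  simp only [Set.mem_union, Set.mem_Ico, Set.mem_singleton_iff]
  omega

theorem VI_fg (i j : ℤ) : (VI a t i j).FG :=
  (Subgroup.fg_iff _).2 ⟨_, rfl, (Set.finite_Ico i j).image _⟩

theorem VI_inv (i j : ℤ) : VI a t⁻¹ i j = VI a t (1 - j) (1 - i) := by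
  unfold VI
  congr 1
  ext x
  constructor
  · rintro ⟨n, hn, rfl⟩
    refine ⟨-n, ⟨by have := hn.2; omega, by have := hn.1; omega⟩, ?_⟩
    exact (aa_inv a t n).symm
  · rintro ⟨n, hn, rfl⟩
    refine ⟨-n, ⟨by have := hn.2; omega, by have := hn.1; omega⟩, ?_⟩
    rw [aa_inv, neg_neg]

theorem VI_iSup (N : ℕ) : (⨆ l : ℕ, VI a t 0 (N + l)) = Subgroup.closure (aa a t '' Set.Ici 0) := by
  apply le_antisymm
  · exact iSup_le fun l => Subgroup.closure_mono (Set.image_mono fun n hn => hn.1)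
  · rw [Subgroup.closure_le]
    rintro x ⟨n, hn, rfl⟩
    have hn' : (0 : ℤ) ≤ n := hn
    have h1 : aa a t n ∈ VI a t 0 (N + ((n.toNat + 1 : ℕ) : ℤ)) :=
      aa_mem_VI a t hn' (by omega)
    exact Subgroup.mem_iSup_of_mem (n.toNat + 1) h1

end WQ
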