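import Pool.Agent.Lib.MP_0c5642_al.W.B0

/-! ROW w-B1a: invariance along a closed path. -/

set_option autoImplicit false

namespace WQ

open scoped Pointwise

variable {G : Type*} [Group G]

/-- the indicator function -/
private noncomputable def B1a_ind (E : Set G) (x : G) : ℚ := by
  classical exact if x ∈ E then 1 else 0

private theorem B1a_ind_iff {E : Set G} {x y : G} (h : x ∈ E ↔ y ∈ E) :
    B1a_ind E x = B1a_ind E y := by
  classical
  unfold B1a_ind
  by_cases hx : x ∈ E
  · rw [if_pos hx, if_pos (h.1 hx)]
  · rw [if_neg hx, if_neg (fun hy => hx (h.2 hy))]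

private theorem B1a_iff_ind {E : Set G} {x y : G} (h : B1a_ind E x = B1a_ind E y) :
    x ∈ E ↔ y ∈ E := by
  classical
  unfold B1a_ind at h
  by_cases hx : x ∈ E <;> by_cases hy : y ∈ E
  · exact ⟨fun _ => hy, fun _ => hx⟩
  · rw [if_pos hx, if_neg hy] at h; exact absurd h one_ne_zero
  · rw [if_neg hx, if_pos hy] at h; exact absurd h.symm one_ne_zero
  · exact ⟨fun h => absurd h hx, fun h => absurd h hy⟩

/-- the vertex of a position -/
private def B1a_k (l : ℕ → ℤ × Bool) (n i : ℕ) : ℕ :=
  if (l i).2 = true then i else if i + 1 < n then i + 1 else 0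

/-- the coefficient of a position -/
private def B1a_e (p : ℤ) (l : ℕ → ℤ × Bool) (i : ℕ) : ℚ :=
  if (l i).1 = p then (if (l i).2 = true then 1 else -1) else 0

/-- ROW w-B1a. A closed path `L` in the Cayley graph whose vertices are distinct except for start = end, which is reduced and cyclically reduced
(so no letter is followed cyclically by its inverse), and which uses the letter `p`. If `E` is right invariant under all other letters of
`L` and almost invariant under `g p`, it is invariant under `g p`.
Proof: let `Δ ∈ ℚ[G]` be `Δ(x) = [x g_p ∈ E] - [x ∈ E]` (finite support) and `u = Σ_{+} [p_i⁻¹] - Σ_{-} [p_(i+1)⁻¹]` over the positions `i` of the letters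
`(p,true)`, `(p,false)`, where `p_i` is the product of the first `i` letters. Telescoping `[x * L.prod ∈ E] - [x ∈ E] = 0` along the path gives
`Δ * u = 0`; `u ≠ 0` because the vertices are distinct. So `Δ = 0`. -/
theorem B1a (hdom : NoZeroDivisors (MonoidAlgebra ℚ G)) (g : ℤ → G) (L : List (ℤ × Bool))
    (val : ℤ × Bool → G) (hval : ∀ x, val x = if x.2 then g x.1 else (g x.1)⁻¹)
    (hprod : (L.map val).prod = 1)
    (hdist : ∀ i j, i < j → j < L.length → ((L.take i).map val).prod ≠ ((L.take j).map val).prod)
    (hred : FreeGroup.IsReduced L)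
    (hcyc : ∀ x y, L.head? = some x → L.getLast? = some y → ¬ (x.1 = y.1 ∧ x.2 ≠ y.2))
    (p : ℤ) (hp : ∃ b, (p, b) ∈ L) (E : Set G)
    (hE : ∀ i b, (i, b) ∈ L → i ≠ p → Inv E (g i))
    (hfin : {x | ¬ (x ∈ E ↔ x * g p ∈ E)}.Finite) : Inv E (g p) := by
  classical
  set n := L.length with hn
  set l : ℕ → ℤ × Bool := fun i => L.getD i (0, true) with hl
  set P : ℕ → G := fun i => ((L.take i).map val).prod with hP
  have hlget : ∀ i (h : i < n), l i = L[i] := fun i h => by
    simp only [hl]
    rw [List.getD_eq_getElem _ _ h]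
  have hlmem : ∀ i, i < n → l i ∈ L := fun i h => by
    rw [hlget i h]; exact List.getElem_mem h
  have hP0 : P 0 = 1 := by simp [hP]
  have hPn : P n = 1 := by
    simp only [hP, hn, List.take_length]
    exact hprod
  have hPs : ∀ i, i < n → P (i + 1) = P i * val (l i) := by
    intro i h
    simp only [hP]
    rw [List.take_succ_eq_append_getElem h, List.map_append, List.prod_append, hlget i h,
      List.map_cons, List.map_nil, List.prod_cons, List.prod_nil, mul_one]
  -- the finitely supported function
  have hsupp : (Function.support fun x => B1a_ind E (x * g p) - B1a_ind E x).Finite := by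
    refine hfin.subset fun x hx => ?_
    intro hiff
    exact hx (sub_eq_zero.2 (B1a_ind_iff hiff).symm)
  set D : MonoidAlgebra ℚ G := MonoidAlgebra.ofCoeff
    (Finsupp.ofSupportFinite (fun x => B1a_ind E (x * g p) - B1a_ind E x) hsupp) with hD
  have hDc : ∀ x, D.coeff x = B1a_ind E (x * g p) - B1a_ind E x := fun x => rfl
  set u : MonoidAlgebra ℚ G := ∑ i ∈ Finset.range n,
    MonoidAlgebra.single (P (B1a_k l n i))⁻¹ (B1a_e p l i) with hu
  -- the telescoping identity
  have hterm : ∀ x i, i < n → D.coeff (x * P (B1a_k l n i)) * B1a_e p l i =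
      B1a_ind E (x * P (i + 1)) - B1a_ind E (x * P i) := by
    intro x i hi
    rw [hDc]
    by_cases h1 : (l i).1 = p
    · by_cases h2 : (l i).2 = true
      · rw [B1a_k, B1a_e, if_pos h2, if_pos h1, if_pos h2, mul_one, hPs i hi, hval, if_pos h2, h1,
          mul_assoc]
      · have hk : P (B1a_k l n i) = P (i + 1) := by
          rw [B1a_k, if_neg h2]
          split_ifs with h3
          · rfl
          · rw [show i + 1 = n by omega, hPn, hP0]
        have hPi : P (i + 1) * g p = P i := by
          rw [hPs i hi, hval, if_neg h2, h1, inv_mul_cancel_right]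
        rw [hk, B1a_e, if_pos h1, if_neg h2, mul_assoc, hPi]
        ring
    · rw [B1a_e, if_neg h1, mul_zero, eq_comm, sub_eq_zero]
      have hinv := hE (l i).1 (l i).2 (hlmem i hi) h1
      apply B1a_ind_iff
      rw [hPs i hi, hval]
      by_cases h2 : (l i).2 = true
      · rw [if_pos h2, ← mul_assoc]
        exact (hinv _).symm
      · rw [if_neg h2]
        have h3 := hinv (x * (P i * (g (l i).1)⁻¹))
        rw [mul_assoc, mul_assoc, inv_mul_cancel, mul_one] at h3
        exact h3
  have hzero : D * u = 0 := by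
    apply MonoidAlgebra.ext
    apply Finsupp.ext
    intro x
    rw [hu, Finset.mul_sum]
    have h1 : (∑ i ∈ Finset.range n, D * MonoidAlgebra.single (P (B1a_k l n i))⁻¹ (B1a_e p l i)).coeff x =
        ∑ i ∈ Finset.range n, (D * MonoidAlgebra.single (P (B1a_k l n i))⁻¹ (B1a_e p l i)).coeff x := by
      rw [MonoidAlgebra.coeff_sum, Finsupp.finsetSum_apply]
    rw [h1]
    have h2 : ∀ i ∈ Finset.range n,
        (D * MonoidAlgebra.single (P (B1a_k l n i))⁻¹ (B1a_e p l i)).coeff x =
          B1a_ind E (x * P (i + 1)) - B1a_ind E (x * P i) := by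
      intro i hi
      rw [MonoidAlgebra.coeff_mul_single_apply, inv_inv]
      exact hterm x i (Finset.mem_range.1 hi)
    rw [Finset.sum_congr rfl h2, Finset.sum_range_sub (fun i => B1a_ind E (x * P i)), hPn, hP0,
      sub_self]
    rfl
  rcases hdom.eq_zero_or_eq_zero_of_mul_eq_zero hzero with h0 | h0
  · intro x
    have h1 := hDc x
    rw [h0] at h1
    have h2 : B1a_ind E (x * g p) - B1a_ind E x = 0 := h1.symm
    exact B1a_iff_ind (sub_eq_zero.1 h2).symm
  · exfalso
    have hn0 : 0 < n := by
      obtain ⟨b, hb⟩ := hp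
      exact List.length_pos_of_mem hb
    -- opposite letters
    have hmix : ∀ i j, i < n → j < n → (l i).1 = p → (l j).1 = p → (l i).2 = true →
        ¬ (l j).2 = true → B1a_k l n i ≠ B1a_k l n j := by
      intro i j hi hj hi1 hj1 hi2 hj2
      rw [B1a_k, B1a_k, if_pos hi2, if_neg hj2]
      split_ifs with h3
      · rintro rfl
        have h4 := (List.isChain_iff_getElem.1 hred) j h3
        rw [← hlget j hj, ← hlget (j + 1) hi] at h4
        exact hj2 ((h4 (hj1.trans hi1.symm)).trans hi2)
      · rintro rfl
        have hj' : j = n - 1 := by omega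
        refine hcyc (l 0) (l j) ?_ ?_ ⟨hi1.trans hj1.symm, fun h5 => hj2 (h5 ▸ hi2)⟩
        · rw [List.head?_eq_getElem?, List.getElem?_eq_getElem hi, hlget 0 hi]
        · rw [List.getLast?_eq_getElem?, ← hn, ← hj', List.getElem?_eq_getElem hj, hlget j hj]
    have hkinj : ∀ i j, i < n → j < n → i ≠ j → (l i).1 = p → (l j).1 = p →
        B1a_k l n i ≠ B1a_k l n j := by
      intro i j hi hj hij hi1 hj1
      by_cases hi2 : (l i).2 = true <;> by_cases hj2 : (l j).2 = true
      · rw [B1a_k, B1a_k, if_pos hi2, if_pos hj2]; exact hij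
      · exact hmix i j hi hj hi1 hj1 hi2 hj2
      · exact (hmix j i hj hi hj1 hi1 hj2 hi2).symm
      · rw [B1a_k, B1a_k, if_neg hi2, if_neg hj2]
        split_ifs <;> omega
    have hklt : ∀ i, i < n → B1a_k l n i < n := by
      intro i hi
      rw [B1a_k]
      split_ifs <;> omega
    have hPinj : ∀ i j, i < n → j < n → i ≠ j → P i ≠ P j := by
      intro i j hi hj hij
      rcases Nat.lt_or_gt_of_ne hij with h | h
      · exact hdist i j h hj
      · exact (hdist j i h hi).symm
    obtain ⟨b, hb⟩ := hp
    obtain ⟨i0, hi0, hi0b⟩ := List.getElem_of_mem hb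
    have hi01 : (l i0).1 = p := by rw [hlget i0 hi0, hi0b]
    have hc : u.coeff (P (B1a_k l n i0))⁻¹ = B1a_e p l i0 := by
      rw [hu, MonoidAlgebra.coeff_sum, Finsupp.finsetSum_apply, Finset.sum_eq_single i0]
      · rw [MonoidAlgebra.coeff_single, Finsupp.single_eq_same]
      · intro i hi hne
        have hi' := Finset.mem_range.1 hi
        rw [MonoidAlgebra.coeff_single]
        by_cases h1 : (l i).1 = p
        · apply Finsupp.single_eq_of_ne
          intro h2
          exact hPinj _ _ (hklt i hi') (hklt i0 hi0) (hkinj i i0 hi' hi0 hne h1 hi01)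
            (inv_injective h2).symm
        · rw [B1a_e, if_neg h1, Finsupp.single_zero]
          rfl
      · intro h
        exact absurd (Finset.mem_range.2 hi0) h
    rw [h0] at hc
    have h1 : B1a_e p l i0 = 0 := hc.symm
    rw [B1a_e, if_pos hi01] at h1
    split_ifs at h1
    · exact one_ne_zero h1
    · exact one_ne_zero (neg_eq_zero.1 h1)

end WQ
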