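import Pool.Agent.Lib.MP_0c5642_al.W.B1a

/-! ROW w-B1b: a shortest relation. -/

set_option autoImplicit false

namespace WQ

open scoped Pointwise

variable {G : Type*} [Group G]

/-- the value of a letter -/
def B1b_val (a t : G) (x : ℤ × Bool) : G := if x.2 then aa a t x.1 else (aa a t x.1)⁻¹

/-- a nonempty reduced relation in the letters `0..N` -/
structure B1b_Rel (a t : G) (N : ℕ) (L : List (ℤ × Bool)) : Prop where
  ne : L ≠ []
  red : FreeGroup.IsReduced L
  mem : ∀ x ∈ L, x.1 ∈ Set.Icc (0 : ℤ) N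
  prod : (L.map (B1b_val a t)).prod = 1

theorem B1b_letters (S : Set ℤ) (w : FreeGroup ℤ)
    (hw : w ∈ Subgroup.closure (FreeGroup.of '' S)) : ∀ x ∈ w.toWord, x.1 ∈ S := by
  induction hw using Subgroup.closure_induction with
  | mem x hx =>
    obtain ⟨s, hs, rfl⟩ := hx
    intro y hy
    rw [FreeGroup.toWord_of, List.mem_singleton] at hy
    rw [hy]
    exact hs
  | one => simp
  | mul x y _ _ hx hy =>
    intro z hz
    have h1 := (FreeGroup.toWord_mul_sublist x y).subset hz
    rcases List.mem_append.1 h1 with h | h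
    · exact hx z h
    · exact hy z h
  | inv x _ hx =>
    intro z hz
    rw [FreeGroup.toWord_inv] at hz
    unfold FreeGroup.invRev at hz
    rw [List.mem_reverse, List.mem_map] at hz
    obtain ⟨y, hy, rfl⟩ := hz
    exact hx y hy

theorem B1b_exists (a t : G) (N : ℕ) (w : FreeGroup ℤ) (hw : w ≠ 1)
    (hwN : w ∈ Subgroup.closure (FreeGroup.of '' Set.Icc (0 : ℤ) N))
    (hrel : FreeGroup.lift (aa a t) w = 1) : B1b_Rel a t N w.toWord := by
  refine ⟨?_, FreeGroup.isReduced_toWord, B1b_letters _ w hwN, ?_⟩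
  · intro h
    exact hw (FreeGroup.toWord_eq_nil_iff.1 h)
  · have h1 : FreeGroup.lift (aa a t) (FreeGroup.mk w.toWord) = 1 := by
      rw [FreeGroup.mk_toWord]
      exact hrel
    rw [FreeGroup.lift_mk] at h1
    rw [← h1]
    congr 1
    apply List.map_congr_left
    rintro ⟨i, b⟩ _
    cases b <;> simp [B1b_val]

theorem B1b_conj (a t : G) (c : ℤ) (L : List (ℤ × Bool)) :
    (L.map (fun x : ℤ × Bool => if x.2 then aa a t (x.1 + c) else (aa a t (x.1 + c))⁻¹)).prod =
      t ^ c * (L.map (B1b_val a t)).prod * (t ^ c)⁻¹ := by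
  induction L with
  | nil => simp
  | cons x L ih =>
    rw [List.map_cons, List.prod_cons, ih, List.map_cons, List.prod_cons]
    rcases x with ⟨i, b⟩
    cases b
    · simp only [B1b_val, Bool.false_eq_true, if_false]
      rw [← aa_conj]
      group
    · simp only [B1b_val, if_true]
      rw [← aa_conj]
      group

/-- a shortest relation satisfies the conditions of `B1a` -/
theorem B1b_dist (a t : G) (N : ℕ) (L : List (ℤ × Bool)) (hL : B1b_Rel a t N L)
    (hmin : ∀ M, B1b_Rel a t N M → L.length ≤ M.length) (i j : ℕ) (hij : i < j)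
    (hj : j < L.length) :
    ((L.take i).map (B1b_val a t)).prod ≠ ((L.take j).map (B1b_val a t)).prod := by
  intro h
  have h1 : L.take j = L.take i ++ (L.drop i).take (j - i) := by
    have h2 := List.take_add (l := L) (i := i) (j := j - i)
    rwa [Nat.add_sub_cancel' hij.le] at h2
  have h3 : (((L.drop i).take (j - i)).map (B1b_val a t)).prod = 1 := by
    rw [h1, List.map_append, List.prod_append] at h
    exact (left_eq_mul.1 h)
  have hlen : ((L.drop i).take (j - i)).length = j - i := by
    rw [List.length_take, List.length_drop]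
    omega
  have h4 : B1b_Rel a t N ((L.drop i).take (j - i)) := by
    refine ⟨?_, ?_, ?_, h3⟩
    · intro h5
      rw [h5] at hlen
      simp at hlen
      omega
    · exact List.IsChain.take (List.IsChain.drop hL.red i) (j - i)
    · intro x hx
      exact hL.mem x (List.mem_of_mem_drop (List.mem_of_mem_take hx))
  have h5 := hmin _ h4
  omega

theorem B1b_cyc (a t : G) (N : ℕ) (L : List (ℤ × Bool)) (hL : B1b_Rel a t N L)
    (hmin : ∀ M, B1b_Rel a t N M → L.length ≤ M.length) (x y : ℤ × Bool)
    (hx : L.head? = some x) (hy : L.getLast? = some y) : ¬ (x.1 = y.1 ∧ x.2 ≠ y.2) := by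
  rintro ⟨h1, h2⟩
  obtain ⟨L', rfl⟩ : ∃ L', L = x :: L' := by
    cases L with
    | nil => simp at hx
    | cons z L' =>
      simp at hx
      exact ⟨L', by rw [hx]⟩
  rcases List.eq_nil_or_concat L' with rfl | ⟨M, z, rfl⟩
  · simp at hy
    rw [hy] at h2
    exact h2 rfl
  · have hz : z = y := by
      rw [List.concat_eq_append, ← List.cons_append, List.getLast?_concat] at hy
      exact Option.some.inj hy
    subst hz
    rw [List.concat_eq_append] at hL hmin
    have hval : B1b_val a t z = (B1b_val a t x)⁻¹ := by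
      rcases x with ⟨i, b⟩
      rcases z with ⟨k, c⟩
      simp only at h1 h2
      subst h1
      cases b <;> cases c <;> simp [B1b_val] at h2 ⊢
    have hprod := hL.prod
    rw [List.map_cons, List.prod_cons, List.map_append, List.prod_append, List.map_singleton,
      List.prod_singleton, hval] at hprod
    have h3 : (M.map (B1b_val a t)).prod = 1 := by
      have h4 : B1b_val a t x * (M.map (B1b_val a t)).prod * (B1b_val a t x)⁻¹ = 1 := by
        rw [← hprod]
        group
      exact conj_eq_one_iff.1 h4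
    have hM : M ≠ [] := by
      rintro rfl
      have h5 := hL.red
      rw [List.nil_append, FreeGroup.isReduced_cons_cons] at h5
      exact h2 (h5.1 h1)
    have h4 : B1b_Rel a t N M := by
      refine ⟨hM, ?_, ?_, h3⟩
      · exact List.IsChain.left_of_append (List.IsChain.tail hL.red)
      · intro u hu
        exact hL.mem u (by simp [hu])
    have h5 := hmin _ h4
    simp at h5

theorem B1b_core (hdom : NoZeroDivisors (MonoidAlgebra ℚ G)) (a t : G) (N : ℕ)
    (L : List (ℤ × Bool)) (hL : B1b_Rel a t N L)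
    (hmin : ∀ M, B1b_Rel a t N M → L.length ≤ M.length) (p : ℤ) (hp : ∃ b, (p, b) ∈ L) (c : ℤ)
    (E : Set G) (hE : ∀ i b, (i, b) ∈ L → i ≠ p → Inv E (aa a t (i + c)))
    (hfin : {x | ¬ (x ∈ E ↔ x * aa a t (p + c) ∈ E)}.Finite) : Inv E (aa a t (p + c)) := by
  refine B1a hdom (fun i => aa a t (i + c)) L
    (fun x => if x.2 then aa a t (x.1 + c) else (aa a t (x.1 + c))⁻¹) (fun x => rfl) ?_ ?_
    hL.red ?_ p hp E hE hfin
  · rw [B1b_conj, hL.prod]
    group
  · intro i j hij hj h
    rw [B1b_conj, B1b_conj] at h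
    exact B1b_dist a t N L hL hmin i j hij hj (mul_left_cancel (mul_right_cancel h))
  · intro x y hx hy
    exact B1b_cyc a t N L hL hmin x y hx hy

/-- ROW w-B1b. Existence of `m`: take a shortest nonempty reduced word `L` in the letters `0..N` with value `1` (under `FreeGroup.lift (aa a t)`); it satisfies the
conditions of `B1a` (a repetition, or a cyclic cancellation, gives a shorter nonempty reduced relation). Let `p ≤ q` be its smallest and largest letters, `m = q - p`.
Translate the word by `j - q` (first case) or `j - p` (second case), using `aa_conj`, and apply `B1a`. -/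
theorem B1b (hdom : NoZeroDivisors (MonoidAlgebra ℚ G)) (a t : G) (N : ℕ)
    (w : FreeGroup ℤ) (hw : w ≠ 1) (hwN : w ∈ Subgroup.closure (FreeGroup.of '' Set.Icc (0 : ℤ) N))
    (hrel : FreeGroup.lift (aa a t) w = 1) :
    ∃ m : ℕ, m ≤ N ∧ ∀ (E : Set G) (j : ℤ),
      ((∀ i, j - m ≤ i → i < j → Inv E (aa a t i)) → {x | ¬ (x ∈ E ↔ x * aa a t j ∈ E)}.Finite →
        Inv E (aa a t j)) ∧
      ((∀ i, j < i → i ≤ j + m → Inv E (aa a t i)) → {x | ¬ (x ∈ E ↔ x * aa a t j ∈ E)}.Finite →
        Inv E (aa a t j)) := by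
  classical
  have hex : ∃ n : ℕ, ∃ L, B1b_Rel a t N L ∧ L.length = n :=
    ⟨_, _, B1b_exists a t N w hw hwN hrel, rfl⟩
  obtain ⟨L, hL, hlen⟩ := Nat.find_spec hex
  have hmin : ∀ M, B1b_Rel a t N M → L.length ≤ M.length := by
    intro M hM
    rw [hlen]
    exact Nat.find_min' hex ⟨M, hM, rfl⟩
  -- the letters
  let F : Finset ℤ := (L.map Prod.fst).toFinset
  have hF : ∀ i, i ∈ F ↔ ∃ b, (i, b) ∈ L := by
    intro i
    simp [F]
  have hne : F.Nonempty := by
    obtain ⟨x, hx⟩ := List.exists_mem_of_ne_nil L hL.ne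
    exact ⟨x.1, (hF _).2 ⟨x.2, hx⟩⟩
  have hN : ∀ i ∈ F, 0 ≤ i ∧ i ≤ (N : ℤ) := by
    intro i hi
    obtain ⟨b, hb⟩ := (hF i).1 hi
    exact hL.mem _ hb
  set p := F.min' hne with hpdef
  set q := F.max' hne with hqdef
  have hpF : p ∈ F := F.min'_mem hne
  have hqF : q ∈ F := F.max'_mem hne
  have hple : ∀ i ∈ F, p ≤ i := fun i hi => F.min'_le i hi
  have hqle : ∀ i ∈ F, i ≤ q := fun i hi => F.le_max' i hi
  have hpq : p ≤ q := hple q hqF
  have hp0 := hN p hpF
  have hq0 := hN q hqF
  refine ⟨(q - p).toNat, by omega, ?_⟩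
  intro E j
  have hm : (((q - p).toNat : ℕ) : ℤ) = q - p := Int.toNat_of_nonneg (by omega)
  rw [hm]
  constructor
  · intro hE hfin
    have h1 := B1b_core hdom a t N L hL hmin q ((hF q).1 hqF) (j - q) E
    rw [show q + (j - q) = j by ring] at h1
    refine h1 ?_ hfin
    intro i b hib hiq
    have hiF : i ∈ F := (hF i).2 ⟨b, hib⟩
    have h2 := hple i hiF
    have h3 := hqle i hiF
    exact hE _ (by omega) (by omega)
  · intro hE hfin
    have h1 := B1b_core hdom a t N L hL hmin p ((hF p).1 hpF) (j - p) E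
    rw [show p + (j - p) = j by ring] at h1
    refine h1 ?_ hfin
    intro i b hib hip
    have hiF : i ∈ F := (hF i).2 ⟨b, hib⟩
    have h2 := hple i hiF
    have h3 := hqle i hiF
    exact hE _ (by omega) (by omega)

end WQ
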