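import Pool.Agent.Lib.MP_0c5642_al.W.B1b
import Pool.Agent.Lib.MP_0c5642_al.W.A3

/-! ROW w-B2: no free splitting relative to a window. -/

set_option autoImplicit false

namespace WQ

open scoped Pointwise

variable {G : Type*} [Group G]

theorem B2_inv_closure {S : Set G} {E : Set G} (h : ∀ s ∈ S, Inv E s) {g : G}
    (hg : g ∈ Subgroup.closure S) : Inv E g := by
  induction hg using Subgroup.closure_induction with
  | mem s hs => exact h s hs
  | one => intro x; rw [mul_one]
  | mul a b _ _ ha hb =>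
    intro x
    rw [ha x, hb (x * a), mul_assoc]
  | inv a _ ha =>
    intro x
    have := ha (x * a⁻¹)
    rw [inv_mul_cancel_right] at this
    exact this.symm

/-- `make_inv`, then move up and down with `B1b`; a set invariant under all generators of the group is empty or the whole group. -/
theorem NF_window (hdom : NoZeroDivisors (MonoidAlgebra ℚ G)) (a t : G) (N : ℕ) (hN : 1 ≤ N)
    (w : FreeGroup ℤ) (hw : w ≠ 1) (hwN : w ∈ Subgroup.closure (FreeGroup.of '' Set.Icc (0 : ℤ) N))
    (hrel : FreeGroup.lift (aa a t) w = 1) (i : ℤ) (J : Set ℤ) (hJ : J.OrdConnected) (hiJ : Set.Ico i (i + N) ⊆ J) :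
    NF (VI a t i (i + N)) (Subgroup.closure (aa a t '' J)) := by
  intro E hE hell
  have hUV : VI a t i (i + N) ≤ Subgroup.closure (aa a t '' J) :=
    Subgroup.closure_mono (Set.image_mono hiJ)
  obtain ⟨E', hE', hsd, hinv⟩ := make_inv hUV (VI_fg a t i (i + N)) hE hell
  obtain ⟨m, hm, hB⟩ := B1b hdom a t N w hw hwN hrel
  have hU : ∀ j : ℤ, i ≤ j → j < i + N → Inv E' (aa a t j) := fun j h1 h2 =>
    hinv _ (aa_mem_VI a t h1 h2)
  have hfin : ∀ j ∈ J, {x | ¬ (x ∈ E' ↔ x * aa a t j ∈ E')}.Finite := fun j hj =>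
    hE'.2 _ (Subgroup.subset_closure ⟨j, hj, rfl⟩)
  have hi : i ∈ J := hiJ ⟨le_rfl, by omega⟩
  have hi' : i + N - 1 ∈ J := hiJ ⟨by omega, by omega⟩
  have up : ∀ n : ℕ, i + n ∈ J → Inv E' (aa a t (i + n)) := by
    intro n
    induction n using Nat.strong_induction_on with
    | _ n ih =>
      intro hn
      by_cases hlt : n < N
      · exact hU _ (by omega) (by omega)
      · refine (hB E' (i + n)).1 (fun j h1 h2 => ?_) (hfin _ hn)
        obtain ⟨n', hn'⟩ := Int.eq_ofNat_of_zero_le (show 0 ≤ j - i by omega)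
        have hj : j = i + n' := by omega
        rw [hj]
        exact ih n' (by omega) (hJ.out hi hn ⟨by omega, by omega⟩)
  have down : ∀ n : ℕ, i + N - 1 - n ∈ J → Inv E' (aa a t (i + N - 1 - n)) := by
    intro n
    induction n using Nat.strong_induction_on with
    | _ n ih =>
      intro hn
      by_cases hlt : n < N
      · exact hU _ (by omega) (by omega)
      · refine (hB E' (i + N - 1 - n)).2 (fun j h1 h2 => ?_) (hfin _ hn)
        obtain ⟨n', hn'⟩ := Int.eq_ofNat_of_zero_le (show 0 ≤ i + N - 1 - j by omega)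
        have hj : j = i + N - 1 - n' := by omega
        rw [hj]
        exact ih n' (by omega) (hJ.out hn hi' ⟨by omega, by omega⟩)
  have hall : ∀ s ∈ aa a t '' J, Inv E' s := by
    rintro s ⟨j, hj, rfl⟩
    rcases le_total i j with h | h
    · obtain ⟨n, hn⟩ := Int.eq_ofNat_of_zero_le (show 0 ≤ j - i by omega)
      have hj' : j = i + n := by omega
      rw [hj'] at hj ⊢
      exact up n hj
    · obtain ⟨n, hn⟩ := Int.eq_ofNat_of_zero_le (show 0 ≤ i + N - 1 - j by omega)
      have hj' : j = i + N - 1 - n := by omega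
      rw [hj'] at hj ⊢
      exact down n hj
  have hinv' : ∀ g ∈ Subgroup.closure (aa a t '' J), (1 ∈ E' ↔ g ∈ E') := by
    intro g hg
    have := B2_inv_closure hall hg 1
    rwa [one_mul] at this
  by_cases h1 : (1 : G) ∈ E'
  · right
    refine hsd.subset ?_
    rintro x ⟨hx, hxE⟩
    exact Or.inr ⟨(hinv' x hx).1 h1, hxE⟩
  · left
    refine hsd.subset ?_
    intro x hx
    exact Or.inl ⟨hx, fun h => h1 ((hinv' x (hE.1 hx)).2 h)⟩

end WQ
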