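import Mathlib

/-! ROW w-B3a: Hopf property. -/

set_option autoImplicit false

namespace WQ

open scoped Pointwise

open FreeGroup (IsReduced isReduced_toWord)


section rf

variable {α : Type*}

lemma B3a_consec {L : List (α × Bool)} (hL : IsReduced L) {i : ℕ} {a : α} {b b' : Bool}
    (h1 : L[i]? = some (a, b)) (h2 : L[i + 1]? = some (a, b')) : b = b' := by
  have h := List.isChain_iff_getElem.mp hL
  obtain ⟨hi, h1'⟩ := List.getElem?_eq_some_iff.mp h1
  obtain ⟨hi2, h2'⟩ := List.getElem?_eq_some_iff.mp h2
  have h3 := h i (by omega)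
  rw [h1', h2'] at h3
  exact h3 rfl

/-- The injection attached to a reduced word extends to a permutation. -/
lemma B3a_perm {L : List (α × Bool)} (hL : IsReduced L) (a : α) :
    ∃ σ : Equiv.Perm (Fin (L.length + 1)),
      (∀ (i : ℕ) (hi : i < L.length), L[i]? = some (a, true) →
        σ ⟨i + 1, by omega⟩ = ⟨i, by omega⟩) ∧
      (∀ (i : ℕ) (hi : i < L.length), L[i]? = some (a, false) →
        σ ⟨i, by omega⟩ = ⟨i + 1, by omega⟩) := by
  classical
  let s : Finset (Fin (L.length + 1)) := Finset.univ.filter
    (fun j => (1 ≤ (j : ℕ) ∧ L[(j : ℕ) - 1]? = some (a, true)) ∨ L[(j : ℕ)]? = some (a, false))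
  let f : Fin (L.length + 1) → Fin (L.length + 1) := fun j =>
    if 1 ≤ (j : ℕ) ∧ L[(j : ℕ) - 1]? = some (a, true) then ⟨j - 1, by omega⟩
    else ⟨min (j + 1) L.length, by omega⟩
  have hinj : Set.InjOn f s := by
    intro j hj k hk hjk
    simp only [s, Finset.coe_filter, Finset.mem_univ, true_and, Set.mem_ofPred_eq] at hj hk
    have lt_of_some : ∀ i : ℕ, ∀ x, L[i]? = some x → i < L.length := by
      intro i x hx
      exact (List.getElem?_eq_some_iff.mp hx).1
    by_cases h1 : 1 ≤ (j : ℕ) ∧ L[(j : ℕ) - 1]? = some (a, true)
    · by_cases h2 : 1 ≤ (k : ℕ) ∧ L[(k : ℕ) - 1]? = some (a, true)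
      · simp only [f, h1, h2, and_self, if_true] at hjk
        have := congrArg Fin.val hjk
        simp only at this
        apply Fin.ext
        omega
      · have hk' := hk.resolve_left h2
        simp only [f, h1, h2, and_self, if_true, if_false] at hjk
        have := congrArg Fin.val hjk
        simp only at this
        have hlt := lt_of_some _ _ hk'
        exfalso
        have e : (j : ℕ) - 1 = (k : ℕ) + 1 := by omega
        have h3 := h1.2
        rw [e] at h3
        exact absurd (B3a_consec hL hk' h3) (by decide)
    · have hj' := hj.resolve_left h1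
      by_cases h2 : 1 ≤ (k : ℕ) ∧ L[(k : ℕ) - 1]? = some (a, true)
      · simp only [f, h1, h2, and_self, if_true, if_false] at hjk
        have := congrArg Fin.val hjk
        simp only at this
        have hlt := lt_of_some _ _ hj'
        exfalso
        have e : (k : ℕ) - 1 = (j : ℕ) + 1 := by omega
        have h3 := h2.2
        rw [e] at h3
        exact absurd (B3a_consec hL hj' h3) (by decide)
      · have hk' := hk.resolve_left h2
        simp only [f, h1, h2, if_false] at hjk
        have := congrArg Fin.val hjk
        simp only at this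
        have hlt := lt_of_some _ _ hj'
        have hlt' := lt_of_some _ _ hk'
        apply Fin.ext
        omega
  obtain ⟨g, hg⟩ := Finset.exists_equiv_extend_of_card_eq (t := Finset.univ)
    (by simp) (Finset.subset_univ _) hinj
  let σ : Equiv.Perm (Fin (L.length + 1)) := g.trans (Equiv.subtypeUnivEquiv (by simp))
  have hσ : ∀ i ∈ s, σ i = f i := fun i hi => hg i hi
  refine ⟨σ, ?_, ?_⟩
  · intro i hi h
    rw [hσ]
    · simp only [f]
      rw [if_pos ⟨by omega, by simpa using h⟩]
      simp
    · simp only [s, Finset.mem_filter, Finset.mem_univ, true_and]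
      left
      exact ⟨by omega, by simpa using h⟩
  · intro i hi h
    rw [hσ]
    · simp only [f]
      rw [if_neg]
      · simp only [Fin.mk.injEq]
        omega
      · rintro ⟨h1, h2⟩
        have e : i = (i - 1) + 1 := by omega
        rw [e] at h
        exact absurd (B3a_consec hL h2 h) (by decide)
    · simp only [s, Finset.mem_filter, Finset.mem_univ, true_and]
      right
      exact h

/-- Free groups are residually finite. -/
lemma B3a_rep (w : FreeGroup α) (hw : w ≠ 1) :
    ∃ (n : ℕ) (f : FreeGroup α →* Equiv.Perm (Fin n)), f w ≠ 1 := by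
  classical
  set L := w.toWord with hLdef
  have hL : IsReduced L := isReduced_toWord
  choose σ hσ1 hσ2 using B3a_perm hL
  refine ⟨L.length + 1, FreeGroup.lift σ, ?_⟩
  have key : ∀ k : ℕ, ∀ i : ℕ, (hi : i + k = L.length) →
      FreeGroup.lift σ (FreeGroup.mk (L.drop i)) ⟨L.length, by omega⟩ = ⟨i, by omega⟩ := by
    intro k
    induction k with
    | zero =>
      intro i hi
      have : L.drop i = [] := List.drop_eq_nil_of_le (by omega)
      rw [this, ← FreeGroup.one_eq_mk, map_one]
      simp only [Equiv.Perm.coe_one, id_eq, Fin.mk.injEq]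
      omega
    | succ k ih =>
      intro i hi
      have hlt : i < L.length := by omega
      have h1 := ih (i + 1) (by omega)
      rw [List.drop_eq_getElem_cons hlt]
      have h2 : (FreeGroup.mk (L[i] :: L.drop (i + 1)) : FreeGroup α) =
          FreeGroup.mk [L[i]] * FreeGroup.mk (L.drop (i + 1)) := by
        rw [FreeGroup.mul_mk]; rfl
      rw [h2, map_mul, Equiv.Perm.mul_apply, h1]
      rcases hLi : L[i] with ⟨a, b⟩
      have hLi' : L[i]? = some (a, b) := by
        rw [List.getElem?_eq_getElem hlt, hLi]
      rw [FreeGroup.lift_mk]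
      simp only [List.map_cons, List.map_nil, List.prod_cons, List.prod_nil, mul_one]
      cases b with
      | true =>
        simp only [cond_true]
        exact hσ1 a i hlt hLi'
      | false =>
        simp only [cond_false]
        rw [Equiv.Perm.inv_eq_iff_eq]
        exact (hσ2 a i hlt hLi').symm
  intro h
  have h0 := key L.length 0 (by omega)
  have hmk : FreeGroup.mk L = w := FreeGroup.mk_toWord
  rw [List.drop_zero, hmk, h] at h0
  simp only [Equiv.Perm.coe_one, id_eq, Fin.mk.injEq] at h0
  apply hw
  rw [← FreeGroup.toWord_eq_nil_iff]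
  exact List.length_eq_zero_iff.mp h0

/-- Finitely generated free groups are Hopfian. -/
lemma B3a_hopf {ι : Type*} [Finite ι] (g : FreeGroup ι →* FreeGroup ι)
    (hg : Function.Surjective g) : Function.Injective g := by
  rw [injective_iff_map_eq_one]
  intro w hw
  by_contra hne
  obtain ⟨n, f, hf⟩ := B3a_rep w hne
  have hfin : Finite (FreeGroup ι →* Equiv.Perm (Fin n)) :=
    Finite.of_equiv _ (FreeGroup.lift (α := ι) (β := Equiv.Perm (Fin n)))
  have hinj : Function.Injective
      (fun φ : FreeGroup ι →* Equiv.Perm (Fin n) => φ.comp g) := by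
    intro φ ψ h
    ext1 x
    obtain ⟨y, hy⟩ := hg (FreeGroup.of x)
    have := DFunLike.congr_fun h y
    simp only [MonoidHom.comp_apply] at this
    rw [← hy, this]
  obtain ⟨φ, hφ⟩ := (Finite.injective_iff_surjective.mp hinj) f
  apply hf
  have := DFunLike.congr_fun hφ w
  simp only [MonoidHom.comp_apply] at this
  rw [← this, hw, map_one]

end rf

/-- ROW w-B3a. Hopf property: a surjection from the free group of rank `n` onto a free group of rank at least `n` is an isomorphism (free groups of
finite rank are residually finite; see Pool/Agent/Lib/MP_e7c36a_al/Hopf.lean and MP_984cf2_lc/ResFin.lean on main for possible re-use). -/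
theorem hopf_free (n k : ℕ) (hk : n ≤ k) (f : FreeGroup (Fin n) →* FreeGroup (Fin k)) (hf : Function.Surjective f) :
    Function.Injective f := by
  let g : FreeGroup (Fin k) →* FreeGroup (Fin n) :=
    FreeGroup.lift fun i => if h : (i : ℕ) < n then FreeGroup.of ⟨i, h⟩ else 1
  have hg : Function.Surjective g := by
    rw [← MonoidHom.range_eq_top, eq_top_iff, ← FreeGroup.closure_range_of, Subgroup.closure_le]
    rintro _ ⟨i, rfl⟩
    refine ⟨FreeGroup.of (Fin.castLE hk i), ?_⟩
    show FreeGroup.lift _ (FreeGroup.of (Fin.castLE hk i)) = FreeGroup.of i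
    rw [FreeGroup.lift_apply_of]
    exact dif_pos i.2
  have h := B3a_hopf (g.comp f) (hg.comp hf)
  exact Function.Injective.of_comp h

end WQ
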