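import Pool.Agent.Lib.MP_0c5642_al.W.A4b
import Pool.Agent.Lib.MP_0c5642_al.W.B3a

/-! ROW w-B3b: number of generators. -/

set_option autoImplicit false

namespace WQ

open scoped Pointwise

variable {G : Type*} [Group G]

/-- a basis of a subgroup generates it -/
theorem B3b_closure {V : Subgroup G} {ι : Type*} (b : FreeGroupBasis ι V) :
    Subgroup.closure (Set.range fun i => ((b i : V) : G)) = V := by
  rw [← FreeGroup.range_lift_eq_closure]
  have h : FreeGroup.lift (fun i => ((b i : V) : G)) = V.subtype.comp (b.repr.symm : FreeGroup ι →* V) := by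
    ext i
    rw [FreeGroup.lift_apply_of]
    rfl
  rw [h, MonoidHom.range_comp]
  have h2 : (b.repr.symm : FreeGroup ι →* V).range = ⊤ :=
    MonoidHom.range_eq_top.2 b.repr.symm.surjective
  rw [h2, ← MonoidHom.range_eq_map, Subgroup.range_subtype]

/-- projection to finitely many generators -/
theorem B3b_retract {X : Type*} {k : ℕ} (j : Fin k ↪ X) :
    ∃ f : FreeGroup X →* FreeGroup (Fin k), Function.Surjective f := by
  classical
  refine ⟨FreeGroup.lift (Function.extend j FreeGroup.of (fun _ => 1)), ?_⟩
  rw [← MonoidHom.range_eq_top, FreeGroup.range_lift_eq_closure, eq_top_iff,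
    ← FreeGroup.closure_range_of (Fin k)]
  refine Subgroup.closure_mono ?_
  rintro _ ⟨i, rfl⟩
  exact ⟨j i, j.injective.extend_apply _ _ i⟩

/-- ROW w-B3b. If `V'` needed more than `e` generators it would be free on `e` generators of `V` and `x` (`hopf_free`); `exists_nontrivial_ell`
contradicts `NF`. (If `V` is generated by fewer than `e` elements, `V'` is generated by at most `e`.) -/
theorem GenBy.step (V V' : Subgroup G) (x : G) (hV' : V' = V ⊔ Subgroup.zpowers x) (hfree : IsFreeGroup V')
    (hNF : NF V V') (e : ℕ) (h : GenBy e V) : GenBy e V' := by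
  classical
  obtain ⟨S, hS, hSV⟩ := h
  let b0 := IsFreeGroup.basis V'
  by_cases hX : Nonempty (Fin (e + 1) ↪ IsFreeGroup.Generators V')
  · exfalso
    obtain ⟨j⟩ := hX
    obtain ⟨r, hr⟩ := B3b_retract j
    have hxV' : x ∈ V' := by
      rw [hV']
      exact Subgroup.mem_sup_right (Subgroup.mem_zpowers x)
    have hsV' : ∀ s ∈ S, s ∈ V' := by
      intro s hs
      rw [hV']
      refine Subgroup.mem_sup_left ?_
      rw [← hSV]
      exact Subgroup.subset_closure hs
    let g : Fin (S.card + 1) → V' :=
      Fin.snoc (α := fun _ => V') (fun i => ⟨(S.equivFin.symm i : G), hsV' _ (S.equivFin.symm i).2⟩) ⟨x, hxV'⟩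
    have hg1 : ∀ i : Fin S.card, ((g i.castSucc : V') : G) = S.equivFin.symm i := by
      intro i
      simp [g]
    have hg2 : ((g (Fin.last _) : V') : G) = x := by
      simp [g]
    have hcl : Subgroup.closure (Set.range fun i : Fin S.card => ((g i.castSucc : V') : G)) = V := by
      rw [← hSV]
      congr 1
      ext s
      constructor
      · rintro ⟨i, rfl⟩
        simp only [hg1]
        exact (S.equivFin.symm i).2
      · intro hs
        refine ⟨S.equivFin ⟨s, hs⟩, ?_⟩
        simp only [hg1, Equiv.symm_apply_apply]
    have hcl2 : V' ≤ Subgroup.closure (Set.range fun i => ((g i : V') : G)) := by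
      refine hV'.le.trans (sup_le ?_ ?_)
      · rw [← hcl]
        refine Subgroup.closure_mono ?_
        rintro _ ⟨i, rfl⟩
        exact ⟨i.castSucc, rfl⟩
      · rw [Subgroup.zpowers_le]
        exact Subgroup.subset_closure ⟨Fin.last _, hg2⟩
    have hφ : V'.subtype.comp (FreeGroup.lift g) = FreeGroup.lift (fun i => ((g i : V') : G)) := by
      ext i
      simp
    have hsurj : Function.Surjective (FreeGroup.lift g) := by
      intro v
      have h1 : (v : G) ∈ (FreeGroup.lift (fun i => ((g i : V') : G))).range := by
        rw [FreeGroup.range_lift_eq_closure]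
        exact hcl2 v.2
      obtain ⟨w, hw⟩ := h1
      refine ⟨w, ?_⟩
      rw [← hφ] at hw
      exact Subtype.ext hw
    have hinj : Function.Injective (FreeGroup.lift g) := by
      have h2 : Function.Surjective ((r.comp (b0.repr : V' →* FreeGroup _)).comp (FreeGroup.lift g)) :=
        (hr.comp b0.repr.surjective).comp hsurj
      have h3 := hopf_free _ _ (Nat.succ_le_succ hS) _ h2
      exact fun a b hab => h3 (congrArg (r.comp (b0.repr : V' →* FreeGroup _)) hab)
    let b : FreeGroupBasis (Fin (S.card + 1)) V' :=
      FreeGroupBasis.ofRepr (MulEquiv.ofBijective (FreeGroup.lift g) ⟨hinj, hsurj⟩).symm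
    have hb : ∀ i, b i = g i := by
      intro i
      change (MulEquiv.ofBijective (FreeGroup.lift g) ⟨hinj, hsurj⟩).symm.symm (FreeGroup.of i) = g i
      rw [MulEquiv.symm_symm, MulEquiv.ofBijective_apply, FreeGroup.lift_apply_of]
    obtain ⟨E, hE1, hE2, hE3, hE4⟩ := exists_nontrivial_ell S.card b
    simp only [hb] at hE4
    rw [hcl] at hE4
    rcases hNF E hE1 hE4 with h5 | h5
    · exact hE2 h5
    · exact hE3 h5
  · have hfin : Finite (IsFreeGroup.Generators V') := by
      by_contra hinf
      rw [not_finite_iff_infinite] at hinf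
      exact hX ⟨(Fin.valEmbedding).trans (Infinite.natEmbedding _)⟩
    have : Fintype (IsFreeGroup.Generators V') := Fintype.ofFinite _
    have hcard : Fintype.card (IsFreeGroup.Generators V') ≤ e := by
      by_contra hc
      push Not at hc
      exact hX (Function.Embedding.nonempty_of_card_le (by simpa using hc))
    refine ⟨Finset.univ.image fun i => ((b0 i : V') : G), Finset.card_image_le.trans hcard, ?_⟩
    rw [Finset.coe_image, Finset.coe_univ, Set.image_univ]
    exact B3b_closure b0

end WQ
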