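import Pool.Agent.Lib.MP_0c5642_al.W.B0

/-! ROW w-C1a: Britton sets for HNN extensions. -/

set_option autoImplicit false

namespace WQ

open scoped Pointwise

open HNNExtension NormalWord in
theorem t_inv_smul_eq_unitsSMul {H : Type*} [Group H] {A B : Subgroup H} (φ : A ≃* B)
    {d : TransversalPair H A B} (w : NormalWord d) :
    (HNNExtension.t⁻¹ : HNNExtension H A B φ) • w = unitsSMul φ (-1) w := by
  have h := t_pow_smul_eq_unitsSMul φ (-1 : ℤˣ) w
  simpa using h

/-- ROW w-C1a. Mathlib's `HNNExtension H A B φ` (relation `t * of a = of (φ a) * t` for `a ∈ A`): `S` = elements which have a reduced word with head in `A` and first letter `t⁻¹`.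
By Britton's lemma (`HNNExtension.ReducedWord.map_fst_eq_and_of_prod_eq`) the first letter and the coset of the head are well defined. -/
theorem bset_hnn (H : Type*) [Group H] (A B : Subgroup H) (φ : A ≃* B) :
    ∃ S : Set (HNNExtension H A B φ), BSet HNNExtension.t (HNNExtension.of (φ := φ)).range
      (A.map HNNExtension.of) (B.map HNNExtension.of) S := by
  open HNNExtension NormalWord in
  obtain ⟨d⟩ := TransversalPair.nonempty H A B
  have hof : ∀ (g : H) (x : HNNExtension H A B φ),
      (HNNExtension.of g * x) • (NormalWord.empty : NormalWord d) =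
        g • (x • (NormalWord.empty : NormalWord d)) := by
    intro g x
    rw [mul_smul, of_smul_eq_smul]
  have ht : ∀ (x : HNNExtension H A B φ),
      (HNNExtension.t⁻¹ * x) • (NormalWord.empty : NormalWord d) =
        unitsSMul φ (-1) (x • (NormalWord.empty : NormalWord d)) := by
    intro x
    rw [mul_smul, t_inv_smul_eq_unitsSMul]
  have hcan : ∀ w : NormalWord d, Cancels 1 (unitsSMul φ (-1) w) ↔ ¬ Cancels (-1) w := by
    intro w
    have h := unitsSMul_cancels_iff φ (-1) w
    rwa [neg_neg] at h
  refine ⟨{x | Cancels 1 (x • (NormalWord.empty : NormalWord d))}, ⟨?_, ?_, ?_, ?_, ?_⟩⟩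
  · rintro _ ⟨a, ha, rfl⟩ x
    simp only [Set.mem_ofPred_eq]
    rw [hof]
    unfold Cancels
    rw [group_smul_head, group_smul_toList, toSubgroup_one,
      Subgroup.mul_mem_cancel_left _ ha]
  · rintro _ ⟨g, rfl⟩ hg x hx hx2
    simp only [Set.mem_ofPred_eq] at hx hx2
    rw [hof] at hx2
    have h1 : (x • (NormalWord.empty : NormalWord d)).head ∈ A := hx.1
    have h2 : g * (x • (NormalWord.empty : NormalWord d)).head ∈ A := hx2.1
    exact hg ⟨g, (Subgroup.mul_mem_cancel_right _ h1).1 h2, rfl⟩
  · rintro _ ⟨g, rfl⟩ x hx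
    simp only [Set.mem_ofPred_eq] at hx ⊢
    rw [ht, hof, hcan]
    intro hc
    have h1 := hx.2
    have h2 := hc.2
    rw [group_smul_toList, h1] at h2
    simp at h2
  · rintro _ ⟨g, rfl⟩ hg x hx
    simp only [Set.mem_ofPred_eq] at hx ⊢
    rw [ht, hcan, not_not] at hx
    rw [ht, hof, hcan]
    intro hc
    have h1 : (x • (NormalWord.empty : NormalWord d)).head ∈ B := hx.1
    have h2 : g * (x • (NormalWord.empty : NormalWord d)).head ∈ B := hc.1
    exact hg ⟨g, (Subgroup.mul_mem_cancel_right _ h1).1 h2, rfl⟩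
  · rintro _ ⟨g, rfl⟩
    simp only [Set.mem_ofPred_eq]
    have h0 : (HNNExtension.of g : HNNExtension H A B φ) • (NormalWord.empty : NormalWord d) =
        g • (NormalWord.empty : NormalWord d) := of_smul_eq_smul φ g _
    constructor
    · rw [h0]
      intro hc
      have h2 := hc.2
      simp at h2
    · rw [ht, h0, hcan]
      intro hc
      have h2 := hc.2
      simp at h2

end WQ
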