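import Pool.Agent.Lib.MP_0c5642_al.W.C1a

/-! ROW w-C1b: Britton sets from the presentation. -/

set_option autoImplicit false

namespace WQ

open scoped Pointwise

/-- conjugation by `t` as an isomorphism of two subgroups of `H` -/
def C1b_phi {G : Type*} [Group G] (t : G) (H E0 E1 : Subgroup G) (h0 : E0 ≤ H) (h1 : E1 ≤ H)
    (hc : ∀ g, g ∈ E0 ↔ t * g * t⁻¹ ∈ E1) : E0.subgroupOf H ≃* E1.subgroupOf H where
  toFun a := ⟨⟨t * a.1.1 * t⁻¹, h1 ((hc _).1 (Subgroup.mem_subgroupOf.1 a.2))⟩,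
    Subgroup.mem_subgroupOf.2 ((hc _).1 (Subgroup.mem_subgroupOf.1 a.2))⟩
  invFun b := ⟨⟨t⁻¹ * b.1.1 * t, h0 ((hc _).2 (by
      have h := Subgroup.mem_subgroupOf.1 b.2
      have e : t * (t⁻¹ * b.1.1 * t) * t⁻¹ = b.1.1 := by group
      rw [e]
      exact h))⟩,
    Subgroup.mem_subgroupOf.2 ((hc _).2 (by
      have h := Subgroup.mem_subgroupOf.1 b.2
      have e : t * (t⁻¹ * b.1.1 * t) * t⁻¹ = b.1.1 := by group
      rw [e]
      exact h))⟩
  left_inv a := by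
    apply Subtype.ext
    apply Subtype.ext
    change t⁻¹ * (t * a.1.1 * t⁻¹) * t = a.1.1
    group
  right_inv b := by
    apply Subtype.ext
    apply Subtype.ext
    change t * (t⁻¹ * b.1.1 * t) * t⁻¹ = b.1.1
    group
  map_mul' a b := by
    apply Subtype.ext
    apply Subtype.ext
    change t * (a.1.1 * b.1.1) * t⁻¹ = (t * a.1.1 * t⁻¹) * (t * b.1.1 * t⁻¹)
    group

theorem C1b_phi_apply {G : Type*} [Group G] (t : G) (H E0 E1 : Subgroup G) (h0 : E0 ≤ H) (h1 : E1 ≤ H)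
    (hc : ∀ g, g ∈ E0 ↔ t * g * t⁻¹ ∈ E1) (a : E0.subgroupOf H) :
    ((C1b_phi t H E0 E1 h0 h1 hc a : H) : G) = t * a.1.1 * t⁻¹ := rfl

theorem C1b_conj {G : Type*} [Group G] (a t : G) (i j : ℤ) (g : G) :
    g ∈ VI a t i j ↔ t * g * t⁻¹ ∈ VI a t (i + 1) (j + 1) := by
  rw [← VI_conj a t i j 1, zpow_one]
  constructor
  · intro h
    exact ⟨g, h, by simp [MulAut.conj_apply]⟩
  · rintro ⟨x, hx, hxg⟩
    have : t * x * t⁻¹ = t * g * t⁻¹ := by simpa [MulAut.conj_apply] using hxg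
    have h2 : x = g := by
      have := mul_right_cancel this
      exact mul_left_cancel this
    rw [← h2]
    exact hx

/-- a homomorphism to the extension -/
theorem C1b_hom {G : Type*} [Group G] (r : FreeGroup (Fin 2)) (π : FreeGroup (Fin 2) →* G)
    (hπ : Function.Surjective π) (hker : π.ker = Subgroup.normalClosure {r}) (N : ℕ)
    (hr : r ∈ VI (FreeGroup.of (0 : Fin 2)) (FreeGroup.of 1) 0 (N + 1))
    (H E0 E1 : Subgroup G) (h0 : E0 ≤ H) (h1 : E1 ≤ H)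
    (hc : ∀ g, g ∈ E0 ↔ π (FreeGroup.of 1) * g * (π (FreeGroup.of 1))⁻¹ ∈ E1)
    (hH : H = VI (π (FreeGroup.of 0)) (π (FreeGroup.of 1)) 0 (N + 1))
    (hE0 : E0 = VI (π (FreeGroup.of 0)) (π (FreeGroup.of 1)) 0 N) :
    ∃ g : G →* HNNExtension H (E0.subgroupOf H) (E1.subgroupOf H) (C1b_phi (π (FreeGroup.of 1)) H E0 E1 h0 h1 hc),
      g (π (FreeGroup.of 1)) = HNNExtension.t ∧ ∀ (x : G) (hx : x ∈ H), g x = HNNExtension.of ⟨x, hx⟩ := by
  have haH : ∀ i : ℕ, i ≤ N → aa (π (FreeGroup.of 0)) (π (FreeGroup.of 1)) i ∈ H := by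
    intro i hi
    rw [hH]
    exact aa_mem_VI _ _ (by omega) (by omega)
  have haE : ∀ i : ℕ, i < N → aa (π (FreeGroup.of 0)) (π (FreeGroup.of 1)) i ∈ E0 := by
    intro i hi
    rw [hE0]
    exact aa_mem_VI _ _ (by omega) (by omega)
  have ha0 : π (FreeGroup.of 0) ∈ H := by
    have := haH 0 (Nat.zero_le _)
    simpa [aa] using this
  obtain ⟨f, hfa, hft⟩ : ∃ f : FreeGroup (Fin 2) →* HNNExtension H (E0.subgroupOf H) (E1.subgroupOf H)
      (C1b_phi (π (FreeGroup.of 1)) H E0 E1 h0 h1 hc), f (FreeGroup.of 0) = HNNExtension.of ⟨_, ha0⟩ ∧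
        f (FreeGroup.of 1) = HNNExtension.t :=
    ⟨FreeGroup.lift ![HNNExtension.of ⟨_, ha0⟩, HNNExtension.t], by simp, by simp⟩
  have hfi : ∀ (i : ℕ) (hi : i ≤ N), f (aa (FreeGroup.of 0) (FreeGroup.of 1) i) = HNNExtension.of ⟨_, haH i hi⟩ := by
    intro i
    induction i with
    | zero =>
      intro hi
      have e1 : aa (FreeGroup.of (0 : Fin 2)) (FreeGroup.of 1) ((0 : ℕ) : ℤ) = FreeGroup.of 0 := by simp [aa]
      rw [e1, hfa]
      congr 1
      apply Subtype.ext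
      simp [aa]
    | succ i ih =>
      intro hi
      have ih1 := ih (by omega)
      have e1 : aa (FreeGroup.of (0 : Fin 2)) (FreeGroup.of 1) ((i + 1 : ℕ) : ℤ) =
          FreeGroup.of 1 * aa (FreeGroup.of 0) (FreeGroup.of 1) (i : ℤ) * (FreeGroup.of 1)⁻¹ := by
        have := aa_conj (FreeGroup.of (0 : Fin 2)) (FreeGroup.of 1) (i : ℤ) 1
        rw [zpow_one] at this
        rw [this]
        push_cast
        rfl
      have hE : (⟨_, haH i (by omega)⟩ : H) ∈ E0.subgroupOf H := Subgroup.mem_subgroupOf.2 (haE i (by omega))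
      have h2 := HNNExtension.equiv_eq_conj (φ := C1b_phi (π (FreeGroup.of 1)) H E0 E1 h0 h1 hc) ⟨_, hE⟩
      rw [e1, map_mul, map_mul, map_inv, hft, ih1, ← h2]
      congr 1
      apply Subtype.ext
      rw [C1b_phi_apply]
      change π (FreeGroup.of 1) * aa (π (FreeGroup.of 0)) (π (FreeGroup.of 1)) (i : ℤ) * (π (FreeGroup.of 1))⁻¹ =
        aa (π (FreeGroup.of 0)) (π (FreeGroup.of 1)) ((i + 1 : ℕ) : ℤ)
      have := aa_conj (π (FreeGroup.of (0 : Fin 2))) (π (FreeGroup.of 1)) (i : ℤ) 1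
      rw [zpow_one] at this
      rw [this]
      push_cast
      rfl
  have hπa : ∀ i : ℤ, π (aa (FreeGroup.of 0) (FreeGroup.of 1) i) = aa (π (FreeGroup.of 0)) (π (FreeGroup.of 1)) i := by
    intro i
    simp [aa, map_mul, map_zpow, map_inv]
  have key : ∀ w ∈ VI (FreeGroup.of (0 : Fin 2)) (FreeGroup.of 1) 0 (N + 1), ∃ hw : π w ∈ H,
      f w = HNNExtension.of ⟨π w, hw⟩ := by
    intro w hw
    refine Subgroup.closure_induction (p := fun w _ => ∃ hw : π w ∈ H, f w = HNNExtension.of ⟨π w, hw⟩)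
      ?_ ?_ ?_ ?_ hw
    · rintro _ ⟨i, hi, rfl⟩
      obtain ⟨n, rfl⟩ : ∃ n : ℕ, i = n := ⟨i.toNat, by have := hi.1; omega⟩
      have hn : n ≤ N := by
        have := hi.2
        omega
      refine ⟨by rw [hπa]; exact haH n hn, ?_⟩
      rw [hfi n hn]
      congr 1
      apply Subtype.ext
      exact (hπa n).symm
    · refine ⟨by rw [map_one]; exact H.one_mem, ?_⟩
      rw [map_one]
      have e : (⟨π 1, by rw [map_one]; exact H.one_mem⟩ : H) = 1 := Subtype.ext (map_one π)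
      rw [e, map_one]
    · rintro x y _ _ ⟨hx, hx2⟩ ⟨hy, hy2⟩
      refine ⟨by rw [map_mul]; exact H.mul_mem hx hy, ?_⟩
      rw [map_mul, hx2, hy2, ← map_mul]
      congr 1
      apply Subtype.ext
      exact (map_mul π x y).symm
    · rintro x _ ⟨hx, hx2⟩
      refine ⟨by rw [map_inv]; exact H.inv_mem hx, ?_⟩
      rw [map_inv, hx2, ← map_inv]
      congr 1
      apply Subtype.ext
      exact (map_inv π x).symm
  have hfr : f r = 1 := by
    obtain ⟨h, h2⟩ := key r hr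
    have hr1 : π r = 1 := by
      rw [← MonoidHom.mem_ker, hker]
      exact Subgroup.subset_normalClosure rfl
    rw [h2]
    have e : (⟨π r, h⟩ : H) = 1 := Subtype.ext hr1
    rw [e, map_one]
  have hle : π.ker ≤ f.ker := by
    rw [hker]
    apply Subgroup.normalClosure_le_normal
    rw [Set.singleton_subset_iff]
    exact hfr
  refine ⟨π.liftOfSurjective hπ ⟨f, hle⟩, ?_, ?_⟩
  · rw [MonoidHom.liftOfRightInverse_comp_apply]
    exact hft
  · intro x hx
    have hx' : ∃ w ∈ VI (FreeGroup.of (0 : Fin 2)) (FreeGroup.of 1) 0 (N + 1), π w = x := by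
      have e : H = (VI (FreeGroup.of (0 : Fin 2)) (FreeGroup.of 1) 0 (N + 1)).map π := by
        rw [hH, VI, VI, MonoidHom.map_closure]
        congr 1
        rw [Set.image_image]
        exact Set.image_congr fun i _ => (hπa i).symm
      rw [e] at hx
      exact hx
    obtain ⟨w, hw, rfl⟩ := hx'
    rw [MonoidHom.liftOfRightInverse_comp_apply]
    obtain ⟨_, h2⟩ := key w hw
    exact h2

/-- ROW w-C1b. The quotient `π` identifies `G` with the HNN extension of `H = ⟨a_0, ..., a_N⟩ ≤ G` (define the map from `G` on the generators by `a ↦ of a`, `t ↦ t`; the relator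
lies in the subgroup generated by the `t^i a t^-i`, `0 ≤ i ≤ N`, of the free group, on which the map is the composition of `π` and `of`; only a homomorphism
`G → HNN` which is injective on `H`, sends `t` to `t` is needed: pull the set `S` of `bset_hnn` back). -/
theorem bset_pres {G : Type*} [Group G] (r : FreeGroup (Fin 2)) (π : FreeGroup (Fin 2) →* G) (hπ : Function.Surjective π)
    (hker : π.ker = Subgroup.normalClosure {r}) (N : ℕ)
    (hr : r ∈ VI (FreeGroup.of (0 : Fin 2)) (FreeGroup.of 1) 0 (N + 1)) :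
    ∃ S, BSet (π (FreeGroup.of 1)) (VI (π (FreeGroup.of 0)) (π (FreeGroup.of 1)) 0 (N + 1))
      (VI (π (FreeGroup.of 0)) (π (FreeGroup.of 1)) 0 N)
      (VI (π (FreeGroup.of 0)) (π (FreeGroup.of 1)) 1 (N + 1)) S := by
  have h0 : VI (π (FreeGroup.of 0)) (π (FreeGroup.of 1)) 0 N ≤ VI (π (FreeGroup.of 0)) (π (FreeGroup.of 1)) 0 (N + 1) :=
    VI_mono _ _ le_rfl (by omega)
  have h1 : VI (π (FreeGroup.of 0)) (π (FreeGroup.of 1)) 1 (N + 1) ≤ VI (π (FreeGroup.of 0)) (π (FreeGroup.of 1)) 0 (N + 1) :=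
    VI_mono _ _ (by omega) le_rfl
  have hc : ∀ g, g ∈ VI (π (FreeGroup.of 0)) (π (FreeGroup.of 1)) 0 N ↔
      π (FreeGroup.of 1) * g * (π (FreeGroup.of 1))⁻¹ ∈ VI (π (FreeGroup.of 0)) (π (FreeGroup.of 1)) 1 (N + 1) := by
    intro g
    have := C1b_conj (π (FreeGroup.of 0)) (π (FreeGroup.of 1)) 0 N g
    rwa [zero_add] at this
  obtain ⟨g, hgt, hgH⟩ := C1b_hom r π hπ hker N hr _ _ _ h0 h1 hc rfl rfl
  obtain ⟨S, hS⟩ := bset_hnn _ _ _ (C1b_phi (π (FreeGroup.of 1)) _ _ _ h0 h1 hc)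
  refine ⟨g ⁻¹' S, ?_⟩
  have hm : ∀ {E : Subgroup G} (hE : E ≤ VI (π (FreeGroup.of 0)) (π (FreeGroup.of 1)) 0 (N + 1)) (x : G)
      (hx : x ∈ VI (π (FreeGroup.of 0)) (π (FreeGroup.of 1)) 0 (N + 1)),
      g x ∈ (E.subgroupOf (VI (π (FreeGroup.of 0)) (π (FreeGroup.of 1)) 0 (N + 1))).map
        (HNNExtension.of (φ := C1b_phi (π (FreeGroup.of 1)) _ _ _ h0 h1 hc)) ↔ x ∈ E := by
    intro E hE x hx
    rw [hgH x hx]
    constructor
    · rintro ⟨y, hy, hyx⟩
      have h2 := HNNExtension.of_injective _ hyx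
      rw [h2] at hy
      exact hy
    · intro h
      exact ⟨⟨x, hx⟩, h, rfl⟩
  have hr' : ∀ x (hx : x ∈ VI (π (FreeGroup.of 0)) (π (FreeGroup.of 1)) 0 (N + 1)),
      g x ∈ (HNNExtension.of (φ := C1b_phi (π (FreeGroup.of 1)) _ _ _ h0 h1 hc)).range := by
    intro x hx
    rw [hgH x hx]
    exact ⟨_, rfl⟩
  refine ⟨?_, ?_, ?_, ?_, ?_⟩
  · intro e he x
    change g x ∈ S ↔ g (e * x) ∈ S
    rw [map_mul]
    exact hS.s1 _ ((hm h0 e (h0 he)).2 he) _
  · intro h hh hh0 x hx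
    change g (h * x) ∉ S
    rw [map_mul]
    exact hS.s2 _ (hr' h hh) (fun h' => hh0 ((hm h0 h hh).1 h')) _ hx
  · intro h hh x hx
    change g _ ∈ S
    rw [map_mul, map_mul, map_inv, hgt]
    exact hS.s3 _ (hr' h hh) _ hx
  · intro h hh hh1 x hx
    change g _ ∈ S
    have hx' : g ((π (FreeGroup.of 1))⁻¹ * x) ∉ S := hx
    rw [map_mul, map_inv, hgt] at hx'
    rw [map_mul, map_mul, map_inv, hgt]
    exact hS.s5 _ (hr' h hh) (fun h' => hh1 ((hm h1 h hh).1 h')) _ hx'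
  · intro h hh
    obtain ⟨h2, h3⟩ := hS.s6 _ (hr' h hh)
    refine ⟨h2, ?_⟩
    change g _ ∈ S
    rw [map_mul, map_inv, hgt]
    exact h3

end WQ
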