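import Pool.Agent.Lib.MP_0c5642_al.W.B0

/-! ROW w-C2a: alternating products; the inverse system. -/

set_option autoImplicit false

namespace WQ

open scoped Pointwise

variable {G : Type*} [Group G]

theorem C2a_mul_C {V : Bool → Subgroup G} {C : Subgroup G} (hC : ∀ b, C ≤ V b) {b c : Bool} {g x : G} (hx : x ∈ C)
    (h : Alt V C b c g) : Alt V C b c (x * g) := by
  cases h with
  | one _ _ hg hg' =>
    exact Alt.one b _ ((V b).mul_mem (hC b hx) hg) fun h => hg' ((Subgroup.mul_mem_cancel_left C hx).1 h)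
  | cons _ _ g h hg hg' hh =>
    rw [← mul_assoc]
    exact Alt.cons b c _ _ ((V b).mul_mem (hC b hx) hg) (fun h => hg' ((Subgroup.mul_mem_cancel_left C hx).1 h)) hh

theorem C2a_mul {V : Bool → Subgroup G} {C : Subgroup G} (hC : ∀ b, C ≤ V b) {b : Bool} {g x : G} (hx : x ∈ V b)
    (h : g ∈ C ∨ ∃ b c, Alt V C b c g) : x * g ∈ C ∨ ∃ b c, Alt V C b c (x * g) := by
  by_cases hxC : x ∈ C
  · rcases h with h | ⟨b', c, h⟩
    · exact Or.inl (C.mul_mem hxC h)
    · exact Or.inr ⟨b', c, C2a_mul_C hC hxC h⟩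
  rcases h with h | ⟨b', c, h⟩
  · exact Or.inr ⟨b, b, Alt.one b _ ((V b).mul_mem hx (hC b h)) fun h' => hxC ((Subgroup.mul_mem_cancel_right C h).1 h')⟩
  by_cases hb : b' = b
  · subst hb
    cases h with
    | one _ _ hg hg' =>
      by_cases hxg : x * g ∈ C
      · exact Or.inl hxg
      · exact Or.inr ⟨b', b', Alt.one b' _ ((V b').mul_mem hx hg) hxg⟩
    | cons _ _ g h hg hg' hh =>
      rw [← mul_assoc]
      by_cases hxg : x * g ∈ C
      · exact Or.inr ⟨!b', c, C2a_mul_C hC hxg hh⟩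
      · exact Or.inr ⟨b', c, Alt.cons b' c _ _ ((V b').mul_mem hx hg) hxg hh⟩
  · have hb' : b' = !b := by
      revert hb
      cases b <;> cases b' <;> simp
    subst hb'
    exact Or.inr ⟨b, c, Alt.cons b c _ _ hx hxC h⟩

/-- ROW w-C2a. Every element of `A ⊔ B` lies in `C`, or is an alternating product (`V false = A`, `V true = B`). -/
theorem mem_sup_alt (V : Bool → Subgroup G) (C : Subgroup G) (hC : ∀ b, C ≤ V b) {g : G} (hg : g ∈ V false ⊔ V true) :
    g ∈ C ∨ ∃ b c, Alt V C b c g := by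
  rw [Subgroup.sup_eq_closure] at hg
  induction hg using Subgroup.closure_induction_left with
  | one => exact Or.inl C.one_mem
  | mul_left x hx y hy ih =>
    rcases hx with hx | hx
    · exact C2a_mul hC hx ih
    · exact C2a_mul hC hx ih
  | inv_mul_cancel x hx y hy ih =>
    rcases hx with hx | hx
    · exact C2a_mul hC ((V false).inv_mem hx) ih
    · exact C2a_mul hC ((V true).inv_mem hx) ih

/-- ROW w-C2c. The inverse system. -/
theorem BSet.inv {t : G} {H E0 E1 : Subgroup G} {S : Set G} (hS : BSet t H E0 E1 S)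
    (h01 : E1 = E0.map (MulAut.conj t).toMonoidHom) :
    BSet t⁻¹ H E1 E0 {x | t⁻¹ * x ∉ S} := by
  have key : ∀ x : G, t⁻¹ * ((t⁻¹)⁻¹ * x) = x := fun x => by group
  refine ⟨fun e he x => ?_, fun h hh hE x hx hx' => hx' (hS.s5 h hh hE x hx), fun h hh x hx => ?_, fun h hh hE x hx => ?_,
    fun h hh => ⟨fun h' => h' (hS.s6 h hh).2, ?_⟩⟩
  · rw [h01] at he
    obtain ⟨e0, he0, rfl⟩ := he
    have h1 : t⁻¹ * ((MulAut.conj t).toMonoidHom e0 * x) = e0 * (t⁻¹ * x) := by
      simp only [MulEquiv.toMonoidHom_eq_coe, MonoidHom.coe_coe, MulAut.conj_apply]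
      group
    change t⁻¹ * x ∉ S ↔ t⁻¹ * ((MulAut.conj t).toMonoidHom e0 * x) ∉ S
    rw [h1]
    exact not_congr (hS.s1 e0 he0 _)
  · change t⁻¹ * ((t⁻¹)⁻¹ * (h * x)) ∉ S
    rw [key]
    intro h'
    apply hx
    have h2 := hS.s3 h⁻¹ (H.inv_mem hh) _ h'
    rwa [inv_mul_cancel_left] at h2
  · change t⁻¹ * ((t⁻¹)⁻¹ * (h * x)) ∉ S
    rw [key]
    have hx' : x ∈ S := by
      by_contra hcon
      apply hx
      change t⁻¹ * ((t⁻¹)⁻¹ * x) ∉ S
      rwa [key]
    exact hS.s2 h hh hE x hx'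
  · change t⁻¹ * ((t⁻¹)⁻¹ * h) ∉ S
    rw [key]
    exact (hS.s6 h hh).1

end WQ
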