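import Pool.Agent.Lib.MP_0c5642_al.W.C2a

/-! ROW w-C2b: ping-pong. -/

set_option autoImplicit false

namespace WQ

open scoped Pointwise

variable {G : Type*} [Group G]

theorem C2b_alt {t : G} {H E0 E1 : Subgroup G} {S : Set G} (hS : BSet t H E0 E1 S)
    (h01 : E1 = E0.map (MulAut.conj t).toMonoidHom) (K : Subgroup G)
    (hK : ∀ v ∈ K, v ∉ E0 → ∀ x ∈ S, v * x ∉ S) {W : Bool → Subgroup G} (hWf : W false = H)
    (hWt : W true = K.map (MulAut.conj t).toMonoidHom) {x : G} (hx : ∀ h ∈ H, t⁻¹ * (h * x) ∈ S)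
    {b c : Bool} {g : G} (hg : Alt W E1 b c g) :
    (b = true → t⁻¹ * (g * x) ∉ S) ∧ (b = false → t⁻¹ * (g * x) ∈ S) := by
  have hw : ∀ w ∈ W true, w ∉ E1 → ∀ y, t⁻¹ * y ∈ S → t⁻¹ * (w * y) ∉ S := by
    intro w hw hw1 y hy
    rw [hWt] at hw
    obtain ⟨v, hv, rfl⟩ := hw
    have hv0 : v ∉ E0 := by
      intro h
      apply hw1
      rw [h01]
      exact ⟨v, h, rfl⟩
    have h1 := hK v hv hv0 _ hy
    have h2 : t⁻¹ * ((MulAut.conj t).toMonoidHom v * y) = v * (t⁻¹ * y) := by
      show t⁻¹ * (t * v * t⁻¹ * y) = v * (t⁻¹ * y)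
      group
    rw [h2]
    exact h1
  induction hg with
  | one b g hb hU =>
    constructor
    · rintro rfl
      refine hw g hb hU x ?_
      have h1 := hx 1 H.one_mem
      rwa [one_mul] at h1
    · rintro rfl
      rw [hWf] at hb
      exact hx g hb
  | cons b c g h hb hU hh ih =>
    rw [mul_assoc]
    constructor
    · rintro rfl
      exact hw g hb hU _ (ih.2 rfl)
    · rintro rfl
      rw [hWf] at hb
      exact hS.s5 g hb hU _ (ih.1 rfl)

/-- ROW w-C2b. Part (A) of section 2: `V 0 = E0`, `V 1 = H`, `V (k+1) = H ⊔ t (V k) t⁻¹`, `E1 = t E0 t⁻¹`. Induction on `k`, with alternating words in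
`H \ E1` and `t (V k) t⁻¹ \ E1`: with `T = {x | t⁻¹ x ∈ S}` every such word which starts with a factor in `t (V k) t⁻¹` maps `T` to the complement of `T`
if its last factor is in `t (V k) t⁻¹`, etc. (all facts follow from `BSet`). -/
theorem pingpong_A (t : G) (H E0 E1 : Subgroup G) (S : Set G) (hS : BSet t H E0 E1 S)
    (h01 : E1 = E0.map (MulAut.conj t).toMonoidHom) (hE0 : E0 ≤ H) (hE1 : E1 ≤ H)
    (V : ℕ → Subgroup G) (hV0 : V 0 = E0)
    (hV : ∀ k, V (k + 1) = H ⊔ (V k).map (MulAut.conj t).toMonoidHom) (k : ℕ) (v : G) (hv : v ∈ V k) :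
    v ∉ S ∧ (v ∉ E0 → ∀ x ∈ S, v * x ∉ S) := by
  induction k generalizing v with
  | zero =>
    rw [hV0] at hv
    exact ⟨(hS.s6 v (hE0 hv)).1, fun h => absurd hv h⟩
  | succ k ih =>
    have hE0k : E0 ≤ V k := by
      cases k with
      | zero => rw [hV0]
      | succ k =>
        rw [hV]
        exact hE0.trans le_sup_left
    have hST : ∀ x ∈ S, t⁻¹ * x ∈ S := by
      intro x hx
      have h1 := hS.s3 1 H.one_mem x hx
      rwa [one_mul] at h1
    have hHS : ∀ h ∈ H, ∀ y, t⁻¹ * y ∉ S → h * y ∉ S := by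
      intro h hh y hy hhy
      apply hy
      have h1 := hS.s3 h⁻¹ (H.inv_mem hh) _ hhy
      rwa [inv_mul_cancel_left] at h1
    let W : Bool → Subgroup G := fun b => cond b ((V k).map (MulAut.conj t).toMonoidHom) H
    have hC : ∀ b, E1 ≤ W b := by
      intro b
      cases b with
      | false => exact hE1
      | true =>
        show E1 ≤ (V k).map (MulAut.conj t).toMonoidHom
        rw [h01]
        exact Subgroup.map_mono hE0k
    have hv' : v ∈ W false ⊔ W true := by
      rw [hV] at hv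
      exact hv
    have hK : ∀ v ∈ V k, v ∉ E0 → ∀ x ∈ S, v * x ∉ S := fun v hv => (ih v hv).2
    -- the key statement
    have key : ∀ x, (∀ h ∈ H, t⁻¹ * (h * x) ∈ S) → v ∉ H → v * x ∉ S := by
      intro x hx hvH
      rcases mem_sup_alt W E1 hC hv' with h1 | ⟨b, c, hg⟩
      · exact absurd (hE1 h1) hvH
      · have h2 := C2b_alt hS h01 (V k) hK (W := W) rfl rfl hx hg
        cases hg with
        | one b g hb hU =>
          cases b with
          | false => exact absurd hb hvH
          | true => exact fun h => h2.1 rfl (hST _ h)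
        | cons b c g h hb hU hh =>
          cases b with
          | true => exact fun h => h2.1 rfl (hST _ h)
          | false =>
            have h3 := C2b_alt hS h01 (V k) hK (W := W) rfl rfl hx hh
            rw [mul_assoc]
            exact hHS g hb _ (h3.1 rfl)
    by_cases hvH : v ∈ H
    · exact ⟨(hS.s6 v hvH).1, fun h => hS.s2 v hvH h⟩
    · constructor
      · have h1 := key 1 (fun h hh => by rw [mul_one]; exact (hS.s6 h hh).2) hvH
        rwa [mul_one] at h1
      · intro _ x hx
        exact key x (fun h hh => hS.s3 h hh x hx) hvH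

end WQ
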