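import Pool.Agent.Lib.MP_0c5642_al.W.C2b

/-! ROW w-C3: alternating products are not in the middle group. -/

set_option autoImplicit false

namespace WQ

open scoped Pointwise

variable {G : Type*} [Group G]

/-- part (A): elements of `VI 0 (N+l)` -/
theorem C3_A (a t : G) (N : ℕ) (S : Set G)
    (hS : BSet t (VI a t 0 (N + 1)) (VI a t 0 N) (VI a t 1 (N + 1)) S) (l : ℕ) (v : G) (hv : v ∈ VI a t 0 (N + l)) :
    v ∉ S ∧ (v ∉ VI a t 0 N → ∀ x ∈ S, v * x ∉ S) := by
  have e1 : VI a t 1 (N + 1) = (VI a t 0 N).map (MulAut.conj t).toMonoidHom := by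
    have h := VI_conj a t 0 N 1
    rw [zpow_one, zero_add] at h
    exact h.symm
  refine pingpong_A t (VI a t 0 (N + 1)) (VI a t 0 N) (VI a t 1 (N + 1)) S hS e1 (VI_mono a t le_rfl (by omega))
    (VI_mono a t (by omega) le_rfl) (fun k => VI a t 0 (N + k)) (by simp) ?_ l v hv
  intro k
  show VI a t 0 (N + ((k + 1 : ℕ) : ℤ)) = VI a t 0 (N + 1) ⊔ (VI a t 0 (N + k)).map (MulAut.conj t).toMonoidHom
  have h := VI_conj a t 0 (N + k) 1
  rw [zpow_one, zero_add] at h
  rw [h, VI_sup a t (by omega) (by omega) (by omega)]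
  have e : (N : ℤ) + ((k + 1 : ℕ) : ℤ) = N + k + 1 := by
    push_cast
    ring
  rw [e]

/-- part (B): elements of `VI (-l) N` -/
theorem C3_B (a t : G) (N : ℕ) (S : Set G)
    (hS : BSet t (VI a t 0 (N + 1)) (VI a t 0 N) (VI a t 1 (N + 1)) S) (l : ℕ) (u : G) (hu : u ∈ VI a t (-l) N) :
    u * t⁻¹ ∈ S ∧ (u ∉ VI a t 0 N → ∀ x, x ∉ S → u * x ∈ S) := by
  have e1 : VI a t 1 (N + 1) = (VI a t 0 N).map (MulAut.conj t).toMonoidHom := by
    have h := VI_conj a t 0 N 1
    rw [zpow_one, zero_add] at h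
    exact h.symm
  have e2 : VI a t 0 N = (VI a t 1 (N + 1)).map (MulAut.conj t⁻¹).toMonoidHom := by
    have h := VI_conj a t 1 (N + 1) (-1)
    rw [zpow_neg_one, add_neg_cancel, add_neg_cancel_right] at h
    exact h.symm
  have e3 : ∀ k : ℕ, VI a t (1 - ((k + 1 : ℕ) : ℤ)) (N + 1) =
      VI a t 0 (N + 1) ⊔ (VI a t (1 - (k : ℤ)) (N + 1)).map (MulAut.conj t⁻¹).toMonoidHom := by
    intro k
    have h := VI_conj a t (1 - (k : ℤ)) (N + 1) (-1)
    rw [zpow_neg_one, add_neg_cancel_right] at h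
    rw [h, sup_comm, VI_sup a t (by omega) (by omega) (by omega)]
    congr 1
    push_cast
    ring
  have hv : t * u * t⁻¹ ∈ VI a t (1 - (l : ℤ)) (N + 1) := by
    have h := VI_conj a t (-(l : ℤ)) N 1
    rw [zpow_one] at h
    have h' : t * u * t⁻¹ ∈ (VI a t (-(l : ℤ)) N).map (MulAut.conj t).toMonoidHom := ⟨u, hu, rfl⟩
    rw [h] at h'
    have e : -(l : ℤ) + 1 = 1 - l := by ring
    rwa [e] at h'
  have key := pingpong_A t⁻¹ (VI a t 0 (N + 1)) (VI a t 1 (N + 1)) (VI a t 0 N) {x | t⁻¹ * x ∉ S} (hS.inv e1) e2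
    (VI_mono a t (by omega) le_rfl) (VI_mono a t le_rfl (by omega)) (fun k => VI a t (1 - (k : ℤ)) (N + 1)) (by simp)
    e3 l (t * u * t⁻¹) hv
  constructor
  · have h := key.1
    have h' : t⁻¹ * (t * u * t⁻¹) ∈ S := by
      by_contra hc
      exact h hc
    have e : t⁻¹ * (t * u * t⁻¹) = u * t⁻¹ := by group
    rwa [e] at h'
  · intro hu' x hx
    have h1 : t * u * t⁻¹ ∉ VI a t 1 (N + 1) := by
      rw [e1]
      rintro ⟨w, hw, hw'⟩
      have h2 : t * w * t⁻¹ = t * u * t⁻¹ := hw'
      have h3 : w = u := by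
        have h4 := mul_right_cancel h2
        exact mul_left_cancel h4
      rw [h3] at hw
      exact hu' hw
    have h := key.2 h1 (t * x) (by
      show t⁻¹ * (t * x) ∉ S
      rwa [inv_mul_cancel_left])
    have h' : t⁻¹ * (t * u * t⁻¹ * (t * x)) ∈ S := by
      by_contra hc
      exact h hc
    have e : t⁻¹ * (t * u * t⁻¹ * (t * x)) = u * x := by group
    rwa [e] at h'

/-- alternating products move the two sides -/
theorem C3_move {V : Bool → Subgroup G} {U : Subgroup G} {S : Set G}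
    (hA : ∀ v ∈ V true, v ∉ U → ∀ x ∈ S, v * x ∉ S) (hB : ∀ v ∈ V false, v ∉ U → ∀ x, x ∉ S → v * x ∈ S)
    {b c : Bool} {g : G} (hg : Alt V U b c g) (x : G) (hx : x ∈ S ↔ c = true) : g * x ∈ S ↔ b = false := by
  induction hg with
  | one b g h1 h2 =>
    cases b
    · have h := hB g h1 h2 x fun h => by simpa using hx.1 h
      simp [h]
    · have h := hA g h1 h2 x (hx.2 rfl)
      simp [h]
  | cons b c g h h1 h2 _ ih =>
    have h3 := ih hx
    rw [mul_assoc]
    cases b
    · have h4 := hB g h1 h2 (h * x) fun h => by simpa using h3.1 h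
      simp [h4]
    · have h4 := hA g h1 h2 (h * x) (h3.2 rfl)
      simp [h4]

theorem C3_alt_map {V : Bool → Subgroup G} {U : Subgroup G} (f : G ≃* G) {b c : Bool} {g : G} (hg : Alt V U b c g) :
    Alt (fun b => (V b).map f.toMonoidHom) (U.map f.toMonoidHom) b c (f g) := by
  have h0 : ∀ g, g ∉ U → f g ∉ U.map f.toMonoidHom := by
    rintro g hg ⟨w, hw, hw'⟩
    have h : w = g := f.injective hw'
    rw [h] at hw
    exact hg hw
  induction hg with
  | one b g h1 h2 => exact Alt.one b (f g) ⟨g, h1, rfl⟩ (h0 g h2)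
  | cons b c g h h1 h2 _ ih =>
    rw [map_mul]
    exact Alt.cons b c (f g) (f h) ⟨g, h1, rfl⟩ (h0 g h2) ih

/-- (RW) for `U = VI 0 N`, `V false = VI (-l) N`, `V true = VI 0 (N+l)`. `pingpong_A` for `t` (with `V k = VI 0 (N+k)`) and for `t⁻¹`, `BSet.inv` (with `V k = VI (1-k) (N+1)`, then translate by `t⁻¹`):
(A) `v ∈ VI 0 (N+l) \ U` maps `S` into its complement, (B) `v ∈ VI (-l) N \ U` maps the complement of `S` into `S`, and `v t⁻¹ ∈ S`.
An alternating product with equal first and last type maps `S` to the complement or conversely; if the types differ, multiply by the inverse of the first factor. -/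
theorem alt0 (a t : G) (N : ℕ) (S : Set G)
    (hS : BSet t (VI a t 0 (N + 1)) (VI a t 0 N) (VI a t 1 (N + 1)) S) (l : ℕ) (b c : Bool) (g : G)
    (hg : Alt (fun b : Bool => if b then VI a t 0 (N + l) else VI a t (-l) N) (VI a t 0 N) b c g) :
    g ∉ VI a t 0 N := by
  have hA := C3_A a t N S hS l
  have hB := C3_B a t N S hS l
  have hmove := fun {b c : Bool} {g : G}
    (hg : Alt (fun b : Bool => if b then VI a t 0 (N + l) else VI a t (-l) N) (VI a t 0 N) b c g) =>
      C3_move (S := S) (V := fun b : Bool => if b then VI a t 0 (N + l) else VI a t (-l) N)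
        (fun v hv => (hA v hv).2) (fun v hv => (hB v hv).2) hg
  have ht : t⁻¹ ∈ S := by
    have h := (hS.s6 1 (one_mem _)).2
    rwa [mul_one] at h
  have h1 : (1 : G) ∉ S := (hS.s6 1 (one_mem _)).1
  have heq : ∀ (c : Bool) (g : G),
      Alt (fun b : Bool => if b then VI a t 0 (N + l) else VI a t (-l) N) (VI a t 0 N) c c g → g ∉ VI a t 0 N := by
    intro c g hg hgU
    cases c
    · have h := hmove hg 1 (by simp [h1])
      rw [← hS.s1 g hgU] at h
      simp [h1] at h
    · have h := hmove hg t⁻¹ (by simp [ht])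
      rw [← hS.s1 g hgU] at h
      simp [ht] at h
  by_cases hbc : b = c
  · subst hbc
    exact heq b g hg
  intro hgU
  cases hg with
  | one b g h1 h2 => exact hbc rfl
  | cons b c g h h3 h4 h5 =>
    have hc : (!b) = c := by
      cases b <;> cases c <;> simp_all
    have hhU : h ∉ VI a t 0 N := by
      subst hc
      exact heq _ h h5
    have hh : h = g⁻¹ * (g * h) := by group
    cases b
    · have hc' : c = true := by simpa using hc.symm
      subst hc'
      have h6 : h ∈ VI a t (-(l : ℤ)) N := by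
        rw [hh]
        exact mul_mem (inv_mem h3) (VI_mono a t (by omega) le_rfl hgU)
      have h7 := (hB h h6).1
      have h8 := hmove h5 t⁻¹ (by simp [ht])
      simp [h7] at h8
    · have hc' : c = false := by simpa using hc.symm
      subst hc'
      have h6 : h ∈ VI a t 0 (N + l) := by
        rw [hh]
        exact mul_mem (inv_mem h3) (VI_mono a t le_rfl (by omega) hgU)
      have h7 := (hA h h6).1
      have h8 := hmove h5 1 (by simp [h1])
      rw [mul_one] at h8
      simp [h7] at h8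

/-- translate `alt0` by `t^l` -/
theorem alt_window (a t : G) (N : ℕ) (S : Set G)
    (hS : BSet t (VI a t 0 (N + 1)) (VI a t 0 N) (VI a t 1 (N + 1)) S) (l : ℕ) (b c : Bool) (g : G)
    (hg : Alt (fun b : Bool => if b then VI a t l (N + 2 * l) else VI a t 0 (N + l)) (VI a t l (N + l)) b c g) :
    g ∉ VI a t l (N + l) := by
  have h := C3_alt_map (MulAut.conj (t ^ (-(l : ℤ)))) hg
  have e0 := VI_conj a t l (N + l) (-(l : ℤ))
  rw [add_neg_cancel, add_neg_cancel_right] at e0
  have e1 := VI_conj a t l (N + 2 * l) (-(l : ℤ))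
  have e1' : (N : ℤ) + 2 * l + -l = N + l := by ring
  rw [add_neg_cancel, e1'] at e1
  have e2 := VI_conj a t 0 (N + l) (-(l : ℤ))
  rw [add_neg_cancel_right, zero_add] at e2
  have eV : (fun b : Bool => (if b then VI a t l (N + 2 * l) else VI a t 0 (N + l)).map
      (MulAut.conj (t ^ (-(l : ℤ)))).toMonoidHom) = fun b : Bool => if b then VI a t 0 (N + l) else VI a t (-l) N := by
    funext b
    cases b
    · exact e2
    · exact e1
  have h' : Alt (fun b : Bool => if b then VI a t 0 (N + l) else VI a t (-l) N) (VI a t 0 N) b c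
      (MulAut.conj (t ^ (-(l : ℤ))) g) := by
    rw [← eV, ← e0]
    exact h
  intro hgU
  refine alt0 a t N S hS l b c _ h' ?_
  rw [← e0]
  exact ⟨g, hgU, rfl⟩

end WQ
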