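import Pool.Agent.Lib.MP_0c5642_al.W.C2a

/-! ROW w-C4a: leaves. -/

set_option autoImplicit false

namespace WQ

open scoped Pointwise

variable {G : Type*} [Group G]

/-- alternating sequence of types -/
def C4a_b : ℕ → Bool
  | 0 => false
  | n + 1 => !(C4a_b n)

/-- ROW w-C4a. If every element had a partner in its `V false`-coset and in its `V true`-coset, one gets an infinite alternating path in the finite set `F`;
a repetition contradicts `hrw`. -/
theorem leaf (V : Bool → Subgroup G) (U : Subgroup G) (hrw : ∀ b c g, Alt V U b c g → g ∉ U)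
    (F : Finset G) (hne : F.Nonempty) (hF : ∀ x ∈ F, ∀ y ∈ F, x⁻¹ * y ∈ U → x = y) :
    ∃ x ∈ F, ∃ b, ∀ y ∈ F, x⁻¹ * y ∈ V b → y = x := by
  classical
  by_contra hcon
  push Not at hcon
  have h1 : ∀ (x : F) (b : Bool), ∃ y : F, (x : G)⁻¹ * y ∈ V b ∧ (y : G) ≠ x := by
    intro x b
    obtain ⟨y, hy, h1, h2⟩ := hcon x x.2 b
    exact ⟨⟨y, hy⟩, h1, h2⟩
  choose f hf1 hf2 using h1
  obtain ⟨x0, hx0⟩ := hne
  let p : ℕ → F := fun n => Nat.rec ⟨x0, hx0⟩ (fun n x => f x (C4a_b n)) n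
  have hp : ∀ n, p (n + 1) = f (p n) (C4a_b n) := fun n => rfl
  have hmem : ∀ n, (p n).1⁻¹ * (p (n + 1)).1 ∈ V (C4a_b n) := fun n => by rw [hp]; exact hf1 _ _
  have hU : ∀ n, (p n).1⁻¹ * (p (n + 1)).1 ∉ U := by
    intro n h
    have := hF _ (p n).2 _ (p (n + 1)).2 h
    rw [hp] at this
    exact hf2 _ _ this.symm
  have halt : ∀ k n, ∃ c, Alt V U (C4a_b n) c ((p n).1⁻¹ * (p (n + 1 + k)).1) := by
    intro k
    induction k with
    | zero => intro n; exact ⟨_, Alt.one _ _ (hmem n) (hU n)⟩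
    | succ k ih =>
      intro n
      obtain ⟨c, hc⟩ := ih (n + 1)
      refine ⟨c, ?_⟩
      have h2 := Alt.cons (C4a_b n) c _ _ (hmem n) (hU n) hc
      have e : (p n).1⁻¹ * (p (n + 1)).1 * ((p (n + 1)).1⁻¹ * (p (n + 1 + 1 + k)).1) =
          (p n).1⁻¹ * (p (n + 1 + (k + 1))).1 := by
        rw [mul_assoc, mul_inv_cancel_left, show n + 1 + 1 + k = n + 1 + (k + 1) by omega]
      rw [e] at h2
      exact h2
  obtain ⟨i, j, hij, hpij⟩ := Finite.exists_ne_map_eq_of_infinite p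
  wlog hlt : i < j generalizing i j
  · exact this j i hij.symm hpij.symm (by omega)
  obtain ⟨k, rfl⟩ := Nat.exists_eq_add_of_le (show i + 1 ≤ j by omega)
  obtain ⟨c, hc⟩ := halt k i
  apply hrw _ _ _ hc
  rw [← hpij, inv_mul_cancel]
  exact U.one_mem

end WQ
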