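import Pool.Agent.Lib.MP_0c5642_al.W.C4a
import Pool.Agent.Lib.MP_0c5642_al.W.A3
import Pool.Agent.Lib.MP_0c5642_al.W.A4a

/-! ROW w-C4b: existence of sets splitting one coset. -/

set_option autoImplicit false

namespace WQ

open scoped Pointwise

variable {G : Type*} [Group G]

/-- ROW w-C4b. `E` nontrivial in `V false ⊔ V true`; `F` = representatives of the split cosets of `U` (finitely many by `exact_fin`, at least one by `NF`); `leaf`. -/
theorem exists_MO (V : Bool → Subgroup G) (U V' : Subgroup G) (hU : ∀ b, U ≤ V b) (hV' : ∀ b, V b ≤ V') (hUfg : U.FG)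
    (hrw : ∀ b c g, Alt V U b c g → g ∉ U) (hNF : NF U V') (hf : IsFreeGroup V') (hne : V' ≠ ⊥) :
    ∃ b, MO U (V b) := by
  classical
  have hUV : U ≤ V' := (hU true).trans (hV' true)
  obtain ⟨E, hE, hE1, hE2⟩ := exists_nontrivial hf hne
  obtain ⟨x0, hx0⟩ := hNF.exists_split hE hE1 hE2
  obtain ⟨F0, hF0⟩ := exact_fin hUV hUfg hE
  -- every split coset meets `F0`
  have hmeet : ∀ x, Split U E x → ∃ u ∈ U, x * u ∈ F0 := by
    intro x hx
    by_contra hcon
    push Not at hcon
    rcases hF0 x (Split.mem hUV hE.1 hx) hcon with h | h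
    · refine hx.2 ?_
      have : {u | u ∈ U ∧ x * u ∉ E} = ∅ := by
        ext u
        simp only [Set.mem_ofPred_eq, Set.mem_empty_iff_false, iff_false, not_and, not_not]
        exact fun hu => h u hu
      rw [this]
      exact Set.finite_empty
    · refine hx.1 ?_
      have : {u | u ∈ U ∧ x * u ∈ E} = ∅ := by
        ext u
        simp only [Set.mem_ofPred_eq, Set.mem_empty_iff_false, iff_false, not_and]
        exact fun hu => h u hu
      rw [this]
      exact Set.finite_empty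
  set F : Finset G := (F0.filter (Split U E)).image (fun x : G => ((x : G ⧸ U)).out) with hFdef
  have hout : ∀ x : G, ∃ u ∈ U, ((x : G ⧸ U)).out = x * u := by
    intro x
    obtain ⟨u, hu⟩ := QuotientGroup.mk_out_eq_mul U x
    exact ⟨u, u.2, hu⟩
  have hFsplit : ∀ x ∈ F, Split U E x := by
    intro x hx
    obtain ⟨y, hy, rfl⟩ := Finset.mem_image.1 hx
    obtain ⟨u, hu, he⟩ := hout y
    rw [he, split_mul hu]
    exact (Finset.mem_filter.1 hy).2
  have hFrep : ∀ x, Split U E x → ∃ z ∈ F, ∃ u ∈ U, z = x * u := by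
    intro x hx
    obtain ⟨u, hu, hxu⟩ := hmeet x hx
    obtain ⟨u', hu', he⟩ := hout (x * u)
    refine ⟨_, Finset.mem_image.2 ⟨x * u, Finset.mem_filter.2 ⟨hxu, (split_mul hu x).2 hx⟩, rfl⟩,
      u * u', U.mul_mem hu hu', ?_⟩
    rw [he, mul_assoc]
  have hFne : F.Nonempty := by
    obtain ⟨z, hz, _⟩ := hFrep x0 hx0
    exact ⟨z, hz⟩
  have hFinj : ∀ x ∈ F, ∀ y ∈ F, x⁻¹ * y ∈ U → x = y := by
    intro x hx y hy hxy
    obtain ⟨x', _, rfl⟩ := Finset.mem_image.1 hx
    obtain ⟨y', _, rfl⟩ := Finset.mem_image.1 hy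
    have h1 : ((x' : G ⧸ U)) = (y' : G ⧸ U) := by
      have h2 : ((((x' : G ⧸ U)).out : G) : G ⧸ U) = ((((y' : G ⧸ U)).out : G) : G ⧸ U) :=
        QuotientGroup.eq.2 hxy
      rwa [QuotientGroup.out_eq', QuotientGroup.out_eq'] at h2
    simp only [h1]
  obtain ⟨x, hx, b, hb⟩ := leaf V U hrw F hFne hFinj
  have hxs := hFsplit x hx
  have hxV : x ∈ V' := Split.mem hUV hE.1 hxs
  refine ⟨b, res (V b) E x, AI.res (hV' b) hE hxV, ?_, fun y hy hys => ?_⟩
  · rw [split_res (hU b) (Subgroup.one_mem _), mul_one]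
    exact hxs
  · rw [split_res (hU b) hy] at hys
    obtain ⟨z, hz, u, hu, he⟩ := hFrep _ hys
    have h1 : x⁻¹ * z = y * u := by
      rw [he]
      group
    have h2 : z = x := hb z hz (by rw [h1]; exact (V b).mul_mem hy (hU b hu))
    rw [h2, inv_mul_cancel] at h1
    have h3 : y = u⁻¹ := eq_inv_of_mul_eq_one_left h1.symm
    rw [h3]
    exact U.inv_mem hu

end WQ
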