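import Pool.Agent.Lib.MP_0c5642_al.W.A3

/-! ROW w-C4c: conjugation and restriction. -/

set_option autoImplicit false

namespace WQ

open scoped Pointwise

variable {G : Type*} [Group G]

theorem C4c_mem (V : Subgroup G) (g x : G) :
    x ∈ V.map (MulAut.conj g).toMonoidHom ↔ g⁻¹ * x * g ∈ V := by
  rw [Subgroup.mem_map]
  constructor
  · rintro ⟨y, hy, rfl⟩
    have e : g⁻¹ * ((MulAut.conj g).toMonoidHom y) * g = y := by
      show g⁻¹ * (g * y * g⁻¹) * g = y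
      group
    rw [e]
    exact hy
  · intro h
    refine ⟨_, h, ?_⟩
    show g * (g⁻¹ * x * g) * g⁻¹ = x
    group

theorem C4c_inj (g : G) : Function.Injective fun x : G => g⁻¹ * x * g := by
  intro x y h
  have h1 : g⁻¹ * x * g = g⁻¹ * y * g := h
  exact mul_left_cancel (mul_right_cancel h1)

theorem C4c_inf {s : Set G} (g : G) (h : {x | g⁻¹ * x * g ∈ s}.Infinite) : s.Infinite := by
  have h1 := h.image ((C4c_inj g).injOn)
  refine h1.mono ?_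
  rintro _ ⟨x, hx, rfl⟩
  exact hx

theorem C4c_inf' {s : Set G} (g : G) (h : s.Infinite) : {x | g⁻¹ * x * g ∈ s}.Infinite := by
  have hi : Function.Injective fun x : G => g * x * g⁻¹ := by
    have := C4c_inj g⁻¹
    rwa [inv_inv] at this
  refine (h.image hi.injOn).mono ?_
  rintro _ ⟨x, hx, rfl⟩
  show g⁻¹ * (g * x * g⁻¹) * g ∈ s
  have e : g⁻¹ * (g * x * g⁻¹) * g = x := by group
  rw [e]
  exact hx

/-- ROW w-C4c. -/
theorem MO.conj {W V : Subgroup G} (h : MO W V) (g : G) :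
    MO (W.map (MulAut.conj g).toMonoidHom) (V.map (MulAut.conj g).toMonoidHom) := by
  obtain ⟨E, ⟨h1, h2⟩, h3, h4⟩ := h
  have e1 : ∀ x u : G, g⁻¹ * (x * u) * g = (g⁻¹ * x * g) * (g⁻¹ * u * g) := by
    intro x u
    group
  have e2 : ∀ x : G, {u | u ∈ W.map (MulAut.conj g).toMonoidHom ∧ x * u ∈ {y | g⁻¹ * y * g ∈ E}} =
      {u | g⁻¹ * u * g ∈ {u | u ∈ W ∧ (g⁻¹ * x * g) * u ∈ E}} := by
    intro x
    ext u
    simp only [Set.mem_ofPred_eq, C4c_mem, e1]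
  have e3 : ∀ x : G, {u | u ∈ W.map (MulAut.conj g).toMonoidHom ∧ x * u ∉ {y | g⁻¹ * y * g ∈ E}} =
      {u | g⁻¹ * u * g ∈ {u | u ∈ W ∧ (g⁻¹ * x * g) * u ∉ E}} := by
    intro x
    ext u
    simp only [Set.mem_ofPred_eq, C4c_mem, e1]
  refine ⟨{x | g⁻¹ * x * g ∈ E}, ⟨?_, ?_⟩, ?_, ?_⟩
  · intro x hx
    exact (C4c_mem V g x).2 (h1 hx)
  · intro x hx
    rw [C4c_mem] at hx
    refine ((h2 _ hx).preimage (C4c_inj g).injOn).subset ?_
    intro y hy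
    show ¬ (g⁻¹ * y * g ∈ E ↔ (g⁻¹ * y * g) * (g⁻¹ * x * g) ∈ E)
    rw [← e1]
    exact hy
  · have e4 : g⁻¹ * 1 * g = 1 := by group
    refine ⟨?_, ?_⟩
    · rw [e2, e4]
      exact C4c_inf' g h3.1
    · rw [e3, e4]
      exact C4c_inf' g h3.2
  · intro x hx hs
    rw [C4c_mem] at hx ⊢
    refine h4 _ hx ⟨?_, ?_⟩
    · have := hs.1
      rw [e2] at this
      exact C4c_inf g this
    · have := hs.2
      rw [e3] at this
      exact C4c_inf g this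

theorem MO.mono {W V V' : Subgroup G} (h : MO W V') (hWV : W ≤ V) (hVV : V ≤ V') : MO W V := by
  obtain ⟨E, ⟨h1, h2⟩, h3, h4⟩ := h
  have e1 : ∀ x ∈ V, {u | u ∈ W ∧ x * u ∈ E ∩ (V : Set G)} = {u | u ∈ W ∧ x * u ∈ E} := by
    intro x hx
    ext u
    constructor
    · rintro ⟨a, b⟩
      exact ⟨a, b.1⟩
    · rintro ⟨a, b⟩
      exact ⟨a, b, V.mul_mem hx (hWV a)⟩
  have e2 : ∀ x ∈ V, {u | u ∈ W ∧ x * u ∉ E ∩ (V : Set G)} = {u | u ∈ W ∧ x * u ∉ E} := by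
    intro x hx
    ext u
    constructor
    · rintro ⟨a, b⟩
      exact ⟨a, fun hc => b ⟨hc, V.mul_mem hx (hWV a)⟩⟩
    · rintro ⟨a, b⟩
      exact ⟨a, fun hc => b hc.1⟩
  have key : ∀ x ∈ V, (Split W (E ∩ (V : Set G)) x ↔ Split W E x) := by
    intro x hx
    unfold Split
    rw [e1 x hx, e2 x hx]
  refine ⟨E ∩ (V : Set G), ⟨Set.inter_subset_right, ?_⟩, (key 1 V.one_mem).2 h3, ?_⟩
  · intro g hg
    refine (h2 g (hVV hg)).subset ?_
    intro x hx hc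
    apply hx
    have hv : x ∈ V ↔ x * g ∈ V := ⟨fun h => V.mul_mem h hg, fun h => (V.mul_mem_cancel_right hg).1 h⟩
    constructor
    · rintro ⟨a, b⟩
      exact ⟨hc.1 a, hv.1 b⟩
    · rintro ⟨a, b⟩
      exact ⟨hc.2 a, hv.2 b⟩
  · intro x hx hs
    exact h4 x (hVV hx) ((key x hx).1 hs)

end WQ
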