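import Pool.Agent.Lib.MP_0c5642_al.W.A3

/-! ROW w-D1a: clean sets. -/

set_option autoImplicit false

namespace WQ

open scoped Pointwise

variable {G : Type*} [Group G] {U V W : Subgroup G} {E F : Set G}

theorem Clean.compl (hWV : W ≤ V) (h : Clean W V E) : Clean W V ((V : Set G) \ E) := by
  refine ⟨h.1.compl, fun g hg hgW => ?_⟩
  rcases h.2 g hg hgW with H | H
  · exact Or.inr fun u hu hx => hx.2 (H u hu)
  · exact Or.inl fun u hu => ⟨V.mul_mem hg (hWV hu), H u hu⟩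

theorem Clean.inter (h : Clean W V E) (h' : Clean W V F) : Clean W V (E ∩ F) := by
  refine ⟨h.1.inter h'.1, fun g hg hgW => ?_⟩
  rcases h.2 g hg hgW with H | H
  · rcases h'.2 g hg hgW with H' | H'
    · exact Or.inl fun u hu => ⟨H u hu, H' u hu⟩
    · exact Or.inr fun u hu hx => H' u hu hx.2
  · exact Or.inr fun u hu hx => H u hu hx.1

theorem Clean.smul (hWV : W ≤ V) (h : Clean W V E) {g : G} (hg : g ∈ W) : Clean W V (g • E) := by
  refine ⟨h.1.smul (hWV hg), fun x hx hxW => ?_⟩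
  have h1 : g⁻¹ * x ∈ V := V.mul_mem (V.inv_mem (hWV hg)) hx
  have h2 : g⁻¹ * x ∉ W := by
    intro hc
    have h3 := W.mul_mem hg hc
    rw [mul_inv_cancel_left] at h3
    exact hxW h3
  have h4 : ∀ u : G, x * u ∈ g • E ↔ g⁻¹ * x * u ∈ E := by
    intro u
    rw [Set.mem_smul_set_iff_inv_smul_mem, smul_eq_mul, mul_assoc]
  rcases h.2 _ h1 h2 with H | H
  · exact Or.inl fun u hu => (h4 u).2 (H u hu)
  · exact Or.inr fun u hu hc => H u hu ((h4 u).1 hc)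

theorem Clean.of_finite (hWV : W ≤ V) (h : E ⊆ (W : Set G)) (hf : E.Finite) : Clean W V E := by
  refine ⟨AI.of_finite (h.trans (fun x hx => hWV hx)) hf, fun g _ hgW => Or.inr fun u hu hx => ?_⟩
  have h1 : g * u ∈ W := h hx
  have h2 := W.mul_mem h1 (W.inv_mem hu)
  rw [mul_inv_cancel_right] at h2
  exact hgW h2

theorem D1a_res_one (U : Subgroup G) (E : Set G) : res U E 1 = E ∩ (U : Set G) := by
  ext u
  constructor
  · rintro ⟨h1, h2⟩
    rw [one_mul] at h2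
    exact ⟨h2, h1⟩
  · rintro ⟨h1, h2⟩
    refine ⟨h2, ?_⟩
    rw [one_mul]
    exact h1

theorem D1a_ai_inter (hUV : U ≤ V) (h : AI V E) : AI U (E ∩ (U : Set G)) := by
  rw [← D1a_res_one]
  exact h.res hUV V.one_mem

theorem isAlg_RR (hWV : W ≤ V) : IsAlg W (RR W V) where
  ai := by
    rintro A ⟨E, hE, rfl⟩
    exact D1a_ai_inter hWV hE.1
  compl := by
    rintro A ⟨E, hE, rfl⟩
    refine ⟨(V : Set G) \ E, hE.compl hWV, ?_⟩
    ext x
    constructor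
    · rintro ⟨h1, h2⟩
      exact ⟨⟨hWV h1, fun hx => h2 ⟨hx, h1⟩⟩, h1⟩
    · rintro ⟨h1, h2⟩
      exact ⟨h2, fun hx => h1.2 hx.1⟩
  inter := by
    rintro A ⟨E, hE, rfl⟩ B ⟨F, hF, rfl⟩
    refine ⟨E ∩ F, hE.inter hF, ?_⟩
    ext x
    constructor
    · rintro ⟨h1, h2⟩
      exact ⟨⟨h1.1, h2.1⟩, h1.2⟩
    · rintro ⟨h1, h2⟩
      exact ⟨⟨h1.1, h2⟩, ⟨h1.2, h2⟩⟩
  smul := by
    rintro A ⟨E, hE, rfl⟩ g hg
    refine ⟨g • E, hE.smul hWV hg, ?_⟩
    ext x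
    rw [Set.mem_inter_iff, Set.mem_smul_set_iff_inv_smul_mem, Set.mem_smul_set_iff_inv_smul_mem,
      smul_eq_mul, Set.mem_inter_iff]
    refine and_congr_right fun _ => ?_
    constructor
    · intro h1
      have h2 := W.mul_mem hg h1
      rw [mul_inv_cancel_left] at h2
      exact h2
    · intro h1
      exact W.mul_mem (W.inv_mem hg) h1
  fin := by
    intro E hE hf
    exact ⟨E, Clean.of_finite hWV hE hf, (Set.inter_eq_left.2 hE).symm⟩

/-- restriction to a smaller group -/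
theorem Clean.restrict {V' : Subgroup G} (hWV : W ≤ V) (hVV : V ≤ V') (h : Clean W V' E) : Clean W V (E ∩ (V : Set G)) := by
  refine ⟨D1a_ai_inter hVV h.1, fun g hg hgW => ?_⟩
  rcases h.2 g (hVV hg) hgW with H | H
  · exact Or.inl fun u hu => ⟨H u hu, V.mul_mem hg (hWV hu)⟩
  · exact Or.inr fun u hu hx => H u hu hx.1

theorem RR_anti {V' : Subgroup G} (hWV : W ≤ V) (hVV : V ≤ V') : RR W V' ⊆ RR W V := by
  rintro A ⟨E, hE, rfl⟩
  refine ⟨E ∩ (V : Set G), hE.restrict hWV hVV, ?_⟩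
  ext x
  constructor
  · rintro ⟨h1, h2⟩
    exact ⟨⟨h1, hWV h2⟩, h2⟩
  · rintro ⟨h1, h2⟩
    exact ⟨h1.1, h2⟩

/-- `MO` gives a nontrivial trace (`make_clean`). -/
theorem MO.exists_RR (hWV : W ≤ V) (hW : W.FG) (h : MO W V) :
    ∃ A ∈ RR W V, A.Infinite ∧ ((W : Set G) \ A).Infinite := by
  obtain ⟨E, hE, hs, hx⟩ := h
  obtain ⟨E', hc, _, htr⟩ := make_clean hWV hW hE hx
  refine ⟨E' ∩ (W : Set G), ⟨E', hc, rfl⟩, ?_⟩
  have h1 := (split_iff (U := W) (E := E) 1).1 hs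
  rw [D1a_res_one] at h1
  rw [htr]
  exact h1

end WQ
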