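import Pool.Agent.Lib.MP_0c5642_al.W.D1a

/-! ROW w-D1b: automatic nesting. -/

set_option autoImplicit false

namespace WQ

open scoped Pointwise

variable {G : Type*} [Group G] {U V W : Subgroup G} {E F : Set G}

/-- A clean set with empty trace on `W` is empty: it splits no coset of `W`, so it is finite or its complement is; `W` is infinite and disjoint from it; a nonempty
finite set cannot be full on a coset of `W`. -/
theorem Clean.eq_empty (hWV : W ≤ V) (hinf : (W : Set G).Infinite) (hNF : NF W V) (h : Clean W V E)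
    (h0 : Disjoint E (W : Set G)) : E = ∅ := by
  have hW : ∀ x ∈ W, x ∉ E := fun x hx hE => Set.disjoint_left.1 h0 hE hx
  have hell : Ell W E := by
    rintro x ⟨h1, h2⟩
    obtain ⟨u, hu, hxu⟩ := h1.nonempty
    have hxV : x ∈ V := by
      have h3 := V.mul_mem (h.1.1 hxu) (V.inv_mem (hWV hu))
      rwa [mul_inv_cancel_right] at h3
    by_cases hxW : x ∈ W
    · exact hW _ (W.mul_mem hxW hu) hxu
    · rcases h.2 x hxV hxW with H | H
      · obtain ⟨v, hv, hxv⟩ := h2.nonempty
        exact hxv (H v hv)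
      · exact H u hu hxu
  rcases hNF E h.1 hell with hf | hf
  · rw [Set.eq_empty_iff_forall_notMem]
    intro y hy
    have hyW : y ∉ W := fun hc => hW y hc hy
    rcases h.2 y (h.1.1 hy) hyW with H | H
    · refine hinf ?_
      refine (hf.preimage (f := fun u => y * u) (fun a _ b _ hab => mul_left_cancel hab)).subset ?_
      intro u hu
      exact H u hu
    · refine H 1 W.one_mem ?_
      rwa [mul_one]
  · exact absurd (hf.subset (fun x hx => ⟨hWV hx, hW x hx⟩)) hinf

theorem Clean.ext (hWV : W ≤ V) (hinf : (W : Set G).Infinite) (hNF : NF W V) (h : Clean W V E) (h' : Clean W V F)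
    (h0 : E ∩ (W : Set G) = F ∩ (W : Set G)) : E = F := by
  have key : ∀ A B : Set G, Clean W V A → Clean W V B → A ∩ (W : Set G) ⊆ B ∩ (W : Set G) → A ⊆ B := by
    intro A B hA hB hAB x hx
    by_contra hxB
    have h1 : A ∩ ((V : Set G) \ B) = ∅ := by
      refine Clean.eq_empty hWV hinf hNF (hA.inter (Clean.compl hWV hB)) ?_
      rw [Set.disjoint_left]
      intro y hy hyW
      exact hy.2.2 (hAB ⟨hy.1, hyW⟩).1
    have h2 : x ∈ A ∩ ((V : Set G) \ B) := ⟨hx, hA.1.1 hx, hxB⟩
    rw [h1] at h2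
    exact h2
  exact Set.Subset.antisymm (key E F h h' h0.subset) (key F E h' h h0.symm.subset)

/-- a corner of a clean set, empty on the coset `g W`, and of a translate is clean -/
theorem D1b_clean (h : Clean W V E) (h' : Clean W V F) {g : G} (hg : g ∈ V)
    (hE : ∀ u ∈ W, g * u ∉ E) : Clean W V (E ∩ g • F) := by
  refine ⟨h.1.inter (h'.1.smul hg), fun x hx hxW => ?_⟩
  have hmem : ∀ u : G, x * u ∈ g • F ↔ g⁻¹ * x * u ∈ F := by
    intro u
    rw [Set.mem_smul_set_iff_inv_smul_mem, smul_eq_mul, mul_assoc]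
  by_cases hc : g⁻¹ * x ∈ W
  · refine Or.inr fun u hu hxu => ?_
    refine hE (g⁻¹ * x * u) (W.mul_mem hc hu) ?_
    have e : g * (g⁻¹ * x * u) = x * u := by group
    rw [e]
    exact hxu.1
  · rcases h.2 x hx hxW with H | H
    · rcases h'.2 (g⁻¹ * x) (V.mul_mem (V.inv_mem hg) hx) hc with H' | H'
      · exact Or.inl fun u hu => ⟨H u hu, (hmem u).2 (H' u hu)⟩
      · exact Or.inr fun u hu hxu => H' u hu ((hmem u).1 hxu.2)
    · exact Or.inr fun u hu hxu => H u hu hxu.1

/-- such a corner is empty if the translate is disjoint from `W` -/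
theorem D1b_empty (hWV : W ≤ V) (hinf : (W : Set G).Infinite) (hNF : NF W V) (h : Clean W V E)
    (h' : Clean W V F) {g : G} (hg : g ∈ V) (hE : ∀ u ∈ W, g * u ∉ E) (hF : ∀ u ∈ W, g⁻¹ * u ∉ F)
    (x : G) (hx : x ∈ E) (hxF : x ∈ g • F) : False := by
  have h1 : E ∩ g • F = ∅ := by
    refine Clean.eq_empty hWV hinf hNF (D1b_clean h h' hg hE) ?_
    rw [Set.disjoint_left]
    intro y hy hyW
    have h2 := hy.2
    rw [Set.mem_smul_set_iff_inv_smul_mem, smul_eq_mul] at h2
    exact hF y hyW h2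
  have h2 : x ∈ E ∩ g • F := ⟨hx, hxF⟩
  rw [h1] at h2
  exact h2

/-- automatic nesting (3.3) -/
theorem Clean.nested_of_notMem (hWV : W ≤ V) (hinf : (W : Set G).Infinite) (hNF : NF W V) (h : Clean W V E)
    (h' : Clean W V F) {g : G} (hg : g ∈ V) (hgW : g ∉ W) : Nested V E (g • F) := by
  have hgi : g⁻¹ ∉ W := fun hc => hgW (by simpa using W.inv_mem hc)
  have hV : ∀ x : G, x ∈ V → (x ∉ g • F ↔ x ∈ g • ((V : Set G) \ F)) := by
    intro x hx
    rw [Set.mem_smul_set_iff_inv_smul_mem, Set.mem_smul_set_iff_inv_smul_mem, smul_eq_mul]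
    constructor
    · intro hn
      exact ⟨V.mul_mem (V.inv_mem hg) hx, hn⟩
    · intro hn
      exact hn.2
  have hgF : ∀ x ∈ g • F, x ∈ V := by
    intro x hx
    rw [Set.mem_smul_set_iff_inv_smul_mem, smul_eq_mul] at hx
    have h1 := V.mul_mem hg (h'.1.1 hx)
    rwa [mul_inv_cancel_left] at h1
  rcases h.2 g hg hgW with H | H
  · rcases h'.2 g⁻¹ (V.inv_mem hg) hgi with H' | H'
    · refine Or.inr (Or.inr (Or.inr fun x hx => ?_))
      by_contra hc
      rw [Set.mem_union, not_or] at hc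
      exact D1b_empty hWV hinf hNF (Clean.compl hWV h) (Clean.compl hWV h') hg
        (fun u hu hm => hm.2 (H u hu)) (fun u hu hm => hm.2 (H' u hu)) x ⟨hx, hc.1⟩
        ((hV x hx).1 hc.2)
    · refine Or.inr (Or.inr (Or.inl fun x hx => ?_))
      by_contra hc
      exact D1b_empty hWV hinf hNF (Clean.compl hWV h) h' hg
        (fun u hu hm => hm.2 (H u hu)) H' x ⟨hgF x hx, hc⟩ hx
  · rcases h'.2 g⁻¹ (V.inv_mem hg) hgi with H' | H'
    · refine Or.inr (Or.inl fun x hx => ?_)
      by_contra hc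
      exact D1b_empty hWV hinf hNF h (Clean.compl hWV h') hg H
        (fun u hu hm => hm.2 (H' u hu)) x hx ((hV x (h.1.1 hx)).1 hc)
    · refine Or.inl (Set.disjoint_left.2 fun x hx hxF => ?_)
      exact D1b_empty hWV hinf hNF h h' hg H H' x hx hxF

/-- nestedness can be tested on the trace (3.4) -/
theorem Clean.nested_of_trace (hWV : W ≤ V) (hinf : (W : Set G).Infinite) (hNF : NF W V) (h : Clean W V E)
    (h' : Clean W V F) (h0 : Nested W (E ∩ (W : Set G)) (F ∩ (W : Set G))) : Nested V E F := by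
  have key : ∀ A B : Set G, Clean W V A → Clean W V B → (∀ x ∈ W, x ∈ A → x ∈ B → False) →
      ∀ x, x ∈ A → x ∈ B → False := by
    intro A B hA hB hAB x hxA hxB
    have h1 : A ∩ B = ∅ := by
      refine Clean.eq_empty hWV hinf hNF (hA.inter hB) ?_
      rw [Set.disjoint_left]
      intro y hy hyW
      exact hAB y hyW hy.1 hy.2
    have h2 : x ∈ A ∩ B := ⟨hxA, hxB⟩
    rw [h1] at h2
    exact h2
  have hcE := Clean.compl hWV h
  have hcF := Clean.compl hWV h'
  rcases h0 with H | H | H | H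
  · refine Or.inl (Set.disjoint_left.2 fun x hx hxF => ?_)
    exact key E F h h' (fun y hy hyE hyF => Set.disjoint_left.1 H ⟨hyE, hy⟩ ⟨hyF, hy⟩) x hx hxF
  · refine Or.inr (Or.inl fun x hx => ?_)
    by_contra hc
    exact key E _ h hcF (fun y hy hyE hyF => hyF.2 (H ⟨hyE, hy⟩).1) x hx ⟨h.1.1 hx, hc⟩
  · refine Or.inr (Or.inr (Or.inl fun x hx => ?_))
    by_contra hc
    exact key F _ h' hcE (fun y hy hyF hyE => hyE.2 (H ⟨hyF, hy⟩).1) x hx ⟨h'.1.1 hx, hc⟩
  · refine Or.inr (Or.inr (Or.inr fun x hx => ?_))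
    by_contra hc
    rw [Set.mem_union, not_or] at hc
    refine key _ _ hcE hcF (fun y hy hyE hyF => ?_) x ⟨hx, hc.1⟩ ⟨hx, hc.2⟩
    rcases H hy with H1 | H1
    · exact hyE.2 H1.1
    · exact hyF.2 H1.1

end WQ
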