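import Pool.Agent.Lib.MP_0c5642_al.W.D2d

/-! ROW w-D2a: finitely many connected cuts separate two vertices. -/

set_option autoImplicit false

namespace WQ

open scoped Pointwise

variable {Ω ι : Type*}

/-- adjacency by edges in `J` -/
def D2a_R (s t : ι → Ω) (J : Set ι) (a b : Ω) : Prop :=
  ∃ i ∈ J, (s i = a ∧ t i = b) ∨ (t i = a ∧ s i = b)

/-- coboundary, only the edges in `J` -/
def D2a_cob (s t : ι → Ω) (J : Set ι) (E : Set Ω) : Set ι := {i | i ∈ J ∧ ¬ (s i ∈ E ↔ t i ∈ E)}

/-- connected with respect to the edges in `J` -/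
def D2a_CC (s t : ι → Ω) (J : Set ι) (E : Set Ω) : Prop :=
  ∀ A ⊆ E, (∀ i ∈ J, ¬ ((s i ∈ A ∧ t i ∈ E \ A) ∨ (t i ∈ A ∧ s i ∈ E \ A))) → A = ∅ ∨ A = E

theorem D2a_symm (s t : ι → Ω) (J : Set ι) {a b : Ω}
    (h : Relation.ReflTransGen (D2a_R s t J) a b) : Relation.ReflTransGen (D2a_R s t J) b a := by
  induction h with
  | refl => exact Relation.ReflTransGen.refl
  | tail _ h2 ih =>
    obtain ⟨i, hi, h3⟩ := h2
    refine Relation.ReflTransGen.head ⟨i, hi, ?_⟩ ih
    rcases h3 with ⟨h3, h4⟩ | ⟨h3, h4⟩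
    · exact Or.inr ⟨h4, h3⟩
    · exact Or.inl ⟨h4, h3⟩

/-- the edges of a path -/
theorem D2a_path (s t : ι → Ω) (J : Set ι) {x y : Ω}
    (h : Relation.ReflTransGen (D2a_R s t J) x y) :
    ∃ F : Set ι, F.Finite ∧ F ⊆ J ∧ ∀ E : Set Ω, x ∈ E → y ∉ E → ∃ i ∈ F, i ∈ D2a_cob s t J E := by
  induction h with
  | refl => exact ⟨∅, Set.finite_empty, Set.empty_subset _, fun E h1 h2 => absurd h1 h2⟩
  | @tail b c _ h2 ih =>
    obtain ⟨F, hF, hFJ, hcut⟩ := ih
    obtain ⟨i, hi, h3⟩ := h2
    refine ⟨insert i F, hF.insert i, Set.insert_subset hi hFJ, fun E hx hc => ?_⟩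
    by_cases hb : b ∈ E
    · refine ⟨i, Set.mem_insert _ _, hi, ?_⟩
      rcases h3 with ⟨h3, h4⟩ | ⟨h3, h4⟩
      · rw [h3, h4]
        exact fun h => hc (h.1 hb)
      · rw [h3, h4]
        exact fun h => hc (h.2 hb)
    · obtain ⟨j, hj, hj2⟩ := hcut E hx hb
      exact ⟨j, Set.mem_insert_of_mem _ hj, hj2⟩

/-- a component has no edges to the rest -/
theorem D2a_comp (s t : ι → Ω) (J : Set ι) (a : Ω) (i : ι) (hi : i ∈ J) :
    Relation.ReflTransGen (D2a_R s t J) a (s i) ↔ Relation.ReflTransGen (D2a_R s t J) a (t i) :=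
  ⟨fun h => h.tail ⟨i, hi, Or.inl ⟨rfl, rfl⟩⟩, fun h => h.tail ⟨i, hi, Or.inr ⟨rfl, rfl⟩⟩⟩

/-- a connected set is contained in the component of each of its points -/
theorem D2a_sub (s t : ι → Ω) (J : Set ι) (E : Set Ω) (hE : D2a_CC s t J E) (a : Ω) (ha : a ∈ E) :
    E ⊆ {z | Relation.ReflTransGen (D2a_R s t J) a z} := by
  have h1 := hE (E ∩ {z | Relation.ReflTransGen (D2a_R s t J) a z}) Set.inter_subset_left ?_
  · rcases h1 with h1 | h1
    · exact absurd (h1 ▸ (⟨ha, Relation.ReflTransGen.refl⟩ :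
        a ∈ E ∩ {z | Relation.ReflTransGen (D2a_R s t J) a z})) (Set.notMem_empty a)
    · exact Set.inter_eq_left.1 h1
  · intro i hi h2
    rcases h2 with ⟨h3, h4⟩ | ⟨h3, h4⟩
    · exact h4.2 ⟨h4.1, (D2a_comp s t J a i hi).1 h3.2⟩
    · exact h4.2 ⟨h4.1, (D2a_comp s t J a i hi).2 h3.2⟩

/-- deleting an edge of the coboundary does not change connectedness -/
theorem D2a_del (s t : ι → Ω) (J : Set ι) (E : Set Ω) (i : ι) (hi : ¬ (s i ∈ E ↔ t i ∈ E))
    (hE : D2a_CC s t J E) : D2a_CC s t (J \ {i}) E := by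
  intro A hA h
  refine hE A hA fun j hj h2 => ?_
  by_cases hji : j = i
  · subst hji
    apply hi
    rcases h2 with ⟨h3, h4⟩ | ⟨h3, h4⟩
    · exact ⟨fun _ => h4.1, fun _ => hA h3⟩
    · exact ⟨fun _ => hA h3, fun _ => h4.1⟩
  · exact h j ⟨hj, hji⟩ h2

theorem D2a_main (s t : ι → Ω) : ∀ (n : ℕ) (J : Set ι) (x y : Ω),
    Relation.ReflTransGen (D2a_R s t J) x y →
    {E : Set Ω | x ∈ E ∧ y ∉ E ∧ (D2a_cob s t J E).Finite ∧ (D2a_cob s t J E).ncard ≤ n ∧
      D2a_CC s t J E ∧ D2a_CC s t J Eᶜ}.Finite := by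
  intro n
  induction n with
  | zero =>
    intro J x y h
    obtain ⟨F, hF, hFJ, hcut⟩ := D2a_path s t J h
    refine Set.Finite.subset Set.finite_empty ?_
    rintro E ⟨hx, hy, hfin, hn, -, -⟩
    obtain ⟨i, -, hi⟩ := hcut E hx hy
    have h1 : (D2a_cob s t J E).ncard ≠ 0 := by
      rw [Ne, Set.ncard_eq_zero hfin]
      intro h2
      rw [h2] at hi
      exact hi
    omega
  | succ n ih =>
    intro J x y h
    obtain ⟨F, hF, hFJ, hcut⟩ := D2a_path s t J h
    -- the candidates for one edge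
    have hone : ∀ i ∈ F, {E : Set Ω | i ∈ D2a_cob s t J E ∧ (D2a_cob s t J E).Finite ∧
        (D2a_cob s t J E).ncard ≤ n + 1 ∧ D2a_CC s t J E ∧ D2a_CC s t J Eᶜ}.Finite := by
      intro i hi
      have hsub : ∀ E : Set Ω, D2a_cob s t (J \ {i}) E = D2a_cob s t J E \ {i} := by
        intro E
        ext j
        constructor
        · rintro ⟨⟨h1, h2⟩, h3⟩
          exact ⟨⟨h1, h3⟩, h2⟩
        · rintro ⟨⟨h1, h2⟩, h3⟩
          exact ⟨⟨h1, h3⟩, h2⟩
      have hcard : ∀ E : Set Ω, i ∈ D2a_cob s t J E → (D2a_cob s t J E).Finite →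
          (D2a_cob s t J E).ncard ≤ n + 1 → (D2a_cob s t (J \ {i}) E).Finite ∧
            (D2a_cob s t (J \ {i}) E).ncard ≤ n := by
        intro E h1 h2 h3
        rw [hsub]
        refine ⟨h2.subset Set.sdiff_subset, ?_⟩
        rw [Set.ncard_sdiff_singleton_of_mem h1]
        omega
      by_cases hj : Relation.ReflTransGen (D2a_R s t (J \ {i})) (s i) (t i)
      · refine ((ih (J \ {i}) (s i) (t i) hj).union
          (ih (J \ {i}) (t i) (s i) (D2a_symm s t _ hj))).subset ?_
        rintro E ⟨h1, h2, h3, h4, h5⟩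
        obtain ⟨h6, h7⟩ := hcard E h1 h2 h3
        have h8 := D2a_del s t J E i h1.2 h4
        have h9 := D2a_del s t J Eᶜ i (by
          intro h10
          apply h1.2
          rw [Set.mem_compl_iff, Set.mem_compl_iff] at h10
          exact not_iff_not.1 h10) h5
        by_cases hs : s i ∈ E
        · have ht : t i ∉ E := fun ht => h1.2 ⟨fun _ => ht, fun _ => hs⟩
          exact Or.inl ⟨hs, ht, h6, h7, h8, h9⟩
        · have ht : t i ∈ E := by
            by_contra ht
            exact h1.2 ⟨fun h => absurd h hs, fun h => absurd h ht⟩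
          exact Or.inr ⟨ht, hs, h6, h7, h8, h9⟩
      · refine ((Set.finite_singleton {z | Relation.ReflTransGen (D2a_R s t (J \ {i})) (s i) z}).union
          (Set.finite_singleton {z | Relation.ReflTransGen (D2a_R s t (J \ {i})) (t i) z})).subset ?_
        rintro E ⟨h1, h2, h3, h4, h5⟩
        have h8 := D2a_del s t J E i h1.2 h4
        have h9 := D2a_del s t J Eᶜ i (by
          intro h10
          apply h1.2
          rw [Set.mem_compl_iff, Set.mem_compl_iff] at h10
          exact not_iff_not.1 h10) h5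
        have hkey : ∀ a b : Ω, a ∈ E → b ∉ E →
            ¬ Relation.ReflTransGen (D2a_R s t (J \ {i})) a b →
            E = {z | Relation.ReflTransGen (D2a_R s t (J \ {i})) a z} := by
          intro a b ha hb hab
          refine Set.Subset.antisymm (D2a_sub s t _ E h8 a ha) ?_
          intro z hz
          by_contra hzE
          have h10 := D2a_sub s t _ Eᶜ h9 b hb (show z ∈ Eᶜ from hzE)
          exact hab (Relation.ReflTransGen.trans hz (D2a_symm s t _ h10))
        by_cases hs : s i ∈ E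
        · have ht : t i ∉ E := fun ht => h1.2 ⟨fun _ => ht, fun _ => hs⟩
          exact Or.inl (hkey _ _ hs ht hj)
        · have ht : t i ∈ E := by
            by_contra ht
            exact h1.2 ⟨fun h => absurd h hs, fun h => absurd h ht⟩
          exact Or.inr (hkey _ _ ht hs fun h => hj (D2a_symm s t _ h))
    refine (Set.Finite.biUnion hF hone).subset ?_
    rintro E ⟨hx, hy, h1, h2, h3, h4⟩
    obtain ⟨i, hi, hi2⟩ := hcut E hx hy
    exact Set.mem_biUnion hi ⟨hi2, h1, h2, h3, h4⟩

/-- ROW w-D2a (b). Only finitely many cuts of size `n`, connected on both sides, separate `x` from `y`. Generalise: for a set `J` of edges (the others deleted), if `x` and `y` are joined by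
a path with edges in `J` (`Relation.ReflTransGen`), only finitely many `E ∋ x`, `y ∉ E`, connected and co-connected with respect to `J`, have at most `n` edges of `J` in the coboundary. Induction on
`n`: such an `E` cuts one of the finitely many edges `i` of the path; delete `i` (both sides stay connected); if the ends of `i` are still joined, use
induction, otherwise `E` is the component of one end. (Connectedness of the graph: `hconn`; it gives paths: the set of vertices joined to `x` has empty coboundary.) -/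
theorem finite_cuts (s t : ι → Ω) (hconn : ∀ E : Set Ω, cob s t E = ∅ → E = ∅ ∨ E = Set.univ) (x y : Ω) (n : ℕ) :
    {E : Set Ω | x ∈ E ∧ y ∉ E ∧ (cob s t E).Finite ∧ (cob s t E).ncard ≤ n ∧ CutConn s t E ∧ CutConn s t Eᶜ}.Finite := by
  have hpath : Relation.ReflTransGen (D2a_R s t Set.univ) x y := by
    have h1 : cob s t {z | Relation.ReflTransGen (D2a_R s t Set.univ) x z} = ∅ := by
      rw [Set.eq_empty_iff_forall_notMem]
      intro i hi
      exact hi (D2a_comp s t Set.univ x i (Set.mem_univ i))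
    rcases hconn _ h1 with h2 | h2
    · exact absurd (h2 ▸ (Relation.ReflTransGen.refl :
        x ∈ {z | Relation.ReflTransGen (D2a_R s t Set.univ) x z})) (Set.notMem_empty x)
    · have h3 : y ∈ {z | Relation.ReflTransGen (D2a_R s t Set.univ) x z} := by
        rw [h2]
        exact Set.mem_univ y
      exact h3
  have hcob : ∀ E : Set Ω, D2a_cob s t Set.univ E = cob s t E := by
    intro E
    ext i
    exact ⟨fun h => h.2, fun h => ⟨Set.mem_univ i, h⟩⟩
  refine (D2a_main s t n Set.univ x y hpath).subset ?_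
  rintro E ⟨h1, h2, h3, h4, h5, h6⟩
  refine ⟨h1, h2, by rw [hcob]; exact h3, by rw [hcob]; exact h4, ?_, ?_⟩
  · exact fun A hA h => h5 A hA fun i => h i (Set.mem_univ i)
  · exact fun A hA h => h6 A hA fun i => h i (Set.mem_univ i)

end WQ
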