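import Pool.Agent.Lib.MP_0c5642_al.W.D2a

/-! ROW w-D2b: crossing cuts; submodularity. -/

set_option autoImplicit false

namespace WQ

open scoped Pointwise

variable {Ω ι : Type*}

theorem D2b_aux (s t : ι → Ω) (E F : Set Ω) (hF : CutConn s t F) (h1 : (F ∩ E).Nonempty)
    (h2 : (F \ E).Nonempty) : ∃ i ∈ cob s t E, s i ∈ F := by
  by_contra hcon
  push Not at hcon
  have h3 := hF (F ∩ E) Set.inter_subset_left (by
    intro i hi
    rcases hi with ⟨⟨ha, hb⟩, hc, hd⟩ | ⟨⟨ha, hb⟩, hc, hd⟩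
    · refine hcon i ?_ ha
      intro hiff
      exact hd ⟨hc, hiff.1 hb⟩
    · refine hcon i ?_ hc
      intro hiff
      exact hd ⟨hc, hiff.2 hb⟩)
  rcases h3 with h3 | h3
  · exact Set.not_nonempty_empty (h3 ▸ h1)
  · obtain ⟨x, hx, hx'⟩ := h2
    rw [← h3] at hx
    exact hx' hx.2

theorem D2b_count {A B C D : Set ι} (hA : A.Finite) (hB : B.Finite) (hC : C.Finite) (hD : D.Finite)
    (h1 : A ∪ B ⊆ C ∪ D) (h2 : A ∩ B ⊆ C ∩ D) : A.ncard + B.ncard ≤ C.ncard + D.ncard := by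
  rw [← Set.ncard_union_add_ncard_inter A B hA hB, ← Set.ncard_union_add_ncard_inter C D hC hD]
  exact add_le_add (Set.ncard_le_ncard h1 (hC.union hD)) (Set.ncard_le_ncard h2 (hC.inter_of_left D))

/-- ROW w-D2b (c). Only finitely many such cuts cross a given set `E` with finite coboundary. -/
theorem finite_cross (s t : ι → Ω) (hconn : ∀ E : Set Ω, cob s t E = ∅ → E = ∅ ∨ E = Set.univ) (n : ℕ) (E : Set Ω)
    (hE : (cob s t E).Finite) :
    {F : Set Ω | Cross E F ∧ (cob s t F).Finite ∧ (cob s t F).ncard ≤ n ∧ CutConn s t F ∧ CutConn s t Fᶜ}.Finite := by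
  refine Set.Finite.subset (hE.biUnion fun i _ => hE.biUnion fun j _ =>
    finite_cuts s t hconn (s i) (s j) n) ?_
  rintro F ⟨⟨c1, c2, c3, c4⟩, hF, hn, hF1, hF2⟩
  obtain ⟨i, hi, hi2⟩ := D2b_aux s t E F hF1 (by rwa [Set.inter_comm]) c3
  obtain ⟨j, hj, hj2⟩ := D2b_aux s t E Fᶜ hF2 (by
      obtain ⟨x, hx, hx2⟩ := c2
      exact ⟨x, hx2, hx⟩) (by
      obtain ⟨x, hx⟩ := c4
      rw [Set.compl_union] at hx
      exact ⟨x, hx.2, hx.1⟩)
  simp only [Set.mem_iUnion]
  exact ⟨i, hi, j, hj, hi2, hj2, hF, hn, hF1, hF2⟩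

/-- submodularity for both pairs of opposite corners -/
theorem cob_submod (s t : ι → Ω) (E F : Set Ω) (hE : (cob s t E).Finite) (hF : (cob s t F).Finite) :
    (cob s t (E ∩ F)).Finite ∧ (cob s t (E ∪ F)).Finite ∧ (cob s t (E \ F)).Finite ∧ (cob s t (F \ E)).Finite ∧
    (cob s t (E ∩ F)).ncard + (cob s t (E ∪ F)).ncard ≤ (cob s t E).ncard + (cob s t F).ncard ∧
    (cob s t (E \ F)).ncard + (cob s t (F \ E)).ncard ≤ (cob s t E).ncard + (cob s t F).ncard := by
  have hU := hE.union hF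
  have a1 : cob s t (E ∩ F) ⊆ cob s t E ∪ cob s t F := by
    intro i hi
    simp only [cob, Set.mem_ofPred_eq, Set.mem_inter_iff, Set.mem_union] at hi ⊢
    tauto
  have a2 : cob s t (E ∪ F) ⊆ cob s t E ∪ cob s t F := by
    intro i hi
    simp only [cob, Set.mem_ofPred_eq, Set.mem_union] at hi ⊢
    tauto
  have a3 : cob s t (E \ F) ⊆ cob s t E ∪ cob s t F := by
    intro i hi
    simp only [cob, Set.mem_ofPred_eq, Set.mem_sdiff, Set.mem_union] at hi ⊢
    tauto
  have a4 : cob s t (F \ E) ⊆ cob s t E ∪ cob s t F := by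
    intro i hi
    simp only [cob, Set.mem_ofPred_eq, Set.mem_sdiff, Set.mem_union] at hi ⊢
    tauto
  have f1 := hU.subset a1
  have f2 := hU.subset a2
  have f3 := hU.subset a3
  have f4 := hU.subset a4
  refine ⟨f1, f2, f3, f4, ?_, ?_⟩
  · refine D2b_count f1 f2 hE hF (Set.union_subset a1 a2) ?_
    intro i hi
    simp only [cob, Set.mem_ofPred_eq, Set.mem_inter_iff, Set.mem_union] at hi ⊢
    tauto
  · refine D2b_count f3 f4 hE hF (Set.union_subset a3 a4) ?_
    intro i hi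
    simp only [cob, Set.mem_ofPred_eq, Set.mem_inter_iff, Set.mem_sdiff] at hi ⊢
    tauto

end WQ
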