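import Pool.Agent.Lib.MP_0c5642_al.W.D2b

/-! ROW w-D2c: Dunwoody lemma. -/

set_option autoImplicit false

namespace WQ

open scoped Pointwise

variable {Ω ι : Type*}

/-- a set with a smallest value -/
private theorem D2c_min {α : Type*} (P : α → Prop) (c : α → ℕ) (h : ∃ E, P E) :
    ∃ E, P E ∧ ∀ F, P F → c E ≤ c F := by
  classical
  have h1 : ∃ k, ∃ E, P E ∧ c E = k := ⟨_, h.choose, h.choose_spec, rfl⟩
  obtain ⟨E, hE, hc⟩ := Nat.find_spec h1
  refine ⟨E, hE, fun F hF => ?_⟩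
  rw [hc]
  exact Nat.find_min' h1 ⟨F, hF, rfl⟩

private theorem D2c_cob_compl (s t : ι → Ω) (E : Set Ω) : cob s t Eᶜ = cob s t E := by
  ext i
  simp only [cob, Set.mem_setOf_eq, Set.mem_compl_iff]
  tauto

private theorem D2c_cross_symm {A B : Set Ω} (h : Cross A B) : Cross B A := by
  obtain ⟨h1, h2, h3, h4⟩ := h
  exact ⟨by rwa [Set.inter_comm], h3, h2, by rwa [Set.union_comm]⟩

private theorem D2c_cross_compl {A B : Set Ω} (h : Cross A B) : Cross Aᶜ B := by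
  obtain ⟨⟨x, hx⟩, ⟨y, hy⟩, ⟨z, hz⟩, ⟨w, hw⟩⟩ := h
  simp only [Set.mem_inter_iff, Set.mem_sdiff, Set.mem_compl_iff, Set.mem_union] at hx hy hz hw
  refine ⟨⟨z, ?_⟩, ⟨w, ?_⟩, ⟨x, ?_⟩, ⟨y, ?_⟩⟩ <;>
    simp only [Set.mem_inter_iff, Set.mem_sdiff, Set.mem_compl_iff, Set.mem_union] <;> tauto

private theorem D2c_not_cross {A B : Set Ω} (h : ¬ Cross A B) :
    (∀ x, x ∈ A → x ∉ B) ∨ (∀ x, x ∈ A → x ∈ B) ∨ (∀ x, x ∈ B → x ∈ A) ∨ (∀ x, x ∈ A ∨ x ∈ B) := by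
  by_contra hcon
  push Not at hcon
  obtain ⟨⟨x, hx1, hx2⟩, ⟨y, hy1, hy2⟩, ⟨z, hz1, hz2⟩, ⟨w, hw1, hw2⟩⟩ := hcon
  refine h ⟨⟨x, hx1, hx2⟩, ⟨y, hy1, hy2⟩, ⟨z, hz1, hz2⟩, ⟨w, ?_⟩⟩
  simp only [Set.mem_compl_iff, Set.mem_union]
  tauto

/-- a set crossing `A ∩ B` or `A ∪ B` crosses `A` or `B` -/
private theorem D2c_one {A B F : Set Ω} (hAB : Cross A B) (h : Cross (A ∩ B) F ∨ Cross (A ∪ B) F) :
    Cross A F ∨ Cross B F := by
  by_contra hcon
  push Not at hcon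
  obtain ⟨⟨x, hx⟩, ⟨y, hy⟩, ⟨z, hz⟩, ⟨w, hw⟩⟩ := hAB
  simp only [Set.mem_inter_iff, Set.mem_sdiff, Set.mem_compl_iff, Set.mem_union] at hx hy hz hw
  have h1 := D2c_not_cross hcon.1
  have h2 := D2c_not_cross hcon.2
  rcases h with ⟨⟨x', hx'⟩, ⟨y', hy'⟩, ⟨z', hz'⟩, ⟨w', hw'⟩⟩ | ⟨⟨x', hx'⟩, ⟨y', hy'⟩, ⟨z', hz'⟩, ⟨w', hw'⟩⟩
  · simp only [Set.mem_inter_iff, Set.mem_sdiff, Set.mem_compl_iff, Set.mem_union] at hx' hy' hz' hw'
    rcases h1 with h1 | h1 | h1 | h1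
    · exact h1 x' hx'.1.1 hx'.2
    · exact hy'.2 (h1 y' hy'.1.1)
    · rcases h2 with h2 | h2 | h2 | h2
      · exact h2 x' hx'.1.2 hx'.2
      · exact hy'.2 (h2 y' hy'.1.2)
      · exact hz'.2 ⟨h1 z' hz'.1, h2 z' hz'.1⟩
      · rcases h2 w with h3 | h3
        · exact hw (Or.inr h3)
        · exact hw (Or.inl (h1 w h3))
    · rcases h2 with h2 | h2 | h2 | h2
      · exact h2 x' hx'.1.2 hx'.2
      · exact hy'.2 (h2 y' hy'.1.2)
      · rcases h1 w with h3 | h3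
        · exact hw (Or.inl h3)
        · exact hw (Or.inr (h2 w h3))
      · rcases h1 w' with h3 | h3
        · rcases h2 w' with h4 | h4
          · exact hw' (Or.inl ⟨h3, h4⟩)
          · exact hw' (Or.inr h4)
        · exact hw' (Or.inr h3)
  · simp only [Set.mem_inter_iff, Set.mem_sdiff, Set.mem_compl_iff, Set.mem_union] at hx' hy' hz' hw'
    rcases h1 with h1 | h1 | h1 | h1
    · rcases h2 with h2 | h2 | h2 | h2
      · rcases hx'.1 with h3 | h3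
        · exact h1 x' h3 hx'.2
        · exact h2 x' h3 hx'.2
      · exact h1 x hx.1 (h2 x hx.2)
      · exact hz'.2 (Or.inr (h2 z' hz'.1))
      · exact hw' (by rcases h2 w' with h3 | h3 <;> tauto)
    · rcases h2 with h2 | h2 | h2 | h2
      · exact h2 x hx.2 (h1 x hx.1)
      · rcases hy'.1 with h3 | h3
        · exact hy'.2 (h1 y' h3)
        · exact hy'.2 (h2 y' h3)
      · exact hz'.2 (Or.inr (h2 z' hz'.1))
      · exact hw' (by rcases h2 w' with h3 | h3 <;> tauto)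
    · exact hz'.2 (Or.inl (h1 z' hz'.1))
    · exact hw' (by rcases h1 w' with h3 | h3 <;> tauto)

/-- a set crossing both `A ∩ B` and `A ∪ B` crosses `A` -/
private theorem D2c_two {A B F : Set Ω} (h1 : Cross (A ∩ B) F) (h2 : Cross (A ∪ B) F) :
    Cross A F := by
  obtain ⟨⟨x, hx⟩, ⟨y, hy⟩, -, -⟩ := h1
  obtain ⟨-, -, ⟨z', hz'⟩, ⟨w', hw'⟩⟩ := h2
  simp only [Set.mem_inter_iff, Set.mem_sdiff, Set.mem_compl_iff, Set.mem_union] at hx hy hz' hw'
  refine ⟨⟨x, hx.1.1, hx.2⟩, ⟨y, hy.1.1, hy.2⟩, ⟨z', hz'.1, fun h => hz'.2 (Or.inl h)⟩, ⟨w', ?_⟩⟩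
  simp only [Set.mem_compl_iff, Set.mem_union]
  tauto

/-- the sets outside `T` with coboundary of size `n` -/
private def D2c_Cn (s t : ι → Ω) (T : Set (Set Ω)) (n : ℕ) : Set (Set Ω) :=
  {E | E ∉ T ∧ (cob s t E).Finite ∧ (cob s t E).ncard = n}

/-- the members of `Cn` which cross `E` -/
private def D2c_X (s t : ι → Ω) (T : Set (Set Ω)) (n : ℕ) (E : Set Ω) : Set (Set Ω) :=
  {F | F ∈ D2c_Cn s t T n ∧ Cross E F}

private theorem D2c_X_compl (s t : ι → Ω) (T : Set (Set Ω)) (n : ℕ) (E : Set Ω) :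
    D2c_X s t T n Eᶜ = D2c_X s t T n E := by
  ext F
  constructor
  · rintro ⟨h1, h2⟩
    exact ⟨h1, by simpa using D2c_cross_compl h2⟩
  · rintro ⟨h1, h2⟩
    exact ⟨h1, D2c_cross_compl h2⟩

/-- the members of `Cn` are connected -/
private theorem D2c_conn {s t : ι → Ω} (hconn : ∀ E : Set Ω, cob s t E = ∅ → E = ∅ ∨ E = Set.univ)
    {T : Set (Set Ω)} (hTu : ∀ E ∈ T, ∀ F ∈ T, E ∪ F ∈ T) {n : ℕ}
    (hmin : ∀ E, E ∉ T → (cob s t E).Finite → n ≤ (cob s t E).ncard) {E : Set Ω}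
    (hE : E ∈ D2c_Cn s t T n) : CutConn s t E := by
  intro A hA hno
  by_contra hcon
  push Not at hcon
  obtain ⟨hA0, hAE⟩ := hcon
  obtain ⟨hET, hEf, hEn⟩ := hE
  have hsubA : cob s t A ⊆ cob s t E := by
    intro i hi hiff
    simp only [cob, Set.mem_setOf_eq] at hi
    refine hno i ?_
    by_cases h1 : s i ∈ A
    · have h2 : t i ∉ A := fun h2 => hi ⟨fun _ => h2, fun _ => h1⟩
      exact Or.inl ⟨h1, hiff.1 (hA h1), h2⟩
    · have h2 : t i ∈ A := by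
        by_contra h2
        exact hi ⟨fun h3 => absurd h3 h1, fun h3 => absurd h3 h2⟩
      exact Or.inr ⟨h2, hiff.2 (hA h2), h1⟩
  have hsubB : cob s t (E \ A) ⊆ cob s t E := by
    intro i hi hiff
    simp only [cob, Set.mem_setOf_eq, Set.mem_sdiff] at hi
    have hn := hno i
    simp only [Set.mem_sdiff] at hn
    tauto
  have hdisj : Disjoint (cob s t A) (cob s t (E \ A)) := by
    rw [Set.disjoint_left]
    intro i hi1 hi2
    have hn := hno i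
    have h1 : s i ∈ A → s i ∈ E := fun h => hA h
    have h2 : t i ∈ A → t i ∈ E := fun h => hA h
    simp only [cob, Set.mem_setOf_eq, Set.mem_sdiff] at hi1 hi2 hn
    tauto
  have hneA : (cob s t A).Nonempty := by
    rw [Set.nonempty_iff_ne_empty]
    intro h0
    rcases hconn A h0 with h1 | h1
    · exact hA0.ne_empty h1
    · exact hAE (Set.Subset.antisymm hA (by rw [h1]; exact Set.subset_univ _))
  have hneB : (cob s t (E \ A)).Nonempty := by
    rw [Set.nonempty_iff_ne_empty]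
    intro h0
    rcases hconn _ h0 with h1 | h1
    · exact hAE (Set.Subset.antisymm hA (Set.sdiff_eq_empty.1 h1))
    · obtain ⟨x, hx⟩ := hA0
      have h2 : x ∈ E \ A := by rw [h1]; exact Set.mem_univ x
      exact h2.2 hx
  have hfA := hEf.subset hsubA
  have hfB := hEf.subset hsubB
  have hcard : (cob s t A).ncard + (cob s t (E \ A)).ncard ≤ n := by
    rw [← hEn, ← Set.ncard_union_eq hdisj hfA hfB]
    exact Set.ncard_le_ncard (Set.union_subset hsubA hsubB) hEf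
  have hpA := (Set.ncard_pos hfA).2 hneA
  have hpB := (Set.ncard_pos hfB).2 hneB
  have hor : A ∉ T ∨ E \ A ∉ T := by
    by_contra hcon
    push Not at hcon
    have h1 := hTu _ hcon.1 _ hcon.2
    rw [Set.union_sdiff_cancel hA] at h1
    exact hET h1
  rcases hor with h | h
  · have := hmin A h hfA
    omega
  · have := hmin _ h hfB
    omega

/-- uncrossing -/
private theorem D2c_uncross {s t : ι → Ω} (hconn : ∀ E : Set Ω, cob s t E = ∅ → E = ∅ ∨ E = Set.univ)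
    {T : Set (Set Ω)} {n : ℕ} (hmin : ∀ E, E ∉ T → (cob s t E).Finite → n ≤ (cob s t E).ncard)
    (hfin : ∀ E ∈ D2c_Cn s t T n, (D2c_X s t T n E).Finite) {A B : Set Ω}
    (hA : A ∈ D2c_Cn s t T n) (hB : B ∈ D2c_Cn s t T n) (hAB : Cross A B) (h1 : A ∩ B ∉ T)
    (h2 : A ∪ B ∉ T) :
    A ∩ B ∈ D2c_Cn s t T n ∧ A ∪ B ∈ D2c_Cn s t T n ∧
      (D2c_X s t T n (A ∩ B)).ncard + (D2c_X s t T n (A ∪ B)).ncard <
        (D2c_X s t T n A).ncard + (D2c_X s t T n B).ncard := by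
  obtain ⟨f1, f2, -, -, hs, -⟩ := cob_submod s t A B hA.2.1 hB.2.1
  have m1 := hmin _ h1 f1
  have m2 := hmin _ h2 f2
  rw [hA.2.2, hB.2.2] at hs
  have hC : A ∩ B ∈ D2c_Cn s t T n := ⟨h1, f1, by omega⟩
  have hD : A ∪ B ∈ D2c_Cn s t T n := ⟨h2, f2, by omega⟩
  refine ⟨hC, hD, ?_⟩
  have fA := hfin A hA
  have fB := hfin B hB
  have fC := hfin _ hC
  have fD := hfin _ hD
  rw [← Set.ncard_union_add_ncard_inter _ _ fC fD, ← Set.ncard_union_add_ncard_inter _ _ fA fB]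
  have e1 : (D2c_X s t T n (A ∩ B) ∩ D2c_X s t T n (A ∪ B)).ncard ≤
      (D2c_X s t T n A ∩ D2c_X s t T n B).ncard := by
    refine Set.ncard_le_ncard ?_ (fA.inter_of_left _)
    rintro F ⟨⟨hF, c1⟩, ⟨-, c2⟩⟩
    refine ⟨⟨hF, D2c_two c1 c2⟩, ⟨hF, ?_⟩⟩
    rw [Set.inter_comm] at c1
    rw [Set.union_comm] at c2
    exact D2c_two c1 c2
  have e2 : (D2c_X s t T n (A ∩ B) ∪ D2c_X s t T n (A ∪ B)).ncard <
      (D2c_X s t T n A ∪ D2c_X s t T n B).ncard := by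
    refine Set.ncard_lt_ncard ?_ (fA.union fB)
    rw [Set.ssubset_iff_of_subset]
    · refine ⟨A, Or.inr ⟨hA, D2c_cross_symm hAB⟩, ?_⟩
      rintro (⟨-, c⟩ | ⟨-, c⟩)
      · obtain ⟨x, hx⟩ := c.2.1
        exact hx.2 hx.1.1
      · obtain ⟨x, hx⟩ := c.2.2.1
        exact hx.2 (Or.inl hx.1)
    · rintro F (⟨hF, c⟩ | ⟨hF, c⟩)
      · rcases D2c_one hAB (Or.inl c) with h | h
        · exact Or.inl ⟨hF, h⟩
        · exact Or.inr ⟨hF, h⟩
      · rcases D2c_one hAB (Or.inr c) with h | h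
        · exact Or.inl ⟨hF, h⟩
        · exact Or.inr ⟨hF, h⟩
  omega

private theorem D2c_cross_image (f : Equiv.Perm Ω) {A B : Set Ω} (h : Cross A B) :
    Cross (f '' A) (f '' B) := by
  obtain ⟨⟨x, hx⟩, ⟨y, hy⟩, ⟨z, hz⟩, ⟨w, hw⟩⟩ := h
  have hm : ∀ (x : Ω) (C : Set Ω), f x ∈ f '' C ↔ x ∈ C := fun x C =>
    Function.Injective.mem_set_image f.injective
  simp only [Set.mem_inter_iff, Set.mem_sdiff, Set.mem_compl_iff, Set.mem_union] at hx hy hz hw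
  refine ⟨⟨f x, ?_⟩, ⟨f y, ?_⟩, ⟨f z, ?_⟩, ⟨f w, ?_⟩⟩ <;>
    simp only [Set.mem_inter_iff, Set.mem_sdiff, Set.mem_compl_iff, Set.mem_union, hm] <;> tauto

/-- ROW w-D2c. Dunwoody's lemma. `T` is closed under complements and intersections. `Cn` = sets outside `T` with smallest coboundary `n`; `m E` = number of elements of `Cn` crossing `E`. An `E ∈ Cn`
with `m E` minimal does not cross any other such set. -/
theorem dunwoody (s t : ι → Ω) (hconn : ∀ E : Set Ω, cob s t E = ∅ → E = ∅ ∨ E = Set.univ)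
    (T : Set (Set Ω)) (hTc : ∀ E ∈ T, Eᶜ ∈ T) (hTi : ∀ E ∈ T, ∀ F ∈ T, E ∩ F ∈ T)
    (E₀ : Set Ω) (h₀ : E₀ ∉ T) (hf₀ : (cob s t E₀).Finite) :
    ∃ E : Set Ω, E ∉ T ∧ (cob s t E).Finite ∧
      ∀ (f : Equiv.Perm Ω), (∀ A, f '' A ∈ T ↔ A ∈ T) →
        (∀ A, (cob s t A).Finite → (cob s t (f '' A)).Finite ∧ (cob s t (f '' A)).ncard = (cob s t A).ncard) →
        (∀ A, (cob s t (f '' A)).Finite → (cob s t A).Finite) →
        ¬ Cross E (f '' E) := by
  by_cases hemp : (∅ : Set Ω) ∈ T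
  swap
  · refine ⟨∅, hemp, ?_, ?_⟩
    · have h0 : cob s t (∅ : Set Ω) = ∅ := by
        ext i
        simp [cob]
      rw [h0]
      exact Set.finite_empty
    · intro f _ _ _ hc
      obtain ⟨x, hx⟩ := hc.1
      exact hx.1
  have hTu : ∀ E ∈ T, ∀ F ∈ T, E ∪ F ∈ T := by
    intro E hE F hF
    have h1 := hTc _ (hTi _ (hTc E hE) _ (hTc F hF))
    rwa [← Set.compl_union, compl_compl] at h1
  have hTc' : ∀ E, E ∉ T → Eᶜ ∉ T := by
    intro E hE h
    have h1 := hTc _ h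
    rw [compl_compl] at h1
    exact hE h1
  obtain ⟨E₁, ⟨hE₁T, hE₁f⟩, hE₁min⟩ := D2c_min (fun E : Set Ω => E ∉ T ∧ (cob s t E).Finite)
    (fun E => (cob s t E).ncard) ⟨E₀, h₀, hf₀⟩
  set n := (cob s t E₁).ncard with hn
  have hmin : ∀ E, E ∉ T → (cob s t E).Finite → n ≤ (cob s t E).ncard :=
    fun E h1 h2 => hE₁min E ⟨h1, h2⟩
  have hCc : ∀ E ∈ D2c_Cn s t T n, Eᶜ ∈ D2c_Cn s t T n := by
    rintro E ⟨h1, h2, h3⟩
    refine ⟨hTc' E h1, ?_, ?_⟩
    · rwa [D2c_cob_compl]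
    · rwa [D2c_cob_compl]
  have hfin : ∀ E ∈ D2c_Cn s t T n, (D2c_X s t T n E).Finite := by
    intro E hE
    refine (finite_cross s t hconn n E hE.2.1).subset ?_
    rintro F ⟨hF, hc⟩
    exact ⟨hc, hF.2.1, hF.2.2.le, D2c_conn hconn hTu hmin hF, D2c_conn hconn hTu hmin (hCc F hF)⟩
  obtain ⟨E, hE, hEmin⟩ := D2c_min (fun E : Set Ω => E ∈ D2c_Cn s t T n)
    (fun E => (D2c_X s t T n E).ncard) ⟨E₁, hE₁T, hE₁f, rfl⟩
  refine ⟨E, hE.1, hE.2.1, fun f hfT hfc hff hcross => ?_⟩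
  have hCf : ∀ F, f '' F ∈ D2c_Cn s t T n ↔ F ∈ D2c_Cn s t T n := by
    intro F
    constructor
    · rintro ⟨h1, h2, h3⟩
      have h4 := hff F h2
      exact ⟨fun h => h1 ((hfT F).2 h), h4, by rw [← (hfc F h4).2]; exact h3⟩
    · rintro ⟨h1, h2, h3⟩
      exact ⟨fun h => h1 ((hfT F).1 h), (hfc F h2).1, by rw [(hfc F h2).2]; exact h3⟩
  have hE' : f '' E ∈ D2c_Cn s t T n := (hCf E).2 hE
  have hXle : (D2c_X s t T n (f '' E)).ncard ≤ (D2c_X s t T n E).ncard := by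
    have himg : D2c_X s t T n (f '' E) ⊆ (fun F : Set Ω => f '' F) '' D2c_X s t T n E := by
      rintro F ⟨hF, hc⟩
      have h1 : f '' (f.symm '' F) = F := by
        rw [Set.image_image]
        simp
      have h2 : f.symm '' (f '' E) = E := by
        rw [Set.image_image]
        simp
      refine ⟨f.symm '' F, ⟨?_, ?_⟩, h1⟩
      · rw [← hCf, h1]
        exact hF
      · have h3 := D2c_cross_image f.symm hc
        rwa [h2] at h3
    exact (Set.ncard_le_ncard himg ((hfin E hE).image _)).trans (Set.ncard_image_le (hfin E hE))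
  by_cases hcase : E ∩ (f '' E) ∉ T ∧ E ∪ (f '' E) ∉ T
  · obtain ⟨hC, hD, hlt⟩ := D2c_uncross hconn hmin hfin hE hE' hcross hcase.1 hcase.2
    have k1 := hEmin _ hC
    have k2 := hEmin _ hD
    omega
  · have hE'c := hCc _ hE'
    have hcr : Cross E (f '' E)ᶜ := D2c_cross_symm (D2c_cross_compl (D2c_cross_symm hcross))
    have g1 : E ∩ (f '' E)ᶜ ∉ T := by
      intro h
      refine hcase ⟨fun h' => hE.1 ?_, fun h' => hE'.1 ?_⟩
      · have := hTu _ h' _ h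
        rwa [← Set.inter_union_distrib_left, Set.union_compl_self, Set.inter_univ] at this
      · have h3 := hTc _ (hTu _ h _ (hTc _ h'))
        have h4 : (E ∩ (f '' E)ᶜ ∪ (E ∪ f '' E)ᶜ)ᶜ = f '' E := by
          ext x
          simp only [Set.mem_compl_iff, Set.mem_union, Set.mem_inter_iff]
          tauto
        rwa [h4] at h3
    have g2 : E ∪ (f '' E)ᶜ ∉ T := by
      intro h
      refine hcase ⟨fun h' => hE'.1 ?_, fun h' => hE.1 ?_⟩
      · have h3 := hTu _ h' _ (hTc _ h)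
        have h4 : E ∩ f '' E ∪ (E ∪ (f '' E)ᶜ)ᶜ = f '' E := by
          ext x
          simp only [Set.mem_compl_iff, Set.mem_union, Set.mem_inter_iff]
          tauto
        rwa [h4] at h3
      · have h3 := hTi _ h _ h'
        have h4 : (E ∪ (f '' E)ᶜ) ∩ (E ∪ f '' E) = E := by
          ext x
          simp only [Set.mem_compl_iff, Set.mem_union, Set.mem_inter_iff]
          tauto
        rwa [h4] at h3
    obtain ⟨hC, hD, hlt⟩ := D2c_uncross hconn hmin hfin hE hE'c hcr g1 g2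
    rw [D2c_X_compl] at hlt
    have k1 := hEmin _ hC
    have k2 := hEmin _ hD
    omega

end WQ
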