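import Mathlib

/-! Definitions for Dunwoody lemma: connected multigraph (`Ω` vertices, `ι` edges `s i — t i`). -/

set_option autoImplicit false

namespace WQ

open scoped Pointwise

variable {Ω ι : Type*}

/-- coboundary of a set of vertices -/
def cob (s t : ι → Ω) (E : Set Ω) : Set ι := {i | ¬ (s i ∈ E ↔ t i ∈ E)}

/-- `E` is connected (in terms of cuts): no proper nonempty part without edges to the rest of `E` -/
def CutConn (s t : ι → Ω) (E : Set Ω) : Prop :=
  ∀ A ⊆ E, (∀ i, ¬ ((s i ∈ A ∧ t i ∈ E \ A) ∨ (t i ∈ A ∧ s i ∈ E \ A))) → A = ∅ ∨ A = E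

/-- all four corners are nonempty -/
def Cross (A B : Set Ω) : Prop := (A ∩ B).Nonempty ∧ (A \ B).Nonempty ∧ (B \ A).Nonempty ∧ (A ∪ B)ᶜ.Nonempty

end WQ
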