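import Pool.Agent.Lib.MP_0c5642_al.W.D1b
import Pool.Agent.Lib.MP_0c5642_al.W.D2c

/-! ROW w-D3: the Dunwoody property of the algebra of traces. -/

set_option autoImplicit false

namespace WQ

open scoped Pointwise

variable {G : Type*} [Group G] {V W : Subgroup G}

/-- source of the edges -/
def D3_src (W V : Subgroup G) (S : Finset G) : (V × S) ⊕ ({x : V // (x : G) ∉ W} × W) → V :=
  Sum.elim (fun p => p.1) fun p => p.1.1

/-- target of the edges -/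
def D3_tgt (hWV : W ≤ V) (S : Finset G) (hS : ∀ s ∈ S, s ∈ V) : (V × S) ⊕ ({x : V // (x : G) ∉ W} × W) → V :=
  Sum.elim (fun p => p.1 * ⟨p.2, hS _ p.2.2⟩) fun p => p.1.1 * ⟨p.2, hWV p.2.2⟩

/-- a set of elements of the subgroup as a set of elements of the group -/
def D3_up (A : Set V) : Set G := {g | ∃ h : g ∈ V, (⟨g, h⟩ : V) ∈ A}

theorem D3_mem_up {A : Set V} {x : V} : (x : G) ∈ D3_up A ↔ x ∈ A :=
  ⟨fun ⟨_, h⟩ => h, fun h => ⟨x.2, h⟩⟩

theorem D3_up_sub (A : Set V) : D3_up A ⊆ (V : Set G) := fun _ h => h.1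

theorem D3_clean_of (hWV : W ≤ V) (hinf : (W : Set G).Infinite) (S : Finset G) (hS : ∀ s ∈ S, s ∈ V)
    (hcl : Subgroup.closure (S : Set G) = V) {A : Set V} (h : (cob (D3_src W V S) (D3_tgt hWV S hS) A).Finite) :
    Clean W V (D3_up A) := by
  refine ⟨ai_of_closure (S : Set G) hcl (D3_up_sub A) fun s hs => ?_, fun g hg hgW => ?_⟩
  · refine (h.image fun i => (D3_src W V S i : G)).subset fun x hx => ?_
    by_cases hxV : x ∈ V
    · refine ⟨Sum.inl (⟨x, hxV⟩, ⟨s, hs⟩), fun h' => hx ?_, rfl⟩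
      exact (D3_mem_up (x := ⟨x, hxV⟩)).trans
        (Iff.trans h' (D3_mem_up (x := ⟨x, hxV⟩ * ⟨s, hS s hs⟩)).symm)
    · exact absurd (Iff.intro (fun h' => absurd h'.1 hxV)
        fun h' => absurd ((V.mul_mem_cancel_right (hS s hs)).1 h'.1) hxV) hx
  · by_contra hcon
    rw [not_or] at hcon
    obtain ⟨h1, h2⟩ := hcon
    push Not at h1 h2
    obtain ⟨v, hv, hv'⟩ := h1
    obtain ⟨u, hu, hu'⟩ := h2
    have hgw : ∀ w : W, (((⟨g, hg⟩ : V) * ⟨w, hWV w.2⟩ : V) : G) ∉ W := fun w hw =>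
      hgW ((W.mul_mem_cancel_right w.2).1 hw)
    classical
    let e : W → (V × S) ⊕ ({x : V // (x : G) ∉ W} × W) := fun w =>
      Sum.inr (⟨⟨g, hg⟩ * ⟨w, hWV w.2⟩, hgw w⟩,
        if (⟨g, hg⟩ * ⟨w, hWV w.2⟩ : V) ∈ A then w⁻¹ * ⟨v, hv⟩ else w⁻¹ * ⟨u, hu⟩)
    have he : Function.Injective e := by
      intro w w' hww
      have h3 := congrArg (fun p => ((p.1 : {x : V // (x : G) ∉ W}).1 : G)) (Sum.inr.inj hww)
      exact Subtype.ext (mul_left_cancel h3)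
    have hrange : Set.range e ⊆ cob (D3_src W V S) (D3_tgt hWV S hS) A := by
      rintro _ ⟨w, rfl⟩
      intro hiff
      by_cases hw : (⟨g, hg⟩ * ⟨w, hWV w.2⟩ : V) ∈ A
      · have h4 := hiff.1 hw
        apply hv'
        have h5 : D3_tgt hWV S hS (e w) = ⟨g * v, V.mul_mem hg (hWV hv)⟩ := by
          apply Subtype.ext
          show (g * (w : G)) * (((if (⟨g, hg⟩ * ⟨w, hWV w.2⟩ : V) ∈ A then w⁻¹ * ⟨v, hv⟩ else w⁻¹ * ⟨u, hu⟩ : W)) : G) = g * v
          rw [if_pos hw]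
          simp [mul_assoc]
        rw [h5] at h4
        exact ⟨_, h4⟩
      · apply hw
        refine hiff.2 ?_
        have h5 : D3_tgt hWV S hS (e w) = ⟨g * u, V.mul_mem hg (hWV hu)⟩ := by
          apply Subtype.ext
          show (g * (w : G)) * (((if (⟨g, hg⟩ * ⟨w, hWV w.2⟩ : V) ∈ A then w⁻¹ * ⟨v, hv⟩ else w⁻¹ * ⟨u, hu⟩ : W)) : G) = g * u
          rw [if_neg hw]
          simp [mul_assoc]
        rw [h5]
        exact hu'.2
    have : Infinite W := Set.infinite_coe_iff.2 hinf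
    exact Set.infinite_range_of_injective he (h.subset hrange)

theorem D3_of_clean (hWV : W ≤ V) (S : Finset G) (hS : ∀ s ∈ S, s ∈ V) {A : Set V} (h : Clean W V (D3_up A)) :
    (cob (D3_src W V S) (D3_tgt hWV S hS) A).Finite := by
  have hf : (⋃ s : S, (fun x : V => (Sum.inl (x, s) : (V × S) ⊕ ({x : V // (x : G) ∉ W} × W))) ''
      (Subtype.val ⁻¹' {x : G | ¬ (x ∈ D3_up A ↔ x * s ∈ D3_up A)})).Finite := by
    refine Set.finite_iUnion fun s => Set.Finite.image _ ?_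
    exact (h.1.2 s (hS s s.2)).preimage Subtype.val_injective.injOn
  refine hf.subset fun i hi => ?_
  rcases i with ⟨x, s⟩ | ⟨x, w⟩
  · refine Set.mem_iUnion.2 ⟨s, x, fun h' => hi ?_, rfl⟩
    exact (D3_mem_up.symm.trans h').trans (D3_mem_up (x := x * ⟨s, hS _ s.2⟩))
  · exfalso
    apply hi
    show x.1 ∈ A ↔ (x.1 * ⟨w, hWV w.2⟩ : V) ∈ A
    rcases h.2 (x.1 : G) x.1.2 x.2 with h' | h'
    · have h1 := h' 1 W.one_mem
      rw [mul_one] at h1
      exact iff_of_true (D3_mem_up.1 h1) (D3_mem_up (x := x.1 * ⟨w, hWV w.2⟩) |>.1 (h' w w.2))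
    · have h1 := h' 1 W.one_mem
      rw [mul_one] at h1
      exact iff_of_false (fun h2 => h1 (D3_mem_up.2 h2)) fun h2 => h' w w.2 (D3_mem_up (x := x.1 * ⟨w, hWV w.2⟩) |>.2 h2)

/-- the permutation of the edges -/
def D3_edge (hWV : W ≤ V) (S : Finset G) (g : W) :
    ((V × S) ⊕ ({x : V // (x : G) ∉ W} × W)) ≃ ((V × S) ⊕ ({x : V // (x : G) ∉ W} × W)) :=
  Equiv.sumCongr ((Equiv.mulLeft (⟨g, hWV g.2⟩ : V)).prodCongr (Equiv.refl _))
    (((Equiv.mulLeft (⟨g, hWV g.2⟩ : V)).subtypeEquiv fun x =>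
      not_congr (W.mul_mem_cancel_left (x := (g : G)) (y := (x : G)) g.2).symm).prodCongr (Equiv.refl _))

theorem D3_cob_image (hWV : W ≤ V) (S : Finset G) (hS : ∀ s ∈ S, s ∈ V) (g : W) (A : Set V) :
    cob (D3_src W V S) (D3_tgt hWV S hS) ((Equiv.mulLeft (⟨g, hWV g.2⟩ : V)) '' A) =
      D3_edge hWV S g '' cob (D3_src W V S) (D3_tgt hWV S hS) A := by
  ext j
  obtain ⟨i, rfl⟩ := (D3_edge hWV S g).surjective j
  rw [(D3_edge hWV S g).injective.mem_set_image]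
  have h1 : D3_src W V S (D3_edge hWV S g i) = (Equiv.mulLeft (⟨g, hWV g.2⟩ : V)) (D3_src W V S i) := by
    rcases i with i | i <;> rfl
  have h2 : D3_tgt hWV S hS (D3_edge hWV S g i) = (Equiv.mulLeft (⟨g, hWV g.2⟩ : V)) (D3_tgt hWV S hS i) := by
    rcases i with i | i
    · exact mul_assoc _ _ _
    · exact mul_assoc _ _ _
  show ¬ (_ ↔ _) ↔ ¬ (_ ↔ _)
  rw [h1, h2, (Equiv.injective _).mem_set_image, (Equiv.injective _).mem_set_image]

theorem D3_up_image (hWV : W ≤ V) (g : W) (A : Set V) :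
    D3_up ((Equiv.mulLeft (⟨g, hWV g.2⟩ : V)) '' A) ∩ (W : Set G) = (g : G) • (D3_up A ∩ (W : Set G)) := by
  ext x
  rw [Set.mem_smul_set_iff_inv_smul_mem, smul_eq_mul]
  constructor
  · rintro ⟨⟨hx, y, hy, hyx⟩, hxW⟩
    have e : (g : G)⁻¹ * x = y := by
      have := congrArg Subtype.val hyx
      rw [← show ((g : G) * (y : G)) = x from this]
      group
    refine ⟨?_, W.mul_mem (W.inv_mem g.2) hxW⟩
    rw [e]
    exact D3_mem_up.2 hy
  · rintro ⟨⟨hx, hx'⟩, hxW⟩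
    have hxW' : x ∈ W := (W.mul_mem_cancel_left (W.inv_mem g.2)).1 hxW
    refine ⟨⟨hWV hxW', ⟨_, hx⟩, hx', ?_⟩, hxW'⟩
    apply Subtype.ext
    show (g : G) * ((g : G)⁻¹ * x) = x
    group

/-- (3.5). Apply `dunwoody` to `Ω` = quotient of the type `V` by the relation `x ≈ y ↔ x = y ∨ (x ∉ W ∧ x⁻¹ y ∈ W)`, edges `(x, s)`, `x ∈ V`, `s` in a finite generating set. The subsets of `Ω` with finite
coboundary are the clean sets (`ai_of_closure`). `T'` = sets whose preimage has its trace on `W` in `T` (and has finite coboundary; all others are put outside or inside consistently, for example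
`T'` = preimage is clean with trace in `T`; a set in the complement of `T'` with finite coboundary is clean with trace not in `T`). The permutations are the left translations by elements of `W`.
Only the traces on `W` of the resulting `E` are needed. -/
theorem DP_RR (hWV : W ≤ V) (hV : V.FG) (hinf : (W : Set G).Infinite) (hNF : NF W V) : DP W (RR W V) := by
  intro T hT hAlg hne
  obtain ⟨S, hcl⟩ := hV
  have hS : ∀ s ∈ S, s ∈ V := fun s hs => by
    rw [← hcl]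
    exact Subgroup.subset_closure hs
  obtain ⟨A₀, hA₀, hA₀T⟩ : ∃ A ∈ RR W V, A ∉ T := by
    by_contra hcon
    push Not at hcon
    exact hne (Set.Subset.antisymm hT hcon)
  obtain ⟨E₀, hE₀, rfl⟩ := hA₀
  set s := D3_src W V S with hs
  set t := D3_tgt hWV S hS with ht
  let T' : Set (Set V) := {A | (cob s t A).Finite ∧ D3_up A ∩ (W : Set G) ∈ T}
  have hup : D3_up {x : V | (x : G) ∈ E₀} = E₀ := by
    ext x
    exact ⟨fun h => h.2, fun h => ⟨hE₀.1.1 h, h⟩⟩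
  have hconn : ∀ E : Set V, cob s t E = ∅ → E = ∅ ∨ E = Set.univ := by
    intro E hE
    have hinv : ∀ g ∈ Subgroup.closure (S : Set G), ∀ (hg : g ∈ V) (x : V), x ∈ E ↔ x * ⟨g, hg⟩ ∈ E := by
      intro g hg
      induction hg using Subgroup.closure_induction with
      | mem g hgS =>
        intro hg x
        by_contra hcon
        have : (Sum.inl (x, ⟨g, hgS⟩) : (V × S) ⊕ ({x : V // (x : G) ∉ W} × W)) ∈ cob s t E := hcon
        rw [hE] at this
        exact this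
      | one =>
        intro hg x
        have : (⟨1, hg⟩ : V) = 1 := rfl
        rw [this, mul_one]
      | mul a b ha hb iha ihb =>
        intro hg x
        rw [hcl] at ha hb
        have e : x * ⟨a * b, hg⟩ = x * ⟨a, ha⟩ * ⟨b, hb⟩ := Subtype.ext (mul_assoc _ _ _).symm
        rw [e, ← ihb hb, ← iha ha]
      | inv a ha iha =>
        intro hg x
        rw [hcl] at ha
        rw [iha ha (x * ⟨a⁻¹, hg⟩)]
        have e : x * ⟨a⁻¹, hg⟩ * ⟨a, ha⟩ = x := Subtype.ext (inv_mul_cancel_right _ _)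
        rw [e]
    rcases Set.eq_empty_or_nonempty E with h | ⟨x, hx⟩
    · exact Or.inl h
    · right
      ext y
      refine iff_of_true ?_ trivial
      have h1 := (hinv ((x⁻¹ * y : V) : G) (by rw [hcl]; exact (x⁻¹ * y).2) (x⁻¹ * y).2 x).1 hx
      have e : x * ⟨((x⁻¹ * y : V) : G), (x⁻¹ * y).2⟩ = y := mul_inv_cancel_left x y
      rwa [e] at h1
  have hcompl : ∀ A, cob s t Aᶜ = cob s t A := by
    intro A
    ext i
    show ¬ (¬ _ ↔ ¬ _) ↔ ¬ (_ ↔ _)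
    rw [not_iff_not]
    exact not_iff_not
  have hTc : ∀ E ∈ T', Eᶜ ∈ T' := by
    rintro A ⟨h1, h2⟩
    refine ⟨by rw [hcompl]; exact h1, ?_⟩
    have e : D3_up Aᶜ ∩ (W : Set G) = (W : Set G) \ (D3_up A ∩ (W : Set G)) := by
      ext x
      constructor
      · rintro ⟨⟨hx, hx'⟩, hxW⟩
        exact ⟨hxW, fun h => hx' h.1.2⟩
      · rintro ⟨hxW, hx⟩
        exact ⟨⟨hWV hxW, fun h => hx ⟨⟨hWV hxW, h⟩, hxW⟩⟩, hxW⟩
    rw [e]
    exact hAlg.compl _ h2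
  have hTi : ∀ E ∈ T', ∀ F ∈ T', E ∩ F ∈ T' := by
    rintro A ⟨h1, h2⟩ B ⟨h3, h4⟩
    refine ⟨(h1.union h3).subset fun i hi => ?_, ?_⟩
    · by_contra hcon
      rw [Set.mem_union, not_or] at hcon
      have hA := not_not.1 hcon.1
      have hB := not_not.1 hcon.2
      exact hi (and_congr hA hB)
    · have e : D3_up (A ∩ B) ∩ (W : Set G) = (D3_up A ∩ (W : Set G)) ∩ (D3_up B ∩ (W : Set G)) := by
        ext x
        constructor
        · rintro ⟨⟨hx, hx'⟩, hxW⟩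
          exact ⟨⟨⟨hx, hx'.1⟩, hxW⟩, ⟨hx, hx'.2⟩, hxW⟩
        · rintro ⟨⟨⟨hx, hx'⟩, hxW⟩, ⟨_, hx''⟩, _⟩
          exact ⟨⟨hx, hx', hx''⟩, hxW⟩
      rw [e]
      exact hAlg.inter _ h2 _ h4
  obtain ⟨E, hET, hEf, hE⟩ := dunwoody s t hconn T' hTc hTi {x : V | (x : G) ∈ E₀}
    (fun h => hA₀T (by rw [← hup]; exact h.2)) (D3_of_clean hWV S hS (by rw [hup]; exact hE₀))
  have hclean : Clean W V (D3_up E) := D3_clean_of hWV hinf S hS hcl hEf
  refine ⟨D3_up E ∩ (W : Set G), ⟨_, hclean, rfl⟩, fun h => hET ⟨hEf, h⟩, fun g hg => ?_⟩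
  have key : ∀ (g : W) (A : Set V), A ∈ T' → (Equiv.mulLeft (⟨g, hWV g.2⟩ : V)) '' A ∈ T' := by
    rintro g A ⟨h1, h2⟩
    refine ⟨?_, ?_⟩
    · rw [hs, ht, D3_cob_image]
      exact h1.image _
    · rw [D3_up_image]
      exact hAlg.smul _ h2 _ g.2
  have hcross := hE (Equiv.mulLeft (⟨g, hWV hg⟩ : V)) (fun A => ⟨fun h => ?_, key ⟨g, hg⟩ A⟩)
    (fun A hA => ?_) (fun A hA => ?_)
  · by_contra hN
    rw [Nested, not_or, not_or, not_or] at hN
    obtain ⟨h1, h2, h3, h4⟩ := hN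
    have hgE := D3_up_image hWV ⟨g, hg⟩ E
    rw [← show D3_up ((Equiv.mulLeft (⟨g, hWV hg⟩ : V)) '' E) ∩ (W : Set G) = g • (D3_up E ∩ (W : Set G)) from hgE]
      at h1 h2 h3 h4
    apply hcross
    rw [Set.not_disjoint_iff] at h1
    rw [Set.not_subset] at h2 h3 h4
    obtain ⟨x1, a1, b1⟩ := h1
    obtain ⟨x2, a2, b2⟩ := h2
    obtain ⟨x3, a3, b3⟩ := h3
    obtain ⟨x4, a4, b4⟩ := h4
    refine ⟨⟨⟨x1, a1.1.1⟩, a1.1.2, b1.1.2⟩, ⟨⟨x2, a2.1.1⟩, a2.1.2, fun h => b2 ⟨⟨_, h⟩, a2.2⟩⟩,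
      ⟨⟨x3, a3.1.1⟩, a3.1.2, fun h => b3 ⟨⟨_, h⟩, a3.2⟩⟩, ⟨⟨x4, hWV a4⟩, fun h => b4 ?_⟩⟩
    rcases h with h | h
    · exact Or.inl ⟨⟨_, h⟩, a4⟩
    · exact Or.inr ⟨⟨_, h⟩, a4⟩
  · have h5 := key ⟨g⁻¹, W.inv_mem hg⟩ _ h
    have e : (Equiv.mulLeft (⟨g⁻¹, hWV (W.inv_mem hg)⟩ : V)) '' ((Equiv.mulLeft (⟨g, hWV hg⟩ : V)) '' A) = A := by
      rw [Set.image_image]
      have e2 : ∀ x : V, (Equiv.mulLeft (⟨g⁻¹, hWV (W.inv_mem hg)⟩ : V)) ((Equiv.mulLeft (⟨g, hWV hg⟩ : V)) x) = x :=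
        fun x => Subtype.ext (inv_mul_cancel_left g (x : G))
      simp only [e2, Set.image_id']
    exact e ▸ h5
  · have e := D3_cob_image hWV S hS ⟨g, hg⟩ A
    rw [hs, ht, show (Equiv.mulLeft (⟨g, hWV hg⟩ : V)) = Equiv.mulLeft (⟨(⟨g, hg⟩ : W), hWV hg⟩ : V) from rfl, e]
    exact ⟨hA.image _, Set.ncard_image_of_injective _ (D3_edge hWV S ⟨g, hg⟩).injective⟩
  · have e := D3_cob_image hWV S hS ⟨g, hg⟩ A
    rw [hs, ht, show (Equiv.mulLeft (⟨g, hWV hg⟩ : V)) = Equiv.mulLeft (⟨(⟨g, hg⟩ : W), hWV hg⟩ : V) from rfl, e] at hA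
    exact Set.Finite.of_finite_image hA (D3_edge hWV S ⟨g, hg⟩).injective.injOn

end WQ
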