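import Mathlib

/-!
# Almost invariant subsets of subgroups: definitions

Everything takes place inside one ambient group `G`; the sets are subsets of `G`. See /team-store/up_MP_0c5642.md for the proof.
-/

set_option autoImplicit false

namespace WQ

open scoped Pointwise

variable {G : Type*} [Group G]

/-- `E` is an almost invariant subset of the subgroup `V`: right multiplication by an element of `V` changes it finitely. -/
def AI (V : Subgroup G) (E : Set G) : Prop :=
  E ⊆ (V : Set G) ∧ ∀ g ∈ V, {x | ¬ (x ∈ E ↔ x * g ∈ E)}.Finite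

/-- `E` splits the coset `x U`. -/
def Split (U : Subgroup G) (E : Set G) (x : G) : Prop :=
  {u | u ∈ U ∧ x * u ∈ E}.Infinite ∧ {u | u ∈ U ∧ x * u ∉ E}.Infinite

/-- the trace of `x⁻¹ E` on `U` -/
def res (U : Subgroup G) (E : Set G) (x : G) : Set G := {u | u ∈ U ∧ x * u ∈ E}

/-- `U` is elliptic for `E`: no coset is split. -/
def Ell (U : Subgroup G) (E : Set G) : Prop := ∀ x, ¬ Split U E x

/-- every almost invariant subset of `V` which splits no coset of `U` is trivial -/
def NF (U V : Subgroup G) : Prop :=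
  ∀ E, AI V E → Ell U E → E.Finite ∨ ((V : Set G) \ E).Finite

/-- right invariance under `g` -/
def Inv (E : Set G) (g : G) : Prop := ∀ x, x ∈ E ↔ x * g ∈ E

/-- `V` is generated by `e` elements -/
def GenBy (e : ℕ) (V : Subgroup G) : Prop :=
  ∃ S : Finset G, S.card ≤ e ∧ Subgroup.closure (S : Set G) = V

/-- one of the four corners is empty -/
def Nested (V : Subgroup G) (A B : Set G) : Prop :=
  Disjoint A B ∨ A ⊆ B ∨ B ⊆ A ∨ (V : Set G) ⊆ A ∪ B

/-- `R` is a left invariant Boolean algebra of almost invariant subsets of `V` containing the finite sets -/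
structure IsAlg (V : Subgroup G) (R : Set (Set G)) : Prop where
  ai : ∀ E ∈ R, AI V E
  compl : ∀ E ∈ R, (V : Set G) \ E ∈ R
  inter : ∀ E ∈ R, ∀ F ∈ R, E ∩ F ∈ R
  smul : ∀ E ∈ R, ∀ g ∈ V, g • E ∈ R
  fin : ∀ E : Set G, E ⊆ (V : Set G) → E.Finite → E ∈ R

/-- Dunwoody property: outside every proper subalgebra there is a set nested with all its translates. -/
def DP (V : Subgroup G) (R : Set (Set G)) : Prop :=
  ∀ T : Set (Set G), T ⊆ R → IsAlg V T → T ≠ R → ∃ E ∈ R, E ∉ T ∧ ∀ g ∈ V, Nested V E (g • E)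

/-- all almost invariant subsets -/
def BB (V : Subgroup G) : Set (Set G) := {E | AI V E}

/-- `E` is an almost invariant subset of `V` which is empty or full on every coset `g W ≠ W` of `W`. -/
def Clean (W V : Subgroup G) (E : Set G) : Prop :=
  AI V E ∧ ∀ g ∈ V, g ∉ W → (∀ u ∈ W, g * u ∈ E) ∨ (∀ u ∈ W, g * u ∉ E)

/-- traces on `W` of the clean subsets of `V` -/
def RR (W V : Subgroup G) : Set (Set G) := {A | ∃ E, Clean W V E ∧ A = E ∩ (W : Set G)}

/-- some almost invariant subset of `V` splits exactly one coset of `W`, namely `W` -/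
def MO (W V : Subgroup G) : Prop :=
  ∃ E, AI V E ∧ Split W E 1 ∧ ∀ x ∈ V, Split W E x → x ∈ W

/-- the conjugates of `a` -/
def aa (a t : G) (i : ℤ) : G := t ^ i * a * (t ^ i)⁻¹

/-- the subgroup generated by the conjugates with index in `[i, j)` -/
def VI (a t : G) (i j : ℤ) : Subgroup G := Subgroup.closure (aa a t '' Set.Ico i j)

/-- the sets given by Britton's lemma for an HNN extension with base `H` and `t E0 t⁻¹ = E1` -/
structure BSet (t : G) (H E0 E1 : Subgroup G) (S : Set G) : Prop where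
  s1 : ∀ e ∈ E0, ∀ x, x ∈ S ↔ e * x ∈ S
  s2 : ∀ h ∈ H, h ∉ E0 → ∀ x ∈ S, h * x ∉ S
  s3 : ∀ h ∈ H, ∀ x ∈ S, t⁻¹ * (h * x) ∈ S
  s5 : ∀ h ∈ H, h ∉ E1 → ∀ x, t⁻¹ * x ∉ S → t⁻¹ * (h * x) ∈ S
  s6 : ∀ h ∈ H, h ∉ S ∧ t⁻¹ * h ∈ S

/-- alternating products of elements of `V b \ U`, `V (!b) \ U`, ...; first factor in `V b`, last factor in `V c` -/
inductive Alt (V : Bool → Subgroup G) (U : Subgroup G) : Bool → Bool → G → Prop
  | one (b : Bool) (g : G) : g ∈ V b → g ∉ U → Alt V U b b g
  | cons (b c : Bool) (g h : G) : g ∈ V b → g ∉ U → Alt V U (!b) c h → Alt V U b c (g * h)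

/-- internal free product: `V` is the free product of the subgroups `X i` -/
def IsFP {ι : Type} (X : ι → Subgroup G) (V : Subgroup G) : Prop :=
  Function.Injective (Monoid.CoprodI.lift (fun i => (X i).subtype)) ∧ (⨆ i, X i) = V

/-- elements of the free product whose normal form does not start with a syllable in `X i` -/
def Br {ι : Type} (X : ι → Subgroup G) (i : ι) : Set G :=
  {g | ∃ w : Monoid.CoprodI.Word (fun i => X i), w.fstIdx ≠ some i ∧
    Monoid.CoprodI.lift (fun i => (X i).subtype) w.prod = g}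

end WQ
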