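import Pool.Agent.Lib.MP_0c5642_al.W.A2

/-! Definitions for Lemma S1. Conventions: `X` the group, `E` the set; walls are the translates `g • E` and their complements `X \ (g • E)`. -/

set_option autoImplicit false

namespace WQ

open scoped Pointwise

variable {G : Type*} [Group G]

/-- the standing assumptions: `E` is almost invariant, nontrivial, nested with its translates, `1 ∉ E`, and `E` is maximal among the walls not containing `1` -/
structure Base (X : Subgroup G) (E : Set G) : Prop where
  tf : ∀ g : G, IsOfFinOrder g → g = 1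
  ai : AI X E
  inf : E.Infinite
  coinf : ((X : Set G) \ E).Infinite
  nested : ∀ g ∈ X, Nested X E (g • E)
  one : (1 : G) ∉ E
  max1 : ∀ g ∈ X, (1 : G) ∉ g • E → E ⊆ g • E → E = g • E
  max2 : ∀ g ∈ X, (1 : G) ∈ g • E → E ⊆ (X : Set G) \ (g • E) → E = (X : Set G) \ (g • E)

/-- right stabiliser in `X` -/
def RStab (X : Subgroup G) (E : Set G) : Subgroup G where
  carrier := {h | h ∈ X ∧ Inv E h}
  one_mem' := ⟨X.one_mem, fun x => by rw [mul_one]⟩
  mul_mem' := fun {a b} ha hb => ⟨X.mul_mem ha.1 hb.1, fun x => by rw [← mul_assoc]; exact (ha.2 x).trans (hb.2 (x * a))⟩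
  inv_mem' := fun {a} ha => ⟨X.inv_mem ha.1, fun x => by
    have := ha.2 (x * a⁻¹)
    rw [inv_mul_cancel_right] at this
    exact this.symm⟩

end WQ
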