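import Pool.Agent.Lib.MP_0c5642_al.W.E0

/-! ROW w-E1 (5.0): the left action on walls is free. -/

set_option autoImplicit false

namespace WQ

open scoped Pointwise

variable {G : Type*} [Group G] {X : Subgroup G} {E : Set G}

private theorem E1_mem {g x : G} (h : g • E = E) : g * x ∈ E ↔ x ∈ E := by
  constructor
  · intro hx
    rw [← h, Set.mem_smul_set_iff_inv_smul_mem, smul_eq_mul, inv_mul_cancel_left] at hx
    exact hx
  · intro hx
    rw [← h, Set.mem_smul_set_iff_inv_smul_mem, smul_eq_mul, inv_mul_cancel_left]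
    exact hx

/-- ROW w-E1 (5.0): the left action on walls is free -/
theorem smul_eq_self (htf : ∀ g : G, IsOfFinOrder g → g = 1) (hai : AI X E) (hinf : E.Infinite)
    (hco : ((X : Set G) \ E).Infinite) {g : G} (hg : g ∈ X) (h : g • E = E) : g = 1 := by
  by_contra hne
  have hord : ¬ IsOfFinOrder g := fun hf => hne (htf g hf)
  have hinj : Function.Injective fun n : ℕ => g ^ n := injective_pow_iff_not_isOfFinOrder.2 hord
  have hpow : ∀ (n : ℕ) (x : G), g ^ n * x ∈ E ↔ x ∈ E := by
    intro n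
    induction n with
    | zero => intro x; simp
    | succ n ih =>
      intro x
      rw [pow_succ, mul_assoc, ih, E1_mem h]
  have hright : ∀ k ∈ X, ∀ x, (x ∈ E ↔ x * k ∈ E) := by
    intro k hk x
    by_contra hx
    have hfin := hai.2 k hk
    refine Set.infinite_of_injective_forall_mem (f := fun n : ℕ => g ^ n * x)
      (fun a b hab => hinj (mul_right_cancel hab)) (fun n => ?_) hfin
    show ¬ (g ^ n * x ∈ E ↔ g ^ n * x * k ∈ E)
    rw [mul_assoc, hpow, hpow]
    exact hx
  obtain ⟨x, hx⟩ := hinf.nonempty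
  obtain ⟨y, hyX, hyE⟩ := hco.nonempty
  apply hyE
  have h1 := (hright (x⁻¹ * y) (X.mul_mem (X.inv_mem (hai.1 hx)) hyX) x).1 hx
  rwa [mul_inv_cancel_left] at h1

theorem smul_ne_compl (htf : ∀ g : G, IsOfFinOrder g → g = 1) (hai : AI X E) (hinf : E.Infinite)
    (hco : ((X : Set G) \ E).Infinite) {g : G} (hg : g ∈ X) : g • E ≠ (X : Set G) \ E := by
  intro h
  have hm : ∀ x ∈ X, (g * x ∈ E ↔ x ∉ E) := by
    intro x hx
    have h1 : g * x ∈ g • E ↔ x ∈ E := by
      rw [Set.mem_smul_set_iff_inv_smul_mem, smul_eq_mul, inv_mul_cancel_left]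
    rw [h, Set.mem_sdiff] at h1
    have h2 : g * x ∈ (X : Set G) := X.mul_mem hg hx
    tauto
  have h2 : (g * g) • E = E := by
    ext y
    rw [Set.mem_smul_set_iff_inv_smul_mem, smul_eq_mul]
    set x := (g * g)⁻¹ * y with hx
    have e : y = g * (g * x) := by rw [hx]; group
    constructor
    · intro hxE
      have hxX : x ∈ X := hai.1 hxE
      rw [e, hm _ (X.mul_mem hg hxX), hm _ hxX]
      exact not_not.2 hxE
    · intro hyE
      have hyX : y ∈ X := hai.1 hyE
      have hxX : x ∈ X := by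
        rw [hx]
        exact X.mul_mem (X.inv_mem (X.mul_mem hg hg)) hyX
      rw [e, hm _ (X.mul_mem hg hxX), hm _ hxX] at hyE
      exact not_not.1 hyE
  have h3 := smul_eq_self htf hai hinf hco (X.mul_mem hg hg) h2
  have h4 : g = 1 := htf g (isOfFinOrder_iff_pow_eq_one.2 ⟨2, by norm_num, by rw [sq]; exact h3⟩)
  obtain ⟨x, hx⟩ := hinf.nonempty
  have h5 := (hm x (hai.1 hx)).1 (by rw [h4, one_mul]; exact hx)
  exact h5 hx

end WQ
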