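import Pool.Agent.Lib.MP_0c5642_al.W.E1

/-! ROW w-E2: normalisation. -/

set_option autoImplicit false

namespace WQ

open scoped Pointwise

variable {G : Type*} [Group G] {X : Subgroup G} {E : Set G}

theorem E2_smul_X {g : G} (hg : g ∈ X) : g • (X : Set G) = X := by
  ext x
  rw [Set.mem_smul_set_iff_inv_smul_mem, smul_eq_mul]
  exact X.mul_mem_cancel_left (X.inv_mem hg)

theorem E2_smul_sdiff {g : G} (hg : g ∈ X) (A : Set G) : g • ((X : Set G) \ A) = (X : Set G) \ (g • A) := by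
  rw [Set.smul_set_sdiff, E2_smul_X hg]

theorem E2_nested_smul {g : G} (hg : g ∈ X) {A B : Set G} (h : Nested X A B) : Nested X (g • A) (g • B) := by
  rcases h with h | h | h | h
  · exact Or.inl (Set.disjoint_smul_set.mpr h)
  · exact Or.inr (Or.inl (Set.smul_set_mono h))
  · exact Or.inr (Or.inr (Or.inl (Set.smul_set_mono h)))
  · refine Or.inr (Or.inr (Or.inr ?_))
    rw [← Set.smul_set_union]
    calc (X : Set G) = g • (X : Set G) := (E2_smul_X hg).symm
      _ ⊆ _ := Set.smul_set_mono h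

theorem E2_nested_compl {A B : Set G} (h : Nested X A B) : Nested X ((X : Set G) \ A) ((X : Set G) \ B) := by
  rcases h with h | h | h | h
  · refine Or.inr (Or.inr (Or.inr fun x hx => ?_))
    by_cases hA : x ∈ A
    · exact Or.inr ⟨hx, fun hB => Set.disjoint_left.mp h hA hB⟩
    · exact Or.inl ⟨hx, hA⟩
  · exact Or.inr (Or.inr (Or.inl (Set.sdiff_subset_sdiff_right h)))
  · exact Or.inr (Or.inl (Set.sdiff_subset_sdiff_right h))
  · refine Or.inl (Set.disjoint_left.mpr fun x hA hB => ?_)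
    rcases h hA.1 with h1 | h1
    · exact hA.2 h1
    · exact hB.2 h1

/-- the translates of `E` by the elements of `X` and their complements -/
def E2_wall (X : Subgroup G) (E A : Set G) : Prop := ∃ g ∈ X, A = g • E ∨ A = (X : Set G) \ (g • E)

theorem E2_wall_smul {A : Set G} {g : G} (hg : g ∈ X) (h : E2_wall X E A) : E2_wall X E (g • A) := by
  obtain ⟨k, hk, h | h⟩ := h
  · exact ⟨g * k, X.mul_mem hg hk, Or.inl (by rw [h, smul_smul])⟩
  · exact ⟨g * k, X.mul_mem hg hk, Or.inr (by rw [h, E2_smul_sdiff hg, smul_smul])⟩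

theorem E2_smul_sub {g : G} (hg : g ∈ X) (hE : E ⊆ (X : Set G)) : g • E ⊆ (X : Set G) := by
  calc g • E ⊆ g • (X : Set G) := Set.smul_set_mono hE
    _ = X := E2_smul_X hg

theorem E2_wall_compl {A : Set G} (hE : E ⊆ (X : Set G)) (h : E2_wall X E A) : E2_wall X E ((X : Set G) \ A) := by
  obtain ⟨k, hk, h | h⟩ := h
  · exact ⟨k, hk, Or.inr (by rw [h])⟩
  · exact ⟨k, hk, Or.inl (by rw [h, Set.sdiff_sdiff_cancel_left (E2_smul_sub hk hE)])⟩

theorem E2_wall_nested {A : Set G} (hn : ∀ g ∈ X, Nested X E (g • E)) (h : E2_wall X E A) :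
    ∀ g ∈ X, Nested X A (g • A) := by
  intro g hg
  obtain ⟨k, hk, h | h⟩ := h
  · have h1 := E2_nested_smul hk (hn (k⁻¹ * g * k) (X.mul_mem (X.mul_mem (X.inv_mem hk) hg) hk))
    rw [smul_smul] at h1
    have e : k * (k⁻¹ * g * k) = g * k := by group
    rw [e] at h1
    rw [h, smul_smul]
    exact h1
  · have h1 := E2_nested_smul hk (hn (k⁻¹ * g * k) (X.mul_mem (X.mul_mem (X.inv_mem hk) hg) hk))
    rw [smul_smul] at h1
    have e : k * (k⁻¹ * g * k) = g * k := by group
    rw [e] at h1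
    rw [h, E2_smul_sdiff hg, smul_smul]
    exact E2_nested_compl h1

theorem E2_inf_smul {A : Set G} (g : G) (h : A.Infinite) : (g • A).Infinite := Set.infinite_smul_set.mpr h

theorem E2_wall_ai {A : Set G} (hai : AI X E) (h : E2_wall X E A) : AI X A := by
  obtain ⟨k, hk, h | h⟩ := h
  · rw [h]
    exact hai.smul hk
  · rw [h]
    exact (hai.smul hk).compl

theorem E2_wall_inf {A : Set G} (hinf : E.Infinite) (hco : ((X : Set G) \ E).Infinite) (h : E2_wall X E A) :
    A.Infinite := by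
  obtain ⟨k, hk, h | h⟩ := h
  · rw [h]
    exact E2_inf_smul k hinf
  · rw [h, ← E2_smul_sdiff hk]
    exact E2_inf_smul k hco

/-- only finitely many walls separate `1` from `y` -/
theorem E2_wall_fin (hai : AI X E) {y : G} (hy : y ∈ X) :
    {A | E2_wall X E A ∧ (1 : G) ∉ A ∧ y ∈ A}.Finite := by
  have hf := hai.2 y hy
  have h1 : ((fun x : G => x⁻¹ • E) '' {x | ¬ (x ∈ E ↔ x * y ∈ E)}).Finite := hf.image _
  have h2 : ((fun x : G => (X : Set G) \ (x⁻¹ • E)) '' {x | ¬ (x ∈ E ↔ x * y ∈ E)}).Finite := hf.image _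
  refine (h1.union h2).subset ?_
  rintro A ⟨⟨k, hk, h | h⟩, h3, h4⟩
  · refine Or.inl ⟨k⁻¹, ?_, by simp only [inv_inv]; exact h.symm⟩
    rw [h, Set.mem_smul_set_iff_inv_smul_mem, smul_eq_mul] at h3 h4
    rw [mul_one] at h3
    simp only [Set.mem_ofPred_eq]
    intro h5
    exact h3 (h5.mpr h4)
  · refine Or.inr ⟨k⁻¹, ?_, by simp only [inv_inv]; exact h.symm⟩
    rw [h] at h3 h4
    have h5 : (1 : G) ∈ k • E := by
      by_contra h6
      exact h3 ⟨X.one_mem, h6⟩
    have h6 := h4.2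
    rw [Set.mem_smul_set_iff_inv_smul_mem, smul_eq_mul] at h5 h6
    rw [mul_one] at h5
    simp only [Set.mem_ofPred_eq]
    intro h7
    exact h6 (h7.mp h5)

/-- ROW w-E2 (5.2): after replacing `E` by a translate or the complement of a translate, `Base` holds. (The set of walls not containing `1` and containing a fixed `y` is finite; take a maximal one.) -/
theorem exists_base (htf : ∀ g : G, IsOfFinOrder g → g = 1) (hai : AI X E) (hinf : E.Infinite)
    (hco : ((X : Set G) \ E).Infinite) (hn : ∀ g ∈ X, Nested X E (g • E)) :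
    ∃ g ∈ X, Base X (g • E) ∨ Base X ((X : Set G) \ (g • E)) := by
  -- a wall `A` which does not contain `1`
  obtain ⟨A₀, hA₀, h1⟩ : ∃ A, E2_wall X E A ∧ (1 : G) ∉ A := by
    by_cases h : (1 : G) ∈ E
    · refine ⟨(X : Set G) \ ((1 : G) • E), ⟨1, X.one_mem, Or.inr rfl⟩, fun h2 => h2.2 ?_⟩
      rw [one_smul]
      exact h
    · refine ⟨(1 : G) • E, ⟨1, X.one_mem, Or.inl rfl⟩, ?_⟩
      rw [one_smul]
      exact h
  obtain ⟨y, hy⟩ := (E2_wall_inf hinf hco hA₀).nonempty
  have hyX : y ∈ X := (E2_wall_ai hai hA₀).1 hy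
  obtain ⟨A, hA, hmax⟩ := (E2_wall_fin hai hyX).exists_maximal ⟨A₀, hA₀, h1, hy⟩
  obtain ⟨hw, h1A, hyA⟩ := hA
  have key : ∀ B, E2_wall X E B → (1 : G) ∉ B → A ⊆ B → A = B := fun B hB h1B hAB =>
    Set.Subset.antisymm hAB (hmax ⟨hB, h1B, hAB hyA⟩ hAB)
  have hbase : Base X A :=
    { tf := htf
      ai := E2_wall_ai hai hw
      inf := E2_wall_inf hinf hco hw
      coinf := E2_wall_inf hinf hco (E2_wall_compl hai.1 hw)
      nested := E2_wall_nested hn hw
      one := h1A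
      max1 := fun g hg h2 h3 => key _ (E2_wall_smul hg hw) h2 h3
      max2 := fun g hg h2 h3 => key _ (E2_wall_compl hai.1 (E2_wall_smul hg hw)) (fun h4 => h4.2 h2) h3 }
  obtain ⟨g, hg, h | h⟩ := hw
  · exact ⟨g, hg, Or.inl (h ▸ hbase)⟩
  · exact ⟨g, hg, Or.inr (h ▸ hbase)⟩

end WQ
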