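import Pool.Agent.Lib.MP_0c5642_al.W.E1

/-! ROW w-E3: the two stabilisers. -/

set_option autoImplicit false

namespace WQ

open scoped Pointwise

variable {G : Type*} [Group G] {X : Subgroup G} {E : Set G}

theorem E3_mem (g x : G) : x ∈ g • E ↔ g⁻¹ * x ∈ E := by
  rw [Set.mem_smul_set_iff_inv_smul_mem, smul_eq_mul]

theorem E3_sub (g : G) : E ⊆ g • E ↔ g⁻¹ • E ⊆ E := by
  constructor
  · intro h x hx
    rw [E3_mem, inv_inv] at hx
    have h1 := h hx
    rwa [E3_mem, inv_mul_cancel_left] at h1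
  · intro h x hx
    rw [E3_mem]
    apply h
    rwa [E3_mem, inv_inv, mul_inv_cancel_left]

/-- a wall disjoint from `E` does not contain `1` -/
theorem E3_disj (h : Base X E) {g : G} (hg : g ∈ X) (h1 : (1 : G) ∈ g • E) : ¬ Disjoint E (g • E) := by
  intro hd
  have h2 := h.max2 g hg h1 fun x hx => ⟨h.ai.1 hx, Set.disjoint_left.1 hd hx⟩
  apply smul_ne_compl h.tf h.ai h.inf h.coinf hg
  ext x
  constructor
  · intro hx
    refine ⟨?_, Set.disjoint_right.1 hd hx⟩
    rw [E3_mem] at hx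
    have h3 := X.mul_mem hg (h.ai.1 hx)
    rwa [mul_inv_cancel_left] at h3
  · rintro ⟨hx, hx'⟩
    by_contra h3
    exact hx' (by rw [h2]; exact ⟨hx, h3⟩)

/-- ROW w-E3: `H0 = RStab E` and `H1 = RStab (E ∪ {1})` -/
theorem Base.H0 (h : Base X E) {g : G} (hg : g ∈ RStab X E) (h1 : g ≠ 1) : Disjoint E (g • E) := by
  obtain ⟨hgX, hi⟩ := hg
  have e1 : g ∉ E := fun h2 => h.one ((hi 1).2 (by rwa [one_mul]))
  have e2 : g⁻¹ ∉ E := fun h2 => h.one (by
    have h3 := (hi g⁻¹).1 h2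
    rwa [inv_mul_cancel] at h3)
  have e3 : (1 : G) ∉ g • E := by rwa [E3_mem, mul_one]
  have e4 : (1 : G) ∉ g⁻¹ • E := by rwa [E3_mem, mul_one, inv_inv]
  rcases h.nested g hgX with h2 | h2 | h2 | h2
  · exact h2
  · exact absurd (smul_eq_self h.tf h.ai h.inf h.coinf hgX (h.max1 g hgX e3 h2).symm) h1
  · have h3 : E ⊆ g⁻¹ • E := by rwa [E3_sub, inv_inv]
    have h4 := smul_eq_self h.tf h.ai h.inf h.coinf (X.inv_mem hgX) (h.max1 g⁻¹ (X.inv_mem hgX) e4 h3).symm
    exact absurd (inv_eq_one.1 h4) h1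
  · rcases h2 X.one_mem with h3 | h3
    · exact absurd h3 h.one
    · exact absurd h3 e3

theorem Base.H1 (h : Base X E) {g : G} (hg : g ∈ RStab X (insert 1 E)) (h1 : g ≠ 1) : (X : Set G) ⊆ E ∪ g • E := by
  obtain ⟨hgX, hi⟩ := hg
  have e1 : g ∈ E := by
    have h2 := (hi 1).1 (Set.mem_insert _ _)
    rw [one_mul] at h2
    exact h2.resolve_left h1
  have e2 : g⁻¹ ∈ E := by
    have h2 := (hi g⁻¹).2 (by rw [inv_mul_cancel]; exact Set.mem_insert _ _)
    exact h2.resolve_left (inv_ne_one.2 h1)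
  have e3 : (1 : G) ∈ g • E := by rwa [E3_mem, mul_one]
  have e4 : (1 : G) ∈ g⁻¹ • E := by rwa [E3_mem, mul_one, inv_inv]
  rcases h.nested g hgX with h2 | h2 | h2 | h2
  · exact absurd h2 (E3_disj h hgX e3)
  · exact absurd ((E3_sub g).1 h2 e4) h.one
  · exact absurd (h2 e3) h.one
  · exact h2

/-- translates by `s g` -/
theorem E3_sg (h : Base X E) {s : G} (hs : s ∈ X) (hcs : ∀ x, x ∈ insert 1 E ↔ x * s ∈ E) {g : G}
    (hg : g ∈ RStab X E) : (s * g) • E ⊆ E := by
  obtain ⟨hgX, hi⟩ := hg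
  have hsg := X.mul_mem hs hgX
  have e1 : (s * g)⁻¹ ∉ insert 1 E := by
    rw [hcs, mul_inv_rev, inv_mul_cancel_right, hi, inv_mul_cancel]
    exact h.one
  have e2 : s * g ∈ E := by
    rw [← hi]
    have h2 := (hcs 1).1 (Set.mem_insert _ _)
    rwa [one_mul] at h2
  have e3 : (1 : G) ∉ (s * g) • E := by
    rw [E3_mem, mul_one]
    exact fun h2 => e1 (Set.mem_insert_of_mem _ h2)
  have e4 : (1 : G) ∈ (s * g)⁻¹ • E := by rwa [E3_mem, mul_one, inv_inv]
  rcases h.nested (s * g) hsg with h2 | h2 | h2 | h2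
  · refine absurd ?_ (E3_disj h (X.inv_mem hsg) e4)
    rw [Set.disjoint_left] at h2 ⊢
    intro x hx hx'
    rw [E3_mem, inv_inv] at hx'
    exact h2 hx' (by rwa [E3_mem, inv_mul_cancel_left])
  · have h3 := smul_eq_self h.tf h.ai h.inf h.coinf hsg (h.max1 _ hsg e3 h2).symm
    rw [h3, inv_one] at e1
    exact absurd (Set.mem_insert _ _) e1
  · exact h2
  · rcases h2 X.one_mem with h3 | h3
    · exact absurd h3 h.one
    · exact absurd h3 e3

/-- In case I (`(E ∪ {1}) s = E`), with `A = E`, `B = X \ s⁻¹ E`: `A ∩ B = ∅`, and `h ∈ H0 \ 1` maps `A ∪ B` into its complement. Here membership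
`x ∈ E ∪ {1} ↔ x * s ∈ E` for all `x`. -/
theorem Base.caseI (h : Base X E) {s : G} (hs : s ∈ X) (hcs : ∀ x, x ∈ insert 1 E ↔ x * s ∈ E) :
    Disjoint E ((X : Set G) \ (s⁻¹ • E)) ∧
    ∀ g ∈ RStab X E, g ≠ 1 → ∀ x ∈ E ∪ ((X : Set G) \ (s⁻¹ • E)), g * x ∉ E ∪ ((X : Set G) \ (s⁻¹ • E)) := by
  have key : ∀ g ∈ RStab X E, ∀ x ∈ E, s * (g * x) ∈ E := by
    intro g hg x hx
    apply E3_sg h hs hcs hg
    rw [E3_mem]
    have e : (s * g)⁻¹ * (s * (g * x)) = x := by group
    rwa [e]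
  have hB : ∀ x, x ∈ (X : Set G) \ (s⁻¹ • E) ↔ x ∈ X ∧ s * x ∉ E := by
    intro x
    rw [Set.mem_diff, E3_mem, inv_inv]
    rfl
  constructor
  · rw [Set.disjoint_left]
    intro x hx hx'
    rw [hB] at hx'
    have h1 := key 1 (RStab X E).one_mem x hx
    rw [one_mul] at h1
    exact hx'.2 h1
  · intro g hg h1 x hx hgx
    rcases hx with hx | hx
    · rcases hgx with hgx | hgx
      · exact Set.disjoint_left.1 (h.H0 hg h1) hgx (by rwa [E3_mem, inv_mul_cancel_left])
      · rw [hB] at hgx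
        exact hgx.2 (key g hg x hx)
    · rw [hB] at hx
      rcases hgx with hgx | hgx
      · have h2 := key g⁻¹ ((RStab X E).inv_mem hg) _ hgx
        rw [inv_mul_cancel_left] at h2
        exact hx.2 h2
      · rw [hB] at hgx
        have hk : s * g * s⁻¹ ∈ RStab X (insert 1 E) := by
          refine ⟨X.mul_mem (X.mul_mem hs hg.1) (X.inv_mem hs), fun y => ?_⟩
          rw [hcs, hcs]
          have e : y * (s * g * s⁻¹) * s = y * s * g := by group
          rw [e]
          exact hg.2 (y * s)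
        have hk1 : s * g * s⁻¹ ≠ 1 := by
          intro h2
          apply h1
          have e : g = s⁻¹ * (s * g * s⁻¹) * s := by group
          rw [e, h2]
          group
        rcases h.H1 hk hk1 (X.mul_mem hs hgx.1) with h2 | h2
        · exact hgx.2 h2
        · rw [E3_mem] at h2
          have e : (s * g * s⁻¹)⁻¹ * (s * (g * x)) = s * x := by group
          rw [e] at h2
          exact hx.2 h2

end WQ
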