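import Pool.Agent.Lib.MP_0c5642_al.W.E3

/-! ROW w-E4: uniqueness of vertices. -/

set_option autoImplicit false

namespace WQ

open scoped Pointwise

variable {G : Type*} [Group G] {X : Subgroup G} {E : Set G}

theorem E4_mem {g x : G} : x ∈ g • E ↔ g⁻¹ * x ∈ E := by
  rw [Set.mem_smul_set_iff_inv_smul_mem, smul_eq_mul]

theorem E4_sub (h : Base X E) {g : G} (hg : g ∈ X) : g • E ⊆ (X : Set G) := by
  intro x hx
  have h1 := X.mul_mem hg (h.ai.1 (E4_mem.1 hx))
  rwa [mul_inv_cancel_left] at h1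

theorem E4_nested (h : Base X E) {g k : G} (hg : g ∈ X) (hk : k ∈ X) : Nested X (g • E) (k • E) := by
  have h1 := h.nested (g⁻¹ * k) (X.mul_mem (X.inv_mem hg) hk)
  have e : k • E = g • ((g⁻¹ * k) • E) := by rw [smul_smul, mul_inv_cancel_left]
  rw [e]
  rcases h1 with h1 | h1 | h1 | h1
  · left
    rw [Set.disjoint_left] at h1 ⊢
    intro x hx hx'
    exact h1 (E4_mem.1 hx) (E4_mem.1 hx')
  · exact Or.inr (Or.inl (Set.smul_set_mono h1))
  · exact Or.inr (Or.inr (Or.inl (Set.smul_set_mono h1)))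
  · refine Or.inr (Or.inr (Or.inr ?_))
    intro x hx
    have h2 := h1 (X.mul_mem (X.inv_mem hg) hx : g⁻¹ * x ∈ X)
    rcases h2 with h2 | h2
    · exact Or.inl (E4_mem.2 h2)
    · exact Or.inr (E4_mem.2 h2)

/-- ROW w-E4: uniqueness of the vertex (section 4, generation). If the wall `g • E` is maximal among walls not containing `1`, then `g ∈ H0`. -/
theorem Base.mem_H0 (h : Base X E) {g : G} (hg : g ∈ X) (h1 : (1 : G) ∉ g • E)
    (hm1 : ∀ k ∈ X, (1 : G) ∉ k • E → g • E ⊆ k • E → g • E = k • E)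
    (hm2 : ∀ k ∈ X, (1 : G) ∈ k • E → g • E ⊆ (X : Set G) \ (k • E) → g • E = (X : Set G) \ (k • E)) : g ∈ RStab X E := by
  have hgg : g ∉ g • E := fun hh => h.one (by have := E4_mem.1 hh; rwa [inv_mul_cancel] at this)
  refine ⟨hg, fun x => ?_⟩
  by_cases hx : x ∈ X
  swap
  · refine iff_of_false (fun hh => hx (h.ai.1 hh)) fun hh => hx ?_
    have := X.mul_mem (h.ai.1 hh) (X.inv_mem hg)
    rwa [mul_inv_cancel_right] at this
  have hk := X.inv_mem hx
  have m1 : (1 : G) ∈ x⁻¹ • E ↔ x ∈ E := by rw [E4_mem, inv_inv, mul_one]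
  have mg : g ∈ x⁻¹ • E ↔ x * g ∈ E := by rw [E4_mem, inv_inv]
  have hgk := X.mul_mem (X.inv_mem hg) hk
  have m3 : ∀ y, y ∈ (g⁻¹ * x⁻¹) • E ↔ g * y ∈ x⁻¹ • E := by
    intro y
    rw [E4_mem, E4_mem, mul_inv_rev, inv_inv, inv_inv, mul_assoc]
  have m2 : (1 : G) ∈ (g⁻¹ * x⁻¹) • E ↔ g ∈ x⁻¹ • E := by rw [m3, mul_one]
  rw [← m1, ← mg]
  have hn := E4_nested h hg hk
  constructor
  · intro a
    by_contra b
    rcases hn with hn | hn | hn | hn
    · have e := hm2 _ hk a fun y hy => ⟨E4_sub h hg hy, fun hy' => (Set.disjoint_left.1 hn) hy hy'⟩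
      exact hgg (by rw [e]; exact ⟨hg, b⟩)
    · have e := h.max1 _ hgk (fun hh => b (m2.1 hh)) (by
        intro y hy
        exact (m3 y).2 (hn (E4_mem.2 (by rwa [inv_mul_cancel_left]) : g * y ∈ g • E)))
      have e' : g • E = x⁻¹ • E := by
        conv_lhs => rw [e]
        rw [smul_smul, mul_inv_cancel_left]
      exact h1 (by rw [e']; exact a)
    · exact h1 (hn a)
    · exact (hn hg).elim hgg b
  · intro a
    by_contra b
    rcases hn with hn | hn | hn | hn
    · have e := h.max2 _ hgk (m2.2 a) (by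
        intro y hy
        exact ⟨h.ai.1 hy, fun hy' =>
          (Set.disjoint_left.1 hn) (E4_mem.2 (by rwa [inv_mul_cancel_left]) : g * y ∈ g • E) ((m3 y).1 hy')⟩)
      have h3 : g⁻¹ ∉ E := fun hh => h1 (E4_mem.2 (by rwa [mul_one]))
      rw [e] at h3
      refine h3 ⟨X.inv_mem hg, fun hh => b ?_⟩
      rwa [m3, mul_inv_cancel] at hh
    · have e := hm1 _ hk b hn
      exact hgg (by rw [e]; exact a)
    · exact hgg (hn a)
    · exact (hn X.one_mem).elim h1 b

/-- If the wall `X \ g • E` is maximal among walls not containing `1`, then `s = g⁻¹` satisfies `(E ∪ {1}) s = E` (case I). -/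
theorem Base.caseI_of (h : Base X E) {g : G} (hg : g ∈ X) (h1 : (1 : G) ∈ g • E)
    (hm1 : ∀ k ∈ X, (1 : G) ∉ k • E → (X : Set G) \ (g • E) ⊆ k • E → (X : Set G) \ (g • E) = k • E)
    (hm2 : ∀ k ∈ X, (1 : G) ∈ k • E → (X : Set G) \ (g • E) ⊆ (X : Set G) \ (k • E) → g • E = k • E) :
    ∀ x, x ∈ insert 1 E ↔ x * g⁻¹ ∈ E := by
  intro x
  have hg1 : g⁻¹ ∈ E := by have := E4_mem.1 h1; rwa [mul_one] at this
  by_cases hx1 : x = 1
  · subst hx1
    rw [one_mul]
    exact iff_of_true (Set.mem_insert _ _) hg1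
  rw [Set.mem_insert_iff, or_iff_right hx1]
  by_cases hx : x ∈ X
  swap
  · refine iff_of_false (fun hh => hx (h.ai.1 hh)) fun hh => hx ?_
    have := X.mul_mem (h.ai.1 hh) hg
    rwa [inv_mul_cancel_right] at this
  have hk := X.inv_mem hx
  have hk1 : x⁻¹ ≠ 1 := fun hh => hx1 (inv_eq_one.1 hh)
  have m1 : (1 : G) ∈ x⁻¹ • E ↔ x ∈ E := by rw [E4_mem, inv_inv, mul_one]
  have mg : g⁻¹ ∈ x⁻¹ • E ↔ x * g⁻¹ ∈ E := by rw [E4_mem, inv_inv]
  have hgk := X.mul_mem hg hk
  have m2 : (1 : G) ∈ (g * x⁻¹) • E ↔ g⁻¹ ∈ x⁻¹ • E := by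
    rw [E4_mem, E4_mem, mul_one, mul_inv_rev, inv_inv]
  have m3 : ∀ y, y ∈ (g * x⁻¹) • E ↔ g⁻¹ * y ∈ x⁻¹ • E := by
    intro y
    rw [E4_mem, E4_mem, mul_inv_rev, inv_inv, mul_assoc]
  rw [← m1, ← mg]
  have hn := h.nested _ hk
  constructor
  · intro a
    by_contra b
    rcases hn with hn | hn | hn | hn
    · have e := h.max2 _ hk a fun y hy => ⟨h.ai.1 hy, fun hy' => (Set.disjoint_left.1 hn) hy hy'⟩
      refine smul_ne_compl h.tf h.ai h.inf h.coinf hk ?_
      ext y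
      constructor
      · intro hy
        refine ⟨E4_sub h hk hy, fun hy' => ?_⟩
        rw [e] at hy'
        exact hy'.2 hy
      · rintro ⟨hy, hy'⟩
        by_contra hy''
        refine hy' ?_
        rw [e]
        exact ⟨hy, hy''⟩
    · exact b (hn hg1)
    · exact h.one (hn a)
    · have e := hm1 _ hgk (fun hh => b (m2.1 hh)) (by
        rintro y ⟨hy, hy'⟩
        rw [m3]
        rcases hn (X.mul_mem (X.inv_mem hg) hy : g⁻¹ * y ∈ X) with h4 | h4
        · exact absurd (E4_mem.2 h4) hy'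
        · exact h4)
      refine smul_ne_compl h.tf h.ai h.inf h.coinf hk ?_
      ext y
      have h5 : g * y ∈ (X : Set G) \ (g • E) ↔ g * y ∈ (g * x⁻¹) • E := by rw [e]
      rw [m3, inv_mul_cancel_left, Set.mem_sdiff, E4_mem, inv_mul_cancel_left] at h5
      rw [← h5, Set.mem_sdiff]
      refine and_congr_left fun _ => ⟨fun hy => ?_, fun hy => X.mul_mem hg hy⟩
      have := X.mul_mem (X.inv_mem hg) hy
      rwa [inv_mul_cancel_left] at this
  · intro a
    by_contra b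
    rcases hn with hn | hn | hn | hn
    · exact (Set.disjoint_left.1 hn) hg1 a
    · exact hk1 (smul_eq_self h.tf h.ai h.inf h.coinf hk (h.max1 _ hk b hn).symm)
    · have e := hm2 _ hgk (m2.2 a) (by
        rintro y ⟨hy, hy'⟩
        refine ⟨hy, fun hy'' => hy' (E4_mem.2 (hn ?_))⟩
        rwa [m3] at hy'')
      refine hk1 (smul_eq_self h.tf h.ai h.inf h.coinf hk ?_)
      ext y
      have h5 : g * y ∈ g • E ↔ g * y ∈ (g * x⁻¹) • E := by rw [← e]
      rw [m3, inv_mul_cancel_left, E4_mem, inv_mul_cancel_left] at h5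
      exact h5.symm
    · exact (hn X.one_mem).elim h.one b

end WQ
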