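import Pool.Agent.Lib.MP_0c5642_al.W.E4

/-! ROW w-E5a: generation in case I. -/

set_option autoImplicit false

namespace WQ

open scoped Pointwise

variable {G : Type*} [Group G] {X : Subgroup G} {E : Set G}

/-- the elements `x` such that `x⁻¹ E` separates `1` and `g` -/
def E5a_D (E : Set G) (g : G) : Set G := {x | ¬ (x ∈ E ↔ x * g ∈ E)}

theorem E5a_card {g u x0 : G} (hfin : (E5a_D E g).Finite) (hx0 : x0 ∈ E5a_D E g)
    (hD : ∀ z, z * u ∈ E5a_D E (u⁻¹ * g) ↔ z ∈ E5a_D E g ∧ z ≠ x0) :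
    (E5a_D E (u⁻¹ * g)).ncard < (E5a_D E g).ncard := by
  have e : E5a_D E (u⁻¹ * g) = (fun z => z * u) '' (E5a_D E g \ {x0}) := by
    ext x
    constructor
    · intro hx
      have h1 : (x * u⁻¹) * u ∈ E5a_D E (u⁻¹ * g) := by rwa [inv_mul_cancel_right]
      exact ⟨x * u⁻¹, (hD _).1 h1, inv_mul_cancel_right x u⟩
    · rintro ⟨z, hz, rfl⟩
      exact (hD z).2 hz
  rw [e, Set.ncard_image_of_injective _ (mul_left_injective u)]
  exact Set.ncard_sdiff_singleton_lt_of_mem hx0 hfin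

/-- the walls -/
def E5a_W (X : Subgroup G) (E : Set G) (g : G) : Set (Set G) :=
  {A | (∃ y ∈ X, A = y • E ∨ A = (X : Set G) \ (y • E)) ∧ (1 : G) ∉ A ∧ g ∈ A}

theorem E5a_mem_smul {y x : G} : x ∈ y • E ↔ y⁻¹ * x ∈ E := by
  rw [Set.mem_smul_set_iff_inv_smul_mem, smul_eq_mul]

theorem E5a_W_finite {g : G} (hfin : (E5a_D E g).Finite) : (E5a_W X E g).Finite := by
  have h1 : ((fun x => x⁻¹ • E) '' (E5a_D E g) ∪ (fun x => (X : Set G) \ (x⁻¹ • E)) '' (E5a_D E g)).Finite :=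
    (hfin.image _).union (hfin.image _)
  refine h1.subset ?_
  rintro A ⟨⟨y, hy, hA⟩, h1A, hgA⟩
  have hyD : y⁻¹ ∈ E5a_D E g := by
    show ¬ (y⁻¹ ∈ E ↔ y⁻¹ * g ∈ E)
    rcases hA with rfl | rfl
    · rw [E5a_mem_smul, mul_one] at h1A
      rw [E5a_mem_smul] at hgA
      exact fun h => h1A (h.2 hgA)
    · have h2 : (1 : G) ∈ y • E := by
        by_contra hcon
        exact h1A ⟨X.one_mem, hcon⟩
      rw [E5a_mem_smul, mul_one] at h2
      have h3 := hgA.2
      rw [E5a_mem_smul] at h3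
      exact fun h => h3 (h.1 h2)
  rcases hA with rfl | rfl
  · left
    refine ⟨y⁻¹, hyD, ?_⟩
    show (y⁻¹)⁻¹ • E = y • E
    rw [inv_inv]
  · right
    refine ⟨y⁻¹, hyD, ?_⟩
    show (X : Set G) \ ((y⁻¹)⁻¹ • E) = (X : Set G) \ (y • E)
    rw [inv_inv]

theorem E5a_W_nonempty (hsub : E ⊆ (X : Set G)) {g x : G} (hg : g ∈ X) (hx : x ∈ E5a_D E g) :
    (E5a_W X E g).Nonempty := by
  by_cases hxE : x ∈ E
  · have hxg : x * g ∉ E := fun h => hx ⟨fun _ => h, fun _ => hxE⟩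
    have hxX : x ∈ X := hsub hxE
    refine ⟨(X : Set G) \ (x⁻¹ • E), ⟨x⁻¹, X.inv_mem hxX, Or.inr rfl⟩, ?_, hg, ?_⟩
    · intro h
      apply h.2
      rw [E5a_mem_smul, inv_inv, mul_one]
      exact hxE
    · rw [E5a_mem_smul, inv_inv]
      exact hxg
  · have hxg : x * g ∈ E := by
      by_contra h
      exact hx ⟨fun h' => absurd h' hxE, fun h' => absurd h' h⟩
    have hxX : x ∈ X := (X.mul_mem_cancel_right hg).1 (hsub hxg)
    refine ⟨x⁻¹ • E, ⟨x⁻¹, X.inv_mem hxX, Or.inl rfl⟩, ?_, ?_⟩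
    · rw [E5a_mem_smul, inv_inv, mul_one]
      exact hxE
    · rw [E5a_mem_smul, inv_inv]
      exact hxg

theorem E5a_smul_sub (hsub : E ⊆ (X : Set G)) {y : G} (hy : y ∈ X) : y • E ⊆ (X : Set G) := by
  intro x hx
  rw [E5a_mem_smul] at hx
  exact (X.mul_mem_cancel_left (X.inv_mem hy)).1 (hsub hx)

/-- the first wall between `1` and `g` -/
theorem E5a_first (h : Base X E) {g : G} (hg : g ∈ X) {x : G} (hx : x ∈ E5a_D E g) :
    (∃ y ∈ RStab X E, y⁻¹ * g ∈ E) ∨
      ∃ y ∈ X, y⁻¹ ∈ E ∧ y⁻¹ * g ∉ E ∧ ∀ x, x ∈ insert 1 E ↔ x * y⁻¹ ∈ E := by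
  have hsub := h.ai.1
  have hfin : (E5a_W X E g).Finite := E5a_W_finite (h.ai.2 g hg)
  obtain ⟨A, hA⟩ := hfin.exists_maximal (E5a_W_nonempty hsub hg hx)
  obtain ⟨⟨⟨y, hy, hAy⟩, h1A, hgA⟩, hmax⟩ := hA
  have hmax' : ∀ B ∈ E5a_W X E g, A ⊆ B → A = B := fun B hB hAB => hAB.antisymm (hmax hB hAB)
  rcases hAy with rfl | rfl
  · left
    refine ⟨y, h.mem_H0 hy h1A ?_ ?_, E5a_mem_smul.1 hgA⟩
    · intro k hk h1k hsubk
      exact hmax' _ ⟨⟨k, hk, Or.inl rfl⟩, h1k, hsubk hgA⟩ hsubk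
    · intro k hk h1k hsubk
      exact hmax' _ ⟨⟨k, hk, Or.inr rfl⟩, fun h' => h'.2 h1k, hsubk hgA⟩ hsubk
  · right
    have h1y : (1 : G) ∈ y • E := by
      by_contra hcon
      exact h1A ⟨X.one_mem, hcon⟩
    refine ⟨y, hy, ?_, ?_, h.caseI_of hy h1y ?_ ?_⟩
    · rw [E5a_mem_smul, mul_one] at h1y
      exact h1y
    · have h3 := hgA.2
      rw [E5a_mem_smul] at h3
      exact h3
    · intro k hk h1k hsubk
      exact hmax' _ ⟨⟨k, hk, Or.inl rfl⟩, h1k, hsubk hgA⟩ hsubk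
    · intro k hk h1k hsubk
      have h4 := hmax' _ ⟨⟨k, hk, Or.inr rfl⟩, fun h' => h'.2 h1k, hsubk hgA⟩ hsubk
      have h5 := congrArg (fun B => (X : Set G) \ B) h4
      simp only [Set.sdiff_sdiff_right_self] at h5
      rw [Set.inter_eq_self_of_subset_right (E5a_smul_sub hsub hy),
        Set.inter_eq_self_of_subset_right (E5a_smul_sub hsub hk)] at h5
      exact h5

/-- ROW w-E5a: generation in case I. Induction on the number of `x` with `¬ (x ∈ E ↔ x * g ∈ E)`. -/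
theorem Base.gen_caseI (h : Base X E) {s : G} (hs : s ∈ X) (hcs : ∀ x, x ∈ insert 1 E ↔ x * s ∈ E) :
    RStab X E ⊔ Subgroup.zpowers s = X := by
  have hH0 : RStab X E ≤ RStab X E ⊔ Subgroup.zpowers s := le_sup_left
  have hsP : s ∈ RStab X E ⊔ Subgroup.zpowers s := (le_sup_right : Subgroup.zpowers s ≤ _) (Subgroup.mem_zpowers s)
  refine le_antisymm (sup_le (fun g hg => hg.1) ((Subgroup.zpowers_le).2 hs)) ?_
  have main : ∀ (n : ℕ) (g : G), g ∈ X → (E5a_D E g).ncard = n → g ∈ RStab X E ⊔ Subgroup.zpowers s := by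
    intro n
    induction n using Nat.strong_induction_on with
    | _ n ih =>
      intro g hg hn
      have hfin : (E5a_D E g).Finite := h.ai.2 g hg
      by_cases hne : (E5a_D E g).Nonempty
      · obtain ⟨x, hx⟩ := hne
        have step : ∀ u ∈ X, u ∈ RStab X E ⊔ Subgroup.zpowers s → ∀ x0 ∈ E5a_D E g,
            (∀ z, z * u ∈ E5a_D E (u⁻¹ * g) ↔ z ∈ E5a_D E g ∧ z ≠ x0) → g ∈ RStab X E ⊔ Subgroup.zpowers s := by
          intro u hu huP x0 hx0 hD
          have hlt := E5a_card hfin hx0 hD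
          rw [hn] at hlt
          have h1 := ih _ hlt (u⁻¹ * g) (X.mul_mem (X.inv_mem hu) hg) rfl
          have h2 := Subgroup.mul_mem _ huP h1
          rwa [mul_inv_cancel_left] at h2
        rcases E5a_first h hg hx with ⟨y, hy, hyg⟩ | ⟨y, hy, hy1, hyg, hyc⟩
        · have hy1 : y⁻¹ ∉ E := fun h' => h.one (by
            have := (hy.2 y⁻¹).1 h'
            rwa [inv_mul_cancel] at this)
          refine step (y * s) (X.mul_mem hy.1 hs) (Subgroup.mul_mem _ (hH0 hy) hsP) y⁻¹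
            (fun h' => hy1 (h'.2 hyg)) fun z => ?_
          have e1 : z * (y * s) ∈ E ↔ (z = y⁻¹ ∨ z ∈ E) := by
            rw [← mul_assoc, ← hcs, Set.mem_insert_iff, ← hy.2 z, mul_eq_one_iff_eq_inv]
          have e2 : z * (y * s) * ((y * s)⁻¹ * g) = z * g := by group
          show ¬ (z * (y * s) ∈ E ↔ z * (y * s) * ((y * s)⁻¹ * g) ∈ E) ↔ ¬ (z ∈ E ↔ z * g ∈ E) ∧ z ≠ y⁻¹
          rw [e1, e2]
          by_cases hz : z = y⁻¹
          · subst hz
            tauto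
          · tauto
        · have hyP : y ∈ RStab X E ⊔ Subgroup.zpowers s := by
            have h3 : y * s ∈ RStab X E := by
              refine ⟨X.mul_mem hy hs, fun x => ?_⟩
              have h4 := hyc (x * y)
              rw [mul_inv_cancel_right] at h4
              rw [← h4, hcs, mul_assoc]
            have h5 := Subgroup.mul_mem _ (hH0 h3) (Subgroup.inv_mem _ hsP)
            rwa [mul_inv_cancel_right] at h5
          refine step y hy hyP y⁻¹ (fun h' => hyg (h'.1 hy1)) fun z => ?_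
          have e1 : z * y ∈ E ↔ (z ∈ E ∧ z ≠ y⁻¹) := by
            have h4 := hyc (z * y)
            rw [mul_inv_cancel_right, Set.mem_insert_iff, mul_eq_one_iff_eq_inv] at h4
            constructor
            · intro h5
              refine ⟨h4.1 (Or.inr h5), fun h6 => h.one ?_⟩
              rw [h6, inv_mul_cancel] at h5
              exact h5
            · rintro ⟨h5, h6⟩
              exact (h4.2 h5).resolve_left h6
          have e2 : z * y * (y⁻¹ * g) = z * g := by group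
          show ¬ (z * y ∈ E ↔ z * y * (y⁻¹ * g) ∈ E) ↔ ¬ (z ∈ E ↔ z * g ∈ E) ∧ z ≠ y⁻¹
          rw [e1, e2]
          by_cases hz : z = y⁻¹
          · subst hz
            tauto
          · tauto
      · refine hH0 ⟨hg, fun x => ?_⟩
        by_contra hcon
        exact hne ⟨x, hcon⟩
  exact fun g hg => main _ g hg rfl

end WQ
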