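import Pool.Agent.Lib.MP_0c5642_al.W.E4

/-! ROW w-E5b: generation in case II. -/

set_option autoImplicit false

namespace WQ

open scoped Pointwise

variable {G : Type*} [Group G] {X : Subgroup G} {E : Set G}

/-- the side of the wall `x⁻¹ E` which does not contain `1` -/
def E5b_wl (X : Subgroup G) (E : Set G) (x : G) : Set G := {y | y ∈ X ∧ ¬ (x ∈ E ↔ x * y ∈ E)}

theorem E5b_wl_notMem (h : Base X E) {x : G} (hx : x ∈ X) (hxE : x ∉ E) :
    E5b_wl X E x = x⁻¹ • E := by
  ext y
  rw [Set.mem_smul_set_iff_inv_smul_mem, inv_inv, smul_eq_mul]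
  constructor
  · rintro ⟨_, h2⟩
    by_contra hc
    exact h2 (iff_of_false hxE hc)
  · intro hy
    refine ⟨?_, fun hc => hxE (hc.2 hy)⟩
    have h1 : x * y ∈ X := h.ai.1 hy
    have h2 := X.mul_mem (X.inv_mem hx) h1
    rwa [inv_mul_cancel_left] at h2

theorem E5b_wl_mem {x : G} (hxE : x ∈ E) :
    E5b_wl X E x = (X : Set G) \ (x⁻¹ • E) := by
  ext y
  rw [Set.mem_sdiff, Set.mem_smul_set_iff_inv_smul_mem, inv_inv, smul_eq_mul]
  constructor
  · rintro ⟨h1, h2⟩
    exact ⟨h1, fun hc => h2 (iff_of_true hxE hc)⟩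
  · rintro ⟨h1, h2⟩
    exact ⟨h1, fun hc => h2 (hc.1 hxE)⟩

theorem E5b_wl_one (h : Base X E) : E5b_wl X E 1 = E := by
  rw [E5b_wl_notMem h X.one_mem h.one, inv_one, one_smul]

theorem E5b_max (h : Base X E) {x : G} (hx : x ∈ X) (hs : E ⊆ E5b_wl X E x) :
    E5b_wl X E x = E := by
  by_cases hxE : x ∈ E
  · rw [E5b_wl_mem hxE] at hs ⊢
    refine (h.max2 x⁻¹ (X.inv_mem hx) ?_ hs).symm
    rw [Set.mem_smul_set_iff_inv_smul_mem, inv_inv, smul_eq_mul, mul_one]
    exact hxE
  · rw [E5b_wl_notMem h hx hxE] at hs ⊢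
    refine (h.max1 x⁻¹ (X.inv_mem hx) ?_ hs).symm
    rw [Set.mem_smul_set_iff_inv_smul_mem, inv_inv, smul_eq_mul, mul_one]
    exact hxE

theorem E5b_free (h : Base X E) {x : G} (hx : x ∈ X) (hs : E5b_wl X E x = E) : x = 1 := by
  by_cases hxE : x ∈ E
  · rw [E5b_wl_mem hxE] at hs
    exfalso
    apply smul_ne_compl h.tf h.ai h.inf h.coinf (X.inv_mem hx)
    ext y
    constructor
    · intro hy
      have hyX : y ∈ X := by
        rw [Set.mem_smul_set_iff_inv_smul_mem, inv_inv, smul_eq_mul] at hy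
        have h2 := X.mul_mem (X.inv_mem hx) (h.ai.1 hy)
        rwa [inv_mul_cancel_left] at h2
      refine ⟨hyX, fun hyE => ?_⟩
      rw [← hs] at hyE
      exact hyE.2 hy
    · rintro ⟨hyX, hyE⟩
      by_contra hc
      apply hyE
      rw [← hs]
      exact ⟨hyX, hc⟩
  · rw [E5b_wl_notMem h hx hxE] at hs
    have := smul_eq_self h.tf h.ai h.inf h.coinf (X.inv_mem hx) hs
    rwa [inv_eq_one] at this

/-- pointwise form of maximality and freeness -/
theorem E5b_max' (h : Base X E) {x : G} (hx : x ∈ X)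
    (hs : ∀ w ∈ E, ¬ (x ∈ E ↔ x * w ∈ E)) : x = 1 :=
  E5b_free h hx (E5b_max h hx fun w hw => ⟨h.ai.1 hw, hs w hw⟩)

theorem E5b_nested (h : Base X E) {x x' : G} (hx : x ∈ X) (hx' : x' ∈ X) :
    Disjoint (E5b_wl X E x) (E5b_wl X E x') ∨ E5b_wl X E x ⊆ E5b_wl X E x' ∨
      E5b_wl X E x' ⊆ E5b_wl X E x := by
  have hn := h.nested (x * x'⁻¹) (X.mul_mem hx (X.inv_mem hx'))
  have hmem : ∀ y : G, x * y ∈ (x * x'⁻¹) • E ↔ x' * y ∈ E := by
    intro y
    rw [Set.mem_smul_set_iff_inv_smul_mem, smul_eq_mul]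
    have : (x * x'⁻¹)⁻¹ * (x * y) = x' * y := by group
    rw [this]
  have h1X : (1 : G) ∈ X := X.one_mem
  rcases hn with hn | hn | hn | hn
  · have hn' : ∀ y ∈ X, ¬ (x * y ∈ E ∧ x' * y ∈ E) := by
      rintro y _ ⟨h1, h2⟩
      exact Set.disjoint_left.1 hn h1 ((hmem y).2 h2)
    have h1 := hn' 1 h1X
    rw [mul_one, mul_one] at h1
    by_cases hxE : x ∈ E
    · right; right
      rintro y ⟨hy1, hy2⟩
      refine ⟨hy1, ?_⟩
      have := hn' y hy1
      tauto
    · by_cases hxE' : x' ∈ E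
      · right; left
        rintro y ⟨hy1, hy2⟩
        refine ⟨hy1, ?_⟩
        have := hn' y hy1
        tauto
      · left
        rw [Set.disjoint_left]
        rintro y ⟨hy1, hy2⟩ ⟨_, hy3⟩
        have := hn' y hy1
        tauto
  · have hn' : ∀ y ∈ X, x * y ∈ E → x' * y ∈ E := by
      intro y _ h1
      exact (hmem y).1 (hn h1)
    have h1 := hn' 1 h1X
    rw [mul_one, mul_one] at h1
    by_cases hxE : x ∈ E
    · right; right
      rintro y ⟨hy1, hy2⟩
      refine ⟨hy1, ?_⟩
      have := hn' y hy1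
      tauto
    · by_cases hxE' : x' ∈ E
      · left
        rw [Set.disjoint_left]
        rintro y ⟨hy1, hy2⟩ ⟨_, hy3⟩
        have := hn' y hy1
        tauto
      · right; left
        rintro y ⟨hy1, hy2⟩
        refine ⟨hy1, ?_⟩
        have := hn' y hy1
        tauto
  · have hn' : ∀ y ∈ X, x' * y ∈ E → x * y ∈ E := by
      intro y _ h1
      exact hn ((hmem y).2 h1)
    have h1 := hn' 1 h1X
    rw [mul_one, mul_one] at h1
    by_cases hxE : x ∈ E
    · by_cases hxE' : x' ∈ E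
      · right; left
        rintro y ⟨hy1, hy2⟩
        refine ⟨hy1, ?_⟩
        have := hn' y hy1
        tauto
      · left
        rw [Set.disjoint_left]
        rintro y ⟨hy1, hy2⟩ ⟨_, hy3⟩
        have := hn' y hy1
        tauto
    · right; right
      rintro y ⟨hy1, hy2⟩
      refine ⟨hy1, ?_⟩
      have := hn' y hy1
      tauto
  · have hn' : ∀ y ∈ X, x * y ∈ E ∨ x' * y ∈ E := by
      intro y hy
      have hxy : x * y ∈ (X : Set G) := X.mul_mem hx hy
      rcases hn hxy with h1 | h1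
      · exact Or.inl h1
      · exact Or.inr ((hmem y).1 h1)
    have h1 := hn' 1 h1X
    rw [mul_one, mul_one] at h1
    by_cases hxE : x ∈ E
    · by_cases hxE' : x' ∈ E
      · left
        rw [Set.disjoint_left]
        rintro y ⟨hy1, hy2⟩ ⟨_, hy3⟩
        have := hn' y hy1
        tauto
      · right; left
        rintro y ⟨hy1, hy2⟩
        refine ⟨hy1, ?_⟩
        have := hn' y hy1
        tauto
    · right; right
      rintro y ⟨hy1, hy2⟩
      refine ⟨hy1, ?_⟩
      have := hn' y hy1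
      tauto

/-- two walls with a common point are comparable -/
theorem E5b_comp (h : Base X E) {x x' y : G} (hx : x ∈ X) (hx' : x' ∈ X)
    (hy : y ∈ E5b_wl X E x) (hy' : y ∈ E5b_wl X E x') :
    E5b_wl X E x ⊆ E5b_wl X E x' ∨ E5b_wl X E x' ⊆ E5b_wl X E x := by
  rcases E5b_nested h hx hx' with h1 | h1
  · exact absurd hy' (Set.disjoint_left.1 h1 hy)
  · exact h1

/-- a wall which meets `E` is contained in `E` -/
theorem E5b_sub (h : Base X E) {x y : G} (hx : x ∈ X) (hy : y ∈ E5b_wl X E x) (hyE : y ∈ E) :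
    E5b_wl X E x ⊆ E := by
  have h1 : y ∈ E5b_wl X E 1 := by
    rw [E5b_wl_one h]
    exact hyE
  rcases E5b_comp h hx X.one_mem hy h1 with h2 | h2
  · rwa [E5b_wl_one h] at h2
  · rw [E5b_wl_one h] at h2
    rw [E5b_max h hx h2]

/-- elements with a separating wall are in `X` -/
theorem E5b_memX (h : Base X E) {x g : G} (hg : g ∈ X) (hs : ¬ (x ∈ E ↔ x * g ∈ E)) : x ∈ X := by
  by_cases h1 : x ∈ E
  · exact h.ai.1 h1
  · by_cases h2 : x * g ∈ E
    · have h3 := X.mul_mem (h.ai.1 h2) (X.inv_mem hg)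
      rwa [mul_inv_cancel_right] at h3
    · exact absurd (iff_of_false h1 h2) hs

/-- crossing the first wall -/
theorem E5b_first (h : Base X E) (hcs : ∀ s ∈ X, ¬ ∀ x, x ∈ insert 1 E ↔ x * s ∈ E) {g : G}
    (hg : g ∈ X) (hn : {x | ¬ (x ∈ E ↔ x * g ∈ E)}.Nonempty) :
    ∃ k ∈ RStab X E, k⁻¹ * g ∈ E := by
  obtain ⟨x, hx, hmax⟩ := Set.Finite.exists_maximalFor (E5b_wl X E) _ (h.ai.2 g hg) hn
  have hxX : x ∈ X := E5b_memX h hg hx
  have hgx : g ∈ E5b_wl X E x := ⟨hg, hx⟩
  have hmax' : ∀ k ∈ X, E5b_wl X E x ⊆ E5b_wl X E k → E5b_wl X E x = E5b_wl X E k := by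
    intro k _ hsub
    exact Set.Subset.antisymm hsub (hmax (hsub hgx).2 hsub)
  by_cases hxE : x ∈ E
  · exfalso
    refine hcs x hxX ?_
    have key := h.caseI_of (g := x⁻¹) (X.inv_mem hxX) ?_ ?_ ?_
    · intro y
      have := key y
      rwa [inv_inv] at this
    · rw [Set.mem_smul_set_iff_inv_smul_mem, inv_inv, smul_eq_mul, mul_one]
      exact hxE
    · intro k hk h1 hsub
      have hkE : k⁻¹ ∉ E := by
        rwa [Set.mem_smul_set_iff_inv_smul_mem, smul_eq_mul, mul_one] at h1
      have hw := E5b_wl_notMem h (X.inv_mem hk) hkE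
      rw [inv_inv] at hw
      rw [← E5b_wl_mem hxE, ← hw] at hsub ⊢
      exact hmax' _ (X.inv_mem hk) hsub
    · intro k hk h1 hsub
      have hkE : k⁻¹ ∈ E := by
        rwa [Set.mem_smul_set_iff_inv_smul_mem, smul_eq_mul, mul_one] at h1
      have hw := E5b_wl_mem (X := X) hkE
      rw [inv_inv] at hw
      rw [← E5b_wl_mem hxE, ← hw] at hsub
      have heq := hmax' _ (X.inv_mem hk) hsub
      rw [E5b_wl_mem hxE, hw] at heq
      have hsubX : ∀ j ∈ X, j • E ⊆ (X : Set G) := by
        intro j hj y hy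
        rw [Set.mem_smul_set_iff_inv_smul_mem, smul_eq_mul] at hy
        have h2 := X.mul_mem hj (h.ai.1 hy)
        rwa [mul_inv_cancel_left] at h2
      rw [← Set.sdiff_sdiff_cancel_left (hsubX _ (X.inv_mem hxX)), heq,
        Set.sdiff_sdiff_cancel_left (hsubX _ hk)]
  · have hw := E5b_wl_notMem h hxX hxE
    refine ⟨x⁻¹, ?_, ?_⟩
    · refine h.mem_H0 (X.inv_mem hxX) ?_ ?_ ?_
      · rw [Set.mem_smul_set_iff_inv_smul_mem, inv_inv, smul_eq_mul, mul_one]
        exact hxE
      · intro k hk h1 hsub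
        have hkE : k⁻¹ ∉ E := by
          rwa [Set.mem_smul_set_iff_inv_smul_mem, smul_eq_mul, mul_one] at h1
        have hw' := E5b_wl_notMem h (X.inv_mem hk) hkE
        rw [inv_inv] at hw'
        rw [← hw, ← hw'] at hsub ⊢
        exact hmax' _ (X.inv_mem hk) hsub
      · intro k hk h1 hsub
        have hkE : k⁻¹ ∈ E := by
          rwa [Set.mem_smul_set_iff_inv_smul_mem, smul_eq_mul, mul_one] at h1
        have hw' := E5b_wl_mem (X := X) hkE
        rw [inv_inv] at hw'
        rw [← hw, ← hw'] at hsub ⊢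
        exact hmax' _ (X.inv_mem hk) hsub
    · rw [inv_inv]
      by_contra hc
      exact hx (iff_of_false hxE hc)

/-- the second wall -/
theorem E5b_second (h : Base X E) (hcs : ∀ s ∈ X, ¬ ∀ x, x ∈ insert 1 E ↔ x * s ∈ E) {g : G}
    (hg : g ∈ E) : ∃ x : G, x⁻¹ ∈ RStab X (insert 1 E) ∧ x ∈ E ∧ x⁻¹ ∈ E ∧ x * g ∉ E := by
  have hgX : g ∈ X := h.ai.1 hg
  have hfin : {x | x ≠ 1 ∧ ¬ (x ∈ E ↔ x * g ∈ E)}.Finite :=
    (h.ai.2 g hgX).subset fun x hx => hx.2
  have hne : {x | x ≠ 1 ∧ ¬ (x ∈ E ↔ x * g ∈ E)}.Nonempty := by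
    by_contra hcon
    refine hcs g hgX fun x => ?_
    by_cases hx : x = 1
    · subst hx
      rw [one_mul]
      exact iff_of_true (Set.mem_insert 1 E) hg
    · have h1 : x ∈ E ↔ x * g ∈ E := by
        by_contra hc
        exact hcon ⟨x, hx, hc⟩
      rw [Set.mem_insert_iff, or_iff_right hx]
      exact h1
  obtain ⟨x, hx, hmax⟩ := Set.Finite.exists_maximalFor (E5b_wl X E) _ hfin hne
  obtain ⟨hx1, hxs⟩ := hx
  have hxX : x ∈ X := E5b_memX h hgX hxs
  have hcX : x⁻¹ ∈ X := X.inv_mem hxX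
  have hgx : g ∈ E5b_wl X E x := ⟨hgX, hxs⟩
  have hxsub : E5b_wl X E x ⊆ E := E5b_sub h hxX hgx hg
  have hmax' : ∀ y ∈ X, y ≠ 1 → E5b_wl X E x ⊆ E5b_wl X E y → E5b_wl X E y ⊆ E5b_wl X E x := by
    intro y _ hy1 hsub
    exact hmax ⟨hy1, (hsub hgx).2⟩ hsub
  by_cases hxE : x ∈ E
  · have hcE : x⁻¹ ∈ E := by
      apply hxsub
      refine ⟨hcX, fun hc => ?_⟩
      have := hc.1 hxE
      rw [mul_inv_cancel] at this
      exact h.one this
    refine ⟨x, ⟨hcX, fun y => ?_⟩, hxE, hcE, fun hc => hxs (iff_of_true hxE hc)⟩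
    by_cases hy1 : y = 1
    · subst hy1
      rw [one_mul]
      exact iff_of_true (Set.mem_insert 1 E) (Set.mem_insert_of_mem 1 hcE)
    by_cases hyx : y = x
    · subst hyx
      rw [mul_inv_cancel]
      exact iff_of_true (Set.mem_insert_of_mem 1 hxE) (Set.mem_insert 1 E)
    have hyc : y * x⁻¹ ≠ 1 := by
      intro hc
      exact hyx (mul_inv_eq_one.1 hc)
    rw [Set.mem_insert_iff, Set.mem_insert_iff, or_iff_right hy1, or_iff_right hyc]
    by_contra hsep
    have hyX : y ∈ X := E5b_memX h hcX hsep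
    have hcy : x⁻¹ ∈ E5b_wl X E y := ⟨hcX, hsep⟩
    have hcx : x⁻¹ ∈ E5b_wl X E x := by
      refine ⟨hcX, fun hc => ?_⟩
      have := hc.1 hxE
      rw [mul_inv_cancel] at this
      exact h.one this
    have hsub : E5b_wl X E y ⊆ E5b_wl X E x := by
      rcases E5b_comp h hyX hxX hcy hcx with h1 | h1
      · exact h1
      · exact hmax' y hyX hy1 h1
    have hone : y * x⁻¹ = 1 := by
      refine E5b_max' h (X.mul_mem hyX hcX) fun w hw => ?_
      have hwX : w ∈ X := h.ai.1 hw
      have hz : x⁻¹ * w ∉ E5b_wl X E y := by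
        intro hz
        have h2 := (hsub hz).2
        rw [mul_inv_cancel_left] at h2
        exact h2 (iff_of_true hxE hw)
      have h3 : y ∈ E ↔ y * (x⁻¹ * w) ∈ E := by
        by_contra hc
        exact hz ⟨X.mul_mem hcX hwX, hc⟩
      rw [← mul_assoc] at h3
      intro hc
      exact hsep (h3.trans hc.symm)
    exact hyc hone
  · exfalso
    have hcE : x⁻¹ ∈ E := by
      by_contra hcE
      have h1 : x⁻¹ = 1 := by
        refine E5b_max' h hcX fun w hw => ?_
        have hwX : w ∈ X := h.ai.1 hw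
        have h2 : x⁻¹ * w ∈ E := by
          apply hxsub
          refine ⟨X.mul_mem hcX hwX, fun hc => ?_⟩
          rw [mul_inv_cancel_left] at hc
          exact hxE (hc.2 hw)
        intro hc
        exact hcE (hc.2 h2)
      exact hx1 (inv_eq_one.1 h1)
    refine hcs x⁻¹ hcX fun y => ?_
    by_cases hy1 : y = 1
    · subst hy1
      rw [one_mul]
      exact iff_of_true (Set.mem_insert 1 E) hcE
    rw [Set.mem_insert_iff, or_iff_right hy1]
    by_contra hsep
    have hyX : y ∈ X := E5b_memX h hcX hsep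
    have hcy : x⁻¹ ∈ E5b_wl X E y := ⟨hcX, hsep⟩
    have hcx : x⁻¹ ∉ E5b_wl X E x := by
      rintro ⟨_, hc⟩
      rw [mul_inv_cancel] at hc
      exact hc (iff_of_false hxE h.one)
    rcases E5b_nested h hyX hxX with h1 | h1 | h1
    · have hone : y * x⁻¹ = 1 := by
        refine E5b_max' h (X.mul_mem hyX hcX) fun w hw => ?_
        have hwX : w ∈ X := h.ai.1 hw
        have hz : x⁻¹ * w ∉ E5b_wl X E y := by
          intro hz
          refine Set.disjoint_left.1 h1 hz ⟨X.mul_mem hcX hwX, fun hc => ?_⟩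
          rw [mul_inv_cancel_left] at hc
          exact hxE (hc.2 hw)
        have h3 : y ∈ E ↔ y * (x⁻¹ * w) ∈ E := by
          by_contra hc
          exact hz ⟨X.mul_mem hcX hwX, hc⟩
        rw [← mul_assoc] at h3
        intro hc
        exact hsep (h3.trans hc.symm)
      rw [mul_inv_eq_one] at hone
      subst hone
      rw [mul_inv_cancel] at hsep
      exact hsep (iff_of_false hxE h.one)
    · exact hcx (h1 hcy)
    · exact hcx (hmax' y hyX hy1 h1 hcy)

/-- ROW w-E5b: generation in case II -/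
theorem Base.gen_caseII (h : Base X E) (hcs : ∀ s ∈ X, ¬ ∀ x, x ∈ insert 1 E ↔ x * s ∈ E) :
    RStab X E ⊔ RStab X (insert 1 E) = X := by
  apply le_antisymm
  · exact sup_le (fun g hg => hg.1) (fun g hg => hg.1)
  have main : ∀ (n : ℕ) (g : G), g ∈ X → {x | ¬ (x ∈ E ↔ x * g ∈ E)}.ncard ≤ n →
      g ∈ RStab X E ⊔ RStab X (insert 1 E) := by
    intro n
    induction n with
    | zero =>
      intro g hg hn
      have h0 : {x | ¬ (x ∈ E ↔ x * g ∈ E)} = ∅ := by
        rw [← Set.ncard_eq_zero (h.ai.2 g hg)]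
        omega
      refine Subgroup.mem_sup_left ⟨hg, fun x => ?_⟩
      by_contra hc
      have : x ∈ {x | ¬ (x ∈ E ↔ x * g ∈ E)} := hc
      rw [h0] at this
      exact this
    | succ n ih =>
      intro g hg hn
      by_cases hne : {x | ¬ (x ∈ E ↔ x * g ∈ E)}.Nonempty
      · obtain ⟨k, hk, hkg⟩ := E5b_first h hcs hg hne
        obtain ⟨x, hx, hxE, hcE, hxg⟩ := E5b_second h hcs hkg
        have hkX : k ∈ X := hk.1
        have hxX : x ∈ X := h.ai.1 hxE
        have hg'X : x * (k⁻¹ * g) ∈ X := X.mul_mem hxX (h.ai.1 hkg)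
        -- the number of walls decreases
        have hlt : {y | ¬ (y ∈ E ↔ y * (x * (k⁻¹ * g)) ∈ E)}.ncard <
            {y | ¬ (y ∈ E ↔ y * g ∈ E)}.ncard := by
          have hinj : Function.Injective fun y : G => y * x * k⁻¹ := by
            intro a b hab
            exact mul_right_cancel (mul_right_cancel hab)
          rw [← Set.ncard_image_of_injective _ hinj]
          refine Set.ncard_lt_ncard ?_ (h.ai.2 g hg)
          have hinvk : ∀ z, z ∈ E ↔ z * k⁻¹ ∈ E := (RStab X E).inv_mem hk |>.2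
          have hone : (k⁻¹ : G) ∈ {y | ¬ (y ∈ E ↔ y * g ∈ E)} := by
            intro hc
            have h1 : (1 : G) ∈ E ↔ 1 * k⁻¹ ∈ E := hinvk 1
            rw [one_mul] at h1
            exact h.one (h1.2 (hc.2 hkg))
          refine ⟨?_, fun hcon => ?_⟩
          · rintro _ ⟨y, hy, rfl⟩
            have hy' : ¬ (y ∈ E ↔ y * (x * (k⁻¹ * g)) ∈ E) := hy
            show ¬ (y * x * k⁻¹ ∈ E ↔ y * x * k⁻¹ * g ∈ E)
            have e1 : y * (x * (k⁻¹ * g)) = y * x * k⁻¹ * g := by group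
            rw [e1] at hy'
            rw [← hinvk (y * x)]
            have hY : y * x ∈ insert 1 E ↔ y ∈ insert 1 E := by
              have := hx.2 (y * x)
              rwa [mul_inv_cancel_right] at this
            have hyx1 : y * x ≠ 1 := by
              intro hc
              have hyc : y = x⁻¹ := eq_inv_of_mul_eq_one_left hc
              apply hy'
              rw [hc, one_mul, hyc]
              exact iff_of_true hcE hkg
            have hy1 : y ≠ 1 := by
              intro hc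
              apply hy'
              rw [hc, one_mul]
              refine iff_of_false h.one ?_
              rw [mul_assoc]
              exact hxg
            rw [Set.mem_insert_iff, Set.mem_insert_iff, or_iff_right hyx1, or_iff_right hy1] at hY
            rw [hY]
            exact hy'
          · obtain ⟨y, hy, hyk⟩ := hcon hone
            have hyk' : y * x * k⁻¹ = k⁻¹ := hyk
            have hyx : y * x = 1 := mul_eq_right.1 hyk'
            have hyc : y = x⁻¹ := eq_inv_of_mul_eq_one_left hyx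
            have hy' : ¬ (y ∈ E ↔ y * (x * (k⁻¹ * g)) ∈ E) := hy
            apply hy'
            rw [hyc, inv_mul_cancel_left]
            exact iff_of_true hcE hkg
        have hih := ih (x * (k⁻¹ * g)) hg'X (by omega)
        have e2 : g = k * (x⁻¹ * (x * (k⁻¹ * g))) := by group
        rw [e2]
        exact Subgroup.mul_mem _ (Subgroup.mem_sup_left hk)
          (Subgroup.mul_mem _ (Subgroup.mem_sup_right hx) hih)
      · refine Subgroup.mem_sup_left ⟨hg, fun x => ?_⟩
        by_contra hc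
        exact hne ⟨x, hc⟩
  intro g hg
  exact main _ g hg le_rfl

end WQ
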