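import Pool.Agent.Lib.MP_0c5642_al.W.A4a

/-! ROW w-E6a: ping-pong for a free product of two subgroups. -/

set_option autoImplicit false

namespace WQ

open scoped Pointwise

variable {G : Type*} [Group G]

/-- the value of a normal form starting with a syllable in `H 1` is in `P`, the value of one starting with a syllable in `H 0` is not `1` and not in `P` -/
theorem E6a_key (H : Fin 2 → Subgroup G) (X : Subgroup G) (P : Set G)
    (hX : H 0 ⊔ H 1 = X)
    (hpp0 : ∀ h ∈ H 0, h ≠ 1 → ∀ x ∈ P, h * x ∉ P)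
    (hpp1 : ∀ h ∈ H 1, h ≠ 1 → ∀ x ∈ X, x ∉ P → h * x ∈ P)
    (hP0 : ∀ h ∈ H 0, h ∉ P) (w : Monoid.CoprodI.Word (fun i => H i)) :
    Monoid.CoprodI.lift (fun i => (H i).subtype) w.prod ∈ X ∧
    (w.fstIdx = none → w = Monoid.CoprodI.Word.empty) ∧
    (w.fstIdx = some 1 → Monoid.CoprodI.lift (fun i => (H i).subtype) w.prod ∈ P) ∧
    (w.fstIdx = some 0 → Monoid.CoprodI.lift (fun i => (H i).subtype) w.prod ∉ P ∧
      Monoid.CoprodI.lift (fun i => (H i).subtype) w.prod ≠ 1) := by
  classical
  have h0X : ∀ h ∈ H 0, h ∈ X := fun h hh => hX ▸ (Subgroup.mem_sup_left hh)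
  have h1X : ∀ h ∈ H 1, h ∈ X := fun h hh => hX ▸ (Subgroup.mem_sup_right hh)
  have h1P : (1 : G) ∉ P := hP0 1 (H 0).one_mem
  induction w using Monoid.CoprodI.Word.consRecOn with
  | empty =>
    refine ⟨?_, fun _ => rfl, ?_, ?_⟩
    · rw [Monoid.CoprodI.Word.prod_empty, map_one]; exact X.one_mem
    · intro h
      exact absurd h (by simp [Monoid.CoprodI.Word.fstIdx, Monoid.CoprodI.Word.empty])
    · intro h
      exact absurd h (by simp [Monoid.CoprodI.Word.fstIdx, Monoid.CoprodI.Word.empty])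
  | cons i m w h1 h2 ih =>
    obtain ⟨ihX, ihn, ih1, ih0⟩ := ih
    have hval : Monoid.CoprodI.lift (fun i => (H i).subtype)
        (Monoid.CoprodI.Word.cons (M := fun i => H i) m w h1 h2).prod =
        (m : G) * Monoid.CoprodI.lift (fun i => (H i).subtype) w.prod := by
      rw [Monoid.CoprodI.Word.prod_cons, map_mul, Monoid.CoprodI.lift_of]
      rfl
    have hm1 : (m : G) ≠ 1 := by
      intro h
      exact h2 (by ext; exact h)
    rw [hval, Monoid.CoprodI.Word.fstIdx_cons]
    fin_cases i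
    · have hm : (m : G) ∈ H 0 := m.2
      refine ⟨X.mul_mem (h0X _ hm) ihX, fun h => by simp at h, fun h => by simp at h, fun _ => ?_⟩
      rcases hw : w.fstIdx with _ | j
      · have hwe := ihn hw
        rw [hwe, Monoid.CoprodI.Word.prod_empty, map_one, mul_one]
        exact ⟨hP0 _ hm, hm1⟩
      · have hj : j = 1 := by
          have hj0 : j ≠ 0 := by
            intro hj
            exact h1 (by rw [hw, hj]; rfl)
          omega
        have hp := ih1 (by rw [hw, hj])
        refine ⟨hpp0 _ hm hm1 _ hp, fun h => ?_⟩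
        have h' : Monoid.CoprodI.lift (fun i => (H i).subtype) w.prod = (m : G)⁻¹ :=
          eq_inv_of_mul_eq_one_right h
        exact hP0 _ ((H 0).inv_mem hm) (h' ▸ hp)
    · have hm : (m : G) ∈ H 1 := m.2
      refine ⟨X.mul_mem (h1X _ hm) ihX, fun h => by simp at h, fun _ => ?_, fun h => by simp at h⟩
      refine hpp1 _ hm hm1 _ ihX ?_
      rcases hw : w.fstIdx with _ | j
      · have hwe := ihn hw
        rw [hwe, Monoid.CoprodI.Word.prod_empty, map_one]
        exact h1P
      · have hj : j = 0 := by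
          have hj1 : j ≠ 1 := by
            intro hj
            exact h1 (by rw [hw, hj]; rfl)
          omega
        exact (ih0 (by rw [hw, hj])).1

/-- every element of `X` is the value of a normal form -/
theorem E6a_surj (H : Fin 2 → Subgroup G) (X : Subgroup G) (hX : H 0 ⊔ H 1 = X) (g : G) (hg : g ∈ X) :
    ∃ w : Monoid.CoprodI.Word (fun i => H i),
      Monoid.CoprodI.lift (fun i => (H i).subtype) w.prod = g := by
  classical
  have hr : (Monoid.CoprodI.lift (fun i => (H i).subtype)).range = X := by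
    rw [Monoid.CoprodI.range_eq_iSup, ← hX]
    simp only [Subgroup.range_subtype]
    apply le_antisymm
    · apply iSup_le
      intro i
      fin_cases i
      · exact le_sup_left
      · exact le_sup_right
    · exact sup_le (le_iSup H 0) (le_iSup H 1)
  rw [← hr] at hg
  obtain ⟨y, hy⟩ := hg
  refine ⟨Monoid.CoprodI.Word.equiv y, ?_⟩
  have : (Monoid.CoprodI.Word.equiv y).prod = y := Monoid.CoprodI.Word.equiv.symm_apply_apply y
  rw [this, hy]

/-- ROW w-E6a. `Monoid.CoprodI.lift_injective_of_ping_pong` with the sets `X \ P` (for `H 0`) and `P` (for `H 1`); a normal form starting with a syllable in `H 1` has value in `P`, one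
starting with a syllable in `H 0` has value in `X \ P` (induction on the word). -/
theorem isFP_of_pingpong (htf : ∀ g : G, IsOfFinOrder g → g = 1) (H : Fin 2 → Subgroup G) (X : Subgroup G) (P : Set G)
    (hPX : P ⊆ (X : Set G)) (hX : H 0 ⊔ H 1 = X) (hne : H 0 ≠ ⊥) (hP : P.Nonempty)
    (hpp0 : ∀ h ∈ H 0, h ≠ 1 → ∀ x ∈ P, h * x ∉ P)
    (hpp1 : ∀ h ∈ H 1, h ≠ 1 → ∀ x ∈ X, x ∉ P → h * x ∈ P)
    (hP0 : ∀ h ∈ H 0, h ∉ P) :
    IsFP H X ∧ Br H 1 = (X : Set G) \ P ∧ Br H 0 = insert 1 P := by
  classical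
  have h1P : (1 : G) ∉ P := hP0 1 (H 0).one_mem
  have key := E6a_key H X P hX hpp0 hpp1 hP0
  have surj := E6a_surj H X hX
  have cases3 : ∀ w : Monoid.CoprodI.Word (fun i => H i),
      w.fstIdx = none ∨ w.fstIdx = some 0 ∨ w.fstIdx = some 1 := by
    intro w
    rcases w.fstIdx with _ | j
    · exact Or.inl rfl
    · fin_cases j
      · exact Or.inr (Or.inl rfl)
      · exact Or.inr (Or.inr rfl)
  refine ⟨⟨?_, ?_⟩, ?_, ?_⟩
  · rw [injective_iff_map_eq_one]
    intro y hy
    obtain ⟨w, rfl⟩ : ∃ w : Monoid.CoprodI.Word (fun i => H i), w.prod = y :=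
      ⟨Monoid.CoprodI.Word.equiv y, Monoid.CoprodI.Word.equiv.symm_apply_apply y⟩
    obtain ⟨_, kn, k1, k0⟩ := key w
    rcases cases3 w with h | h | h
    · rw [kn h, Monoid.CoprodI.Word.prod_empty]
    · exact absurd hy (k0 h).2
    · exact absurd (hy ▸ k1 h) h1P
  · rw [← hX]
    apply le_antisymm
    · apply iSup_le
      intro i
      fin_cases i
      · exact le_sup_left
      · exact le_sup_right
    · exact sup_le (le_iSup H 0) (le_iSup H 1)
  · ext g
    constructor
    · rintro ⟨w, hw, rfl⟩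
      obtain ⟨kX, kn, k1, k0⟩ := key w
      refine ⟨kX, ?_⟩
      rcases cases3 w with h | h | h
      · rw [kn h, Monoid.CoprodI.Word.prod_empty, map_one]
        exact h1P
      · exact (k0 h).1
      · exact absurd h hw
    · rintro ⟨hgX, hgP⟩
      obtain ⟨w, rfl⟩ := surj g hgX
      exact ⟨w, fun h => hgP ((key w).2.2.1 h), rfl⟩
  · ext g
    constructor
    · rintro ⟨w, hw, rfl⟩
      obtain ⟨kX, kn, k1, k0⟩ := key w
      rcases cases3 w with h | h | h
      · left
        rw [kn h, Monoid.CoprodI.Word.prod_empty, map_one]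
      · exact absurd h hw
      · exact Or.inr (k1 h)
    · rintro (rfl | hg)
      · refine ⟨Monoid.CoprodI.Word.empty, ?_, ?_⟩
        · simp [Monoid.CoprodI.Word.fstIdx, Monoid.CoprodI.Word.empty]
        · rw [Monoid.CoprodI.Word.prod_empty, map_one]
      · obtain ⟨w, rfl⟩ := surj g (hPX hg)
        exact ⟨w, fun h => ((key w).2.2.2 h).1 hg, rfl⟩

end WQ
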