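import Pool.Agent.Lib.MP_0c5642_al.W.E2
import Pool.Agent.Lib.MP_0c5642_al.W.E5a
import Pool.Agent.Lib.MP_0c5642_al.W.E5b
import Pool.Agent.Lib.MP_0c5642_al.W.E6a

/-! ROW w-E6b: Lemma S1. -/

set_option autoImplicit false

namespace WQ

open scoped Pointwise

variable {G : Type*} [Group G]

private theorem E6b_notMem {X : Subgroup G} {F : Set G} (h : Base X F) {g : G} (hg : g ∈ RStab X F) :
    g ∉ F := by
  intro hgF
  have h1 := (hg.2 1).2 (by rw [one_mul]; exact hgF)
  exact h.one h1

/-- the statement for a set in standard position -/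
private theorem E6b_base (X : Subgroup G) (F : Set G) (h : Base X F) :
    (∃ s, X = Subgroup.zpowers s) ∨
    ∃ H : Fin 2 → Subgroup G, IsFP H X ∧ (∀ i, H i ≠ ⊥) ∧
      ∀ T : Set (Set G), IsAlg X T → F ∈ T → ∀ i, Br H i ∈ T := by
  have hFX : F ⊆ (X : Set G) := h.ai.1
  by_cases hI : ∃ s ∈ X, ∀ x, x ∈ insert 1 F ↔ x * s ∈ F
  · obtain ⟨s, hs, hcs⟩ := hI
    have hgen := h.gen_caseI hs hcs
    obtain ⟨hdis, hmap⟩ := h.caseI hs hcs
    by_cases hbot : RStab X F = ⊥
    · left
      rw [hbot, bot_sup_eq] at hgen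
      exact ⟨s, hgen.symm⟩
    · right
      have hsF : s ∈ F := by
        have := (hcs 1).1 (Set.mem_insert 1 F)
        rwa [one_mul] at this
      have hs1 : s ≠ 1 := by
        rintro rfl
        exact h.one hsF
      set P : Set G := F ∪ ((X : Set G) \ (s⁻¹ • F)) with hP
      have hmemB : ∀ x, x ∈ s⁻¹ • F ↔ s * x ∈ F := by
        intro x
        rw [Set.mem_smul_set_iff_inv_smul_mem, inv_inv, smul_eq_mul]
      have hdisj : ∀ x ∈ F, x ∉ (X : Set G) \ (s⁻¹ • F) := fun x hx hx' =>
        Set.disjoint_left.1 hdis hx hx'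
      have hpos : ∀ n : ℕ, ∀ x ∈ X, x ∉ (X : Set G) \ (s⁻¹ • F) → s ^ (n + 1) * x ∈ F := by
        intro n
        induction n with
        | zero =>
          intro x hx hx'
          rw [zero_add, pow_one, ← hmemB]
          by_contra hcon
          exact hx' ⟨hx, hcon⟩
        | succ n ih =>
          intro x hx hx'
          have h1 := ih x hx hx'
          have h2 := hdisj _ h1
          have h3 : s ^ (n + 1) * x ∈ s⁻¹ • F := by
            by_contra hcon
            exact h2 ⟨hFX h1, hcon⟩
          rw [hmemB] at h3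
          rw [pow_succ', mul_assoc]
          exact h3
      have hneg : ∀ n : ℕ, ∀ x ∈ X, x ∉ F → (s ^ (n + 1))⁻¹ * x ∈ (X : Set G) \ (s⁻¹ • F) := by
        intro n
        induction n with
        | zero =>
          intro x hx hx'
          rw [zero_add, pow_one]
          refine ⟨X.mul_mem (X.inv_mem hs) hx, ?_⟩
          rw [hmemB, mul_inv_cancel_left]
          exact hx'
        | succ n ih =>
          intro x hx hx'
          have h1 := ih x hx hx'
          have h2 : (s ^ (n + 1))⁻¹ * x ∉ F := fun h3 => hdisj _ h3 h1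
          refine ⟨X.mul_mem (X.inv_mem (X.pow_mem hs _)) hx, ?_⟩
          rw [hmemB]
          have e : s * ((s ^ (n + 1 + 1))⁻¹ * x) = (s ^ (n + 1))⁻¹ * x := by
            rw [pow_succ, mul_inv_rev, ← mul_assoc, mul_inv_cancel_left]
          rw [e]
          exact h2
      have hpp := isFP_of_pingpong h.tf ![RStab X F, Subgroup.zpowers s] X P
        (by
          rintro x (hx | hx)
          · exact hFX hx
          · exact hx.1)
        hgen hbot
        (h.inf.nonempty.mono Set.subset_union_left)
        (fun g hg hg1 x hx => hmap g hg hg1 x hx)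
        (by
          intro g hg hg1 x hx hxP
          obtain ⟨n, rfl⟩ := Subgroup.mem_zpowers_iff.1 hg
          have hx1 : x ∉ F := fun hh => hxP (Or.inl hh)
          have hx2 : x ∉ (X : Set G) \ (s⁻¹ • F) := fun hh => hxP (Or.inr hh)
          rcases n with n | n
          · rcases n with _ | n
            · exact absurd (by simp) hg1
            · left
              have := hpos n x hx hx2
              show s ^ ((n + 1 : ℕ) : ℤ) * x ∈ F
              rw [zpow_natCast]
              exact this
          · right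
            have := hneg n x hx hx1
            simpa using this)
        (by
          rintro g hg (hg' | hg')
          · exact E6b_notMem h hg hg'
          · refine hg'.2 ?_
            rw [hmemB]
            exact (hg.2 s).1 hsF)
      obtain ⟨hfp, hb1, hb0⟩ := hpp
      refine ⟨![RStab X F, Subgroup.zpowers s], hfp, ?_, ?_⟩
      · intro i
        fin_cases i
        · exact hbot
        · exact fun hh => hs1 (Subgroup.zpowers_eq_bot.1 hh)
      · intro T hT hFT i
        have hPT : P ∈ T := hT.union hFT (hT.compl _ (hT.smul _ hFT _ (X.inv_mem hs)))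
        fin_cases i
        · show Br _ 0 ∈ T
          rw [hb0, Set.insert_eq]
          refine hT.union (hT.fin _ ?_ (Set.finite_singleton 1)) hPT
          rintro x rfl
          exact X.one_mem
        · show Br _ 1 ∈ T
          rw [hb1]
          exact hT.compl _ hPT
  · right
    push Not at hI
    have hII : ∀ s ∈ X, ¬ ∀ x, x ∈ insert 1 F ↔ x * s ∈ F := by
      intro s hs hh
      obtain ⟨x, hx⟩ := hI s hs
      rcases hx with ⟨h1, h2⟩ | ⟨h1, h2⟩
      · exact h2 ((hh x).1 h1)
      · exact h1 ((hh x).2 h2)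
    have hgen := h.gen_caseII hII
    have hne0 : RStab X F ≠ ⊥ := by
      intro hb
      rw [hb, bot_sup_eq] at hgen
      refine h.coinf ((Set.finite_singleton (1 : G)).subset ?_)
      rintro x ⟨hx, hxF⟩
      have hx' : x ∈ RStab X (insert 1 F) := by rw [hgen]; exact hx
      have := (hx'.2 1).1 (Set.mem_insert 1 F)
      rw [one_mul] at this
      rcases this with rfl | hh
      · rfl
      · exact absurd hh hxF
    have hne1 : RStab X (insert 1 F) ≠ ⊥ := by
      intro hb
      rw [hb, sup_bot_eq] at hgen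
      obtain ⟨x, hx⟩ := h.inf.nonempty
      have hx' : x ∈ RStab X F := by rw [hgen]; exact hFX hx
      exact E6b_notMem h hx' hx
    have hpp := isFP_of_pingpong h.tf ![RStab X F, RStab X (insert 1 F)] X F hFX hgen hne0
      h.inf.nonempty
      (fun g hg hg1 x hx hgx => Set.disjoint_left.1 (h.H0 hg hg1) hgx ⟨x, hx, rfl⟩)
      (by
        intro g hg hg1 x hx hxF
        rcases h.H1 hg hg1 (X.mul_mem hg.1 hx) with hh | ⟨y, hy, hyx⟩
        · exact hh
        · have : y = x := mul_left_cancel hyx
          exact absurd (this ▸ hy) hxF)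
      (fun g hg => E6b_notMem h hg)
    obtain ⟨hfp, hb1, hb0⟩ := hpp
    refine ⟨![RStab X F, RStab X (insert 1 F)], hfp, ?_, ?_⟩
    · intro i
      fin_cases i
      · exact hne0
      · exact hne1
    · intro T hT hFT i
      fin_cases i
      · show Br _ 0 ∈ T
        rw [hb0, Set.insert_eq]
        refine hT.union (hT.fin _ ?_ (Set.finite_singleton 1)) hFT
        rintro x rfl
        exact X.one_mem
      · show Br _ 1 ∈ T
        rw [hb1]
        exact hT.compl _ hFT

/-- ROW w-E6b. Lemma S1. `exists_base`; case I (some `s` with `(E ∪ {1}) s = E`): `X = ⟨s⟩` if `RStab X E = ⊥`, otherwise `H = (RStab X E, ⟨s⟩)`, `P = E ∪ (X \ s⁻¹ E)`;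
case II: `H = (RStab X E, RStab X (E ∪ {1}))`, `P = E`; both are nontrivial since `E` is neither empty, finite nor cofinite. -/
theorem S1 (htf : ∀ g : G, IsOfFinOrder g → g = 1) (X : Subgroup G) (E : Set G) (hai : AI X E) (hinf : E.Infinite)
    (hco : ((X : Set G) \ E).Infinite) (hn : ∀ g ∈ X, Nested X E (g • E)) :
    (∃ s, X = Subgroup.zpowers s) ∨
    ∃ H : Fin 2 → Subgroup G, IsFP H X ∧ (∀ i, H i ≠ ⊥) ∧
      ∀ T : Set (Set G), IsAlg X T → E ∈ T → ∀ i, Br H i ∈ T := by
  obtain ⟨g, hg, hb | hb⟩ := exists_base htf hai hinf hco hn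
  · rcases E6b_base X _ hb with hc | ⟨H, h1, h2, h3⟩
    · exact Or.inl hc
    · exact Or.inr ⟨H, h1, h2, fun T hT hE => h3 T hT (hT.smul _ hE _ hg)⟩
  · rcases E6b_base X _ hb with hc | ⟨H, h1, h2, h3⟩
    · exact Or.inl hc
    · exact Or.inr ⟨H, h1, h2, fun T hT hE => h3 T hT (hT.compl _ (hT.smul _ hE _ hg))⟩

end WQ
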