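import Pool.Agent.Lib.MP_0c5642_al.W.A3

/-! ROW w-F1a: internal free products; `Monoid.CoprodI.Word.equivPair i` splits a word into its first syllable in `X i` (or `1`) and the rest. -/

set_option autoImplicit false

namespace WQ

open scoped Pointwise

variable {G : Type*} [Group G] {ι : Type} {X : ι → Subgroup G} {V : Subgroup G}

theorem F1a_range (X : ι → Subgroup G) :
    (Monoid.CoprodI.lift (fun i => (X i).subtype)).range = ⨆ i, X i := by
  rw [Monoid.CoprodI.range_eq_iSup]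
  simp only [Subgroup.range_subtype]

theorem F1a_of {i : ι} (x : X i) :
    Monoid.CoprodI.lift (fun i => (X i).subtype) (Monoid.CoprodI.of x) = (x : G) := by
  rw [Monoid.CoprodI.lift_of]
  rfl

theorem F1a_word (h : IsFP X V) {g : G} (hg : g ∈ V) :
    ∃ w : Monoid.CoprodI.Word (fun i => X i), Monoid.CoprodI.lift (fun i => (X i).subtype) w.prod = g := by
  classical
  rw [← h.2, ← F1a_range] at hg
  obtain ⟨m, hm⟩ := hg
  refine ⟨Monoid.CoprodI.Word.equiv m, ?_⟩
  have : (Monoid.CoprodI.Word.equiv m).prod = m := Monoid.CoprodI.Word.equiv.symm_apply_apply m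
  rw [this, hm]

theorem F1a_inj (h : IsFP X V) {w w' : Monoid.CoprodI.Word (fun i => X i)}
    (he : Monoid.CoprodI.lift (fun i => (X i).subtype) w.prod =
      Monoid.CoprodI.lift (fun i => (X i).subtype) w'.prod) : w = w' := by
  classical
  have h1 : w.prod = w'.prod := h.1 he
  exact Monoid.CoprodI.Word.equiv.symm.injective h1

theorem IsFP.le (h : IsFP X V) (i : ι) : X i ≤ V := by
  rw [← h.2]
  exact le_iSup X i

theorem IsFP.Br_subset (h : IsFP X V) (i : ι) : Br X i ⊆ (V : Set G) := by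
  rintro g ⟨w, -, rfl⟩
  rw [← h.2, ← F1a_range]
  exact ⟨_, rfl⟩

theorem one_mem_Br (i : ι) : (1 : G) ∈ Br X i := by
  refine ⟨Monoid.CoprodI.Word.empty, ?_, ?_⟩
  · simp [Monoid.CoprodI.Word.fstIdx, Monoid.CoprodI.Word.empty]
  · rw [Monoid.CoprodI.Word.prod_empty, map_one]

/-- existence of the projection -/
theorem IsFP.exists_proj (h : IsFP X V) (i : ι) {g : G} (hg : g ∈ V) : ∃ x ∈ X i, ∃ b ∈ Br X i, g = x * b := by
  classical
  obtain ⟨w, hw⟩ := F1a_word h hg
  set p := Monoid.CoprodI.Word.equivPair i w with hp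
  have h1 : w = Monoid.CoprodI.Word.rcons p := by
    rw [← Monoid.CoprodI.Word.equivPair_symm, hp, Equiv.symm_apply_apply]
  refine ⟨p.head, p.head.2, _, ⟨p.tail, p.fstIdx_ne, rfl⟩, ?_⟩
  rw [← hw, h1, Monoid.CoprodI.Word.prod_rcons, map_mul, F1a_of]

/-- uniqueness -/
theorem IsFP.proj_unique (h : IsFP X V) (i : ι) {x x' b b' : G} (hx : x ∈ X i) (hx' : x' ∈ X i) (hb : b ∈ Br X i)
    (hb' : b' ∈ Br X i) (he : x * b = x' * b') : x = x' := by
  classical
  obtain ⟨w, hw, rfl⟩ := hb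
  obtain ⟨w', hw', rfl⟩ := hb'
  have h1 : Monoid.CoprodI.Word.rcons (⟨⟨x, hx⟩, w, hw⟩ : Monoid.CoprodI.Word.Pair (fun i => X i) i) =
      Monoid.CoprodI.Word.rcons ⟨⟨x', hx'⟩, w', hw'⟩ := by
    apply F1a_inj h
    rw [Monoid.CoprodI.Word.prod_rcons, Monoid.CoprodI.Word.prod_rcons, map_mul, map_mul, F1a_of, F1a_of]
    exact he
  have h2 := Monoid.CoprodI.Word.rcons_inj h1
  have h3 := congrArg (fun p => ((p.head : X i) : G)) h2
  exact h3

/-- an element starting with a syllable in `X j` does not start with one in `X i` -/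
theorem F1a_mul_mem_Br {i j : ι} (hij : i ≠ j) {x b : G} (hx : x ∈ X j) (hx1 : x ≠ 1) (hb : b ∈ Br X j) :
    x * b ∈ Br X i := by
  obtain ⟨w, hw, rfl⟩ := hb
  have hne : (⟨x, hx⟩ : X j) ≠ 1 := fun h => hx1 (congrArg Subtype.val h)
  refine ⟨Monoid.CoprodI.Word.cons (M := fun i => X i) (⟨x, hx⟩ : X j) w hw hne, ?_, ?_⟩
  · rw [Monoid.CoprodI.Word.fstIdx_cons]
    exact fun h => hij (Option.some.inj h).symm
  · rw [Monoid.CoprodI.Word.prod_cons, map_mul, F1a_of]

/-- elements of another factor do not start with a syllable in `X i` -/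
theorem IsFP.mem_Br_of_mem (h : IsFP X V) {i j : ι} (hij : i ≠ j) {x : G} (hx : x ∈ X j) : x ∈ Br X i := by
  by_cases h1 : x = 1
  · rw [h1]
    exact one_mem_Br i
  · have := F1a_mul_mem_Br hij hx h1 (one_mem_Br (X := X) j)
    rwa [mul_one] at this

/-- an element starting with a syllable in `X j` does not start with one in `X i` -/
theorem IsFP.mul_mem_Br (h : IsFP X V) {i j : ι} (hij : i ≠ j) {x b : G} (hx : x ∈ X j) (hx1 : x ≠ 1) (hb : b ∈ Br X j) :
    x * b ∈ Br X i :=
  F1a_mul_mem_Br hij hx hx1 hb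

/-- induction along normal forms -/
theorem IsFP.induction (h : IsFP X V) {P : G → Prop} (h1 : P 1)
    (hs : ∀ (i : ι) (x b : G), x ∈ X i → x ≠ 1 → b ∈ Br X i → P b → P (x * b)) {g : G} (hg : g ∈ V) : P g := by
  obtain ⟨w, rfl⟩ := F1a_word h hg
  induction w using Monoid.CoprodI.Word.consRecOn with
  | empty =>
    rw [Monoid.CoprodI.Word.prod_empty, map_one]
    exact h1
  | cons i m w hw hm ih =>
    rw [Monoid.CoprodI.Word.prod_cons, map_mul, F1a_of]
    have hP : Monoid.CoprodI.lift (fun i => (X i).subtype) w.prod ∈ V := by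
      rw [← h.2, ← F1a_range]
      exact ⟨_, rfl⟩
    refine hs i _ _ m.2 (fun e => hm (Subtype.ext e)) ⟨w, hw, rfl⟩ (ih hP)

/-- no element of `X i` other than `1` is in `Br X i` -/
theorem IsFP.mem_Br_self (h : IsFP X V) {i : ι} {x : G} (hx : x ∈ X i) (hb : x ∈ Br X i) : x = 1 :=
  h.proj_unique i hx (X i).one_mem (one_mem_Br i) hb (by rw [mul_one, one_mul])

end WQ
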