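import Pool.Agent.Lib.MP_0c5642_al.W.F1a

/-! ROW w-F1b: basic sets are almost invariant. -/

set_option autoImplicit false

namespace WQ

open scoped Pointwise

variable {G : Type*} [Group G] {ι : Type} {X : ι → Subgroup G} {V : Subgroup G}

theorem F1b_mem_iff (h : IsFP X V) {i : ι} {x b : G} (hx : x ∈ X i) (hb : b ∈ Br X i) :
    x * b ∈ Br X i ↔ x = 1 := by
  constructor
  · intro hh
    exact h.proj_unique i hx (X i).one_mem hb hh (by rw [one_mul])
  · rintro rfl
    rwa [one_mul]

theorem F1b_mul (h : IsFP X V) {j : ι} {y : G} (hy : y ∈ X j) {b : G} (hb : b ∈ V) :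
    ∀ i : ι, b ∈ Br X i → (j ≠ i ∨ b ≠ 1) → b * y ∈ Br X i := by
  refine h.induction (P := fun b => ∀ i : ι, b ∈ Br X i → (j ≠ i ∨ b ≠ 1) → b * y ∈ Br X i) ?_ ?_ hb
  · intro i _ hi
    rw [one_mul]
    rcases hi with hi | hi
    · exact h.mem_Br_of_mem hi.symm hy
    · exact absurd rfl hi
  · intro k x b hx hx1 hb ih i hi _
    have hik : i ≠ k := by
      rintro rfl
      exact hx1 ((F1b_mem_iff h hx hb).1 hi)
    rw [mul_assoc]
    by_cases hc : j ≠ k ∨ b ≠ 1
    · exact h.mul_mem_Br hik hx hx1 (ih k hb hc)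
    · push Not at hc
      obtain ⟨rfl, rfl⟩ := hc
      rw [one_mul]
      exact h.mem_Br_of_mem hik ((X j).mul_mem hx hy)

/-- `Br X i` is almost invariant (multiplying `g = y_1 … y_l` on the right by a factor element changes the condition on the first syllable only for finitely many `g`; use `ai_of_closure` with
`S = ⋃ X j`). -/
theorem IsFP.AI_Br (h : IsFP X V) (i : ι) : AI V (Br X i) := by
  refine ai_of_closure (S := ⋃ j, (X j : Set G)) ?_ (h.Br_subset i) ?_
  · rw [← h.2, Subgroup.iSup_eq_closure]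
  · intro y hy
    obtain ⟨j, hy⟩ := Set.mem_iUnion.1 hy
    have hyV : y ∈ V := h.le j hy
    refine (Set.toFinite ({1, y⁻¹} : Set G)).subset fun x hx => ?_
    by_contra hne
    refine hx ?_
    simp only [Set.mem_insert_iff, Set.mem_singleton_iff, not_or] at hne
    by_cases hxV : x ∈ V
    swap
    · refine iff_of_false (fun hh => hxV (h.Br_subset i hh)) fun hh => hxV ?_
      have := V.mul_mem (h.Br_subset i hh) (V.inv_mem hyV)
      rwa [mul_inv_cancel_right] at this
    obtain ⟨u, hu, b, hb, rfl⟩ := h.exists_proj i hxV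
    by_cases hc : j ≠ i ∨ b ≠ 1
    · rw [mul_assoc, F1b_mem_iff h hu hb, F1b_mem_iff h hu (F1b_mul h hy (h.Br_subset i hb) i hb hc)]
    · push Not at hc
      obtain ⟨rfl, rfl⟩ := hc
      rw [mul_one] at hne ⊢
      refine iff_of_false (fun hh => hne.1 (h.mem_Br_self hu hh)) fun hh => hne.2 ?_
      exact eq_inv_of_mul_eq_one_left (h.mem_Br_self ((X j).mul_mem hu hy) hh)

end WQ
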