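import Pool.Agent.Lib.MP_0c5642_al.W.F1b

/-! ROW w-F2a: projections of cosets; exact cosets. -/

set_option autoImplicit false

namespace WQ

open scoped Pointwise

variable {G : Type*} [Group G] {ι : Type} {X : ι → Subgroup G} {V : Subgroup G}

theorem F2a_ne (h : IsFP X V) {i k : ι} {x b : G} (hx : x ∈ X k) (hx1 : x ≠ 1) (hb : b ∈ Br X k)
    (hxb : x * b ∈ Br X i) : i ≠ k := by
  rintro rfl
  exact hx1 (h.proj_unique i hx (X i).one_mem hb hxb (one_mul _).symm)

theorem F2a_mul (h : IsFP X V) {b : G} (hbV : b ∈ V) :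
    ∀ i, b ∈ Br X i → b ≠ 1 → ∀ j, ∀ u ∈ X j, b * u ∈ Br X i := by
  refine h.induction (P := fun b => ∀ i, b ∈ Br X i → b ≠ 1 → ∀ j, ∀ u ∈ X j, b * u ∈ Br X i) ?_ ?_ hbV
  · intro i _ h1
    exact absurd rfl h1
  · intro k x b hx hx1 hb ih i hi _ j u hu
    have hik : i ≠ k := F2a_ne h hx hx1 hb hi
    by_cases hb1 : b = 1
    · rw [hb1, mul_one]
      by_cases hjk : j = k
      · subst hjk
        exact h.mem_Br_of_mem hik ((X j).mul_mem hx hu)
      · exact h.mul_mem_Br hik hx hx1 (h.mem_Br_of_mem (Ne.symm hjk) hu)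
    · rw [mul_assoc]
      exact h.mul_mem_Br hik hx hx1 (ih k hb hb1 j u hu)

/-- ROW w-F2a. The projection to `X i` is constant on every coset `x X_j` different from `X i`. -/
theorem IsFP.const_proj (h : IsFP X V) (i j : ι) {x : G} (hx : x ∈ V) (hne : ¬ (j = i ∧ x ∈ X i)) :
    ∃ y ∈ X i, ∀ u ∈ X j, y⁻¹ * (x * u) ∈ Br X i := by
  obtain ⟨y, hy, b, hb, rfl⟩ := h.exists_proj i hx
  refine ⟨y, hy, fun u hu => ?_⟩
  rw [mul_assoc, inv_mul_cancel_left]
  by_cases hb1 : b = 1
  · rw [hb1, one_mul]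
    rw [hb1, mul_one] at hne
    have hji : j ≠ i := fun h => hne ⟨h, hy⟩
    exact h.mem_Br_of_mem hji.symm hu
  · exact F2a_mul h (h.Br_subset i hb) i hb hb1 j u hu

/-- All factors are elliptic for the basic sets (`IsFP.const_proj`; `Br X i ∩ X i = {1}`). -/
theorem IsFP.ell_Br (h : IsFP X V) (i j : ι) : Ell (X j) (Br X i) := by
  rintro x ⟨h1, h2⟩
  by_cases hx : x ∈ V
  · by_cases hne : j = i ∧ x ∈ X i
    · obtain ⟨rfl, hx⟩ := hne
      apply h1
      refine (Set.finite_singleton x⁻¹).subset ?_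
      rintro u ⟨hu, hxu⟩
      have h3 := h.mem_Br_self ((X j).mul_mem hx hu) hxu
      rw [Set.mem_singleton_iff]
      exact eq_inv_of_mul_eq_one_right h3
    · obtain ⟨y, hy, hyu⟩ := h.const_proj i j hx hne
      by_cases hy1 : y = 1
      · apply h2
        refine Set.finite_empty.subset ?_
        rintro u ⟨hu, hxu⟩
        have := hyu u hu
        rw [hy1, inv_one, one_mul] at this
        exact absurd this hxu
      · apply h1
        refine Set.finite_empty.subset ?_
        rintro u ⟨hu, hxu⟩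
        exact absurd (h.proj_unique i (X i).one_mem hy hxu (hyu u hu) (by rw [one_mul, mul_inv_cancel_left])).symm hy1
  · apply h1
    refine Set.finite_empty.subset ?_
    rintro u ⟨hu, hxu⟩
    apply hx
    have h3 := V.mul_mem (h.Br_subset i hxu) (V.inv_mem (h.le j hu))
    rwa [mul_inv_cancel_right] at h3

end WQ
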