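import Pool.Agent.Lib.MP_0c5642_al.W.F2a

/-! ROW w-F2b: the set of non exact cosets. -/

set_option autoImplicit false

namespace WQ

open scoped Pointwise

variable {G : Type*} [Group G] {ι : Type} {X : ι → Subgroup G} {V : Subgroup G}

/-- the cosets of the factors on which `E` is neither empty nor full -/
def NE (X : ι → Subgroup G) (V : Subgroup G) (E : Set G) : Set (Σ i, G ⧸ X i) :=
  {c | ∃ x ∈ V, c.2 = (QuotientGroup.mk x : G ⧸ X c.1) ∧
    ¬ ((∀ u ∈ X c.1, x * u ∈ E) ∨ (∀ u ∈ X c.1, x * u ∉ E))}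

theorem NE_finite [Finite ι] (h : IsFP X V) (hfg : ∀ i, (X i).FG) {E : Set G} (hE : AI V E) : (NE X V E).Finite := by
  choose F hF using fun i => exact_fin (h.le i) (hfg i) hE
  refine (Set.finite_iUnion fun i => (F i).finite_toSet.image
    (fun f => (⟨i, (QuotientGroup.mk f : G ⧸ X i)⟩ : Σ i, G ⧸ X i))).subset ?_
  rintro ⟨i, q⟩ ⟨x, hx, hq, hn⟩
  have hq' : q = (QuotientGroup.mk x : G ⧸ X i) := hq
  subst hq'
  have h1 : ¬ ∀ u ∈ X i, x * u ∉ F i := fun h2 => hn (hF i x hx h2)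
  push Not at h1
  obtain ⟨u, hu, hxu⟩ := h1
  refine Set.mem_iUnion.2 ⟨i, x * u, hxu, ?_⟩
  change (⟨i, (QuotientGroup.mk (x * u) : G ⧸ X i)⟩ : Σ i, G ⧸ X i) = ⟨i, (QuotientGroup.mk x : G ⧸ X i)⟩
  rw [QuotientGroup.mk_mul_of_mem x hu]

/-- `E` is empty or `V` if there are no such cosets -/
theorem eq_of_NE_empty (h : IsFP X V) {E : Set G} (hE : E ⊆ (V : Set G)) (h0 : NE X V E = ∅) : E = ∅ ∨ E = (V : Set G) := by
  have h1 : ∀ i, ∀ u ∈ X i, ∀ x ∈ V, (x ∈ E ↔ x * u ∈ E) := by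
    intro i u hu x hx
    have h2 : (∀ u ∈ X i, x * u ∈ E) ∨ (∀ u ∈ X i, x * u ∉ E) := by
      by_contra hcon
      have h3 : (⟨i, (QuotientGroup.mk x : G ⧸ X i)⟩ : Σ i, G ⧸ X i) ∈ NE X V E := ⟨x, hx, rfl, hcon⟩
      rw [h0] at h3
      exact h3
    rcases h2 with h2 | h2
    · have h3 := h2 1 (X i).one_mem
      rw [mul_one] at h3
      exact iff_of_true h3 (h2 u hu)
    · have h3 := h2 1 (X i).one_mem
      rw [mul_one] at h3
      exact iff_of_false h3 (h2 u hu)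
  have h2 : ∀ g ∈ V, g ∈ V ∧ ∀ x ∈ V, (x ∈ E ↔ x * g ∈ E) := by
    intro g hg
    have hg' : g ∈ ⨆ i, X i := by rw [h.2]; exact hg
    refine Subgroup.iSup_induction X (C := fun g => g ∈ V ∧ ∀ x ∈ V, (x ∈ E ↔ x * g ∈ E)) hg' (fun i x hx => ⟨h.le i hx, h1 i x hx⟩)
      ⟨V.one_mem, fun x _ => by rw [mul_one]⟩ (fun a b ha hb => ⟨V.mul_mem ha.1 hb.1, fun x hx => ?_⟩)
    rw [← mul_assoc]
    exact (ha.2 x hx).trans (hb.2 _ (V.mul_mem hx ha.1))
  by_cases hone : (1 : G) ∈ E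
  · refine Or.inr (Set.Subset.antisymm hE fun g hg => ?_)
    have h3 := ((h2 g hg).2 1 V.one_mem).1 hone
    rwa [one_mul] at h3
  · refine Or.inl (Set.eq_empty_of_forall_notMem fun g hg => hone ?_)
    have h3 := ((h2 g (hE hg)).2 1 V.one_mem).2
    rw [one_mul] at h3
    exact h3 hg

/-- if all cosets other than `X i` are exact, `E` is constant on the branches `x Br X i` -/
theorem eq_of_NE_single (h : IsFP X V) (i : ι) {E : Set G} (hE : E ⊆ (V : Set G))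
    (h0 : ∀ c ∈ NE X V E, c = ⟨i, (QuotientGroup.mk (1 : G) : G ⧸ X i)⟩) : E = (E ∩ (X i : Set G)) * Br X i := by
  have hE' : (E ∩ (X i : Set G)) * Br X i ⊆ (V : Set G) := by
    rintro _ ⟨a, ha, b, hb, rfl⟩
    exact V.mul_mem (h.le i ha.2) (h.Br_subset i hb)
  have hXi : ∀ z ∈ X i, (z ∈ E ↔ z ∈ (E ∩ (X i : Set G)) * Br X i) := by
    intro z hz
    constructor
    · intro hzE
      exact ⟨z, ⟨hzE, hz⟩, 1, one_mem_Br i, mul_one z⟩
    · rintro ⟨a, ha, b, hb, hab⟩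
      have h1 : a = z := h.proj_unique i ha.2 hz hb (one_mem_Br i) (by rw [mul_one]; exact hab)
      rw [← h1]
      exact ha.1
  have hD : NE X V {x | x ∈ V ∧ ¬ (x ∈ E ↔ x ∈ (E ∩ (X i : Set G)) * Br X i)} = ∅ := by
    refine Set.eq_empty_of_forall_notMem ?_
    rintro ⟨j, q⟩ ⟨x, hx, hq, hn⟩
    have hq' : q = (QuotientGroup.mk x : G ⧸ X j) := hq
    subst hq'
    apply hn
    by_cases hji : j = i ∧ x ∈ X i
    · obtain ⟨rfl, hxi⟩ := hji
      exact Or.inr fun u hu h1 => h1.2 (hXi _ ((X j).mul_mem hxi hu))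
    · have h1 : (∀ u ∈ X j, x * u ∈ E) ∨ (∀ u ∈ X j, x * u ∉ E) := by
        by_contra hcon
        have h3 : (⟨j, (QuotientGroup.mk x : G ⧸ X j)⟩ : Σ i, G ⧸ X i) ∈ NE X V E := ⟨x, hx, rfl, hcon⟩
        have h4 := h0 _ h3
        rw [Sigma.mk.inj_iff] at h4
        obtain ⟨rfl, h5⟩ := h4
        have h6 := eq_of_heq h5
        rw [QuotientGroup.eq, mul_one, inv_mem_iff] at h6
        exact hji ⟨rfl, h6⟩
      obtain ⟨y, hy, hyu⟩ := h.const_proj i j hx hji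
      have h2 : ∀ u ∈ X j, (x * u ∈ (E ∩ (X i : Set G)) * Br X i ↔ y ∈ E) := by
        intro u hu
        constructor
        · rintro ⟨a, ha, b, hb, hab⟩
          have h1 : a = y := h.proj_unique i ha.2 hy hb (hyu u hu) (by rw [mul_inv_cancel_left]; exact hab)
          rw [← h1]
          exact ha.1
        · intro hyE
          exact ⟨y, ⟨hyE, hy⟩, y⁻¹ * (x * u), hyu u hu, mul_inv_cancel_left y _⟩
      have hV : ∀ u ∈ X j, x * u ∈ V := fun u hu => V.mul_mem hx (h.le j hu)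
      by_cases hyE : y ∈ E
      · rcases h1 with h1 | h1
        · exact Or.inr fun u hu h3 => h3.2 (iff_of_true (h1 u hu) ((h2 u hu).2 hyE))
        · exact Or.inl fun u hu => ⟨hV u hu, fun h3 => h1 u hu (h3.2 ((h2 u hu).2 hyE))⟩
      · rcases h1 with h1 | h1
        · exact Or.inl fun u hu => ⟨hV u hu, fun h3 => hyE ((h2 u hu).1 (h3.1 (h1 u hu)))⟩
        · exact Or.inr fun u hu h3 => h3.2 (iff_of_false (h1 u hu) fun h4 => hyE ((h2 u hu).1 h4))
  have hsub : {x | x ∈ V ∧ ¬ (x ∈ E ↔ x ∈ (E ∩ (X i : Set G)) * Br X i)} ⊆ (V : Set G) := fun x hx => hx.1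
  rcases eq_of_NE_empty h hsub hD with h1 | h1
  · ext x
    by_cases hx : x ∈ V
    · by_contra hcon
      have h2 : x ∈ {x | x ∈ V ∧ ¬ (x ∈ E ↔ x ∈ (E ∩ (X i : Set G)) * Br X i)} := ⟨hx, hcon⟩
      rw [h1] at h2
      exact h2
    · exact iff_of_false (fun h2 => hx (hE h2)) fun h2 => hx (hE' h2)
  · exfalso
    have h2 : (1 : G) ∈ {x | x ∈ V ∧ ¬ (x ∈ E ↔ x ∈ (E ∩ (X i : Set G)) * Br X i)} := by
      rw [h1]
      exact V.one_mem
    exact h2.2 (hXi 1 (X i).one_mem)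

end WQ
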