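import Pool.Agent.Lib.MP_0c5642_al.W.F2b

/-! ROW w-F2c: a set is determined by its traces (5.1). -/

set_option autoImplicit false

namespace WQ

open scoped Pointwise

variable {G : Type*} [Group G] {ι : Type} {X : ι → Subgroup G} {V : Subgroup G}

/-- membership in a union of branches is decided by the projection -/
private theorem F2c_mem_iff (h : IsFP X V) (i : ι) {A : Set G} (hA : A ⊆ (X i : Set G)) {y g : G}
    (hy : y ∈ X i) (hg : y⁻¹ * g ∈ Br X i) : g ∈ A * Br X i ↔ y ∈ A := by
  constructor
  · rintro ⟨a, ha, b, hb, hab⟩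
    have hab' : a * b = g := hab
    have h1 : y = a :=
      h.proj_unique i hy (hA ha) hg hb (by rw [mul_inv_cancel_left]; exact hab'.symm)
    rw [h1]
    exact ha
  · intro hyA
    exact ⟨y, hyA, _, hg, mul_inv_cancel_left y g⟩

private theorem F2c_compl (h : IsFP X V) (i : ι) {A : Set G} (hA : A ⊆ (X i : Set G)) :
    ((X i : Set G) \ A) * Br X i = (V : Set G) \ (A * Br X i) := by
  ext g
  constructor
  · rintro ⟨a, ⟨ha, haA⟩, b, hb, rfl⟩
    refine ⟨V.mul_mem (h.le i ha) (h.Br_subset i hb), fun hc => haA ?_⟩
    have h1 : a⁻¹ * (a * b) ∈ Br X i := by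
      rw [inv_mul_cancel_left]
      exact hb
    exact (F2c_mem_iff h i hA ha h1).1 hc
  · rintro ⟨hgV, hg⟩
    obtain ⟨x, hx, b, hb, rfl⟩ := h.exists_proj i hgV
    exact ⟨x, ⟨hx, fun hxA => hg ⟨x, hxA, b, hb, rfl⟩⟩, b, hb, rfl⟩

private theorem F2c_res_subset (i : ι) (E : Set G) (x : G) : res (X i) E x ⊆ (X i : Set G) :=
  fun _ hu => hu.1

/-- on the coset `x X_i` the correction agrees with `E` -/
private theorem F2c_own (h : IsFP X V) (i : ι) (E : Set G) (x : G) {u : G} (hu : u ∈ X i) :
    x * u ∈ x • (res (X i) E x * Br X i) ↔ x * u ∈ E := by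
  rw [Set.mem_smul_set_iff_inv_smul_mem, smul_eq_mul, inv_mul_cancel_left,
    F2c_mem_iff h i (F2c_res_subset i E x) hu (by rw [inv_mul_cancel]; exact one_mem_Br i)]
  exact ⟨fun hh => hh.2, fun hh => ⟨hu, hh⟩⟩

/-- on the other cosets the correction is constant -/
private theorem F2c_other (h : IsFP X V) (i j : ι) {A : Set G} (hA : A ⊆ (X i : Set G)) {x y : G} (hx : x ∈ V)
    (hy : y ∈ V) (hne : ¬ (j = i ∧ x⁻¹ * y ∈ X i)) :
    (∀ u ∈ X j, y * u ∈ x • (A * Br X i)) ∨ (∀ u ∈ X j, y * u ∉ x • (A * Br X i)) := by
  obtain ⟨z, hz, hzu⟩ := h.const_proj i j (V.mul_mem (V.inv_mem hx) hy) hne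
  have h1 : ∀ u ∈ X j, (y * u ∈ x • (A * Br X i) ↔ z ∈ A) := by
    intro u hu
    have h2 := hzu u hu
    rw [mul_assoc x⁻¹ y u] at h2
    rw [Set.mem_smul_set_iff_inv_smul_mem, smul_eq_mul]
    exact F2c_mem_iff h i hA hz h2
  by_cases hzA : z ∈ A
  · exact Or.inl fun u hu => (h1 u hu).2 hzA
  · exact Or.inr fun u hu hc => hzA ((h1 u hu).1 hc)

/-- ROW w-F2b (5.1). Induction on the number of elements of `NE X V E`: if a coset `x X_i` is not exact, replace `E` by `E ∆ P`, `P = x • (res (X i) E x * Br X i) ∈ R`. -/
theorem mem_of_local [Finite ι] (h : IsFP X V) (hfg : ∀ i, (X i).FG) {R : Set (Set G)} (hR : IsAlg V R)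
    {E : Set G} (hE : AI V E) (hloc : ∀ i, ∀ x ∈ V, res (X i) E x * Br X i ∈ R) : E ∈ R := by
  classical
  have key : ∀ n : ℕ, ∀ E : Set G, AI V E → (∀ i, ∀ x ∈ V, res (X i) E x * Br X i ∈ R) →
      (NE X V E).ncard = n → E ∈ R := by
    intro n
    induction n using Nat.strong_induction_on with
    | _ n ih =>
      intro E hE hloc hn
      rcases (NE X V E).eq_empty_or_nonempty with h0 | ⟨⟨i, q⟩, hc⟩
      · rcases eq_of_NE_empty h hE.1 h0 with h1 | h1
        · rw [h1]
          exact hR.fin ∅ (Set.empty_subset _) Set.finite_empty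
        · rw [h1]
          exact hR.univ
      · obtain ⟨x, hx, hqx, hne⟩ := hc
        have hqx' : q = (QuotientGroup.mk x : G ⧸ X i) := hqx
        have hPR : x • (res (X i) E x * Br X i) ∈ R := hR.smul _ (hloc i x hx) x hx
        have hP : AI V (x • (res (X i) E x * Br X i)) := hR.ai _ hPR
        have hE' : AI V (symmDiff E (x • (res (X i) E x * Br X i))) := (isAlg_BB V).symmDiff hE hP
        have hown : ∀ j, ∀ y ∈ V, (j = i ∧ x⁻¹ * y ∈ X i) → ∀ u ∈ X j,
            y * u ∉ symmDiff E (x • (res (X i) E x * Br X i)) := by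
          rintro j y hy ⟨rfl, hxy⟩ u hu
          have h1 := F2c_own h j E x (u := x⁻¹ * y * u) ((X j).mul_mem hxy hu)
          have h2 : x * (x⁻¹ * y * u) = y * u := by group
          rw [h2] at h1
          rw [Set.mem_symmDiff]
          tauto
        have hoth : ∀ j, ∀ y ∈ V, ¬ (j = i ∧ x⁻¹ * y ∈ X i) →
            (∀ u ∈ X j, (y * u ∈ symmDiff E (x • (res (X i) E x * Br X i)) ↔ y * u ∉ E)) ∨
            (∀ u ∈ X j, (y * u ∈ symmDiff E (x • (res (X i) E x * Br X i)) ↔ y * u ∈ E)) := by
          intro j y hy hne'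
          rcases F2c_other h i j (F2c_res_subset i E x) hx hy hne' with h1 | h1
          · left
            intro u hu
            have := h1 u hu
            rw [Set.mem_symmDiff]
            tauto
          · right
            intro u hu
            have := h1 u hu
            rw [Set.mem_symmDiff]
            tauto
        have hsub : NE X V (symmDiff E (x • (res (X i) E x * Br X i))) ⊆ NE X V E \ {⟨i, q⟩} := by
          rintro ⟨j, q'⟩ ⟨y, hy, hqy, hney⟩
          have hqy' : q' = (QuotientGroup.mk y : G ⧸ X j) := hqy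
          have hnot : ¬ (j = i ∧ x⁻¹ * y ∈ X i) := by
            intro hh
            exact hney (Or.inr (hown j y hy hh))
          refine ⟨⟨y, hy, hqy, ?_⟩, ?_⟩
          · intro hex
            apply hney
            have hex' : (∀ u ∈ X j, y * u ∈ E) ∨ (∀ u ∈ X j, y * u ∉ E) := hex
            change (∀ u ∈ X j, y * u ∈ _) ∨ (∀ u ∈ X j, y * u ∉ _)
            rcases hoth j y hy hnot with h1 | h1
            · rcases hex' with h2 | h2
              · exact Or.inr fun u hu hc => (h1 u hu).1 hc (h2 u hu)
              · exact Or.inl fun u hu => (h1 u hu).2 (h2 u hu)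
            · rcases hex' with h2 | h2
              · exact Or.inl fun u hu => (h1 u hu).2 (h2 u hu)
              · exact Or.inr fun u hu hc => h2 u hu ((h1 u hu).1 hc)
          · intro hd
            rw [Set.mem_singleton_iff, Sigma.mk.injEq] at hd
            obtain ⟨hji, hqq⟩ := hd
            subst hji
            have hqq' : q' = q := eq_of_heq hqq
            apply hnot
            refine ⟨rfl, ?_⟩
            rw [← QuotientGroup.eq, ← hqy', ← hqx', hqq']
        have hfin := NE_finite h hfg hE
        have hmem : (⟨i, q⟩ : Σ i, G ⧸ X i) ∈ NE X V E := ⟨x, hx, hqx, hne⟩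
        have hlt : (NE X V (symmDiff E (x • (res (X i) E x * Br X i)))).ncard < n := by
          rw [← hn]
          calc (NE X V (symmDiff E (x • (res (X i) E x * Br X i)))).ncard
              ≤ (NE X V E \ {⟨i, q⟩}).ncard := Set.ncard_le_ncard hsub (hfin.subset Set.sdiff_subset)
            _ < (NE X V E).ncard := Set.ncard_sdiff_singleton_lt_of_mem hmem hfin
        have hloc' : ∀ j, ∀ y ∈ V,
            res (X j) (symmDiff E (x • (res (X i) E x * Br X i))) y * Br X j ∈ R := by
          intro j y hy
          by_cases hcase : j = i ∧ x⁻¹ * y ∈ X i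
          · have h1 : res (X j) (symmDiff E (x • (res (X i) E x * Br X i))) y = ∅ := by
              ext u
              constructor
              · rintro ⟨hu, hu2⟩
                exact hown j y hy hcase u hu hu2
              · intro hu
                exact hu.elim
            rw [h1, Set.empty_mul]
            exact hR.fin ∅ (Set.empty_subset _) Set.finite_empty
          · rcases hoth j y hy hcase with h1 | h1
            · have h2 : res (X j) (symmDiff E (x • (res (X i) E x * Br X i))) y =
                  (X j : Set G) \ res (X j) E y := by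
                ext u
                constructor
                · rintro ⟨hu, hu2⟩
                  exact ⟨hu, fun hc => (h1 u hu).1 hu2 hc.2⟩
                · rintro ⟨hu, hu2⟩
                  exact ⟨hu, (h1 u hu).2 fun hc => hu2 ⟨hu, hc⟩⟩
              rw [h2, F2c_compl h j (F2c_res_subset j E y)]
              exact hR.compl _ (hloc j y hy)
            · have h2 : res (X j) (symmDiff E (x • (res (X i) E x * Br X i))) y = res (X j) E y := by
                ext u
                constructor
                · rintro ⟨hu, hu2⟩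
                  exact ⟨hu, (h1 u hu).1 hu2⟩
                · rintro ⟨hu, hu2⟩
                  exact ⟨hu, (h1 u hu).2 hu2⟩
              rw [h2]
              exact hloc j y hy
        have hfinal := ih _ hlt _ hE' hloc' rfl
        have h3 := hR.symmDiff hfinal hPR
        rwa [symmDiff_symmDiff_cancel_right] at h3
  exact key _ E hE hloc rfl

end WQ
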