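import Pool.Agent.Lib.MP_0c5642_al.W.F2b

/-! ROW w-F2d: extension of traces (5.2). -/

set_option autoImplicit false

namespace WQ

open scoped Pointwise

variable {G : Type*} [Group G] {ι : Type} {X : ι → Subgroup G} {V : Subgroup G}

theorem F2d_mem_mul {Q : Set G} {i : ι} {g : G} : g ∈ Q * Br X i ↔ ∃ q ∈ Q, q⁻¹ * g ∈ Br X i := by
  rw [Set.mem_mul]
  constructor
  · rintro ⟨q, hq, b, hb, rfl⟩
    exact ⟨q, hq, by rwa [inv_mul_cancel_left]⟩
  · rintro ⟨q, hq, hb⟩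
    exact ⟨q, hq, q⁻¹ * g, hb, by rw [mul_inv_cancel_left]⟩

theorem F2d_unique (h : IsFP X V) {i : ι} {y y' g : G} (hy : y ∈ X i) (hy' : y' ∈ X i)
    (hb : y⁻¹ * g ∈ Br X i) (hb' : y'⁻¹ * g ∈ Br X i) : y = y' :=
  h.proj_unique i hy hy' hb hb' (by rw [mul_inv_cancel_left, mul_inv_cancel_left])

theorem F2d_self (h : IsFP X V) {i : ι} {y x : G} (hy : y ∈ X i) (hx : x ∈ X i)
    (hb : y⁻¹ * x ∈ Br X i) : y = x :=
  F2d_unique h hy hx hb (by rw [inv_mul_cancel]; exact one_mem_Br i)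

theorem F2d_mem_V (h : IsFP X V) {i : ι} {y g : G} (hy : y ∈ X i) (hb : y⁻¹ * g ∈ Br X i) :
    g ∈ V := by
  have h1 := V.mul_mem (h.le i hy) (h.Br_subset i hb)
  rwa [mul_inv_cancel_left] at h1

/-- the branches of a finite set of elements of `X i` -/
theorem F2d_union (h : IsFP X V) {R : Set (Set G)} (hR : IsAlg V R)
    (i : ι) (hBr : Br X i ∈ R) (s : Finset G) (hs : ∀ y ∈ s, y ∈ X i) :
    {g | ∃ y ∈ s, y⁻¹ * g ∈ Br X i} ∈ R := by
  have h1 := hR.biUnion s (fun y => y • Br X i) (fun y hy => hR.smul _ hBr y (h.le i (hs y hy)))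
  have e : (⋃ y ∈ s, y • Br X i) = {g | ∃ y ∈ s, y⁻¹ * g ∈ Br X i} := by
    ext g
    simp only [Set.mem_iUnion, Set.mem_setOf_eq, Set.mem_smul_set_iff_inv_smul_mem, smul_eq_mul,
      exists_prop]
  rwa [e] at h1

/-- ROW w-F2c (5.2). Induction on the number of non exact cosets different from `X i`: such a coset lies in a branch `y Br X i`; replace `E` on this branch by the constant value of `E` at `y`. -/
theorem ext_mem [Finite ι] (h : IsFP X V) (hfg : ∀ i, (X i).FG) {R : Set (Set G)} (hR : IsAlg V R)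
    (i : ι) (hBr : Br X i ∈ R) {E : Set G} (hE : E ∈ R) : (E ∩ (X i : Set G)) * Br X i ∈ R := by
  classical
  have hEV : E ⊆ (V : Set G) := (hR.ai E hE).1
  have hφ : ∀ c : (Σ j, G ⧸ X j), ∃ y, y ∈ X i ∧ ∀ y' ∈ X i, y'⁻¹ * c.2.out ∈ Br X i → y' = y := by
    intro c
    by_cases hc : ∃ y ∈ X i, y⁻¹ * c.2.out ∈ Br X i
    · obtain ⟨y, hy, hb⟩ := hc
      exact ⟨y, hy, fun y' hy' hb' => F2d_unique h hy' hy hb' hb⟩
    · exact ⟨1, (X i).one_mem, fun y' hy' hb' => absurd ⟨y', hy', hb'⟩ hc⟩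
  choose φ hφ1 hφ2 using hφ
  set Y : Finset G := ((NE_finite h hfg (hR.ai E hE)).image φ).toFinset with hY
  have hYX : ∀ y ∈ Y, y ∈ X i := by
    intro y hy
    rw [hY, Set.Finite.mem_toFinset] at hy
    obtain ⟨c, _, rfl⟩ := hy
    exact hφ1 c
  set A : Set G := {g | ∃ y ∈ Y, y⁻¹ * g ∈ Br X i} with hA
  set B : Set G := {g | ∃ y ∈ Y.filter (fun y => y ∈ E), y⁻¹ * g ∈ Br X i} with hB
  have hAR : A ∈ R := F2d_union h hR i hBr Y hYX
  have hBR : B ∈ R := F2d_union h hR i hBr _ (fun y hy => hYX y (Finset.mem_filter.1 hy).1)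
  set F : Set G := (E \ A) ∪ B with hF
  have hFR : F ∈ R := hR.union (hR.diff hE hAR) hBR
  have hFV : F ⊆ (V : Set G) := (hR.ai F hFR).1
  -- value of `F` on a branch of `Y`
  have f1 : ∀ y ∈ Y, ∀ g, y⁻¹ * g ∈ Br X i → (g ∈ F ↔ y ∈ E) := by
    intro y hy g hg
    constructor
    · rintro (⟨_, h2⟩ | ⟨y', hy', h2⟩)
      · exact absurd ⟨y, hy, hg⟩ h2
      · rw [Finset.mem_filter] at hy'
        rw [F2d_unique h (hYX y hy) (hYX y' hy'.1) hg h2]
        exact hy'.2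
    · intro hyE
      exact Or.inr ⟨y, Finset.mem_filter.2 ⟨hy, hyE⟩, hg⟩
  -- value of `F` on the other branches
  have f2 : ∀ y ∈ X i, y ∉ Y → ∀ g, y⁻¹ * g ∈ Br X i → (g ∈ F ↔ g ∈ E) := by
    intro y hy hyY g hg
    have h3 : g ∉ A := by
      rintro ⟨y', hy', h2⟩
      rw [F2d_unique h hy (hYX y' hy') hg h2] at hyY
      exact hyY hy'
    constructor
    · rintro (⟨h2, _⟩ | ⟨y', hy', h2⟩)
      · exact h2
      · exact absurd ⟨y', (Finset.mem_filter.1 hy').1, h2⟩ h3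
    · intro hgE
      exact Or.inl ⟨hgE, h3⟩
  -- `F` and `E` agree on `X i`
  have f3 : F ∩ (X i : Set G) = E ∩ (X i : Set G) := by
    ext x
    constructor
    · rintro ⟨hx, hxi⟩
      refine ⟨?_, hxi⟩
      have hb : x⁻¹ * x ∈ Br X i := by rw [inv_mul_cancel]; exact one_mem_Br i
      by_cases hxY : x ∈ Y
      · exact (f1 x hxY x hb).1 hx
      · exact (f2 x hxi hxY x hb).1 hx
    · rintro ⟨hx, hxi⟩
      refine ⟨?_, hxi⟩
      have hb : x⁻¹ * x ∈ Br X i := by rw [inv_mul_cancel]; exact one_mem_Br i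
      by_cases hxY : x ∈ Y
      · exact (f1 x hxY x hb).2 hx
      · exact (f2 x hxi hxY x hb).2 hx
  have f4 : ∀ c ∈ NE X V F, c = ⟨i, (QuotientGroup.mk (1 : G) : G ⧸ X i)⟩ := by
    rintro ⟨j, q⟩ ⟨x, hxV, hxq, hne⟩
    dsimp only at hxq hne
    by_contra hc
    apply hne
    have hne' : ¬ (j = i ∧ x ∈ X i) := by
      rintro ⟨rfl, hx⟩
      apply hc
      rw [hxq]
      congr 1
      rw [QuotientGroup.eq]
      rw [mul_one]
      exact (X j).inv_mem hx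
    obtain ⟨y, hy, hyu⟩ := h.const_proj i j hxV hne'
    by_cases hyY : y ∈ Y
    · by_cases hyE : y ∈ E
      · exact Or.inl fun u hu => (f1 y hyY _ (hyu u hu)).2 hyE
      · exact Or.inr fun u hu hF' => hyE ((f1 y hyY _ (hyu u hu)).1 hF')
    · have hexact : (∀ u ∈ X j, x * u ∈ E) ∨ (∀ u ∈ X j, x * u ∉ E) := by
        by_contra hn
        apply hyY
        have hmem : (⟨j, (QuotientGroup.mk x : G ⧸ X j)⟩ : Σ j, G ⧸ X j) ∈ NE X V E :=
          ⟨x, hxV, rfl, hn⟩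
        rw [hY, Set.Finite.mem_toFinset]
        refine ⟨_, hmem, ?_⟩
        obtain ⟨u, hu⟩ := QuotientGroup.mk_out_eq_mul (X j) x
        symm
        apply hφ2 _ y hy
        dsimp only
        rw [hu]
        exact hyu u u.2
      rcases hexact with h5 | h5
      · exact Or.inl fun u hu => (f2 y hy hyY _ (hyu u hu)).2 (h5 u hu)
      · exact Or.inr fun u hu hF' => h5 u hu ((f2 y hy hyY _ (hyu u hu)).1 hF')
  have f5 := eq_of_NE_single h i hFV f4
  rw [← f3, ← f5]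
  exact hFR

/-- the sets `Q ⊆ X i` whose extension is in `R` form an algebra on `X i` -/
theorem isAlg_ext [Finite ι] (h : IsFP X V) {R : Set (Set G)} (hR : IsAlg V R) (i : ι) (hBr : Br X i ∈ R) :
    IsAlg (X i) {Q | Q ⊆ (X i : Set G) ∧ AI (X i) Q ∧ Q * Br X i ∈ R} where
  ai := fun _ hE => hE.2.1
  compl := by
    rintro Q ⟨h1, h2, h3⟩
    refine ⟨Set.diff_subset, h2.compl, ?_⟩
    have e : ((X i : Set G) \ Q) * Br X i = (V : Set G) \ (Q * Br X i) := by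
      ext g
      rw [Set.mem_diff, F2d_mem_mul, F2d_mem_mul]
      constructor
      · rintro ⟨q, ⟨hq, hqQ⟩, hb⟩
        refine ⟨F2d_mem_V h hq hb, ?_⟩
        rintro ⟨q', hq', hb'⟩
        apply hqQ
        rwa [F2d_unique h hq (h1 hq') hb hb']
      · rintro ⟨hg, hn⟩
        obtain ⟨x, hx, b, hb, rfl⟩ := h.exists_proj i hg
        refine ⟨x, ⟨hx, fun hxQ => hn ⟨x, hxQ, ?_⟩⟩, ?_⟩
        · rwa [inv_mul_cancel_left]
        · rwa [inv_mul_cancel_left]
    rw [e]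
    exact hR.compl _ h3
  inter := by
    rintro Q ⟨h1, h2, h3⟩ Q' ⟨h1', h2', h3'⟩
    refine ⟨fun x hx => h1 hx.1, h2.inter h2', ?_⟩
    have e : (Q ∩ Q') * Br X i = (Q * Br X i) ∩ (Q' * Br X i) := by
      ext g
      rw [Set.mem_inter_iff, F2d_mem_mul, F2d_mem_mul, F2d_mem_mul]
      constructor
      · rintro ⟨q, ⟨hq, hq'⟩, hb⟩
        exact ⟨⟨q, hq, hb⟩, ⟨q, hq', hb⟩⟩
      · rintro ⟨⟨q, hq, hb⟩, ⟨q', hq', hb'⟩⟩
        have hqq := F2d_unique h (h1 hq) (h1' hq') hb hb'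
        subst hqq
        exact ⟨q, ⟨hq, hq'⟩, hb⟩
    rw [e]
    exact hR.inter _ h3 _ h3'
  smul := by
    rintro Q ⟨h1, h2, h3⟩ g hg
    have h4 := h2.smul hg
    refine ⟨h4.1, h4, ?_⟩
    rw [smul_mul_assoc]
    exact hR.smul _ h3 g (h.le i hg)
  fin := by
    intro Q hQ hfin
    refine ⟨hQ, AI.of_finite hQ hfin, ?_⟩
    have h1 := F2d_union h hR i hBr hfin.toFinset
      (fun y hy => hQ ((Set.Finite.mem_toFinset hfin).1 hy))
    have e : {g | ∃ y ∈ hfin.toFinset, y⁻¹ * g ∈ Br X i} = Q * Br X i := by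
      ext g
      rw [F2d_mem_mul, Set.mem_setOf_eq]
      simp only [Set.Finite.mem_toFinset]
    rwa [e] at h1

end WQ
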