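import Pool.Agent.Lib.MP_0c5642_al.W.F2a

/-! ROW w-F2e: basic sets are nested with their translates. -/

set_option autoImplicit false

namespace WQ

open scoped Pointwise

variable {G : Type*} [Group G] {ι : Type} {X : ι → Subgroup G} {V : Subgroup G}

/-- a word whose last syllable is not in `X i`, times a nontrivial element of `X i`, times a basic
element: nothing is cancelled -/
theorem F2e_reduced (h : IsFP X V) (i : ι) {z b : G} (hz : z ∈ X i) (hz1 : z ≠ 1)
    (hb : b ∈ Br X i) {n : G} (hn : n ∈ V) :
    n⁻¹ ∈ Br X i → ∀ j, n ∈ Br X j → (n ≠ 1 ∨ j ≠ i) → n * (z * b) ∈ Br X j := by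
  refine h.induction (P := fun n => n⁻¹ ∈ Br X i → ∀ j, n ∈ Br X j → (n ≠ 1 ∨ j ≠ i) →
    n * (z * b) ∈ Br X j) ?_ ?_ hn
  · intro _ j _ hj
    rcases hj with hj | hj
    · exact absurd rfl hj
    · rw [one_mul]
      exact h.mul_mem_Br hj hz hz1 hb
  · intro k x n' hx hx1 hn' ih hinv j hnj _
    have hkj : j ≠ k := by
      rintro rfl
      exact hx1 (h.proj_unique j hx (one_mem _) hn' hnj (one_mul _).symm)
    rw [mul_assoc]
    refine h.mul_mem_Br hkj hx hx1 ?_
    by_cases hn1 : n' = 1
    · rw [hn1, one_mul]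
      refine h.mul_mem_Br ?_ hz hz1 hb
      rintro rfl
      rw [hn1, mul_one] at hinv
      exact hx1 (inv_eq_one.1 (h.mem_Br_self (inv_mem hx) hinv))
    · refine ih ?_ k hn' (Or.inl hn1)
      have hnV : n'⁻¹ ∈ V := inv_mem (h.Br_subset k hn')
      have hne : ¬ (k = i ∧ n'⁻¹ ∈ X i) := by
        rintro ⟨rfl, h2⟩
        exact hn1 (h.mem_Br_self (by simpa using inv_mem h2) hn')
      obtain ⟨y, hy, hyu⟩ := h.const_proj i k hnV hne
      have h1 := hyu x⁻¹ (inv_mem hx)
      have hy1 : y = 1 := by
        refine h.proj_unique i hy (one_mem _) h1 hinv ?_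
        rw [one_mul, mul_inv_rev, mul_inv_cancel_left]
      have h2 := hyu 1 (one_mem _)
      rw [hy1, inv_one, one_mul, mul_one] at h2
      exact h2

/-- Basic sets are nested with their translates (they are half trees). Let `y` be the constant value of the projection of `g X_i` to `X_i` (`IsFP.const_proj`) and `y'` that of
`g⁻¹ X_i`. If `g ∈ X i`, `g ≠ 1`: disjoint. Otherwise: `y = y' = 1`: the union is `V`; `y = 1 ≠ y'`: `g • Br ⊆ Br`; `y ≠ 1 = y'`: `Br ⊆ g • Br`; both `≠ 1`: disjoint. -/
theorem IsFP.nested_Br (h : IsFP X V) (i : ι) {g : G} (hg : g ∈ V) : Nested V (Br X i) (g • Br X i) := by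
  by_cases hgX : g ∈ X i
  · by_cases hg1 : g = 1
    · right; left
      rw [hg1, one_smul]
    · left
      rw [Set.disjoint_left]
      intro v hv hv'
      rw [Set.mem_smul_set_iff_inv_smul_mem, smul_eq_mul] at hv'
      refine hg1 (h.proj_unique i hgX (one_mem _) hv' hv ?_)
      rw [one_mul, mul_inv_cancel_left]
  · obtain ⟨y, hy, hyu⟩ := h.const_proj i i hg (fun h1 => hgX h1.2)
    obtain ⟨y', hy', hyu'⟩ := h.const_proj i i (inv_mem hg)
      (fun h1 => hgX (by simpa using inv_mem h1.2))
    have key : ∀ v ∈ V, y⁻¹ * v ∈ Br X i ∨ y'⁻¹ * (g⁻¹ * v) ∈ Br X i := by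
      intro v hv
      obtain ⟨x, hx, b, hb, rfl⟩ := h.exists_proj i hv
      by_cases hxy : x = y
      · left
        rw [hxy, inv_mul_cancel_left]
        exact hb
      · right
        have hn : y'⁻¹ * (g⁻¹ * y) ∈ Br X i := hyu' y hy
        have hn1 : y'⁻¹ * (g⁻¹ * y) ≠ 1 := by
          intro h1
          apply hgX
          have h2 : g = y * y'⁻¹ := by
            have h3 : g⁻¹ * y = y' := by
              rw [inv_mul_eq_one] at h1
              exact h1.symm
            rw [← h3, mul_inv_rev, inv_inv, mul_inv_cancel_left]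
          rw [h2]
          exact mul_mem hy (inv_mem hy')
        have hninv : (y'⁻¹ * (g⁻¹ * y))⁻¹ ∈ Br X i := by
          have h1 := hyu y' hy'
          have h2 : (y'⁻¹ * (g⁻¹ * y))⁻¹ = y⁻¹ * (g * y') := by
            rw [mul_inv_rev, mul_inv_rev, inv_inv, inv_inv, mul_assoc]
          rw [h2]
          exact h1
        have hz : y⁻¹ * x ∈ X i := mul_mem (inv_mem hy) hx
        have hz1 : y⁻¹ * x ≠ 1 := fun h1 => hxy (inv_mul_eq_one.1 h1).symm
        have h1 := F2e_reduced h i hz hz1 hb (h.Br_subset i hn) hninv i hn (Or.inl hn1)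
        have h2 : y'⁻¹ * (g⁻¹ * y) * (y⁻¹ * x * b) = y'⁻¹ * (g⁻¹ * (x * b)) := by
          simp only [mul_assoc, mul_inv_cancel_left]
        rw [h2] at h1
        exact h1
    have hmem : ∀ v, v ∈ g • Br X i ↔ g⁻¹ * v ∈ Br X i := fun v => by
      rw [Set.mem_smul_set_iff_inv_smul_mem, smul_eq_mul]
    have huniq : ∀ {w v : G}, w ∈ X i → v ∈ Br X i → w⁻¹ * v ∈ Br X i → w = 1 := by
      intro w v hw hv hwv
      refine h.proj_unique i hw (one_mem _) hwv hv ?_
      rw [one_mul, mul_inv_cancel_left]
    have hBV : ∀ {v : G}, v ∈ Br X i → v ∈ V := fun hv => h.Br_subset i hv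
    by_cases hy1 : y = 1
    · by_cases hy1' : y' = 1
      · right; right; right
        intro v hv
        rcases key v hv with h1 | h1
        · left
          rw [hy1, inv_one, one_mul] at h1
          exact h1
        · right
          rw [hy1', inv_one, one_mul] at h1
          exact (hmem v).2 h1
      · right; right; left
        intro v hv
        have hv' := (hmem v).1 hv
        have hvV : v ∈ V := by
          have := mul_mem hg (hBV hv')
          rwa [mul_inv_cancel_left] at this
        rcases key v hvV with h1 | h1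
        · rw [hy1, inv_one, one_mul] at h1
          exact h1
        · exact absurd (huniq hy' hv' h1) hy1'
    · by_cases hy1' : y' = 1
      · right; left
        intro v hv
        rcases key v (hBV hv) with h1 | h1
        · exact absurd (huniq hy hv h1) hy1
        · rw [hy1', inv_one, one_mul] at h1
          exact (hmem v).2 h1
      · left
        rw [Set.disjoint_left]
        intro v hv hv'
        rcases key v (hBV hv) with h1 | h1
        · exact hy1 (huniq hy hv h1)
        · exact hy1' (huniq hy' ((hmem v).1 hv') h1)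

end WQ
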