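import Pool.Agent.Lib.MP_0c5642_al.W.F1a

/-! ROW w-F3: retractions onto the factors and number of factors. -/

set_option autoImplicit false

namespace WQ

open scoped Pointwise

variable {G : Type*} [Group G] {ι : Type} {X : ι → Subgroup G} {V : Subgroup G}

theorem IsFP.exists_retract (h : IsFP X V) (i : ι) :
    ∃ ρ : V →* G, (∀ g, ρ g ∈ X i) ∧ (∀ x : V, (x : G) ∈ X i → ρ x = x) ∧ ∀ j, j ≠ i → ∀ x : V, (x : G) ∈ X j → ρ x = 1 := by
  classical
  obtain ⟨hinj, hV⟩ := h
  have hr : (Monoid.CoprodI.lift (fun i => (X i).subtype)).range = V := by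
    rw [Monoid.CoprodI.range_eq_iSup, ← hV]
    congr 1
    funext i
    exact Subgroup.range_subtype _
  have e : V ≃* Monoid.CoprodI (fun i => X i) :=
    (MulEquiv.subgroupCongr hr.symm).trans (MonoidHom.ofInjective hinj).symm
  obtain ⟨e, he⟩ : ∃ e : V ≃* Monoid.CoprodI (fun i => X i),
      ∀ v : V, Monoid.CoprodI.lift (fun i => (X i).subtype) (e v) = v := by
    refine ⟨(MulEquiv.subgroupCongr hr.symm).trans (MonoidHom.ofInjective hinj).symm, fun v => ?_⟩
    have h1 := (MonoidHom.ofInjective hinj).apply_symm_apply (MulEquiv.subgroupCongr hr.symm v)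
    exact congrArg Subtype.val h1
  have hof : ∀ (j : ι) (x : V) (hx : (x : G) ∈ X j), e x = Monoid.CoprodI.of (i := j) ⟨(x : G), hx⟩ := by
    intro j x hx
    apply hinj
    rw [he, Monoid.CoprodI.lift_of]
    rfl
  refine ⟨(Monoid.CoprodI.lift (fun j => if j = i then (X j).subtype else 1)).comp e.toMonoidHom, ?_, ?_, ?_⟩
  · intro g
    have h1 : Monoid.CoprodI.lift (fun j => if j = i then (X j).subtype else (1 : X j →* G)) (e g) ∈
        (Monoid.CoprodI.lift (fun j => if j = i then (X j).subtype else (1 : X j →* G))).range := ⟨_, rfl⟩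
    rw [Monoid.CoprodI.range_eq_iSup] at h1
    refine (iSup_le fun j => ?_ : (⨆ j, (if j = i then (X j).subtype else (1 : X j →* G)).range) ≤ X i) h1
    by_cases hj : j = i
    · rw [if_pos hj, Subgroup.range_subtype, hj]
    · rw [if_neg hj]
      rintro _ ⟨x, rfl⟩
      exact one_mem _
  · intro x hx
    show Monoid.CoprodI.lift (fun j => if j = i then (X j).subtype else (1 : X j →* G)) (e x) = x
    rw [hof i x hx, Monoid.CoprodI.lift_of, if_pos rfl]
    rfl
  · intro j hj x hx
    show Monoid.CoprodI.lift (fun j => if j = i then (X j).subtype else (1 : X j →* G)) (e x) = 1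
    rw [hof j x hx, Monoid.CoprodI.lift_of, if_neg hj]
    rfl

/-- images of finitely generated subgroups -/
theorem F3_genBy_range {H : Type*} [Group H] (ρ : V →* H) {e : ℕ} (hV : GenBy e V) : GenBy e ρ.range := by
  classical
  obtain ⟨S, hS, rfl⟩ := hV
  refine ⟨S.attach.image fun s => ρ ⟨s.1, Subgroup.subset_closure s.2⟩,
    Finset.card_image_le.trans (by rw [Finset.card_attach]; exact hS), ?_⟩
  have h1 : ((S.attach.image fun s => ρ ⟨s.1, Subgroup.subset_closure s.2⟩ : Finset H) : Set H) =
      ρ '' (((↑) : Subgroup.closure (S : Set G) → G) ⁻¹' (S : Set G)) := by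
    ext y
    simp only [Finset.coe_image, Set.mem_image, Finset.mem_coe, Finset.mem_attach, true_and, Set.mem_preimage,
      Subtype.exists]
    constructor
    · rintro ⟨s, hs, rfl⟩
      exact ⟨s, Subgroup.subset_closure hs, hs, rfl⟩
    · rintro ⟨s, hs, hs', rfl⟩
      exact ⟨s, hs', rfl⟩
  rw [h1, ← MonoidHom.map_closure, Subgroup.closure_closure_coe_preimage, MonoidHom.range_eq_map]

theorem IsFP.genBy (h : IsFP X V) (i : ι) {e : ℕ} (hV : GenBy e V) : GenBy e (X i) := by
  obtain ⟨ρ, h1, h2, _⟩ := h.exists_retract i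
  have h3 : ρ.range = X i := by
    apply le_antisymm
    · rintro _ ⟨x, rfl⟩
      exact h1 x
    · intro x hx
      exact ⟨⟨x, h.le i hx⟩, h2 _ hx⟩
  rw [← h3]
  exact F3_genBy_range ρ hV

theorem IsFP.fg (h : IsFP X V) (i : ι) (hV : V.FG) : (X i).FG := by
  obtain ⟨S, hS⟩ := hV
  obtain ⟨T, _, hT⟩ := h.genBy i ⟨S, le_rfl, hS⟩
  exact ⟨T, hT⟩

/-- a nontrivial free group maps onto `ℤ` -/
theorem F3_exists_char {W : Type*} [Group W] [IsFreeGroup W] [Nontrivial W] :
    ∃ χ : W →* Multiplicative ℤ, Function.Surjective χ := by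
  have hne : Nonempty (IsFreeGroup.Generators W) := by
    by_contra hc
    rw [not_nonempty_iff] at hc
    have h1 : MonoidHom.id W = 1 := IsFreeGroup.ext_hom fun a => hc.elim a
    obtain ⟨x, hx⟩ := exists_ne (1 : W)
    exact hx (DFunLike.congr_fun h1 x)
  obtain ⟨a⟩ := hne
  refine ⟨IsFreeGroup.lift fun _ => Multiplicative.ofAdd 1, fun z => ?_⟩
  refine ⟨IsFreeGroup.of a ^ (Multiplicative.toAdd z), ?_⟩
  rw [map_zpow, IsFreeGroup.lift_of, ← ofAdd_zsmul, smul_eq_mul, mul_one]
  rfl

/-- a group generated by `e` elements does not map onto `ℤ^m` with `m > e` -/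
theorem F3_rank {m e : ℕ} (V' : Subgroup G) (he : GenBy e V') (Ψ : V' →* Multiplicative (Fin m → ℤ))
    (hΨ : Function.Surjective Ψ) : m ≤ e := by
  classical
  obtain ⟨T, hT, hTc⟩ := F3_genBy_range Ψ he
  have hr : Ψ.range = ⊤ := MonoidHom.range_eq_top.2 hΨ
  rw [hr] at hTc
  have h1 : ∀ z : Multiplicative (Fin m → ℤ), Multiplicative.toAdd z ∈
      Submodule.span ℤ ((T.image Multiplicative.toAdd : Finset (Fin m → ℤ)) : Set (Fin m → ℤ)) := by
    intro z
    have hz : z ∈ Subgroup.closure (T : Set (Multiplicative (Fin m → ℤ))) := by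
      rw [hTc]
      exact Subgroup.mem_top z
    induction hz using Subgroup.closure_induction with
    | mem x hx =>
      apply Submodule.subset_span
      rw [Finset.coe_image]
      exact ⟨x, hx, rfl⟩
    | one => exact Submodule.zero_mem _
    | mul x y _ _ hx hy => exact Submodule.add_mem _ hx hy
    | inv x _ hx => exact Submodule.neg_mem _ hx
  have h2 : Submodule.span ℤ ((T.image Multiplicative.toAdd : Finset (Fin m → ℤ)) : Set (Fin m → ℤ)) = ⊤ := by
    rw [eq_top_iff]
    intro z _
    exact h1 (Multiplicative.ofAdd z)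
  have h3 := finrank_span_finset_le_card (R := ℤ) (T.image Multiplicative.toAdd : Finset (Fin m → ℤ))
  rw [Set.finrank, h2, finrank_top, Module.finrank_fin_fun] at h3
  exact h3.trans (Finset.card_image_le.trans hT)

/-- `V` maps onto a subgroup of finite index of `ℤ^m` (a nontrivial subgroup of a free group has a nonzero homomorphism to `ℤ`). More generally the maps are only required on a subgroup `V'` which
is generated by its intersections with the factors. -/
theorem card_le {m : ℕ} {X : Fin m → Subgroup G} (h : IsFP X V) (V' : Subgroup G) (hV' : V' = ⨆ i, (X i ⊓ V'))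
    (hle : V' ≤ V) (hfree : IsFreeGroup V') (hne : ∀ i, X i ⊓ V' ≠ ⊥) {e : ℕ} (he : GenBy e V') : m ≤ e := by
  classical
  have key : ∀ i : Fin m, ∃ χ : V' →* Multiplicative ℤ, (∀ z, ∃ x : V', (x : G) ∈ X i ∧ χ x = z) ∧
      ∀ j, j ≠ i → ∀ x : V', (x : G) ∈ X j → χ x = 1 := by
    intro i
    obtain ⟨ρ, h1, h2, h3⟩ := h.exists_retract i
    have h4 : ∀ v : V', (ρ.comp (Subgroup.inclusion hle)) v ∈ V' := by
      have h5 : V' ≤ (V'.comap (ρ.comp (Subgroup.inclusion hle))).map V'.subtype := by
        conv_lhs => rw [hV']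
        refine iSup_le fun j => ?_
        intro x hx
        refine ⟨⟨x, hx.2⟩, ?_, rfl⟩
        show ρ ⟨x, hle hx.2⟩ ∈ V'
        by_cases hj : j = i
        · rw [h2 _ (by rw [← hj]; exact hx.1)]
          exact hx.2
        · rw [h3 j hj _ hx.1]
          exact one_mem _
      intro v
      obtain ⟨w, hw, hwv⟩ := h5 v.2
      have : w = v := Subtype.ext hwv
      rw [← this]
      exact hw
    have hW : IsFreeGroup ((X i).subgroupOf V') := subgroupIsFreeOfIsFree _
    have hWn : Nontrivial ((X i).subgroupOf V') := by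
      rw [Subgroup.nontrivial_iff_ne_bot]
      intro hb
      rw [Subgroup.subgroupOf_eq_bot] at hb
      exact hne i (disjoint_iff.1 hb)
    obtain ⟨χ, hχ⟩ := F3_exists_char (W := (X i).subgroupOf V')
    let r : V' →* (X i).subgroupOf V' :=
      MonoidHom.codRestrict (MonoidHom.codRestrict (ρ.comp (Subgroup.inclusion hle)) V' h4) ((X i).subgroupOf V')
        fun v => h1 _
    refine ⟨χ.comp r, fun z => ?_, fun j hj x hx => ?_⟩
    · obtain ⟨w, hw⟩ := hχ z
      refine ⟨w.1, w.2, ?_⟩
      have h6 : r w.1 = w := Subtype.ext (Subtype.ext (h2 ⟨w.1.1, hle w.1.2⟩ w.2))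
      show χ (r w.1) = z
      rw [h6, hw]
    · have h6 : r x = 1 := Subtype.ext (Subtype.ext (h3 j hj ⟨x.1, hle x.2⟩ hx))
      show χ (r x) = 1
      rw [h6, map_one]
  choose χ hχ1 hχ2 using key
  let Ψ : V' →* Multiplicative (Fin m → ℤ) :=
    { toFun := fun v => Multiplicative.ofAdd fun i => Multiplicative.toAdd (χ i v)
      map_one' := by
        simp only [map_one, toAdd_one]
        rfl
      map_mul' := fun x y => by
        simp only [map_mul, toAdd_mul]
        rfl }
  refine F3_rank V' he Ψ fun z => ?_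
  choose x hx1 hx2 using fun i : Fin m => hχ1 i (Multiplicative.ofAdd (Multiplicative.toAdd z i))
  have h7 : z = ∏ i, Ψ (x i) := by
    apply Multiplicative.toAdd.injective
    rw [toAdd_prod]
    funext j
    rw [Finset.sum_apply, Finset.sum_eq_single j]
    · show _ = Multiplicative.toAdd (χ j (x j))
      rw [hx2]
      rfl
    · intro i _ hij
      show Multiplicative.toAdd (χ j (x i)) = 0
      rw [hχ2 j i hij _ (hx1 i)]
      rfl
    · intro hj
      exact absurd (Finset.mem_univ j) hj
  have h8 : z ∈ Ψ.range := by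
    rw [h7]
    exact Subgroup.prod_mem _ fun i _ => ⟨x i, rfl⟩
  exact h8

/-- the trivial decomposition -/
theorem isFP_trivial (V : Subgroup G) : IsFP (fun _ : Fin 1 => V) V := by
  refine ⟨?_, ciSup_const⟩
  have h1 : (Monoid.CoprodI.lift (fun _ : Fin 1 => V.subtype)) =
      V.subtype.comp (Monoid.CoprodI.lift (fun _ : Fin 1 => MonoidHom.id V)) := by
    apply Monoid.CoprodI.ext_hom
    intro i
    ext x
    simp
  have h2 : (Monoid.CoprodI.of (M := fun _ : Fin 1 => V) (i := 0)).comp
      (Monoid.CoprodI.lift (fun _ : Fin 1 => MonoidHom.id V)) = MonoidHom.id _ := by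
    apply Monoid.CoprodI.ext_hom
    intro i
    have hi : i = 0 := Subsingleton.elim _ _
    subst hi
    ext x
    simp
  rw [h1]
  intro x y hxy
  have h3 : Monoid.CoprodI.lift (fun _ : Fin 1 => MonoidHom.id V) x =
      Monoid.CoprodI.lift (fun _ : Fin 1 => MonoidHom.id V) y := Subtype.ext hxy
  have h4 := congrArg (Monoid.CoprodI.of (M := fun _ : Fin 1 => V) (i := 0)) h3
  have h5 := DFunLike.congr_fun h2 x
  have h6 := DFunLike.congr_fun h2 y
  exact h5.symm.trans (h4.trans h6)

theorem Br_trivial (V : Subgroup G) : Br (fun _ : Fin 1 => V) 0 = {1} := by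
  ext g
  constructor
  · rintro ⟨w, hw, rfl⟩
    have h1 : w = Monoid.CoprodI.Word.empty := by
      apply Monoid.CoprodI.Word.ext
      cases hl : w.toList with
      | nil => rfl
      | cons a l =>
        exfalso
        apply hw
        rw [Monoid.CoprodI.Word.fstIdx, hl]
        have ha : a.1 = 0 := Subsingleton.elim _ _
        simp [ha]
    rw [h1, Monoid.CoprodI.Word.prod_empty, map_one]
    rfl
  · intro hg
    rw [Set.mem_singleton_iff] at hg
    rw [hg]
    exact one_mem_Br 0

end WQ
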