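import Pool.Agent.Lib.MP_0c5642_al.W.F1a

/-! ROW w-F4a: refining a free product decomposition. -/

set_option autoImplicit false

namespace WQ

open scoped Pointwise

variable {G : Type*} [Group G] {V : Subgroup G}

/-- replace `X i₀` by `H 0` and put `H 1` in front -/
def ref {m : ℕ} (X : Fin m → Subgroup G) (i₀ : Fin m) (H : Fin 2 → Subgroup G) : Fin (m + 1) → Subgroup G :=
  Fin.cons (H 1) (Function.update X i₀ (H 0))

theorem F4a_zero {m : ℕ} (X : Fin m → Subgroup G) (i₀ : Fin m) (H : Fin 2 → Subgroup G) :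
    ref X i₀ H 0 = H 1 := rfl

theorem F4a_succ {m : ℕ} (X : Fin m → Subgroup G) (i₀ : Fin m) (H : Fin 2 → Subgroup G) {j : Fin m}
    (h : j ≠ i₀) : ref X i₀ H j.succ = X j := by
  unfold ref
  rw [Fin.cons_succ, Function.update_of_ne h]

theorem F4a_self {m : ℕ} (X : Fin m → Subgroup G) (i₀ : Fin m) (H : Fin 2 → Subgroup G) :
    ref X i₀ H i₀.succ = H 0 := by
  unfold ref
  rw [Fin.cons_succ, Function.update_self]

/-- a group which is an internal free product has homomorphisms given on the factors -/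
theorem F4a_hom {ι : Type} {Y : ι → Subgroup G} {W : Subgroup G} (h : IsFP Y W) {M : Type*} [Group M]
    (f : ∀ i, Y i →* M) : ∃ θ : W →* M, ∀ (i : ι) (x : G) (hx : x ∈ Y i) (hx' : x ∈ W), θ ⟨x, hx'⟩ = f i ⟨x, hx⟩ := by
  have hr : W ≤ (Monoid.CoprodI.lift (fun i => (Y i).subtype)).range := by
    rw [Monoid.CoprodI.range_eq_iSup]
    simp only [Subgroup.range_subtype]
    rw [h.2]
  refine ⟨((Monoid.CoprodI.lift f).comp (MonoidHom.ofInjective h.1).symm.toMonoidHom).comp (Subgroup.inclusion hr),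
    fun i x hx hx' => ?_⟩
  have h1 : (MonoidHom.ofInjective h.1).symm (Subgroup.inclusion hr ⟨x, hx'⟩) = Monoid.CoprodI.of ⟨x, hx⟩ := by
    rw [MulEquiv.symm_apply_eq]
    ext
    rw [MonoidHom.ofInjective_apply, Monoid.CoprodI.lift_of]
    rfl
  change Monoid.CoprodI.lift f ((MonoidHom.ofInjective h.1).symm (Subgroup.inclusion hr ⟨x, hx'⟩)) = _
  rw [h1, Monoid.CoprodI.lift_of]

theorem isFP_ref {m : ℕ} {X : Fin m → Subgroup G} (h : IsFP X V) (i₀ : Fin m) {H : Fin 2 → Subgroup G}
    (hH : IsFP H (X i₀)) : IsFP (ref X i₀ H) V := by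
  have hHle : ∀ ε, H ε ≤ X i₀ := fun ε => hH.le ε
  have hle : ∀ k, ref X i₀ H k ≤ V := by
    intro k
    refine Fin.cases ?_ (fun j => ?_) k
    · exact (hHle 1).trans (h.le i₀)
    · by_cases hj : j = i₀
      · subst hj
        rw [F4a_self]
        exact (hHle 0).trans (h.le j)
      · rw [F4a_succ X i₀ H hj]
        exact h.le j
  have h0 : ∀ ε, ∃ k, H ε = ref X i₀ H k := by
    intro ε
    fin_cases ε
    · exact ⟨i₀.succ, (F4a_self X i₀ H).symm⟩
    · exact ⟨0, rfl⟩
  constructor
  · -- the homomorphism of `X i₀`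
    obtain ⟨κ, hκ⟩ := F4a_hom hH (M := Monoid.CoprodI fun k => ref X i₀ H k) (fun ε =>
      if hε : ε = 0 then
        (Monoid.CoprodI.of (i := i₀.succ)).comp
          (Subgroup.inclusion (show H ε ≤ ref X i₀ H i₀.succ by rw [hε, F4a_self]))
      else (Monoid.CoprodI.of (i := (0 : Fin (m + 1)))).comp
          (Subgroup.inclusion (show H ε ≤ ref X i₀ H 0 by
            rw [F4a_zero, show ε = 1 by omega])))
    obtain ⟨θ, hθ⟩ := F4a_hom h (M := Monoid.CoprodI fun k => ref X i₀ H k) (fun j =>
      if hj : j = i₀ then κ.comp (Subgroup.inclusion (show X j ≤ X i₀ by rw [hj]))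
      else (Monoid.CoprodI.of (i := j.succ)).comp
          (Subgroup.inclusion (show X j ≤ ref X i₀ H j.succ by rw [F4a_succ X i₀ H hj])))
    have hL : ∀ w : Monoid.CoprodI fun k => ref X i₀ H k,
        Monoid.CoprodI.lift (fun i => (ref X i₀ H i).subtype) w ∈ V := by
      intro w
      have h1 : (Monoid.CoprodI.lift (fun i => (ref X i₀ H i).subtype)).range ≤ V := by
        rw [Monoid.CoprodI.range_eq_iSup]
        simp only [Subgroup.range_subtype]
        exact iSup_le hle
      exact h1 ⟨w, rfl⟩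
    have key : θ.comp ((Monoid.CoprodI.lift (fun i => (ref X i₀ H i).subtype)).codRestrict V hL) =
        MonoidHom.id _ := by
      refine Monoid.CoprodI.ext_hom _ _ fun k => ?_
      ext x
      obtain ⟨x, hx⟩ := x
      have e : (Monoid.CoprodI.lift (fun i => (ref X i₀ H i).subtype)).codRestrict V hL
          (Monoid.CoprodI.of (⟨x, hx⟩ : ref X i₀ H k)) = ⟨x, hle k hx⟩ := by
        refine Subtype.ext ?_
        change Monoid.CoprodI.lift (fun i => (ref X i₀ H i).subtype)
          (Monoid.CoprodI.of (⟨x, hx⟩ : ref X i₀ H k)) = x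
        rw [Monoid.CoprodI.lift_of]
        rfl
      simp only [MonoidHom.comp_apply, MonoidHom.id_apply]
      rw [e]
      revert x
      refine Fin.cases ?_ (fun j => ?_) k
      · intro x hx _
        have hx0 : x ∈ X i₀ := hHle 1 hx
        rw [hθ i₀ x hx0, dif_pos rfl]
        change κ ⟨x, hx0⟩ = _
        rw [hκ 1 x hx, dif_neg (by decide)]
        rfl
      · intro x hx _
        by_cases hj : j = i₀
        · subst hj
          have hx1 : x ∈ H 0 := by rwa [F4a_self] at hx
          have hx0 : x ∈ X j := hHle 0 hx1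
          rw [hθ j x hx0, dif_pos rfl]
          change κ ⟨x, hx0⟩ = _
          rw [hκ 0 x hx1, dif_pos rfl]
          rfl
        · have hx0 : x ∈ X j := by rwa [F4a_succ X i₀ H hj] at hx
          rw [hθ j x hx0, dif_neg hj]
          rfl
    intro w w' hw
    have h1 := DFunLike.congr_fun key w
    have h2 := DFunLike.congr_fun key w'
    simp only [MonoidHom.comp_apply, MonoidHom.id_apply] at h1 h2
    rw [← h1, ← h2]
    congr 1
    exact Subtype.ext hw
  · apply le_antisymm (iSup_le hle)
    rw [← h.2]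
    refine iSup_le fun j => ?_
    by_cases hj : j = i₀
    · subst hj
      rw [← hH.2]
      refine iSup_le fun ε => ?_
      obtain ⟨k, hk⟩ := h0 ε
      rw [hk]
      exact le_iSup (ref X j H) k
    · rw [← F4a_succ X i₀ H hj]
      exact le_iSup (ref X i₀ H) j.succ

end WQ
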