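import Pool.Agent.Lib.MP_0c5642_al.W.F4a

/-! ROW w-F4b: basic sets of the refinement. -/

set_option autoImplicit false

namespace WQ

open scoped Pointwise

variable {G : Type*} [Group G] {V : Subgroup G}

theorem F4b_zero {m : ℕ} (X : Fin m → Subgroup G) (i₀ : Fin m) (H : Fin 2 → Subgroup G) :
    ref X i₀ H 0 = H 1 := rfl

theorem F4b_same {m : ℕ} (X : Fin m → Subgroup G) (i₀ : Fin m) (H : Fin 2 → Subgroup G) :
    ref X i₀ H i₀.succ = H 0 := by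
  unfold ref
  rw [Fin.cons_succ, Function.update_self]

theorem F4b_other {m : ℕ} (X : Fin m → Subgroup G) (i₀ : Fin m) (H : Fin 2 → Subgroup G) {i : Fin m} (hi : i ≠ i₀) :
    ref X i₀ H i.succ = X i := by
  unfold ref
  rw [Fin.cons_succ, Function.update_of_ne hi]

/-- a nontrivial first syllable in `X i` -/
theorem F4b_not {ι : Type} {X : ι → Subgroup G} (h : IsFP X V) {i : ι} {x b : G} (hx : x ∈ X i) (hx1 : x ≠ 1)
    (hb : b ∈ Br X i) : x * b ∉ Br X i := by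
  intro hxb
  exact hx1 (h.proj_unique i hx (one_mem _) hb hxb (by rw [one_mul]))

theorem F4b_B {m : ℕ} {X : Fin m → Subgroup G} (h : IsFP X V) (i₀ : Fin m) {H : Fin 2 → Subgroup G}
    (hH : IsFP H (X i₀)) {b : G} (hb0 : b ∈ Br (ref X i₀ H) 0) (hb1 : b ∈ Br (ref X i₀ H) i₀.succ)
    {x : G} (hx : x ∈ X i₀) :
    (x ∈ Br H 1 → x * b ∈ Br (ref X i₀ H) 0) ∧ (x ∈ Br H 0 → x * b ∈ Br (ref X i₀ H) i₀.succ) ∧
      (x ≠ 1 → ∀ i : Fin m, i ≠ i₀ → x * b ∈ Br (ref X i₀ H) i.succ) := by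
  have hR := isFP_ref h i₀ hH
  refine hH.induction (P := fun x => (x ∈ Br H 1 → x * b ∈ Br (ref X i₀ H) 0) ∧
    (x ∈ Br H 0 → x * b ∈ Br (ref X i₀ H) i₀.succ) ∧
      (x ≠ 1 → ∀ i : Fin m, i ≠ i₀ → x * b ∈ Br (ref X i₀ H) i.succ)) ?_ ?_ hx
  · refine ⟨fun _ => ?_, fun _ => ?_, fun h1 => absurd rfl h1⟩
    · rw [one_mul]
      exact hb0
    · rw [one_mul]
      exact hb1
  · intro k h' x' hh hh1 hx' ih
    rw [mul_assoc]
    have hk : k = 0 ∨ k = 1 := by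
      fin_cases k
      · exact Or.inl rfl
      · exact Or.inr rfl
    rcases hk with rfl | rfl
    · have h2 : h' ∈ ref X i₀ H i₀.succ := by
        rw [F4b_same]
        exact hh
      have h3 := ih.2.1 hx'
      refine ⟨fun _ => ?_, fun h4 => absurd h4 (F4b_not hH hh hh1 hx'), fun _ i hi => ?_⟩
      · exact hR.mul_mem_Br (Fin.succ_ne_zero i₀).symm h2 hh1 h3
      · exact hR.mul_mem_Br (fun h5 => hi (Fin.succ_injective _ h5)) h2 hh1 h3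
    · have h2 : h' ∈ ref X i₀ H 0 := by
        rw [F4b_zero]
        exact hh
      have h3 := ih.1 hx'
      refine ⟨fun h4 => absurd h4 (F4b_not hH hh hh1 hx'), fun _ => ?_, fun _ i hi => ?_⟩
      · exact hR.mul_mem_Br (Fin.succ_ne_zero i₀) h2 hh1 h3
      · exact hR.mul_mem_Br (Fin.succ_ne_zero i) h2 hh1 h3

theorem F4b_A {m : ℕ} {X : Fin m → Subgroup G} (h : IsFP X V) (i₀ : Fin m) {H : Fin 2 → Subgroup G}
    (hH : IsFP H (X i₀)) {b : G} (hb : b ∈ V) :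
    (∀ i : Fin m, i ≠ i₀ → b ∈ Br X i → b ∈ Br (ref X i₀ H) i.succ) ∧
      (b ∈ Br X i₀ → b ∈ Br (ref X i₀ H) 0 ∧ b ∈ Br (ref X i₀ H) i₀.succ) := by
  have hR := isFP_ref h i₀ hH
  refine h.induction (P := fun b => (∀ i : Fin m, i ≠ i₀ → b ∈ Br X i → b ∈ Br (ref X i₀ H) i.succ) ∧
      (b ∈ Br X i₀ → b ∈ Br (ref X i₀ H) 0 ∧ b ∈ Br (ref X i₀ H) i₀.succ)) ?_ ?_ hb
  · exact ⟨fun i _ _ => one_mem_Br _, fun _ => ⟨one_mem_Br _, one_mem_Br _⟩⟩
  · intro j x b' hx hx1 hb' ih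
    by_cases hj : j = i₀
    · subst hj
      have h1 := ih.2 hb'
      have h2 := F4b_B h j hH h1.1 h1.2 hx
      exact ⟨fun i hi _ => h2.2.2 hx1 i hi, fun h3 => absurd h3 (F4b_not h hx hx1 hb')⟩
    · have h1 := ih.1 j hj hb'
      have h2 : x ∈ ref X i₀ H j.succ := by
        rw [F4b_other X i₀ H hj]
        exact hx
      refine ⟨fun i _ h3 => ?_, fun _ => ⟨?_, ?_⟩⟩
      · by_cases hij : i = j
        · subst hij
          exact absurd h3 (F4b_not h hx hx1 hb')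
        · exact hR.mul_mem_Br (fun h5 => hij (Fin.succ_injective _ h5)) h2 hx1 h1
      · exact hR.mul_mem_Br (Fin.succ_ne_zero j).symm h2 hx1 h1
      · exact hR.mul_mem_Br (fun h5 => hj (Fin.succ_injective _ h5).symm) h2 hx1 h1

/-- two complements of the same factor -/
theorem F4b_eq {ι : Type} {X : ι → Subgroup G} (h : IsFP X V) {i : ι} {B : Set G}
    (hB : B ⊆ Br X i) (hp : ∀ g ∈ V, ∃ x ∈ X i, ∃ b ∈ B, g = x * b) : Br X i = B := by
  apply Set.Subset.antisymm _ hB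
  intro g hg
  obtain ⟨x, hx, b, hb, hgb⟩ := hp g (h.Br_subset i hg)
  have h1 : (1 : G) = x := h.proj_unique i (one_mem _) hx hg (hB hb) (by rw [one_mul]; exact hgb)
  rw [hgb, ← h1, one_mul]
  exact hb

theorem Br_ref_zero {m : ℕ} {X : Fin m → Subgroup G} (h : IsFP X V) (i₀ : Fin m) {H : Fin 2 → Subgroup G}
    (hH : IsFP H (X i₀)) : Br (ref X i₀ H) 0 = Br H 1 * Br X i₀ := by
  refine F4b_eq (isFP_ref h i₀ hH) ?_ ?_
  · rintro _ ⟨c, hc, b, hb, rfl⟩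
    have h1 := (F4b_A h i₀ hH (h.Br_subset i₀ hb)).2 hb
    exact (F4b_B h i₀ hH h1.1 h1.2 (hH.Br_subset 1 hc)).1 hc
  · intro g hg
    obtain ⟨x, hx, b, hb, rfl⟩ := h.exists_proj i₀ hg
    obtain ⟨y, hy, c, hc, rfl⟩ := hH.exists_proj 1 hx
    exact ⟨y, hy, c * b, ⟨c, hc, b, hb, rfl⟩, mul_assoc _ _ _⟩

theorem Br_ref_same {m : ℕ} {X : Fin m → Subgroup G} (h : IsFP X V) (i₀ : Fin m) {H : Fin 2 → Subgroup G}
    (hH : IsFP H (X i₀)) : Br (ref X i₀ H) i₀.succ = Br H 0 * Br X i₀ := by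
  refine F4b_eq (isFP_ref h i₀ hH) ?_ ?_
  · rintro _ ⟨c, hc, b, hb, rfl⟩
    have h1 := (F4b_A h i₀ hH (h.Br_subset i₀ hb)).2 hb
    exact (F4b_B h i₀ hH h1.1 h1.2 (hH.Br_subset 0 hc)).2.1 hc
  · intro g hg
    obtain ⟨x, hx, b, hb, rfl⟩ := h.exists_proj i₀ hg
    obtain ⟨y, hy, c, hc, rfl⟩ := hH.exists_proj 0 hx
    refine ⟨y, ?_, c * b, ⟨c, hc, b, hb, rfl⟩, mul_assoc _ _ _⟩
    rw [F4b_same]
    exact hy

theorem Br_ref_other {m : ℕ} {X : Fin m → Subgroup G} (h : IsFP X V) (i₀ : Fin m) {H : Fin 2 → Subgroup G}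
    (hH : IsFP H (X i₀)) {i : Fin m} (hi : i ≠ i₀) : Br (ref X i₀ H) i.succ = Br X i := by
  refine F4b_eq (isFP_ref h i₀ hH) ?_ ?_
  · intro b hb
    exact (F4b_A h i₀ hH (h.Br_subset i hb)).1 i hi hb
  · intro g hg
    obtain ⟨x, hx, b, hb, rfl⟩ := h.exists_proj i hg
    refine ⟨x, ?_, b, hb, rfl⟩
    rw [F4b_other X i₀ H hi]
    exact hx

end WQ
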