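import Pool.Agent.Lib.MP_0c5642_al.W.F5d

/-! ROW w-F5a: refinement (5.3). -/

set_option autoImplicit false

namespace WQ

open scoped Pointwise

variable {G : Type*} [Group G] {V : Subgroup G}

theorem F5a_nested_smul {A B : Set G} (h : Nested V A B) {g : G} (hg : g ∈ V) : Nested V (g • A) (g • B) := by
  rcases h with h | h | h | h
  · refine Or.inl (Set.disjoint_left.2 ?_)
    intro y hy hy'
    rw [Set.mem_smul_set_iff_inv_smul_mem] at hy hy'
    exact Set.disjoint_left.1 h hy hy'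
  · exact Or.inr (Or.inl (Set.smul_set_mono h))
  · exact Or.inr (Or.inr (Or.inl (Set.smul_set_mono h)))
  · refine Or.inr (Or.inr (Or.inr ?_))
    intro y hy
    have h1 : g⁻¹ • y ∈ A ∪ B := h (V.mul_mem (V.inv_mem hg) hy)
    rcases h1 with h1 | h1
    · exact Or.inl (Set.mem_smul_set_iff_inv_smul_mem.2 h1)
    · exact Or.inr (Set.mem_smul_set_iff_inv_smul_mem.2 h1)

theorem F5a_nested_inter {U : Subgroup G} (hUV : U ≤ V) {A : Set G} {g : G} (hg : g ∈ U) (h : Nested V A (g • A)) :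
    Nested U (A ∩ (U : Set G)) (g • (A ∩ (U : Set G))) := by
  have key : ∀ y ∈ U, (y ∈ g • (A ∩ (U : Set G)) ↔ y ∈ g • A) := by
    intro y hy
    rw [Set.mem_smul_set_iff_inv_smul_mem, Set.mem_smul_set_iff_inv_smul_mem]
    exact ⟨fun h => h.1, fun h => ⟨h, U.mul_mem (U.inv_mem hg) hy⟩⟩
  rcases h with h | h | h | h
  · exact Or.inl (h.mono Set.inter_subset_left (Set.smul_set_mono Set.inter_subset_left))
  · refine Or.inr (Or.inl ?_)
    rintro y ⟨hy, hyU⟩
    exact (key y hyU).2 (h hy)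
  · refine Or.inr (Or.inr (Or.inl ?_))
    intro y hy
    have hyU : y ∈ U := by
      rw [Set.mem_smul_set_iff_inv_smul_mem] at hy
      have h1 : g * (g⁻¹ • y) ∈ U := U.mul_mem hg hy.2
      rwa [smul_eq_mul, mul_inv_cancel_left] at h1
    exact ⟨h ((key y hyU).1 hy), hyU⟩
  · refine Or.inr (Or.inr (Or.inr ?_))
    intro y hy
    rcases h (hUV hy) with h1 | h1
    · exact Or.inl ⟨h1, hy⟩
    · exact Or.inr ((key y hy).2 h1)

/-- ROW w-F5a (5.3). `DP` for the subalgebra of the sets for which `X i₀` is elliptic gives a nested `E ∈ R` splitting a coset of `X i₀`; translate (`X i₀` itself is split, `E ∩ X i₀` is nested); `S1` for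
`X i₀`; the algebra `T` = `isAlg_ext` contains `E ∩ X i₀` by `ext_mem`, so `Br H i * Br X i₀ ∈ R`; `ref`. -/
theorem Dec.refine (htf : ∀ g : G, IsOfFinOrder g → g = 1) (hV : V.FG) {R : Set (Set G)} (hR : IsAlg V R)
    (hDP : DP V R) {m : ℕ} {X : Fin m → Subgroup G} (hX : Dec V R X) (i₀ : Fin m)
    (hs : ∃ E ∈ R, ∃ x, Split (X i₀) E x) (hnc : ¬ ∃ s, X i₀ = Subgroup.zpowers s) :
    ∃ X' : Fin (m + 1) → Subgroup G, Dec V R X' ∧ ∀ i, i ≠ i₀ → X' i.succ = X i := by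
  have hle : X i₀ ≤ V := by
    rw [← hX.fp.2]
    exact le_iSup X i₀
  obtain ⟨E, hE, hET, hEn⟩ := hDP {E | E ∈ R ∧ Ell (X i₀) E} (fun _ h => h.1) (isAlg_ell hR hle) (by
    intro h
    obtain ⟨E, hE, x, hx⟩ := hs
    have h1 : E ∈ {E | E ∈ R ∧ Ell (X i₀) E} := by
      rw [h]
      exact hE
    exact h1.2 x hx)
  have hsp : ∃ x, Split (X i₀) E x := by
    by_contra hc
    exact hET ⟨hE, fun x hx => hc ⟨x, hx⟩⟩
  obtain ⟨x, hx⟩ := hsp
  have hxV : x ∈ V := Split.mem hle (hR.ai E hE).1 hx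
  have hE1 : x⁻¹ • E ∈ R := hR.smul E hE _ (V.inv_mem hxV)
  have hs1 : Split (X i₀) (x⁻¹ • E) 1 := by
    rw [split_smul, inv_inv, mul_one]
    exact hx
  have hn1 : ∀ g ∈ V, Nested V (x⁻¹ • E) (g • x⁻¹ • E) := by
    intro g hg
    have h1 := F5a_nested_smul (hEn (x * g * x⁻¹) (V.mul_mem (V.mul_mem hxV hg) (V.inv_mem hxV))) (V.inv_mem hxV)
    rw [smul_smul] at h1 ⊢
    rwa [show x⁻¹ * (x * g * x⁻¹) = g * x⁻¹ by group] at h1
  have hres : res (X i₀) (x⁻¹ • E) 1 = (x⁻¹ • E) ∩ (X i₀ : Set G) := by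
    ext u
    simp only [res, Set.mem_setOf_eq, one_mul, Set.mem_inter_iff, SetLike.mem_coe]
    exact and_comm
  have hai : AI (X i₀) ((x⁻¹ • E) ∩ (X i₀ : Set G)) := by
    rw [← hres]
    exact AI.res hle (hR.ai _ hE1) V.one_mem
  have hsi := (split_iff (U := X i₀) (E := x⁻¹ • E) 1).1 hs1
  rw [hres] at hsi
  rcases S1 htf (X i₀) ((x⁻¹ • E) ∩ (X i₀ : Set G)) hai hsi.1 hsi.2
    (fun g hg => F5a_nested_inter hle hg (hn1 g (hle hg))) with hcyc | ⟨H, hH, hHne, hHT⟩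
  · exact absurd hcyc hnc
  have hfg : ∀ i, (X i).FG := fun i => IsFP.fg hX.fp i hV
  have hbr : ∀ i, Br H i * Br X i₀ ∈ R := fun i =>
    (hHT _ (isAlg_ext hX.fp hR i₀ (hX.br i₀)) ⟨Set.inter_subset_right, hai,
      ext_mem hX.fp hfg hR i₀ (hX.br i₀) hE1⟩ i).2.2
  refine ⟨ref X i₀ H, ⟨isFP_ref hX.fp i₀ hH, ?_, ?_⟩, ?_⟩
  · intro i
    refine Fin.cases ?_ (fun j => ?_) i
    · exact hHne 1
    · show Function.update X i₀ (H 0) j ≠ ⊥
      by_cases hj : j = i₀
      · subst hj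
        rw [Function.update_self]
        exact hHne 0
      · rw [Function.update_of_ne hj]
        exact hX.ne j
  · intro i
    refine Fin.cases ?_ (fun j => ?_) i
    · rw [Br_ref_zero hX.fp i₀ hH]
      exact hbr 1
    · by_cases hj : j = i₀
      · subst hj
        rw [Br_ref_same hX.fp j hH]
        exact hbr 0
      · rw [Br_ref_other hX.fp i₀ hH hj]
        exact hX.br j
  · intro i hi
    show Function.update X i₀ (H 0) i = X i
    rw [Function.update_of_ne hi]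

end WQ
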