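import Pool.Agent.Lib.MP_0c5642_al.W.F5d

/-! ROW w-F5b: (5.4). -/

set_option autoImplicit false

namespace WQ

open scoped Pointwise

variable {G : Type*} [Group G] {V : Subgroup G}

theorem F5b_AI_res {U : Subgroup G} (hU : U ≤ V) {E : Set G} (hE : AI V E) (x : G) : AI U (res U E x) := by
  refine ⟨fun u hu => hu.1, fun g hg => ?_⟩
  have hf := hE.2 g (hU hg)
  have hinj : Function.Injective (fun u : G => x * u) := fun a b h => mul_left_cancel h
  refine (hf.preimage (hinj.injOn)).subset ?_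
  intro u hu hc
  apply hu
  constructor
  · rintro ⟨h1, h2⟩
    exact ⟨U.mul_mem h1 hg, by rw [← mul_assoc]; exact hc.mp h2⟩
  · rintro ⟨h1, h2⟩
    refine ⟨?_, hc.mpr ?_⟩
    · have := U.mul_mem h1 (U.inv_mem hg)
      rwa [mul_inv_cancel_right] at this
    · rwa [mul_assoc]

theorem F5b_ends {s : G} (hinj : Function.Injective (fun n : ℤ => s ^ n)) {Q : Set G}
    (hQ : AI (Subgroup.zpowers s) Q) :
    ∃ (p q : Prop) (N : ℤ), (∀ n, N ≤ n → (s ^ n ∈ Q ↔ p)) ∧ (∀ n, n ≤ -N → (s ^ n ∈ Q ↔ q)) := by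
  have hf := hQ.2 s (Subgroup.mem_zpowers s)
  have hf2 := hf.preimage (hinj.injOn)
  obtain ⟨M, hM⟩ := hf2.bddAbove
  obtain ⟨m, hm⟩ := hf2.bddBelow
  have h1 : ∀ n : ℤ, M < n → (s ^ n ∈ Q ↔ s ^ (n + 1) ∈ Q) := by
    intro n hn
    by_contra hc
    have hc' : n ∈ (fun n : ℤ => s ^ n) ⁻¹' {x | ¬ (x ∈ Q ↔ x * s ∈ Q)} := by
      intro hd
      apply hc
      rw [zpow_add_one]
      exact hd
    have := hM hc'
    omega
  have h2 : ∀ n : ℤ, n < m → (s ^ n ∈ Q ↔ s ^ (n + 1) ∈ Q) := by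
    intro n hn
    by_contra hc
    have hc' : n ∈ (fun n : ℤ => s ^ n) ⁻¹' {x | ¬ (x ∈ Q ↔ x * s ∈ Q)} := by
      intro hd
      apply hc
      rw [zpow_add_one]
      exact hd
    have := hm hc'
    omega
  have h3 : ∀ n : ℤ, M + 1 ≤ n → (s ^ n ∈ Q ↔ s ^ (M + 1) ∈ Q) := by
    intro n hn
    induction n, hn using Int.le_induction with
    | base => exact Iff.rfl
    | succ n hn ih => exact (h1 n (by omega)).symm.trans ih
  have h4 : ∀ n : ℤ, n ≤ m → (s ^ n ∈ Q ↔ s ^ m ∈ Q) := by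
    intro n hn
    induction n, hn using Int.le_induction_down with
    | base => exact Iff.rfl
    | pred n hn ih =>
      have := h2 (n - 1) (by omega)
      rw [sub_add_cancel] at this
      exact this.trans ih
  refine ⟨s ^ (M + 1) ∈ Q, s ^ m ∈ Q, max (M + 1) (-m), fun n hn => h3 n (le_trans (le_max_left _ _) hn), fun n hn => h4 n ?_⟩
  have := le_max_right (M + 1) (-m)
  omega

theorem F5b_symm {s : G} {Q Q' : Set G} (hQ : Q ⊆ (Subgroup.zpowers s : Set G))
    (hQ' : Q' ⊆ (Subgroup.zpowers s : Set G)) (N : ℤ) (h1 : ∀ n, N ≤ n → (s ^ n ∈ Q ↔ s ^ n ∈ Q'))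
    (h2 : ∀ n, n ≤ -N → (s ^ n ∈ Q ↔ s ^ n ∈ Q')) : (symmDiff Q Q').Finite := by
  refine ((Set.finite_Ioo (-N) N).image (fun n : ℤ => s ^ n)).subset ?_
  intro x hx
  have hxZ : x ∈ (Subgroup.zpowers s : Set G) := by
    rcases hx with hx | hx
    · exact hQ hx.1
    · exact hQ' hx.1
  obtain ⟨n, rfl⟩ := Subgroup.mem_zpowers_iff.mp hxZ
  refine ⟨n, ?_, rfl⟩
  by_contra hc
  have hiff : s ^ n ∈ Q ↔ s ^ n ∈ Q' := by
    by_cases hn : N ≤ n
    · exact h1 n hn
    · apply h2
      by_contra hd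
      exact hc ⟨by omega, by omega⟩
  rcases hx with hx | hx
  · exact hx.2 (hiff.mp hx.1)
  · exact hx.2 (hiff.mpr hx.1)

theorem F5b_all {s : G} (hinj : Function.Injective (fun n : ℤ => s ^ n)) {T : Set (Set G)}
    (hT : IsAlg (Subgroup.zpowers s) T) {Q₀ : Set G} (h0 : Q₀ ∈ T) (hinf : Q₀.Infinite)
    (hco : ((Subgroup.zpowers s : Set G) \ Q₀).Infinite) {Q : Set G} (hQ : AI (Subgroup.zpowers s) Q) : Q ∈ T := by
  obtain ⟨p₀, q₀, N₀, hp₀, hq₀⟩ := F5b_ends hinj (hT.ai Q₀ h0)
  obtain ⟨p, q, N, hp, hq⟩ := F5b_ends hinj hQ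
  have hQ0 : Q₀ ⊆ (Subgroup.zpowers s : Set G) := (hT.ai Q₀ h0).1
  have hZ : ∀ n : ℤ, s ^ n ∈ (Subgroup.zpowers s : Set G) := fun n => Subgroup.zpow_mem_zpowers s n
  have hne : ¬ (p₀ ↔ q₀) := by
    intro hiff
    by_cases hpp : p₀
    · have hqq := hiff.mp hpp
      apply hco
      have := F5b_symm (Set.Subset.refl _) hQ0 N₀ (fun n hn => ⟨fun _ => (hp₀ n hn).mpr hpp, fun _ => hZ n⟩)
        (fun n hn => ⟨fun _ => (hq₀ n hn).mpr hqq, fun _ => hZ n⟩)
      exact this.subset fun x hx => Or.inl hx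
    · have hqq : ¬ q₀ := fun h => hpp (hiff.mpr h)
      apply hinf
      have := F5b_symm hQ0 (Set.empty_subset _) N₀
        (fun n hn => ⟨fun h => absurd ((hp₀ n hn).mp h) hpp, fun h => absurd h (Set.notMem_empty _)⟩)
        (fun n hn => ⟨fun h => absurd ((hq₀ n hn).mp h) hqq, fun h => absurd h (Set.notMem_empty _)⟩)
      exact this.subset fun x hx => Or.inl ⟨hx, Set.notMem_empty _⟩
  have hm1 := le_max_left N₀ N
  have hm2 := le_max_right N₀ N
  by_cases hpq : p ↔ q
  · by_cases hpp : p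
    · have hqq := hpq.mp hpp
      refine hT.of_symmDiff hT.univ hQ.1 ?_
      exact F5b_symm (Set.Subset.refl _) hQ.1 N (fun n hn => ⟨fun _ => (hp n hn).mpr hpp, fun _ => hZ n⟩)
        (fun n hn => ⟨fun _ => (hq n hn).mpr hqq, fun _ => hZ n⟩)
    · have hqq : ¬ q := fun h => hpp (hpq.mpr h)
      refine hT.fin Q hQ.1 ?_
      have := F5b_symm hQ.1 (Set.empty_subset _) N
        (fun n hn => ⟨fun h => absurd ((hp n hn).mp h) hpp, fun h => absurd h (Set.notMem_empty _)⟩)
        (fun n hn => ⟨fun h => absurd ((hq n hn).mp h) hqq, fun h => absurd h (Set.notMem_empty _)⟩)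
      exact this.subset fun x hx => Or.inl ⟨hx, Set.notMem_empty _⟩
  · by_cases hpp : p ↔ p₀
    · have hqq : q ↔ q₀ := by tauto
      refine hT.of_symmDiff h0 hQ.1 ?_
      exact F5b_symm hQ0 hQ.1 (max N₀ N)
        (fun n hn => (hp₀ n (le_trans hm1 hn)).trans (hpp.symm.trans (hp n (le_trans hm2 hn)).symm))
        (fun n hn => (hq₀ n (by omega)).trans (hqq.symm.trans (hq n (by omega)).symm))
    · refine hT.of_symmDiff (hT.compl Q₀ h0) hQ.1 ?_
      have hpp' : ¬ p₀ ↔ p := by tauto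
      have hqq' : ¬ q₀ ↔ q := by tauto
      refine F5b_symm Set.diff_subset hQ.1 (max N₀ N) (fun n hn => ?_) (fun n hn => ?_)
      · have e1 := hp₀ n (le_trans hm1 hn)
        have e2 := hp n (le_trans hm2 hn)
        constructor
        · intro h
          exact e2.mpr (hpp'.mp fun h' => h.2 (e1.mpr h'))
        · intro h
          exact ⟨hZ n, fun h' => hpp'.mpr (e2.mp h) (e1.mp h')⟩
      · have e1 := hq₀ n (by omega)
        have e2 := hq n (by omega)
        constructor
        · intro h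
          exact e2.mpr (hqq'.mp fun h' => h.2 (e1.mpr h'))
        · intro h
          exact ⟨hZ n, fun h' => hqq'.mpr (e2.mp h) (e1.mp h')⟩

/-- ROW w-F5b (5.4). `mem_of_local`: if `X i` is elliptic for `E`, the trace is finite or cofinite in `X i`; if `X i = ⟨s⟩` is split by some `F ∈ R`, then (`ext_mem`) the extension of `{s^n | n ≥ 0}` is in `R`, and every
almost invariant subset of `⟨s⟩` differs finitely from `∅`, `⟨s⟩`, `{s^n | n ≥ 0}` or its complement. -/
theorem Dec.mem_of_ell (htf : ∀ g : G, IsOfFinOrder g → g = 1) (hV : V.FG) {R : Set (Set G)} (hR : IsAlg V R)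
    {m : ℕ} {X : Fin m → Subgroup G} (hX : Dec V R X)
    (h : ∀ i, (∀ E ∈ R, Ell (X i) E) ∨ ∃ s, X i = Subgroup.zpowers s)
    {E : Set G} (hE : AI V E) (hell : ∀ i, (∀ F ∈ R, Ell (X i) F) → Ell (X i) E) : E ∈ R := by
  have hXV : ∀ i, X i ≤ V := by
    intro i
    rw [← hX.fp.2]
    exact le_iSup X i
  have hfg : ∀ i, (X i).FG := fun i => hX.fp.fg i hV
  refine mem_of_local hX.fp hfg hR hE fun i x hx => ?_
  have hT := isAlg_ext hX.fp hR i (hX.br i)
  have key : res (X i) E x ∈ {Q | Q ⊆ (X i : Set G) ∧ AI (X i) Q ∧ Q * Br X i ∈ R} := by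
    by_cases hel : ∀ F ∈ R, Ell (X i) F
    · have hns := hell i hel x
      by_cases hfin : (res (X i) E x).Finite
      · exact hT.fin _ (fun u hu => hu.1) hfin
      · have hco : {u | u ∈ X i ∧ x * u ∉ E}.Finite := by
          by_contra hc
          exact hns ⟨hfin, hc⟩
        refine hT.of_symmDiff hT.univ (fun u hu => hu.1) ?_
        refine hco.subset ?_
        intro u hu
        rcases hu with hu | hu
        · exact ⟨hu.1, fun h' => hu.2 ⟨hu.1, h'⟩⟩
        · exact absurd hu.1.1 hu.2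
    · have hel' : ∃ F ∈ R, ¬ Ell (X i) F := by
        by_contra hc
        exact hel fun F hF => by
          by_contra hd
          exact hc ⟨F, hF, hd⟩
      obtain ⟨F, hF, hFe⟩ := hel'
      obtain ⟨y, hy⟩ : ∃ y, Split (X i) F y := by
        by_contra hc
        exact hFe fun y hy => hc ⟨y, hy⟩
      rcases h i with h1 | ⟨s, hs⟩
      · exact absurd (h1) hel
      · have hyV : y ∈ V := Split.mem (hXV i) (hR.ai F hF).1 hy
        have e1 : (y⁻¹ • F) ∩ (X i : Set G) = res (X i) F y := by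
          ext u
          constructor
          · rintro ⟨h1, h2⟩
            exact ⟨h2, by
              have := Set.mem_inv_smul_set_iff.mp h1
              exact this⟩
          · rintro ⟨h1, h2⟩
            exact ⟨Set.mem_inv_smul_set_iff.mpr h2, h1⟩
        have h0 : res (X i) F y ∈ {Q | Q ⊆ (X i : Set G) ∧ AI (X i) Q ∧ Q * Br X i ∈ R} := by
          refine ⟨fun u hu => hu.1, F5b_AI_res (hXV i) (hR.ai F hF) y, ?_⟩
          have := ext_mem hX.fp hfg hR i (hX.br i) (hR.smul F hF y⁻¹ (V.inv_mem hyV))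
          rwa [e1] at this
        have hs1 : s ≠ 1 := by
          rintro rfl
          apply hX.ne i
          rw [hs]
          exact Subgroup.zpowers_one_eq_bot
        have hinj : Function.Injective (fun n : ℤ => s ^ n) :=
          injective_zpow_iff_not_isOfFinOrder.mpr fun h' => hs1 (htf s h')
        have hQ := F5b_AI_res (hXV i) hE x
        have hinf : (res (X i) F y).Infinite := hy.1
        have hco : ((X i : Set G) \ res (X i) F y).Infinite := by
          refine hy.2.mono ?_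
          rintro u ⟨h1, h2⟩
          exact ⟨h1, fun h' => h2 h'.2⟩
        revert hT h0 hQ hinf hco
        generalize hT' : {Q | Q ⊆ (X i : Set G) ∧ AI (X i) Q ∧ Q * Br X i ∈ R} = T
        generalize res (X i) F y = Q₀
        generalize res (X i) E x = Q₁
        clear hT'
        rw [hs]
        intro hT h0 hQ hinf hco
        exact F5b_all hinj hT h0 hinf hco hQ
  exact key.2.2

end WQ
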