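import Pool.Agent.Lib.MP_0c5642_al.W.F5a
import Pool.Agent.Lib.MP_0c5642_al.W.F5b

/-! ROW w-F5c: one step of (5.5). -/

set_option autoImplicit false

namespace WQ

open scoped Pointwise

variable {G : Type*} [Group G] {V : Subgroup G}

/-- the cyclic split factors survive a refinement -/
theorem F5c_cs_le {R : Set (Set G)} {m : ℕ} {X : Fin m → Subgroup G} {X' : Fin (m + 1) → Subgroup G}
    {i₀ : Fin m} (hnc : ¬ ∃ s, X i₀ = Subgroup.zpowers s) (h : ∀ i, i ≠ i₀ → X' i.succ = X i) :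
    cs R X ≤ cs R X' := by
  unfold cs
  rw [← Set.ncard_image_of_injective _ (Fin.succ_injective m)]
  refine Set.ncard_le_ncard ?_ (Set.toFinite _)
  rintro _ ⟨i, ⟨⟨s, hs⟩, E, hE, x, hx⟩, rfl⟩
  have hne : i ≠ i₀ := by
    rintro rfl
    exact hnc ⟨s, hs⟩
  refine ⟨⟨s, ?_⟩, E, hE, x, ?_⟩
  · rw [h i hne]
    exact hs
  · rw [h i hne]
    exact hx

/-- in a decomposition with maximal `m + cs` every factor is elliptic or cyclic -/
theorem F5c_dich (htf : ∀ g : G, IsOfFinOrder g → g = 1) (hV : V.FG) {R : Set (Set G)} (hR : IsAlg V R)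
    (hDP : DP V R) {m : ℕ} {X : Fin m → Subgroup G} (hX : Dec V R X)
    (hmax : ∀ (k : ℕ) (Y : Fin k → Subgroup G), Dec V R Y → k + cs R Y ≤ m + cs R X) (i : Fin m) :
    (∀ E ∈ R, Ell (X i) E) ∨ ∃ s, X i = Subgroup.zpowers s := by
  by_contra hcon
  rw [not_or] at hcon
  obtain ⟨h1, h2⟩ := hcon
  have h3 : ∃ E ∈ R, ∃ x, Split (X i) E x := by
    by_contra hno
    apply h1
    intro E hE x hx
    exact hno ⟨E, hE, x, hx⟩
  obtain ⟨X', hX', hsame⟩ := Dec.refine htf hV hR hDP hX i h3 h2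
  have h4 := hmax (m + 1) X' hX'
  have h5 : cs R X ≤ cs R X' := F5c_cs_le h2 hsame
  omega

/-- ROW w-F5c (5.5), one step: `μ` increases strictly. `X` is a decomposition adapted to the smaller algebra with `m + cs` maximal; then all factors are elliptic or cyclic for `R'` (`Dec.refine`),
and if no decomposition adapted to `R` had larger `μ`, the same would hold for `R` with the same elliptic factors, hence `R ⊆ R'` by `Dec.mem_of_ell`. -/
theorem mu_lt (htf : ∀ g : G, IsOfFinOrder g → g = 1) (hV : V.FG) {R R' : Set (Set G)} (hR : IsAlg V R) (hR' : IsAlg V R')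
    (hDP : DP V R) (hDP' : DP V R') (hss : R' ⊆ R) (hne : R' ≠ R) {m : ℕ} {X : Fin m → Subgroup G} (hX : Dec V R' X)
    (hmax : ∀ (k : ℕ) (Y : Fin k → Subgroup G), Dec V R' Y → k + cs R' Y ≤ m + cs R' X) :
    ∃ (k : ℕ) (Y : Fin k → Subgroup G), Dec V R Y ∧ m + cs R' X < k + cs R Y := by
  by_contra hcon
  have hmaxR : ∀ (k : ℕ) (Y : Fin k → Subgroup G), Dec V R Y → k + cs R Y ≤ m + cs R' X := by
    intro k Y hY
    by_contra hlt
    exact hcon ⟨k, Y, hY, not_le.1 hlt⟩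
  have hXR : Dec V R X := ⟨hX.fp, hX.ne, fun i => hss (hX.br i)⟩
  have hsub : {i : Fin m | (∃ s, X i = Subgroup.zpowers s) ∧ ∃ E ∈ R', ∃ x, Split (X i) E x} ⊆
      {i : Fin m | (∃ s, X i = Subgroup.zpowers s) ∧ ∃ E ∈ R, ∃ x, Split (X i) E x} := by
    rintro i ⟨hs, E, hE, x, hx⟩
    exact ⟨hs, E, hss hE, x, hx⟩
  have hle : cs R' X ≤ cs R X := Set.ncard_le_ncard hsub (Set.toFinite _)
  have hge : m + cs R X ≤ m + cs R' X := hmaxR m X hXR
  have hdR' := F5c_dich htf hV hR' hDP' hX hmax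
  have hdR : ∀ i : Fin m, (∀ E ∈ R, Ell (X i) E) ∨ ∃ s, X i = Subgroup.zpowers s := by
    refine F5c_dich htf hV hR hDP hXR ?_
    intro k Y hY
    have := hmaxR k Y hY
    omega
  apply hne
  apply Set.Subset.antisymm hss
  intro E hE
  refine Dec.mem_of_ell htf hV hR' hX hdR' (hR.ai E hE) ?_
  intro i hi
  rcases hdR i with h1 | h1
  · exact h1 E hE
  · by_contra hnE
    have hx : ∃ x, Split (X i) E x := by
      by_contra hno
      apply hnE
      intro x hx
      exact hno ⟨x, hx⟩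
    obtain ⟨x, hx⟩ := hx
    have hmem : i ∈ {i : Fin m | (∃ s, X i = Subgroup.zpowers s) ∧ ∃ E ∈ R, ∃ x, Split (X i) E x} :=
      ⟨h1, E, hE, x, hx⟩
    have hnmem : i ∉ {i : Fin m | (∃ s, X i = Subgroup.zpowers s) ∧
        ∃ E ∈ R', ∃ x, Split (X i) E x} := by
      rintro ⟨_, F, hF, y, hy⟩
      exact hi F hF y hy
    have hlt : cs R' X < cs R X :=
      Set.ncard_lt_ncard ⟨hsub, fun hcon => hnmem (hcon hmem)⟩ (Set.toFinite _)
    omega

end WQ
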