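import Pool.Agent.Lib.MP_0c5642_al.W.F2d
import Pool.Agent.Lib.MP_0c5642_al.W.F2c
import Pool.Agent.Lib.MP_0c5642_al.W.F3
import Pool.Agent.Lib.MP_0c5642_al.W.F4b
import Pool.Agent.Lib.MP_0c5642_al.W.E6b

/-! Definitions: decompositions adapted to an algebra. -/

set_option autoImplicit false

namespace WQ

open scoped Pointwise

variable {G : Type*} [Group G] {V : Subgroup G}

/-- `X` is a decomposition of `V` adapted to the algebra `R` -/
structure Dec (V : Subgroup G) (R : Set (Set G)) {m : ℕ} (X : Fin m → Subgroup G) : Prop where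
  fp : IsFP X V
  ne : ∀ i, X i ≠ ⊥
  br : ∀ i, Br X i ∈ R

/-- number of cyclic factors split by `R` -/
noncomputable def cs (R : Set (Set G)) {m : ℕ} (X : Fin m → Subgroup G) : ℕ :=
  Set.ncard {i | (∃ s, X i = Subgroup.zpowers s) ∧ ∃ E ∈ R, ∃ x, Split (X i) E x}

end WQ
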