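import Pool.Agent.Lib.MP_0c5642_al.W.F5c

/-! ROW w-F5e: (5.5). -/

set_option autoImplicit false

namespace WQ

open scoped Pointwise

variable {G : Type*} [Group G] {V : Subgroup G}

/-- ROW w-F5d (5.5): descending chains of algebras with the Dunwoody property are finite. `μ ≤ 2 e` by `card_le` (with `V' = V`). -/
theorem DCC (htf : ∀ g : G, IsOfFinOrder g → g = 1) (hV : V.FG) (hfree : IsFreeGroup V) (hne : V ≠ ⊥)
    (R : ℕ → Set (Set G)) (hR : ∀ k, IsAlg V (R k)) (hDP : ∀ k, DP V (R k)) (hanti : Antitone R) :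
    ∃ n, ∀ k, n ≤ k → R k = R n := by
  let S : ℕ → Set ℕ := fun k => {n | ∃ (m : ℕ) (X : Fin m → Subgroup G), Dec V (R k) X ∧ m + cs (R k) X = n}
  obtain ⟨B, hB⟩ := hV
  have hgen : GenBy B.card V := ⟨B, le_rfl, hB⟩
  have hbdd : ∀ k, ∀ n ∈ S k, n ≤ B.card + B.card := by
    rintro k n ⟨m, X, hX, rfl⟩
    have hle : ∀ i, X i ⊓ V = X i := fun i => inf_eq_left.2 (hX.fp.le i)
    have h1 : m ≤ B.card := by
      refine card_le hX.fp V ?_ le_rfl hfree ?_ hgen
      · simp only [hle]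
        exact hX.fp.2.symm
      · intro i
        rw [hle]
        exact hX.ne i
    have h2 : cs (R k) X ≤ m := by
      unfold cs
      refine (Set.ncard_le_ncard (Set.subset_univ _) Set.finite_univ).trans ?_
      rw [Set.ncard_univ, Nat.card_eq_fintype_card, Fintype.card_fin]
    omega
  have hbdd' : ∀ k, BddAbove (S k) := fun k => ⟨_, fun n hn => hbdd k n hn⟩
  have hnon : ∀ k, (S k).Nonempty := by
    intro k
    refine ⟨_, 1, fun _ => V, ⟨isFP_trivial V, fun _ => hne, fun i => ?_⟩, rfl⟩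
    have hi : i = 0 := Subsingleton.elim _ _
    rw [hi, Br_trivial]
    refine (hR k).fin _ ?_ (Set.finite_singleton 1)
    rintro x rfl
    exact V.one_mem
  obtain ⟨_, ⟨n, rfl⟩, hn⟩ := (wellFounded_lt (α := ℕ)).has_min (Set.range fun k => sSup (S k))
    ⟨_, 0, rfl⟩
  refine ⟨n, fun k hk => ?_⟩
  by_contra hcon
  refine hn _ ⟨k, rfl⟩ ?_
  obtain ⟨m, X, hX, hm⟩ := Nat.sSup_mem (hnon k) (hbdd' k)
  obtain ⟨l, Y, hY, hlt⟩ := mu_lt htf ⟨B, hB⟩ (hR n) (hR k) (hDP n) (hDP k) (hanti hk) hcon hX (by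
    intro l Y hY
    rw [hm]
    exact le_csSup (hbdd' k) ⟨l, Y, hY, rfl⟩)
  show sSup (S k) < sSup (S n)
  calc sSup (S k) = m + cs (R k) X := hm.symm
    _ < l + cs (R n) Y := hlt
    _ ≤ sSup (S n) := le_csSup (hbdd' n) ⟨l, Y, hY, rfl⟩

end WQ
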