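import Pool.Agent.Lib.MP_0c5642_al.W.D3
import Pool.Agent.Lib.MP_0c5642_al.W.F5e

/-! Definition of chains. -/

set_option autoImplicit false

namespace WQ

open scoped Pointwise

variable {G : Type*} [Group G]

/-- an ascending chain of finitely generated free groups without relative free splittings -/
structure Chain (V : ℕ → Subgroup G) : Prop where
  mono : Monotone V
  fg : ∀ k, (V k).FG
  free : ∀ k, IsFreeGroup (V k)
  ne : V 0 ≠ ⊥
  nf : ∀ k l, k ≤ l → NF (V k) (V l)
  nfM : NF (V 0) (⨆ l, V l)
  tf : ∀ g : G, IsOfFinOrder g → g = 1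

end WQ
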