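import Pool.Agent.Lib.MP_0c5642_al.W.G0

/-! ROW w-G1b (6.3). -/

set_option autoImplicit false

namespace WQ

open scoped Pointwise

variable {G : Type*} [Group G] {V : ℕ → Subgroup G}

theorem G1b_infinite (h : Chain V) : (V 0 : Set G).Infinite := by
  obtain ⟨v, hv, hv1⟩ := (V 0).ne_bot_iff_exists_ne_one.1 h.ne |>.elim fun v hv =>
    (⟨v.1, v.2, fun h' => hv (Subtype.ext h')⟩ : ∃ v : G, v ∈ V 0 ∧ v ≠ 1)
  have hnf : ¬ IsOfFinOrder v := fun h' => hv1 (h.tf v h')
  have hinj : Function.Injective fun n : ℕ => v ^ n := injective_pow_iff_not_isOfFinOrder.2 hnf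
  exact (Set.infinite_range_of_injective hinj).mono (by
    rintro _ ⟨n, rfl⟩
    exact (V 0).pow_mem hv n)

theorem G1b_bound (hm : Monotone V) (F : Finset G) : ∃ k₀, ∀ x ∈ F, x ∈ (⨆ l, V l) → x ∈ V k₀ := by
  classical
  induction F using Finset.induction_on with
  | empty => exact ⟨0, fun x hx => absurd hx (Finset.notMem_empty x)⟩
  | insert a s _ ih =>
    obtain ⟨k, hk⟩ := ih
    by_cases ha : a ∈ (⨆ l, V l)
    · obtain ⟨j, hj⟩ := (Subgroup.mem_iSup_of_directed hm.directed_le).1 ha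
      refine ⟨max j k, fun x hx hxM => ?_⟩
      rcases Finset.mem_insert.1 hx with rfl | hx
      · exact hm (le_max_left j k) hj
      · exact hm (le_max_right j k) (hk x hx hxM)
    · refine ⟨k, fun x hx hxM => ?_⟩
      rcases Finset.mem_insert.1 hx with rfl | hx
      · exact absurd hxM ha
      · exact hk x hx hxM

/-- ROW w-G1b (6.3). `exact_fin` for `V 0`; for large `k` all exceptional cosets lie in `V k`; a coset `x V_k ≠ V_k` is then elliptic and exact for `V 0`, so it is exact (`NF (V 0) (V k)`). -/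
theorem Chain.eventually_clean (h : Chain V) {E : Set G} (hE : AI (⨆ l, V l) E) :
    ∃ k₀, ∀ k, k₀ ≤ k → Clean (V k) (⨆ l, V l) E := by
  obtain ⟨F, hF⟩ := exact_fin (le_iSup V 0) (h.fg 0) hE
  obtain ⟨k₀, hk₀⟩ := G1b_bound h.mono F
  refine ⟨k₀, fun k hk => ⟨hE, fun g hg hgk => ?_⟩⟩
  have h0k : V 0 ≤ V k := h.mono (Nat.zero_le k)
  have hkM : V k ≤ ⨆ l, V l := le_iSup V k
  have hex : ∀ u ∈ V k, (∀ v ∈ V 0, g * u * v ∈ E) ∨ (∀ v ∈ V 0, g * u * v ∉ E) := by
    intro u hu
    refine hF (g * u) (Subgroup.mul_mem _ hg (hkM hu)) fun v hv hmem => hgk ?_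
    have h1 : g * u * v ∈ ⨆ l, V l :=
      Subgroup.mul_mem _ (Subgroup.mul_mem _ hg (hkM hu)) (hkM (h0k hv))
    have h2 : g * u * v ∈ V k := h.mono hk (hk₀ _ hmem h1)
    exact ((V k).mul_mem_cancel_right hu).1 (((V k).mul_mem_cancel_right (h0k hv)).1 h2)
  have hT : AI (V k) (res (V k) E g) := AI.res hkM hE hg
  have hell : Ell (V 0) (res (V k) E g) := by
    intro u hs
    have hu : u ∈ V k := Split.mem h0k hT.1 hs
    rcases hex u hu with h1 | h1
    · obtain ⟨v, hv, hv2⟩ := hs.2.nonempty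
      apply hv2
      refine ⟨(V k).mul_mem hu (h0k hv), ?_⟩
      rw [← mul_assoc]
      exact h1 v hv
    · obtain ⟨v, hv, hv2⟩ := hs.1.nonempty
      have := hv2.2
      rw [← mul_assoc] at this
      exact h1 v hv this
  have hinf := G1b_infinite h
  rcases h.nf 0 k (Nat.zero_le k) (res (V k) E g) hT hell with h1 | h1
  · right
    intro u hu hmem
    rcases hex u hu with h2 | h2
    · have h3 : ((fun v => u * v) '' (V 0 : Set G)).Infinite := hinf.image (mul_right_injective u).injOn
      refine h3 (h1.subset ?_)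
      rintro _ ⟨v, hv, rfl⟩
      refine ⟨(V k).mul_mem hu (h0k hv), ?_⟩
      show g * (u * v) ∈ E
      rw [← mul_assoc]
      exact h2 v hv
    · have := h2 1 (V 0).one_mem
      rw [mul_one] at this
      exact this hmem
  · left
    intro u hu
    by_contra hmem
    rcases hex u hu with h2 | h2
    · have := h2 1 (V 0).one_mem
      rw [mul_one] at this
      exact hmem this
    · have h3 : ((fun v => u * v) '' (V 0 : Set G)).Infinite := hinf.image (mul_right_injective u).injOn
      refine h3 (h1.subset ?_)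
      rintro _ ⟨v, hv, rfl⟩
      refine ⟨(V k).mul_mem hu (h0k hv), fun h4 => ?_⟩
      have h5 : g * (u * v) ∈ E := h4.2
      rw [← mul_assoc] at h5
      exact h2 v hv h5

end WQ
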