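import Pool.Agent.Lib.MP_0c5642_al.W.G0

/-! ROW w-G1c (6.1). -/

set_option autoImplicit false

namespace WQ

open scoped Pointwise

variable {G : Type*} [Group G] {V : ℕ → Subgroup G}

/-- the members of a chain are infinite -/
theorem G1c_inf (h : Chain V) (k : ℕ) : ((V k : Subgroup G) : Set G).Infinite := by
  refine infinite_of_ne_bot h.tf ?_
  intro hk
  exact h.ne (le_bot_iff.mp (hk ▸ h.mono (Nat.zero_le k)))

/-- membership in the union of a chain -/
theorem G1c_mem (h : Chain V) (k : ℕ) {x : G} : x ∈ (⨆ l, V l) ↔ ∃ l, k ≤ l ∧ x ∈ V l := by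
  rw [Subgroup.mem_iSup_of_directed (directed_of_isDirected_le h.mono)]
  constructor
  · rintro ⟨l, hl⟩
    exact ⟨max k l, le_max_left _ _, h.mono (le_max_right _ _) hl⟩
  · rintro ⟨l, _, hl⟩
    exact ⟨l, hl⟩

/-- a clean subset of a larger group is constant on the cosets of the smaller group outside it -/
theorem G1c_const (h : Chain V) {k l l' : ℕ} (hkl : k ≤ l) (hll : l ≤ l') {E : Set G}
    (hE : Clean (V k) (V l') E) {x : G} (hx : x ∈ V l') (hxl : x ∉ V l) {g : G} (hg : g ∈ V l) :
    x ∈ E ↔ x * g ∈ E := by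
  have hinf := G1c_inf h k
  have hnotk : ∀ u ∈ V l, x * u ∉ V k := by
    intro u hu hxu
    apply hxl
    have := (V l).mul_mem (h.mono hkl hxu) ((V l).inv_mem hu)
    rwa [mul_inv_cancel_right] at this
  have hmem : ∀ u ∈ V l, x * u ∈ V l' := fun u hu => (V l').mul_mem hx (h.mono hll hu)
  have hcl : ∀ u ∈ V l, (∀ v ∈ V k, x * u * v ∈ E) ∨ (∀ v ∈ V k, x * u * v ∉ E) :=
    fun u hu => hE.2 (x * u) (hmem u hu) (hnotk u hu)
  have hAI : AI (V l) (res (V l) E x) := AI.res (h.mono hll) hE.1 hx
  have hEll : Ell (V k) (res (V l) E x) := by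
    intro u hs
    have hu : u ∈ V l := Split.mem (h.mono hkl) hAI.1 hs
    have hs' := (split_res (h.mono hkl) hu x).1 hs
    rcases hcl u hu with hc | hc
    · apply hs'.2
      have : {v | v ∈ V k ∧ x * u * v ∉ E} = ∅ := by
        ext v
        simp only [Set.mem_setOf_eq, Set.mem_empty_iff_false, iff_false, not_and, not_not]
        exact fun hv => hc v hv
      rw [this]
      exact Set.finite_empty
    · apply hs'.1
      have : {v | v ∈ V k ∧ x * u * v ∈ E} = ∅ := by
        ext v
        simp only [Set.mem_setOf_eq, Set.mem_empty_iff_false, iff_false, not_and]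
        exact fun hv => hc v hv
      rw [this]
      exact Set.finite_empty
  have hfull : ∀ u ∈ V l, x * u ∈ E → ∀ v ∈ V k, x * (u * v) ∈ E := by
    intro u hu hxu v hv
    rcases hcl u hu with hc | hc
    · rw [← mul_assoc]
      exact hc v hv
    · exact absurd hxu (by have := hc 1 (V k).one_mem; rwa [mul_one] at this)
  have hempty : ∀ u ∈ V l, x * u ∉ E → ∀ v ∈ V k, x * (u * v) ∉ E := by
    intro u hu hxu v hv
    rcases hcl u hu with hc | hc
    · exact absurd (by have := hc 1 (V k).one_mem; rwa [mul_one] at this) hxu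
    · rw [← mul_assoc]
      exact hc v hv
  have hinfu : ∀ u : G, ((fun v => u * v) '' ((V k : Subgroup G) : Set G)).Infinite := by
    intro u
    exact hinf.image (mul_right_injective u).injOn
  have key : (∀ u ∈ V l, x * u ∉ E) ∨ (∀ u ∈ V l, x * u ∈ E) := by
    rcases h.nf k l hkl _ hAI hEll with hfin | hfin
    · left
      intro u hu hxu
      refine hinfu u (hfin.subset ?_)
      rintro _ ⟨v, hv, rfl⟩
      exact ⟨(V l).mul_mem hu (h.mono hkl hv), hfull u hu hxu v hv⟩
    · right
      intro u hu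
      by_contra hxu
      refine hinfu u (hfin.subset ?_)
      rintro _ ⟨v, hv, rfl⟩
      exact ⟨(V l).mul_mem hu (h.mono hkl hv), fun hc => hempty u hu hxu v hv hc.2⟩
  rcases key with hk | hk
  · constructor
    · intro hx1
      exact absurd (by rwa [mul_one]) (hk 1 (V l).one_mem)
    · intro hx1
      exact absurd hx1 (hk g hg)
  · constructor
    · intro _
      exact hk g hg
    · intro _
      have := hk 1 (V l).one_mem
      rwa [mul_one] at this

/-- (6.1): the clean sets `E_l` with trace `A` are compatible (`Clean.ext`, `Clean.restrict`); `E = ⋃ E_l`. For `x ∈ V_l'`, `x ∉ V_l` the set `res (V l) E x` is a union of full cosets of `V k` (`E_l'` is clean) and elliptic for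
`V k`, hence empty or `V l` by `NF`; so for `g ∈ V l` the set of changes under right multiplication by `g` is contained in `V l`: finite. -/
theorem Chain.extend (h : Chain V) (k : ℕ) {A : Set G} (hA : ∀ l, k ≤ l → A ∈ RR (V k) (V l)) :
    A ∈ RR (V k) (⨆ l, V l) := by
  classical
  have hinf := G1c_inf h k
  choose! e he heA using hA
  have hcomp : ∀ l l', k ≤ l → l ≤ l' → e l' ∩ (V l : Set G) = e l := by
    intro l l' hkl hll
    refine Clean.ext (h.mono hkl) hinf (h.nf k l hkl)
      (Clean.restrict (h.mono hkl) (h.mono hll) (he l' (hkl.trans hll))) (he l hkl) ?_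
    rw [← heA l hkl, Set.inter_assoc, Set.inter_eq_self_of_subset_right (SetLike.coe_subset_coe.2 (h.mono hkl))]
    exact (heA l' (hkl.trans hll)).symm
  have hcap : ∀ l, k ≤ l → ∀ x ∈ V l, (x ∈ (⋃ j ∈ Set.Ici k, e j) ↔ x ∈ e l) := by
    intro l hkl x hx
    constructor
    · intro hxE
      obtain ⟨j, hj, hxj⟩ := Set.mem_iUnion₂.1 hxE
      have hkj : k ≤ j := hj
      have hxjV : x ∈ V j := (he j hkj).1.1 hxj
      rcases le_total j l with hjl | hlj
      · rw [← hcomp j l hkj hjl] at hxj
        exact hxj.1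
      · rw [← hcomp l j hkl hlj]
        exact ⟨hxj, hx⟩
    · intro hxe
      exact Set.mem_iUnion₂.2 ⟨l, hkl, hxe⟩
  have hsub : (⋃ j ∈ Set.Ici k, e j) ⊆ ((⨆ l, V l : Subgroup G) : Set G) := by
    intro x hx
    obtain ⟨j, hj, hxj⟩ := Set.mem_iUnion₂.1 hx
    exact (G1c_mem h k).2 ⟨j, hj, (he j hj).1.1 hxj⟩
  refine ⟨⋃ j ∈ Set.Ici k, e j, ⟨⟨hsub, ?_⟩, ?_⟩, ?_⟩
  · intro g hg
    obtain ⟨l, hkl, hgl⟩ := (G1c_mem h k).1 hg
    refine ((he l hkl).1.2 g hgl).subset ?_
    intro x hx hcon
    apply hx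
    by_cases hxM : x ∈ (⨆ l, V l)
    · by_cases hxl : x ∈ V l
      · rw [hcap l hkl x hxl, hcap l hkl (x * g) ((V l).mul_mem hxl hgl)]
        exact hcon
      · obtain ⟨l', hl', hxl'⟩ := (G1c_mem h l).1 hxM
        rw [hcap l' (hkl.trans hl') x hxl',
          hcap l' (hkl.trans hl') (x * g) ((V l').mul_mem hxl' (h.mono hl' hgl))]
        exact G1c_const h hkl hl' (he l' (hkl.trans hl')) hxl' hxl hgl
    · constructor
      · intro hxE
        exact absurd (hsub hxE) hxM
      · intro hxE
        exfalso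
        apply hxM
        have := (⨆ l, V l).mul_mem (hsub hxE) ((⨆ l, V l).inv_mem hg)
        rwa [mul_inv_cancel_right] at this
  · intro g hg hgk
    obtain ⟨l, hkl, hgl⟩ := (G1c_mem h k).1 hg
    rcases (he l hkl).2 g hgl hgk with hc | hc
    · left
      intro u hu
      exact (hcap l hkl _ ((V l).mul_mem hgl (h.mono hkl hu))).2 (hc u hu)
    · right
      intro u hu hcon
      exact hc u hu ((hcap l hkl _ ((V l).mul_mem hgl (h.mono hkl hu))).1 hcon)
  · ext x
    constructor
    · intro hx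
      have hx' := hx
      rw [heA k le_rfl] at hx'
      exact ⟨(hcap k le_rfl x hx'.2).2 hx'.1, hx'.2⟩
    · rintro ⟨hx1, hx2⟩
      rw [heA k le_rfl]
      exact ⟨(hcap k le_rfl x hx2).1 hx1, hx2⟩

end WQ
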