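import Pool.Agent.Lib.MP_0c5642_al.W.G1c

/-! ROW w-G1d. -/

set_option autoImplicit false

namespace WQ

open scoped Pointwise

variable {G : Type*} [Group G] {V : ℕ → Subgroup G}

private theorem G1d_infinite (h : Chain V) (k : ℕ) : ((V k : Subgroup G) : Set G).Infinite := by
  obtain ⟨g, hg, hg1⟩ := (V 0).bot_or_exists_ne_one.resolve_left h.ne
  have hinj : Function.Injective fun n : ℕ => g ^ n :=
    injective_pow_iff_not_isOfFinOrder.2 fun hf => hg1 (h.tf g hf)
  exact Set.infinite_of_injective_forall_mem hinj fun n =>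
    (V k).pow_mem (h.mono (Nat.zero_le k) hg) n

/-- `DCC` for the chain `RR (V k) (V (k + l))`, `DP_RR`, `Chain.extend`, `RR_anti`. -/
theorem Chain.RR_eq (h : Chain V) (k : ℕ) : ∃ l, k ≤ l ∧ RR (V k) (⨆ l, V l) = RR (V k) (V l) := by
  have hle : ∀ j, V k ≤ V (k + j) := fun j => h.mono (Nat.le_add_right k j)
  have hanti : Antitone fun j => RR (V k) (V (k + j)) := fun i j hij =>
    RR_anti (hle i) (h.mono (Nat.add_le_add_left hij k))
  have hne : V k ≠ ⊥ := by
    intro hb
    have h0 := h.mono (Nat.zero_le k)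
    rw [hb] at h0
    exact h.ne (le_bot_iff.1 h0)
  obtain ⟨n, hn⟩ := DCC h.tf (h.fg k) (h.free k) hne (fun j => RR (V k) (V (k + j)))
    (fun j => isAlg_RR (hle j))
    (fun j => DP_RR (hle j) (h.fg (k + j)) (G1d_infinite h k) (h.nf k (k + j) (Nat.le_add_right k j)))
    hanti
  refine ⟨k + n, Nat.le_add_right k n, Set.Subset.antisymm ?_ ?_⟩
  · exact RR_anti (hle n) (le_iSup V (k + n))
  · intro A hA
    refine h.extend k fun l hl => ?_
    obtain ⟨j, rfl⟩ := Nat.exists_eq_add_of_le hl
    rcases le_total n j with hj | hj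
    · have e : RR (V k) (V (k + j)) = RR (V k) (V (k + n)) := hn j hj
      rw [e]
      exact hA
    · exact hanti hj hA

end WQ
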