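import Pool.Agent.Lib.MP_0c5642_al.W.G1d

/-! ROW w-G1e. -/

set_option autoImplicit false

namespace WQ

open scoped Pointwise

variable {G : Type*} [Group G] {V : ℕ → Subgroup G}

/-- a nontrivial torsion free subgroup is infinite -/
theorem G1e_infinite {U : Subgroup G} (hne : U ≠ ⊥) (htf : ∀ g : G, IsOfFinOrder g → g = 1) : (U : Set G).Infinite := by
  obtain ⟨g, hg1⟩ := Subgroup.ne_bot_iff_exists_ne_one.mp hne
  intro hf
  have hfin : Finite U := hf.to_subtype
  have h1 : IsOfFinOrder (g : G) := (Subgroup.subtype U).isOfFinOrder (isOfFinOrder_of_finite g)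
  exact hg1 (Subtype.ext (htf _ h1))

/-- translates of complements -/
theorem G1e_smul_diff {U : Subgroup G} {g : G} (hg : g ∈ U) (A : Set G) :
    (U : Set G) \ (g • A) = g • ((U : Set G) \ A) := by
  ext x
  rw [Set.mem_sdiff, Set.mem_smul_set_iff_inv_smul_mem, Set.mem_smul_set_iff_inv_smul_mem, Set.mem_sdiff, smul_eq_mul,
    SetLike.mem_coe, SetLike.mem_coe]
  exact and_congr_left fun _ => (U.mul_mem_cancel_left (U.inv_mem hg)).symm

/-- finite and cofinite subsets -/
def G1e_T (U : Subgroup G) : Set (Set G) := {A | A ⊆ (U : Set G) ∧ (A.Finite ∨ ((U : Set G) \ A).Finite)}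

theorem G1e_compl_compl {U : Subgroup G} {A : Set G} (h : A ⊆ (U : Set G)) : (U : Set G) \ ((U : Set G) \ A) = A := by
  rw [Set.sdiff_sdiff_right_self]
  exact Set.inter_eq_right.mpr h

theorem G1e_isAlg (U : Subgroup G) : IsAlg U (G1e_T U) where
  ai := by
    rintro A ⟨hA, hf | hf⟩
    · exact (Clean.of_finite (le_refl U) hA hf).1
    · have h1 := (Clean.compl (le_refl U) (Clean.of_finite (le_refl U) (Set.sdiff_subset) hf)).1
      rwa [G1e_compl_compl hA] at h1
  compl := by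
    rintro A ⟨hA, hf⟩
    refine ⟨Set.sdiff_subset, ?_⟩
    rw [G1e_compl_compl hA]
    exact hf.symm
  inter := by
    rintro A ⟨hA, hf⟩ B ⟨hB, hf'⟩
    refine ⟨Set.inter_subset_left.trans hA, ?_⟩
    rcases hf with hf | hf
    · exact Or.inl (hf.subset Set.inter_subset_left)
    · rcases hf' with hf' | hf'
      · exact Or.inl (hf'.subset Set.inter_subset_right)
      · right
        rw [Set.sdiff_inter]
        exact hf.union hf'
  smul := by
    rintro A ⟨hA, hf⟩ g hg
    refine ⟨?_, ?_⟩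
    · rintro _ ⟨x, hx, rfl⟩
      exact U.mul_mem hg (hA hx)
    · rcases hf with hf | hf
      · exact Or.inl (hf.smul_set)
      · right
        rw [G1e_smul_diff hg]
        exact hf.smul_set
  fin := fun E hE hf => ⟨hE, Or.inl hf⟩

/-- `Chain.RR_eq` and `DP_RR` for `V 0`, with `T` = the finite and cofinite traces (`MO.exists_RR`), then `Clean.nested_of_trace` and `Clean.nested_of_notMem`. -/
theorem Chain.exists_nested (h : Chain V) (hMO : ∀ l, MO (V 0) (V l)) :
    ∃ E, AI (⨆ l, V l) E ∧ E.Infinite ∧ (((⨆ l, V l : Subgroup G) : Set G) \ E).Infinite ∧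
      ∀ g ∈ (⨆ l, V l : Subgroup G), Nested (⨆ l, V l) E (g • E) := by
  obtain ⟨l, hl, hR⟩ := h.RR_eq 0
  have hle : V 0 ≤ V l := h.mono hl
  have hleM : V 0 ≤ ⨆ l, V l := le_iSup V 0
  have hinf : ((V 0 : Subgroup G) : Set G).Infinite := G1e_infinite h.ne h.tf
  have hDP := DP_RR hle (h.fg l) hinf (h.nf 0 l hl)
  have hAlg := isAlg_RR hle
  have hsub : G1e_T (V 0) ⊆ RR (V 0) (V l) := by
    rintro A ⟨hA, hf | hf⟩
    · exact hAlg.fin A hA hf
    · have h1 := hAlg.compl _ (hAlg.fin _ Set.sdiff_subset hf)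
      rwa [G1e_compl_compl hA] at h1
  have hne : G1e_T (V 0) ≠ RR (V 0) (V l) := by
    intro heq
    obtain ⟨A, hA, h1, h2⟩ := MO.exists_RR hle (h.fg 0) (hMO l)
    rw [← heq] at hA
    rcases hA.2 with hf | hf
    · exact h1 hf
    · exact h2 hf
  obtain ⟨E₀, hE₀, hnot, hnest⟩ := hDP (G1e_T (V 0)) hsub (G1e_isAlg (V 0)) hne
  rw [← hR] at hE₀
  obtain ⟨E, hE, rfl⟩ := hE₀
  have hnf : ¬ (E ∩ ((V 0 : Subgroup G) : Set G)).Finite := fun hf => hnot ⟨Set.inter_subset_right, Or.inl hf⟩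
  have hnf' : ¬ (((V 0 : Subgroup G) : Set G) \ (E ∩ ((V 0 : Subgroup G) : Set G))).Finite :=
    fun hf => hnot ⟨Set.inter_subset_right, Or.inr hf⟩
  refine ⟨E, hE.1, fun hf => hnf (hf.subset Set.inter_subset_left), fun hf => hnf' (hf.subset ?_), ?_⟩
  · rintro x ⟨hx, hx'⟩
    exact ⟨hleM hx, fun hxE => hx' ⟨hxE, hx⟩⟩
  · intro g hg
    by_cases hg0 : g ∈ V 0
    · refine Clean.nested_of_trace hleM hinf h.nfM hE (hE.smul hleM hg0) ?_
      have h1 : (g • E) ∩ ((V 0 : Subgroup G) : Set G) = g • (E ∩ ((V 0 : Subgroup G) : Set G)) := by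
        ext x
        rw [Set.mem_inter_iff, Set.mem_smul_set_iff_inv_smul_mem, Set.mem_smul_set_iff_inv_smul_mem, Set.mem_inter_iff,
          smul_eq_mul, SetLike.mem_coe, SetLike.mem_coe]
        exact and_congr_right fun _ => ((V 0).mul_mem_cancel_left ((V 0).inv_mem hg0)).symm
      rw [h1]
      exact hnest g hg0
    · exact Clean.nested_of_notMem hleM hinf h.nfM hE hE hg hg0

end WQ
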