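import Pool.Agent.Lib.MP_0c5642_al.W.G1b

/-! ROW w-G1f (6.5). -/

set_option autoImplicit false

namespace WQ

open scoped Pointwise

variable {G : Type*} [Group G] {V : ℕ → Subgroup G}

/-- an element of a free product is `1` or starts with a syllable -/
theorem G1f_cases {ι : Type} {X : ι → Subgroup G} {M : Subgroup G} (h : IsFP X M) {g : G}
    (hg : g ∈ M) : g = 1 ∨ ∃ (j : ι) (x b : G), x ∈ X j ∧ x ≠ 1 ∧ b ∈ Br X j ∧ g = x * b := by
  refine h.induction (P := fun g => g = 1 ∨
    ∃ (j : ι) (x b : G), x ∈ X j ∧ x ≠ 1 ∧ b ∈ Br X j ∧ g = x * b) (Or.inl rfl) ?_ hg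
  intro i x b hx hx1 hb _
  exact Or.inr ⟨i, x, b, hx, hx1, hb, rfl⟩

/-- a product `x * b` with `x ∈ X j`, `x ≠ 1`, `b ∈ Br X j` is not in `Br X j` -/
theorem G1f_notMem {ι : Type} {X : ι → Subgroup G} {M : Subgroup G} (h : IsFP X M) {j : ι}
    {x b : G} (hx : x ∈ X j) (hx1 : x ≠ 1) (hb : b ∈ Br X j) : x * b ∉ Br X j := by
  intro hc
  exact hx1 (h.proj_unique j hx (X j).one_mem hb hc (by rw [one_mul]))

/-- ROW w-G1f (6.5). The sets `Br X i` are clean for `V k`, `k` large. For `v = y_1 … y_l ∈ V k` with `g = y_1 … y_(j-1)`, `y_j ∈ X i`: `g⁻¹ ∈ Br X i`, `g⁻¹ v ∉ Br X i`, so `g ∈ V k` since otherwise the coset `g⁻¹ V_k` would be exact for `Br X i`.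
Hence all syllables are in `V k`. -/
theorem Chain.eq_iSup_inf (h : Chain V) {m : ℕ} {X : Fin m → Subgroup G} (hX : IsFP X (⨆ l, V l)) :
    ∃ k₀, ∀ k, k₀ ≤ k → V k = ⨆ i, (X i ⊓ V k) := by
  have hcl : ∀ i : Fin m, ∃ k₀, ∀ k, k₀ ≤ k → Clean (V k) (⨆ l, V l) (Br X i) :=
    fun i => h.eventually_clean (hX.AI_Br i)
  choose K hK using hcl
  refine ⟨Finset.univ.sup K, fun k hk => ?_⟩
  have hcl : ∀ i : Fin m, Clean (V k) (⨆ l, V l) (Br X i) := fun i =>
    hK i k (le_trans (Finset.le_sup (Finset.mem_univ i)) hk)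
  apply le_antisymm
  · intro v hv
    have hvM : v ∈ (⨆ l, V l : Subgroup G) := (le_iSup V k) hv
    have key : v ∈ V k → v ∈ (⨆ i, (X i ⊓ V k) : Subgroup G) := by
      refine hX.induction (P := fun v => v ∈ V k → v ∈ (⨆ i, (X i ⊓ V k) : Subgroup G))
        (fun _ => Subgroup.one_mem _) ?_ hvM
      intro i x b hx hx1 hb ih hxb
      have hxk : x ∈ V k := by
        by_cases hb1 : b = 1
        · rw [hb1, mul_one] at hxb
          exact hxb
        · have hbM : b ∈ (⨆ l, V l : Subgroup G) := hX.Br_subset i hb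
          rcases G1f_cases hX hbM with h1 | ⟨j, y, c, hy, hy1, hc, rfl⟩
          · exact absurd h1 hb1
          · have hji : i ≠ j := by
              rintro rfl
              exact G1f_notMem hX hy hy1 hc hb
            have hnot : y * c ∉ Br X j := G1f_notMem hX hy hy1 hc
            by_contra hxk
            have hxM : x⁻¹ ∈ (⨆ l, V l : Subgroup G) := (hX.le i) ((X i).inv_mem hx)
            have hxi : x⁻¹ ∉ V k := fun hcon => hxk (by simpa using (V k).inv_mem hcon)
            rcases (hcl j).2 x⁻¹ hxM hxi with hall | hnone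
            · apply hnot
              have := hall _ hxb
              rwa [inv_mul_cancel_left] at this
            · apply hnone 1 (V k).one_mem
              rw [mul_one]
              exact hX.mem_Br_of_mem hji.symm ((X i).inv_mem hx)
      have hbk : b ∈ V k := by
        have := (V k).mul_mem ((V k).inv_mem hxk) hxb
        rwa [inv_mul_cancel_left] at this
      exact Subgroup.mul_mem _
        ((le_iSup (fun i => X i ⊓ V k) i) (Subgroup.mem_inf.2 ⟨hx, hxk⟩)) (ih hbk)
    exact key hv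
  · exact iSup_le fun i => inf_le_right

end WQ
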