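import Pool.Agent.Lib.MP_0c5642_al.W.G1f

/-! ROW w-G2a. -/

set_option autoImplicit false

namespace WQ

open scoped Pointwise

variable {G : Type*} [Group G] {V : ℕ → Subgroup G}

/-- `Chain.eq_iSup_inf` and `card_le` for `V' = V k`, `k` large -/
theorem Chain.card_le (h : Chain V) {e : ℕ} (he : ∀ k, GenBy e (V k)) {m : ℕ} {X : Fin m → Subgroup G}
    (hX : IsFP X (⨆ l, V l)) (hne : ∀ i, X i ≠ ⊥) : m ≤ e := by
  obtain ⟨k₀, hk₀⟩ := h.eq_iSup_inf hX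
  have h1 : ∀ i, ∃ k, X i ⊓ V k ≠ ⊥ := by
    intro i
    obtain ⟨x, hx, hx1⟩ := (X i).bot_or_exists_ne_one.resolve_left (hne i)
    have hxV : x ∈ ⨆ l, V l := hX.le i hx
    obtain ⟨k, hk⟩ := (Subgroup.mem_iSup_of_directed h.mono.directed_le).1 hxV
    refine ⟨k, fun h0 => hx1 ?_⟩
    have h2 : x ∈ X i ⊓ V k := ⟨hx, hk⟩
    rw [h0] at h2
    exact Subgroup.mem_bot.1 h2
  choose k hk using h1
  refine WQ.card_le hX (V (max k₀ (Finset.univ.sup k))) (hk₀ _ (le_max_left _ _)) (le_iSup V _)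
    (h.free _) (fun i h0 => hk i ?_) (he _)
  have h3 : k i ≤ max k₀ (Finset.univ.sup k) :=
    (Finset.le_sup (Finset.mem_univ i)).trans (le_max_right _ _)
  rw [eq_bot_iff, ← h0]
  exact inf_le_inf_left _ (h.mono h3)

end WQ
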