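import Pool.Agent.Lib.MP_0c5642_al.W.G2a
import Pool.Agent.Lib.MP_0c5642_al.W.G1e

/-! ROW w-G2b (6.6). -/

set_option autoImplicit false

namespace WQ

open scoped Pointwise

variable {G : Type*} [Group G] {V : ℕ → Subgroup G}

/-- the decomposition with the largest number of factors (`Chain.card_le`, `isFP_ref`, `S1` for `Chain.exists_nested`; if the union were cyclic it would be finitely generated) -/
theorem Chain.exists_max (h : Chain V) (hMO : ∀ l, MO (V 0) (V l)) (hnfg : ¬ (⨆ l, V l : Subgroup G).FG)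
    {e : ℕ} (he : ∀ k, GenBy e (V k)) :
    ∃ (m : ℕ) (X : Fin m → Subgroup G), 2 ≤ m ∧ IsFP X (⨆ l, V l) ∧ (∀ i, X i ≠ ⊥) ∧
      ∀ i, ∀ H : Fin 2 → Subgroup G, IsFP H (X i) → ∃ j, H j = ⊥ := by
  classical
  let P : ℕ → Prop := fun m => ∃ X : Fin m → Subgroup G, IsFP X (⨆ l, V l) ∧ ∀ i, X i ≠ ⊥
  have hP2 : P 2 := by
    obtain ⟨E, h1, h2, h3, h4⟩ := h.exists_nested hMO
    rcases S1 h.tf _ E h1 h2 h3 h4 with ⟨s, hs⟩ | ⟨H, hH, hne, -⟩
    · exact absurd (hs ▸ ⟨{s}, by rw [Finset.coe_singleton, Subgroup.zpowers_eq_closure]⟩) hnfg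
    · exact ⟨H, hH, hne⟩
  have hle : ∀ m, P m → m ≤ e := fun m ⟨X, hX, hne⟩ => h.card_le he hX hne
  have h2e : 2 ≤ e := hle 2 hP2
  have hspec : P (Nat.findGreatest P e) := Nat.findGreatest_spec h2e hP2
  have hge : 2 ≤ Nat.findGreatest P e := Nat.le_findGreatest h2e hP2
  obtain ⟨X, hX, hne⟩ := hspec
  refine ⟨_, X, hge, hX, hne, fun i H hH => ?_⟩
  by_contra hcon
  push Not at hcon
  have hP : P (Nat.findGreatest P e + 1) := by
    refine ⟨ref X i H, isFP_ref hX i hH, fun j => ?_⟩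
    refine Fin.cases ?_ (fun j => ?_) j
    · exact hcon 1
    · change Function.update X i (H 0) j ≠ ⊥
      by_cases hj : j = i
      · rw [hj, Function.update_self]
        exact hcon 0
      · rw [Function.update_of_ne hj]
        exact hne j
  have := Nat.le_findGreatest (hle _ hP) hP
  omega

end WQ
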