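import Pool.Agent.Lib.MP_0c5642_al.W.G0

/-! ROW w-G2c. -/

set_option autoImplicit false

namespace WQ

open scoped Pointwise

variable {G : Type*} [Group G] {V : ℕ → Subgroup G}

/-- Every finite subset of a factor lies in an `e`-generated subgroup of the factor: the image of `V k` under the retraction (`IsFP.exists_retract`), `k` large. -/
theorem Chain.locally_genBy (h : Chain V) {e : ℕ} (he : ∀ k, GenBy e (V k)) {m : ℕ} {X : Fin m → Subgroup G}
    (hX : IsFP X (⨆ l, V l)) (i : Fin m) (F : Finset G) (hF : (F : Set G) ⊆ X i) :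
    ∃ Z : Subgroup G, GenBy e Z ∧ (F : Set G) ⊆ Z ∧ Z ≤ X i := by
  classical
  obtain ⟨ρ, h1, h2, _⟩ := hX.exists_retract i
  have hXM : X i ≤ ⨆ l, V l := by
    rw [← hX.2]
    exact le_iSup X i
  have hdir : Directed (· ≤ ·) V := h.mono.directed_le
  have hk : ∀ F' : Finset G, (F' : Set G) ⊆ X i → ∃ k, (F' : Set G) ⊆ V k := by
    intro F'
    induction F' using Finset.induction_on with
    | empty => exact fun _ => ⟨0, by simp⟩
    | insert a F' _ ih =>
      intro hF'
      rw [Finset.coe_insert] at hF'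
      obtain ⟨k, hk⟩ := ih ((Set.subset_insert _ _).trans hF')
      have ha : a ∈ ⨆ l, V l := hXM (hF' (Set.mem_insert _ _))
      rw [Subgroup.mem_iSup_of_directed hdir] at ha
      obtain ⟨l, hl⟩ := ha
      refine ⟨max k l, ?_⟩
      rw [Finset.coe_insert]
      refine Set.insert_subset (h.mono (le_max_right k l) hl) (hk.trans ?_)
      exact h.mono (le_max_left k l)
  obtain ⟨k, hk⟩ := hk F hF
  obtain ⟨S, hS, hSk⟩ := he k
  have hSM : ∀ s ∈ S, s ∈ ⨆ l, V l := by
    intro s hs
    have h3 : s ∈ V k := by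
      rw [← hSk]
      exact Subgroup.subset_closure hs
    exact le_iSup V k h3
  let ρ' : G → G := fun g => if hg : g ∈ ⨆ l, V l then ρ ⟨g, hg⟩ else 1
  have hρ' : ∀ (g : G) (hg : g ∈ ⨆ l, V l), ρ' g = ρ ⟨g, hg⟩ := fun g hg => dif_pos hg
  refine ⟨Subgroup.closure ((S.image ρ' : Finset G) : Set G),
    ⟨S.image ρ', Finset.card_image_le.trans hS, rfl⟩, ?_, ?_⟩
  · intro f hf
    have h3 : Subgroup.closure (S : Set G) ≤
        ((Subgroup.closure ((S.image ρ' : Finset G) : Set G)).comap ρ).map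
          (⨆ l, V l).subtype := by
      rw [Subgroup.closure_le]
      intro s hs
      refine ⟨⟨s, hSM s hs⟩, ?_, rfl⟩
      rw [SetLike.mem_coe, Subgroup.mem_comap]
      refine Subgroup.subset_closure ?_
      rw [Finset.coe_image]
      exact ⟨s, hs, hρ' s (hSM s hs)⟩
    have h4 : f ∈ Subgroup.closure (S : Set G) := by
      rw [hSk]
      exact hk hf
    obtain ⟨x, hx, rfl⟩ := h3 h4
    rw [SetLike.mem_coe, Subgroup.mem_comap, h2 x (hF hf)] at hx
    exact hx
  · rw [Subgroup.closure_le]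
    intro g hg
    rw [Finset.coe_image] at hg
    obtain ⟨s, hs, rfl⟩ := hg
    rw [hρ' s (hSM s hs)]
    exact h1 _

end WQ
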