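import Pool.Agent.Lib.MP_0c5642_al.W.F1b

/-! ROW w-G3a: shortest conjugates. -/

set_option autoImplicit false

namespace WQ

open scoped Pointwise

section G3a

open Monoid.CoprodI

variable {ι : Type} {K : ι → Type*} [∀ i, Group (K i)]

theorem G3a_list (l : List (Σ i, K i)) :
    ∃ w : Word K, w.prod = (l.map fun s => of (M := K) s.2).prod ∧ w.toList.length ≤ l.length := by
  classical
  induction l with
  | nil => exact ⟨Word.empty, by simp, by simp⟩
  | cons s l ih =>
    obtain ⟨w, hw, hl⟩ := ih
    refine ⟨of (M := K) s.2 • w, ?_, ?_⟩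
    · rw [Word.prod_smul, hw, List.map_cons, List.prod_cons]
    · have h1 : ∀ p : Word.Pair K s.1, (Word.rcons p).toList.length ≤ p.tail.toList.length + 1 := by
        intro p
        unfold Word.rcons
        split_ifs
        · omega
        · simp
      have h2 : ∀ p : Word.Pair K s.1, p.tail.toList.length ≤ (Word.rcons p).toList.length := by
        intro p
        unfold Word.rcons
        split_ifs
        · omega
        · simp
      have h3 : Word.rcons (Word.equivPair s.1 w) = w := by
        rw [← Word.equivPair_symm, Equiv.symm_apply_apply]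
      have h4 := h2 (Word.equivPair s.1 w)
      rw [h3] at h4
      rw [Word.of_smul_def]
      refine (h1 _).trans ?_
      rw [List.length_cons]
      exact Nat.succ_le_succ (h4.trans hl)

theorem G3a_pow {i j : ι} (u : NeWord K i j) (hij : i ≠ j) (n : ℕ) : ∃ v : NeWord K i j, v.prod = u.prod ^ (n + 1) := by
  induction n with
  | zero => exact ⟨u, by simp⟩
  | succ n ih =>
    obtain ⟨v, hv⟩ := ih
    refine ⟨NeWord.append v hij.symm u, ?_⟩
    rw [NeWord.append_prod, hv, pow_succ _ (n + 1)]

theorem G3a_main (n : ℕ) : ∀ w : Word K, w.toList.length ≤ n → w.prod ≠ 1 →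
    (∃ (i : ι) (g : Monoid.CoprodI K) (y : K i), g⁻¹ * w.prod * g = of (M := K) y) ∨
    ∃ (g : Monoid.CoprodI K) (i j : ι), i ≠ j ∧ ∃ u : NeWord K i j, u.prod = g⁻¹ * w.prod * g := by
  classical
  induction n with
  | zero =>
    intro w hw h1
    exfalso
    apply h1
    have h2 : w.toList = [] := List.length_eq_zero_iff.1 (Nat.le_zero.1 hw)
    unfold Word.prod
    rw [h2]
    rfl
  | succ n ih =>
    intro w hw h1
    have hne : w ≠ Word.empty := by
      rintro rfl
      exact h1 Word.prod_empty
    obtain ⟨i, j, u, hu⟩ := NeWord.of_word w hne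
    by_cases hij : i = j
    swap
    · right
      refine ⟨1, i, j, hij, u, ?_⟩
      rw [inv_one, one_mul, mul_one, ← hu]
      rfl
    subst hij
    have hl : w.toList = u.toList := by rw [← hu]; rfl
    have hh : w.toList.head? = some ⟨i, u.head⟩ := by rw [hl]; exact u.toList_head?
    have hla : w.toList.getLast? = some ⟨i, u.last⟩ := by rw [hl]; exact u.toList_getLast?
    have hprod : w.prod = (w.toList.map fun s => of (M := K) s.2).prod := rfl
    revert hh hla hprod
    generalize hW : w.toList = L
    intro hh hla hprod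
    rcases L with _ | ⟨s, t⟩
    · simp at hh
    rcases List.eq_nil_or_concat t with ht | ⟨t', z, ht⟩
    · subst ht
      left
      refine ⟨s.1, 1, s.2, ?_⟩
      rw [hprod]
      simp
    · subst ht
      have hs : s = ⟨i, u.head⟩ := by simpa using hh
      have hz : z = ⟨i, u.last⟩ := by
        have h3 : (s :: t'.concat z).getLast? = some z := by
          rw [List.concat_eq_append, ← List.cons_append, List.getLast?_concat]
        rw [h3] at hla
        simpa using hla
      subst hs hz
      have hlen : t'.length + 1 ≤ n := by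
        rw [hW] at hw
        simp at hw
        omega
      obtain ⟨w', hw', hlw'⟩ := G3a_list (t' ++ [(⟨i, u.last * u.head⟩ : Σ i, K i)])
      have hconj : w'.prod = (of (M := K) u.head)⁻¹ * w.prod * of (M := K) u.head := by
        rw [hw', hprod]
        simp [mul_assoc]
      have hw1 : w'.prod ≠ 1 := by
        intro h
        apply h1
        rw [hconj] at h
        have h5 : w.prod = of (M := K) u.head * ((of (M := K) u.head)⁻¹ * w.prod * of (M := K) u.head) * (of (M := K) u.head)⁻¹ := by
          group
        rw [h5, h]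
        group
      have hle : w'.toList.length ≤ n := by
        refine hlw'.trans ?_
        simpa using hlen
      rcases ih w' hle hw1 with ⟨i', g, y, hy⟩ | ⟨g, i', j', hij', v, hv⟩
      · left
        refine ⟨i', of (M := K) u.head * g, y, ?_⟩
        rw [← hy, hconj]
        group
      · right
        refine ⟨of (M := K) u.head * g, i', j', hij', v, ?_⟩
        rw [hv, hconj]
        group

end G3a

variable {G : Type*} [Group G]

theorem G3a_not_mem_Br {ι : Type} {X : ι → Subgroup G} {M : Subgroup G} (h : IsFP X M) {i j : ι}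
    (u : Monoid.CoprodI.NeWord (fun i => X i) i j) :
    Monoid.CoprodI.lift (fun i => (X i).subtype) u.prod ∉ Br X i := by
  classical
  rintro ⟨w, hw, he⟩
  have h1 : w.prod = u.toWord.prod := h.1 he
  have h2 : w = u.toWord := by
    have h3 := congrArg (Monoid.CoprodI.Word.equiv (M := fun i => X i)) h1
    have h4 : ∀ v : Monoid.CoprodI.Word (fun i => X i), Monoid.CoprodI.Word.equiv v.prod = v := fun v =>
      Monoid.CoprodI.Word.equiv.right_inv v
    rwa [h4, h4] at h3
  apply hw
  rw [h2]
  unfold Monoid.CoprodI.Word.fstIdx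
  show (u.toList.head?).map Sigma.fst = some i
  rw [u.toList_head?]
  rfl

/-- ROW w-G3a. A nontrivial element of a free product is conjugate into a factor, or has a conjugate `c` whose powers are separated: there are factors `i ≠ j` such that all `c^n`, `n ≥ 1`, start with a syllable in `X i`
and all `c^(-n)` with one in `X j`. (Shortest conjugate.) -/
theorem IsFP.conj_or_hyp {m : ℕ} {X : Fin m → Subgroup G} {M : Subgroup G} (h : IsFP X M) {x : G} (hx : x ∈ M) (hx1 : x ≠ 1) :
    (∃ i, ∃ g ∈ M, g⁻¹ * x * g ∈ X i) ∨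
    ∃ g ∈ M, ∃ i j, i ≠ j ∧ ∀ n : ℕ, (g⁻¹ * x * g) ^ (n + 1) ∉ Br X i ∧ (g⁻¹ * x * g)⁻¹ ^ (n + 1) ∉ Br X j := by
  classical
  have hrange : (Monoid.CoprodI.lift (fun i => (X i).subtype)).range = M := by
    rw [Monoid.CoprodI.range_eq_iSup, ← h.2]
    exact iSup_congr fun i => (X i).range_subtype
  have hmem : ∀ g, Monoid.CoprodI.lift (fun i => (X i).subtype) g ∈ M := by
    intro g
    rw [← hrange]
    exact ⟨g, rfl⟩
  obtain ⟨x₀, hx₀⟩ : ∃ x₀, Monoid.CoprodI.lift (fun i => (X i).subtype) x₀ = x := by
    have h1 := hx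
    rw [← hrange] at h1
    exact h1
  have hw : (Monoid.CoprodI.Word.equiv x₀).prod = x₀ := Monoid.CoprodI.Word.equiv.left_inv x₀
  have hx₀1 : x₀ ≠ 1 := by
    rintro rfl
    exact hx1 (by rw [← hx₀, map_one])
  rcases G3a_main _ (Monoid.CoprodI.Word.equiv x₀) le_rfl (by rw [hw]; exact hx₀1) with ⟨i, g, y, hy⟩ | ⟨g, i, j, hij, u, hu⟩
  · left
    refine ⟨i, _, hmem g, ?_⟩
    have h1 := congrArg (Monoid.CoprodI.lift (fun i => (X i).subtype)) hy
    rw [hw, map_mul, map_mul, map_inv, hx₀, Monoid.CoprodI.lift_of] at h1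
    rw [h1]
    exact y.2
  · right
    refine ⟨_, hmem g, i, j, hij, fun n => ?_⟩
    have h1 := congrArg (Monoid.CoprodI.lift (fun i => (X i).subtype)) hu
    rw [hw, map_mul, map_mul, map_inv, hx₀] at h1
    rw [← h1]
    obtain ⟨v, hv⟩ := G3a_pow u hij n
    obtain ⟨v', hv'⟩ := G3a_pow u.inv hij.symm n
    constructor
    · rw [← map_pow, ← hv]
      exact G3a_not_mem_Br h v
    · rw [← map_inv, ← map_pow, ← Monoid.CoprodI.NeWord.inv_prod, ← hv']
      exact G3a_not_mem_Br h v'

end WQ
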