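import Pool.Agent.Lib.MP_0c5642_al.W.G3a
import Pool.Agent.Lib.MP_0c5642_al.W.F2a

/-! ROW w-G3b: Lemma K. -/

set_option autoImplicit false

namespace WQ

open scoped Pointwise

variable {G : Type*} [Group G]

theorem G3b_start {m : ℕ} {X : Fin m → Subgroup G} {M : Subgroup G} (h : IsFP X M) {y : G} (hy : y ∈ M)
    (hy1 : y ≠ 1) : ∃ b, y ∉ Br X b := by
  have key : ∀ g ∈ M, (g ≠ 1 → ∃ b, g ∉ Br X b) := by
    intro g hg
    refine IsFP.induction h (P := fun g => g ≠ 1 → ∃ b, g ∉ Br X b) ?_ ?_ hg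
    · intro h1
      exact absurd rfl h1
    · intro i x b hx hx1 hb _ _
      refine ⟨i, fun hmem => hx1 ?_⟩
      exact h.proj_unique i hx (X i).one_mem hb hmem (by rw [one_mul])
  exact key y hy hy1

theorem G3b_inj (htf : ∀ g : G, IsOfFinOrder g → g = 1) {c : G} (hc : c ≠ 1) :
    Function.Injective (fun n : ℕ => c ^ n) := by
  rw [injective_pow_iff_not_isOfFinOrder]
  exact fun hf => hc (htf c hf)

theorem G3b_split {m : ℕ} {X : Fin m → Subgroup G} {M : Subgroup G} (h : IsFP X M)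
    (P : Subgroup G) (hell : ∀ i, ∀ g ∈ M, Ell P (g • Br X i)) {g : G} (hg : g ∈ M) (i : Fin m) {z : G} (hz : z ∈ M)
    (f f' : ℕ → G) (hf : Function.Injective f) (hf' : Function.Injective f')
    (h1 : ∀ n, g * f n * g⁻¹ ∈ P) (h2 : ∀ n, g * f' n * g⁻¹ ∈ P)
    (h3 : ∀ n, f n ∈ z • Br X i) (h4 : ∀ n, f' n ∉ z • Br X i) : False := by
  have hAI : AI M (z • Br X i) := AI.smul (h.AI_Br i) hz
  have hs : Split (P.map (MulAut.conj g⁻¹).toMonoidHom) (z • Br X i) 1 := by
    have hmem : ∀ u, g * u * g⁻¹ ∈ P → u ∈ P.map (MulAut.conj g⁻¹).toMonoidHom := by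
      intro u hu
      refine Subgroup.mem_map.2 ⟨g * u * g⁻¹, hu, ?_⟩
      simp [mul_assoc]
    refine ⟨?_, ?_⟩
    · exact Set.infinite_of_injective_forall_mem hf (fun n => ⟨hmem _ (h1 n), by rw [one_mul]; exact h3 n⟩)
    · exact Set.infinite_of_injective_forall_mem hf' (fun n => ⟨hmem _ (h2 n), by rw [one_mul]; exact h4 n⟩)
  rw [split_conj hAI (M.inv_mem hg)] at hs
  exact hell i z hz _ hs

/-- Lemma K (7.1). By `IsFP.conj_or_hyp` (powers separated by a basic set contradict ellipticity of `P` for a translate, `split_conj`) some `x ∈ P`, `x ≠ 1` satisfies `c = g⁻¹ x g ∈ X a`; replace `P` by its conjugate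
`P' = g⁻¹ P g`. If `y ∈ P' \ X a`, `y = z y'`, `z ∈ X a`, `y' ∈ Br X a`, and `y'` starts in `X b`: the complement of `z • Br X b` contains `y c^n` for all but at most one `n`, and `z • Br X b` contains all `c^n`. -/
theorem IsFP.le_conj {m : ℕ} {X : Fin m → Subgroup G} {M : Subgroup G} (h : IsFP X M)
    (htf : ∀ g : G, IsOfFinOrder g → g = 1) (P : Subgroup G) (hP : P ≤ M) (hne : P ≠ ⊥)
    (hell : ∀ i, ∀ g ∈ M, Ell P (g • Br X i)) :
    ∃ i, ∃ g ∈ M, P ≤ (X i).map (MulAut.conj g).toMonoidHom := by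
  classical
  obtain ⟨x, hxP, hx1⟩ := P.bot_or_exists_ne_one.resolve_left hne
  have hconj : ∀ g : G, ∀ n : ℕ, g * (g⁻¹ * x * g) ^ n * g⁻¹ ∈ P := by
    intro g n
    have : g * (g⁻¹ * x * g) ^ n * g⁻¹ = x ^ n := by
      have h1 := conj_pow (i := n) (a := g⁻¹) (b := x)
      rw [inv_inv] at h1
      rw [h1]
      group
    rw [this]
    exact P.pow_mem hxP n
  have hconj1 : ∀ g : G, ∀ n : ℕ, g * (g⁻¹ * x * g)⁻¹ ^ n * g⁻¹ ∈ P := by
    intro g n
    have h1 := P.inv_mem (hconj g n)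
    have h2 : (g * (g⁻¹ * x * g) ^ n * g⁻¹)⁻¹ = g * (g⁻¹ * x * g)⁻¹ ^ n * g⁻¹ := by
      rw [inv_pow, mul_inv_rev, mul_inv_rev, inv_inv, mul_assoc g]
    rw [h2] at h1
    exact h1
  have hc1 : ∀ g : G, g⁻¹ * x * g ≠ 1 := by
    intro g h0
    apply hx1
    have : x = g * (g⁻¹ * x * g) * g⁻¹ := by group
    rw [this, h0]
    group
  rcases h.conj_or_hyp (hP hxP) hx1 with ⟨a, g, hg, hc⟩ | ⟨g, hg, i, j, hij, hpow⟩
  · refine ⟨a, g, hg, ?_⟩
    intro p hp
    have hpM : g⁻¹ * p * g ∈ M := M.mul_mem (M.mul_mem (M.inv_mem hg) (hP hp)) hg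
    have hXa : g⁻¹ * p * g ∈ X a := by
      by_contra hna
      obtain ⟨z, hz, y', hy', he⟩ := h.exists_proj a hpM
      have hy1 : y' ≠ 1 := by
        intro h0
        apply hna
        rw [he, h0, mul_one]
        exact hz
      have hzM : z ∈ M := h.le a hz
      have hy'M : y' ∈ M := h.Br_subset a hy'
      obtain ⟨b, hb⟩ := G3b_start h hy'M hy1
      have hab : b ≠ a := by
        rintro rfl
        exact hb hy'
      obtain ⟨s, hs, hsu⟩ := h.const_proj b a hy'M (fun hh => hab hh.1.symm)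
      have hs1 : s ≠ 1 := by
        intro h0
        apply hb
        have := hsu 1 (X a).one_mem
        rw [h0, inv_one, one_mul, mul_one] at this
        exact this
      have hnot : ∀ u ∈ X a, y' * u ∉ Br X b := by
        intro u hu hmem
        apply hs1
        exact h.proj_unique b hs (X b).one_mem (hsu u hu) hmem (by group)
      set c := g⁻¹ * x * g with hcdef
      refine G3b_split h P hell hg b hzM (fun n => c ^ n) (fun n => (g⁻¹ * p * g) * c ^ n) (G3b_inj htf (hc1 g)) ?_ ?_ ?_ ?_ ?_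
      · intro n n' hnn
        exact G3b_inj htf (hc1 g) (mul_left_cancel hnn)
      · intro n
        exact hconj g n
      · intro n
        have : g * (g⁻¹ * p * g * c ^ n) * g⁻¹ = p * (g * c ^ n * g⁻¹) := by group
        show g * (g⁻¹ * p * g * c ^ n) * g⁻¹ ∈ P
        rw [this]
        exact P.mul_mem hp (hconj g n)
      · intro n
        show c ^ n ∈ z • Br X b
        rw [Set.mem_smul_set_iff_inv_smul_mem, smul_eq_mul]
        exact h.mem_Br_of_mem hab ((X a).mul_mem ((X a).inv_mem hz) ((X a).pow_mem hc n))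
      · intro n
        show (g⁻¹ * p * g) * c ^ n ∉ z • Br X b
        rw [Set.mem_smul_set_iff_inv_smul_mem, smul_eq_mul, he]
        have : z⁻¹ * (z * y' * c ^ n) = y' * c ^ n := by group
        rw [this]
        exact hnot _ ((X a).pow_mem hc n)
    refine Subgroup.mem_map.2 ⟨g⁻¹ * p * g, hXa, ?_⟩
    simp [MulAut.conj_apply, mul_assoc]
  · exfalso
    set c := g⁻¹ * x * g with hcdef
    have hinj := G3b_inj htf (hc1 g)
    have hinj' : Function.Injective (fun n : ℕ => (g⁻¹ * x * g)⁻¹ ^ n) :=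
      G3b_inj htf (fun h0 => hc1 g (inv_eq_one.1 h0))
    refine G3b_split h P hell hg i M.one_mem (fun n => c⁻¹ ^ (n + 1)) (fun n => c ^ (n + 1)) ?_ ?_ ?_ ?_ ?_ ?_
    · intro n n' hnn
      have := hinj' hnn
      omega
    · intro n n' hnn
      have := hinj hnn
      omega
    · intro n
      exact hconj1 g (n + 1)
    · intro n
      exact hconj g (n + 1)
    · intro n
      show c⁻¹ ^ (n + 1) ∈ (1 : G) • Br X i
      rw [one_smul]
      have hcM : c⁻¹ ^ (n + 1) ∈ M :=
        M.pow_mem (M.inv_mem (M.mul_mem (M.mul_mem (M.inv_mem hg) (hP hxP)) hg)) _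
      obtain ⟨s, hs, b, hb, he⟩ := h.exists_proj j hcM
      rw [he]
      refine h.mul_mem_Br hij hs ?_ hb
      intro h0
      apply (hpow n).2
      rw [he, h0, one_mul]
      exact hb
    · intro n
      show c ^ (n + 1) ∉ (1 : G) • Br X i
      rw [one_smul]
      exact (hpow n).1

end WQ
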