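import Pool.Agent.Lib.MP_0c5642_al.W.F1a

/-! ROW w-H1a. -/

set_option autoImplicit false

namespace WQ

open scoped Pointwise

variable {G : Type*} [Group G]

/-- ROW w-H1a: some positive iterate of a self-map of a finite set is idempotent. -/
theorem exists_iterate_idem {α : Type*} [Finite α] (f : α → α) :
    ∃ n : ℕ, 0 < n ∧ ∀ x, f^[n] (f^[n] x) = f^[n] x := by
  obtain ⟨a, b, hab, h⟩ := Finite.exists_ne_map_eq_of_infinite fun n : ℕ => f^[n]
  have key : ∀ m n : ℕ, m < n → f^[m] = f^[n] → ∃ n : ℕ, 0 < n ∧ ∀ x, f^[n] (f^[n] x) = f^[n] x := by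
    intro m n hmn h
    obtain ⟨d, rfl⟩ := Nat.exists_eq_add_of_lt hmn
    have h1 : ∀ k, m ≤ k → ∀ x, f^[k + (d + 1)] x = f^[k] x := by
      intro k hk x
      obtain ⟨c, rfl⟩ := Nat.exists_eq_add_of_le hk
      have e1 : m + c + (d + 1) = c + (m + d + 1) := by ring
      have e2 : m + c = c + m := by ring
      rw [e1, e2, Function.iterate_add_apply f c (m + d + 1), Function.iterate_add_apply f c m]
      exact congrArg (f^[c]) (congrFun h x).symm
    have h2 : ∀ j k, m ≤ k → ∀ x, f^[k + j * (d + 1)] x = f^[k] x := by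
      intro j
      induction j with
      | zero => intro k _ x; rw [zero_mul, add_zero]
      | succ j ih =>
        intro k hk x
        have e1 : k + (j + 1) * (d + 1) = k + j * (d + 1) + (d + 1) := by ring
        rw [e1, h1 _ (by omega), ih k hk]
    refine ⟨(m + 1) * (d + 1), by positivity, fun x => ?_⟩
    rw [← Function.iterate_add_apply]
    exact h2 (m + 1) _ (by nlinarith) x
  rcases lt_or_gt_of_ne hab with hlt | hlt
  · exact key a b hlt h
  · exact key b a hlt h.symm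

/-- iterating the inclusions `t X_i t⁻¹ ≤ g X_(σ i) g⁻¹` -/
theorem iterate_incl (t : G) (M : Subgroup G) (hM : M.map (MulAut.conj t).toMonoidHom ≤ M) {m : ℕ}
    (X : Fin m → Subgroup G) (C : Set (Fin m)) (σ : Fin m → Fin m) (hσ : ∀ i ∈ C, σ i ∈ C)
    (h : ∀ i ∈ C, ∃ g ∈ M, (X i).map (MulAut.conj t).toMonoidHom ≤ (X (σ i)).map (MulAut.conj g).toMonoidHom) (n : ℕ) :
    ∀ i ∈ C, ∃ g ∈ M, (X i).map (MulAut.conj (t ^ n)).toMonoidHom ≤ (X (σ^[n] i)).map (MulAut.conj g).toMonoidHom := by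
  have hσn : ∀ n : ℕ, ∀ i ∈ C, σ^[n] i ∈ C := by
    intro n
    induction n with
    | zero => exact fun i hi => hi
    | succ n ih =>
      intro i hi
      rw [Function.iterate_succ_apply']
      exact hσ _ (ih i hi)
  induction n with
  | zero =>
    intro i _
    refine ⟨1, M.one_mem, ?_⟩
    rw [pow_zero]
    exact le_rfl
  | succ n ih =>
    intro i hi
    obtain ⟨g, hg, hgi⟩ := ih i hi
    obtain ⟨g', hg', hgi'⟩ := h _ (hσn n i hi)
    have htg : t * g * t⁻¹ ∈ M := hM ⟨g, hg, MulAut.conj_apply t g⟩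
    refine ⟨t * g * t⁻¹ * g', M.mul_mem htg hg', ?_⟩
    rintro _ ⟨x, hx, rfl⟩
    obtain ⟨y, hy, hxy⟩ := hgi ⟨x, hx, rfl⟩
    obtain ⟨z, hz, hyz⟩ := hgi' ⟨y, hy, rfl⟩
    have hxy' : g * y * g⁻¹ = t ^ n * x * (t ^ n)⁻¹ := hxy
    have hyz' : g' * z * g'⁻¹ = t * y * t⁻¹ := hyz
    rw [Function.iterate_succ_apply']
    refine ⟨z, hz, ?_⟩
    show t * g * t⁻¹ * g' * z * (t * g * t⁻¹ * g')⁻¹ = t ^ (n + 1) * x * (t ^ (n + 1))⁻¹
    have e1 : t * g * t⁻¹ * g' * z * (t * g * t⁻¹ * g')⁻¹ =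
        t * g * t⁻¹ * (g' * z * g'⁻¹) * (t * g * t⁻¹)⁻¹ := by group
    have e2 : t ^ (n + 1) * x * (t ^ (n + 1))⁻¹ = t * (t ^ n * x * (t ^ n)⁻¹) * t⁻¹ := by
      rw [pow_succ']
      group
    rw [e1, e2, hyz', ← hxy']
    group

end WQ
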