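import Pool.Agent.Lib.MP_0c5642_al.W.H1a
import Pool.Agent.Lib.MP_0c5642_al.W.F3

/-! ROW w-H1b: generation of a periodic factor. -/

set_option autoImplicit false

namespace WQ

open scoped Pointwise

variable {G : Type*} [Group G]

/-- monotonicity of the closures of families of sets -/
private theorem H1b_mono {m : ℕ} {S T : Fin m → Set G} (h : ∀ i, S i ⊆ T i) :
    (⨆ i, Subgroup.closure (S i)) ≤ ⨆ i, Subgroup.closure (T i) :=
  iSup_mono fun i => Subgroup.closure_mono (h i)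

/-- an element of the join lies in a join of finitely generated subgroups -/
private theorem H1b_elem {m : ℕ} (X : Fin m → Subgroup G) {x : G} (hx : x ∈ ⨆ i, X i) :
    ∃ S : Fin m → Set G, (∀ i, (S i).Finite) ∧ (∀ i, S i ⊆ (X i : Set G)) ∧
      x ∈ ⨆ i, Subgroup.closure (S i) := by
  classical
  refine Subgroup.iSup_induction X (C := fun x => ∃ S : Fin m → Set G, (∀ i, (S i).Finite) ∧
    (∀ i, S i ⊆ (X i : Set G)) ∧ x ∈ ⨆ i, Subgroup.closure (S i)) hx ?_ ?_ ?_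
  · intro i x hxi
    refine ⟨fun k => if k = i then {x} else ∅, ?_, ?_, ?_⟩
    · intro k
      by_cases hk : k = i
      · simp [hk]
      · simp [hk]
    · intro k
      by_cases hk : k = i
      · subst hk
        simpa using hxi
      · simp [hk]
    · refine (le_iSup (fun k => Subgroup.closure (if k = i then ({x} : Set G) else ∅)) i) ?_
      simp only [if_true]
      exact Subgroup.subset_closure rfl
  · exact ⟨fun _ => ∅, fun _ => Set.finite_empty, fun _ => Set.empty_subset _, one_mem _⟩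
  · rintro x y ⟨S, hS1, hS2, hS3⟩ ⟨T, hT1, hT2, hT3⟩
    refine ⟨fun k => S k ∪ T k, fun k => (hS1 k).union (hT1 k), fun k => Set.union_subset (hS2 k) (hT2 k), ?_⟩
    exact mul_mem (H1b_mono (fun k => Set.subset_union_left) hS3) (H1b_mono (fun k => Set.subset_union_right) hT3)

/-- the same for a finite set -/
private theorem H1b_set {m : ℕ} (X : Fin m → Subgroup G) {F : Set G} (hF : F.Finite) :
    (F ⊆ ((⨆ i, X i : Subgroup G) : Set G)) → ∃ S : Fin m → Set G, (∀ i, (S i).Finite) ∧ (∀ i, S i ⊆ (X i : Set G)) ∧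
      F ⊆ ((⨆ i, Subgroup.closure (S i) : Subgroup G) : Set G) := by
  refine Set.Finite.induction_on (motive := fun F _ => (F ⊆ ((⨆ i, X i : Subgroup G) : Set G)) →
    ∃ S : Fin m → Set G, (∀ i, (S i).Finite) ∧ (∀ i, S i ⊆ (X i : Set G)) ∧
      F ⊆ ((⨆ i, Subgroup.closure (S i) : Subgroup G) : Set G)) F hF ?_ ?_
  · intro _
    exact ⟨fun _ => ∅, fun _ => Set.finite_empty, fun _ => Set.empty_subset _, Set.empty_subset _⟩
  · intro a s _ _ ih hsub
    obtain ⟨S, hS1, hS2, hS3⟩ := ih fun x hx => hsub (Set.mem_insert_of_mem _ hx)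
    obtain ⟨T, hT1, hT2, hT3⟩ := H1b_elem X (hsub (Set.mem_insert a s))
    refine ⟨fun k => S k ∪ T k, fun k => (hS1 k).union (hT1 k), fun k => Set.union_subset (hS2 k) (hT2 k), ?_⟩
    intro x hx
    rcases hx with rfl | hx
    · exact H1b_mono (fun k => Set.subset_union_right) hT3
    · exact H1b_mono (fun k => Set.subset_union_left) (hS3 hx)

private theorem H1b_fg_set (H : Subgroup G) (h : H.FG) : ∃ S : Set G, S.Finite ∧ Subgroup.closure S = H := by
  obtain ⟨S, hS⟩ := h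
  exact ⟨S, S.finite_toSet, hS⟩

private theorem H1b_pow (w x : G) (n : ℕ) :
    w ^ (n + 1) * x * (w ^ (n + 1))⁻¹ = w * (w ^ n * x * (w ^ n)⁻¹) * w⁻¹ := by
  rw [pow_succ', mul_inv_rev]
  simp only [mul_assoc]

/-- ROW w-H1b. `C` = the non-cyclic factors, `σ` idempotent on `C`. Choose finitely generated `Y_i ≤ X_i` (all of `X_i` for `i ∉ C`) such that `⟨Y_i⟩` contains `U`, the `g i` (`i ∈ C`) and `t X_i t⁻¹` (`i ∉ C`).
`P_j = ⟨τ_j^n Y'_j τ_j^(-n)⟩` with `τ_j = (g j)⁻¹ t`, `Y'_j = ⟨Y_j, (g i)⁻¹ t Y_i t⁻¹ (g i) (i ∈ C, σ i = j)⟩` for `j ∈ C`, `σ j = j`, and `P_i = Y_i` otherwise; `⨆ P_i` contains `U` and is invariant under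
conjugation by `t`, so it is `M`; the retraction onto `X j` gives `P_j = X_j`. -/
theorem periodic_factor (t : G) (M U : Subgroup G) (hU : U.FG) (hUM : U ≤ M)
    (hM : M.map (MulAut.conj t).toMonoidHom ≤ M)
    (hgen : ∀ R : Subgroup G, U ≤ R → R.map (MulAut.conj t).toMonoidHom ≤ R → M ≤ R)
    {m : ℕ} (X : Fin m → Subgroup G) (hX : IsFP X M) (C : Set (Fin m)) (hfg : ∀ i, i ∉ C → (X i).FG)
    (σ : Fin m → Fin m) (hσ : ∀ i ∈ C, σ i ∈ C ∧ σ (σ i) = σ i) (g : Fin m → G) (hg : ∀ i ∈ C, g i ∈ M)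
    (h : ∀ i ∈ C, (X i).map (MulAut.conj t).toMonoidHom ≤ (X (σ i)).map (MulAut.conj (g i)).toMonoidHom)
    (j : Fin m) (hj : j ∈ C) (hjj : σ j = j) :
    ∃ Y : Subgroup G, Y.FG ∧ Y ≤ X j ∧
      X j = ⨆ n : ℕ, Y.map (MulAut.conj (((g j)⁻¹ * t) ^ n)).toMonoidHom := by
  classical
  have hXM : ∀ i, X i ≤ M := fun i => hX.le i
  obtain ⟨SU, hSU1, hSU2⟩ := H1b_fg_set U hU
  -- generators of the finitely generated factors
  have hT : ∀ i, ∃ T : Set G, T.Finite ∧ T ⊆ (X i : Set G) ∧ (i ∉ C → Subgroup.closure T = X i) := by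
    intro i
    by_cases hi : i ∈ C
    · exact ⟨∅, Set.finite_empty, Set.empty_subset _, fun h => absurd hi h⟩
    · obtain ⟨T, hT1, hT2⟩ := H1b_fg_set (X i) (hfg i hi)
      exact ⟨T, hT1, by rw [← hT2]; exact Subgroup.subset_closure, fun _ => hT2⟩
  choose T hT1 hT2 hT3 using hT
  -- the finite set that has to be covered
  let F : Set G := SU ∪ (g '' C) ∪ ⋃ i : Fin m, (fun x => t * x * t⁻¹) '' T i
  have hF : F.Finite := by
    refine ((hSU1.union (Set.Finite.image _ (Set.toFinite C))).union ?_)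
    exact Set.finite_iUnion fun i => (hT1 i).image _
  have hFM : F ⊆ ((⨆ i, X i : Subgroup G) : Set G) := by
    rw [hX.2]
    rintro x ((hx | ⟨i, hi, rfl⟩) | hx)
    · exact hUM (hSU2 ▸ Subgroup.subset_closure hx)
    · exact hg i hi
    · obtain ⟨i, z, hz, rfl⟩ := Set.mem_iUnion.1 hx
      exact hM ⟨z, hXM i (hT2 i hz), rfl⟩
  obtain ⟨S0, hS01, hS02, hS03⟩ := H1b_set X hF hFM
  let S : Fin m → Set G := fun i => S0 i ∪ T i
  have hS1 : ∀ i, (S i).Finite := fun i => (hS01 i).union (hT1 i)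
  have hS2 : ∀ i, S i ⊆ (X i : Set G) := fun i => Set.union_subset (hS02 i) (hT2 i)
  let Z : Fin m → Subgroup G := fun i => Subgroup.closure (S i)
  have hZX : ∀ i, Z i ≤ X i := fun i => (Subgroup.closure_le _).2 (hS2 i)
  have hZC : ∀ i, i ∉ C → Z i = X i := by
    intro i hi
    refine le_antisymm (hZX i) ?_
    rw [← hT3 i hi]
    exact Subgroup.closure_mono Set.subset_union_right
  have hFZ : F ⊆ ((⨆ i, Z i : Subgroup G) : Set G) := fun x hx =>
    H1b_mono (fun k => Set.subset_union_left) (hS03 hx)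
  -- the enlarged pieces
  let Y' : Fin m → Subgroup G := fun i => Subgroup.closure
    (S i ∪ ⋃ k ∈ {k | k ∈ C ∧ σ k = i}, (fun x => ((g k)⁻¹ * t) * x * ((g k)⁻¹ * t)⁻¹) '' S k)
  have hY'fg : ∀ i, (Y' i).FG := by
    intro i
    refine (Subgroup.fg_iff _).2 ⟨_, rfl, ?_⟩
    refine (hS1 i).union (Set.Finite.biUnion (Set.toFinite _) fun k _ => (hS1 k).image _)
  have hτ : ∀ k ∈ C, ∀ x ∈ X k, ((g k)⁻¹ * t) * x * ((g k)⁻¹ * t)⁻¹ ∈ X (σ k) := by
    intro k hk x hx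
    obtain ⟨y, hy, hyx⟩ := h k hk ⟨x, hx, rfl⟩
    have e1 : g k * y * (g k)⁻¹ = t * x * t⁻¹ := by simpa using hyx
    have e2 : ((g k)⁻¹ * t) * x * ((g k)⁻¹ * t)⁻¹ = y := by
      have : ((g k)⁻¹ * t) * x * ((g k)⁻¹ * t)⁻¹ = (g k)⁻¹ * (t * x * t⁻¹) * g k := by group
      rw [this, ← e1]; group
    rw [e2]; exact hy
  have hY'X : ∀ i, Y' i ≤ X i := by
    intro i
    refine (Subgroup.closure_le _).2 (Set.union_subset (hS2 i) ?_)
    intro x hx
    simp only [Set.mem_iUnion, Set.mem_ofPred_eq] at hx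
    obtain ⟨k, ⟨hk, rfl⟩, z, hz, rfl⟩ := hx
    exact hτ k hk z (hS2 k hz)
  have hZY' : ∀ i, Z i ≤ Y' i := fun i => Subgroup.closure_mono Set.subset_union_left
  -- the pieces of the invariant subgroup
  let P : Fin m → Subgroup G := fun i =>
    if i ∈ C ∧ σ i = i then ⨆ n : ℕ, (Y' i).map (MulAut.conj (((g i)⁻¹ * t) ^ n)).toMonoidHom else Z i
  have hPpos : ∀ i, i ∈ C → σ i = i →
      P i = ⨆ n : ℕ, (Y' i).map (MulAut.conj (((g i)⁻¹ * t) ^ n)).toMonoidHom := fun i h1 h2 => if_pos ⟨h1, h2⟩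
  have hPneg : ∀ i, ¬ (i ∈ C ∧ σ i = i) → P i = Z i := fun i h1 => if_neg h1
  have hpow : ∀ i, i ∈ C → σ i = i → ∀ (n : ℕ) (x : G), x ∈ X i →
      ((g i)⁻¹ * t) ^ n * x * (((g i)⁻¹ * t) ^ n)⁻¹ ∈ X i := by
    intro i hi hi2 n
    induction n with
    | zero => intro x hx; simpa using hx
    | succ n ih =>
      intro x hx
      have h1 := hτ i hi _ (ih x hx)
      rw [hi2] at h1
      have e : ((g i)⁻¹ * t) ^ (n + 1) * x * (((g i)⁻¹ * t) ^ (n + 1))⁻¹
          = ((g i)⁻¹ * t) * (((g i)⁻¹ * t) ^ n * x * (((g i)⁻¹ * t) ^ n)⁻¹) * ((g i)⁻¹ * t)⁻¹ := by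
        exact H1b_pow _ _ _
      rw [e]; exact h1
  have hPX : ∀ i, P i ≤ X i := by
    intro i
    by_cases hi : i ∈ C ∧ σ i = i
    · rw [hPpos i hi.1 hi.2]
      refine iSup_le fun n => ?_
      rintro _ ⟨x, hx, rfl⟩
      exact hpow i hi.1 hi.2 n x (hY'X i hx)
    · rw [hPneg i hi]; exact hZX i
  have hY'P : ∀ i, i ∈ C → σ i = i → Y' i ≤ P i := by
    intro i h1 h2 x hx
    rw [hPpos i h1 h2]
    refine (le_iSup (fun n : ℕ => (Y' i).map (MulAut.conj (((g i)⁻¹ * t) ^ n)).toMonoidHom) 0) ?_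
    exact ⟨x, hx, by simp⟩
  have hZP : ∀ i, Z i ≤ P i := by
    intro i
    by_cases hi : i ∈ C ∧ σ i = i
    · exact (hZY' i).trans (hY'P i hi.1 hi.2)
    · rw [hPneg i hi]
  let R : Subgroup G := ⨆ i, P i
  have hZR : (⨆ i, Z i) ≤ R := iSup_mono hZP
  have hPR : ∀ i, P i ≤ R := fun i => le_iSup P i
  have hUR : U ≤ R := by
    rw [← hSU2]
    refine (Subgroup.closure_le _).2 fun x hx => hZR (hFZ (Or.inl (Or.inl hx)))
  have hgR : ∀ i ∈ C, g i ∈ R := fun i hi => hZR (hFZ (Or.inl (Or.inr ⟨i, hi, rfl⟩)))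
  have hconj : ∀ i ∈ C, ∀ x : G, ((g i)⁻¹ * t) * x * ((g i)⁻¹ * t)⁻¹ ∈ R → t * x * t⁻¹ ∈ R := by
    intro i hi x hx
    have e : t * x * t⁻¹ = g i * (((g i)⁻¹ * t) * x * ((g i)⁻¹ * t)⁻¹) * (g i)⁻¹ := by group
    rw [e]
    exact mul_mem (mul_mem (hgR i hi) hx) (inv_mem (hgR i hi))
  have hRinv : R.map (MulAut.conj t).toMonoidHom ≤ R := by
    rw [Subgroup.map_le_iff_le_comap]
    refine iSup_le fun i => ?_
    by_cases hi : i ∈ C
    · by_cases hi2 : σ i = i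
      · rw [hPpos i hi hi2]
        refine iSup_le fun n => ?_
        rintro _ ⟨x, hx, rfl⟩
        rw [Subgroup.mem_comap]
        have hmem : ((g i)⁻¹ * t) ^ (n + 1) * x * (((g i)⁻¹ * t) ^ (n + 1))⁻¹ ∈ R := by
          apply hPR i
          rw [hPpos i hi hi2]
          refine (le_iSup (fun n : ℕ => (Y' i).map (MulAut.conj (((g i)⁻¹ * t) ^ n)).toMonoidHom) (n + 1)) ?_
          exact ⟨x, hx, rfl⟩
        have := hconj i hi (((g i)⁻¹ * t) ^ n * x * (((g i)⁻¹ * t) ^ n)⁻¹) (by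
          have e : ((g i)⁻¹ * t) ^ (n + 1) * x * (((g i)⁻¹ * t) ^ (n + 1))⁻¹
              = ((g i)⁻¹ * t) * (((g i)⁻¹ * t) ^ n * x * (((g i)⁻¹ * t) ^ n)⁻¹) * ((g i)⁻¹ * t)⁻¹ := by
            exact H1b_pow _ _ _
          rw [← e]; exact hmem)
        exact this
      · rw [hPneg i (fun h => hi2 h.2)]
        refine (Subgroup.closure_le _).2 fun x hx => ?_
        rw [SetLike.mem_coe, Subgroup.mem_comap]
        have hk := hσ i hi
        have hmem : ((g i)⁻¹ * t) * x * ((g i)⁻¹ * t)⁻¹ ∈ R := by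
          apply hPR (σ i)
          apply hY'P (σ i) hk.1 hk.2
          apply Subgroup.subset_closure
          right
          simp only [Set.mem_iUnion, Set.mem_ofPred_eq]
          exact ⟨i, ⟨hi, rfl⟩, x, hx, rfl⟩
        exact hconj i hi x hmem
    · rw [hPneg i (fun h => hi h.1), hZC i hi, ← hT3 i hi]
      refine (Subgroup.closure_le _).2 fun x hx => ?_
      rw [SetLike.mem_coe, Subgroup.mem_comap]
      have : t * x * t⁻¹ ∈ R := hZR (hFZ (Or.inr (Set.mem_iUnion.2 ⟨i, x, hx, rfl⟩)))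
      exact this
  have hMR : M ≤ R := hgen R hUR hRinv
  obtain ⟨ρ, hρ1, hρ2, hρ3⟩ := hX.exists_retract j
  have hXP : X j ≤ P j := by
    intro x hx
    have key : R ≤ ((P j).comap ρ).map M.subtype := by
      refine iSup_le fun i => ?_
      intro y hy
      have hyM : y ∈ M := hXM i (hPX i hy)
      refine ⟨⟨y, hyM⟩, ?_, rfl⟩
      show ρ ⟨y, hyM⟩ ∈ P j
      by_cases hij : i = j
      · subst hij
        rw [hρ2 ⟨y, hyM⟩ (hPX i hy)]
        exact hy
      · rw [hρ3 i hij ⟨y, hyM⟩ (hPX i hy)]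
        exact one_mem _
    obtain ⟨z, hz, hzx⟩ := key (hMR (hXM j hx))
    have hz2 : ρ z ∈ P j := hz
    have hzx' : (z : G) = x := hzx
    rw [hρ2 z (by rw [hzx']; exact hx), hzx'] at hz2
    exact hz2
  refine ⟨Y' j, hY'fg j, hY'X j, ?_⟩
  rw [← hPpos j hj hjj]
  exact le_antisymm hXP (hPX j)

end WQ
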