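import Pool.Agent.Lib.MP_0c5642_al.W.A2

/-! ROW w-H2a. -/

set_option autoImplicit false

namespace WQ

open scoped Pointwise

variable {G : Type*} [Group G]

theorem H2a_mono (τ : G) (X : Subgroup G) (hτX : X.map (MulAut.conj τ).toMonoidHom ≤ X) {m k : ℤ}
    (hmk : m ≤ k) {x : G} (hx : τ ^ m * x * (τ ^ m)⁻¹ ∈ X) : τ ^ k * x * (τ ^ k)⁻¹ ∈ X := by
  obtain ⟨n, rfl⟩ := Int.le.dest hmk
  clear hmk
  induction n with
  | zero => simpa using hx
  | succ n ih =>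
    have h1 : τ ^ (m + ((n + 1 : ℕ) : ℤ)) * x * (τ ^ (m + ((n + 1 : ℕ) : ℤ)))⁻¹ =
        (MulAut.conj τ).toMonoidHom (τ ^ (m + (n : ℤ)) * x * (τ ^ (m + (n : ℤ)))⁻¹) := by
      have h2 : τ ^ (m + ((n + 1 : ℕ) : ℤ)) = τ * τ ^ (m + (n : ℤ)) := by
        rw [← zpow_one_add]
        congr 1
        push_cast
        ring
      rw [h2]
      simp only [MulEquiv.toMonoidHom_eq_coe, MonoidHom.coe_coe, MulAut.conj_apply, mul_inv_rev,
        mul_assoc]
    rw [h1]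
    exact hτX ⟨_, ih, rfl⟩

/-- the elements `x * τ ^ e` with `x` in some `τ^(-m) X τ^m` -/
def H2a_S (τ : G) (X : Subgroup G) (hτX : X.map (MulAut.conj τ).toMonoidHom ≤ X) :
    Subgroup G where
  carrier := {g | ∃ m e : ℤ, τ ^ m * (g * (τ ^ e)⁻¹) * (τ ^ m)⁻¹ ∈ X}
  one_mem' := ⟨0, 0, by simp [X.one_mem]⟩
  mul_mem' := by
    rintro g g' ⟨m, e, h⟩ ⟨m', e', h'⟩
    refine ⟨max m (m' - e), e + e', ?_⟩
    have h1 := H2a_mono τ X hτX (le_max_left m (m' - e)) h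
    have h2 := H2a_mono τ X hτX (k := max m (m' - e) + e)
      (by have := le_max_right m (m' - e); omega) h'
    have h3 := X.mul_mem h1 h2
    refine (congrArg (· ∈ X) ?_).mp h3
    rw [zpow_add, zpow_add]
    group
  inv_mem' := by
    rintro g ⟨m, e, h⟩
    refine ⟨m + e, -e, ?_⟩
    have h1 := X.inv_mem h
    refine (congrArg (· ∈ X) ?_).mp h1
    rw [zpow_add]
    group

/-- ROW w-H2a: elements of `L = ⟨Y, τ⟩` in the kernel of `χ` lie in some `τ^(-n) X τ^n`. -/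
theorem mem_ker_L (χ : G →* Multiplicative ℤ) (τ : G) (hτ : χ τ ≠ 1) (X Y : Subgroup G) (hYX : Y ≤ X) (hX : X ≤ χ.ker)
    (hτX : X.map (MulAut.conj τ).toMonoidHom ≤ X) {g : G} (hg : g ∈ Y ⊔ Subgroup.zpowers τ) (hk : χ g = 1) :
    ∃ n : ℕ, τ ^ n * g * (τ ^ n)⁻¹ ∈ X := by
  have hle : Y ⊔ Subgroup.zpowers τ ≤ H2a_S τ X hτX := by
    refine sup_le (fun y hy => ⟨0, 0, by simpa using hYX hy⟩) ?_
    rw [Subgroup.zpowers_le]
    exact ⟨0, 1, by simp [X.one_mem]⟩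
  obtain ⟨m, e, h⟩ := hle hg
  have h1 : χ (τ ^ m * (g * (τ ^ e)⁻¹) * (τ ^ m)⁻¹) = 1 := hX h
  have h2 : χ τ ^ e = 1 := by
    rw [map_mul, map_mul, map_mul, map_inv, map_inv, map_zpow, map_zpow, hk, one_mul,
      mul_inv_eq_one, mul_eq_left, inv_eq_one] at h1
    exact h1
  have he : e = 0 := by
    by_contra he
    apply hτ
    have h3 : Multiplicative.toAdd (χ τ ^ e) = 0 := by rw [h2]; rfl
    rw [toAdd_zpow, smul_eq_mul, mul_eq_zero] at h3
    exact Multiplicative.toAdd.injective (h3.resolve_left he)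
  subst he
  refine ⟨m.toNat, ?_⟩
  have h4 := H2a_mono τ X hτX (Int.self_le_toNat m) h
  rw [zpow_zero, inv_one, mul_one, zpow_natCast] at h4
  exact h4

end WQ
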