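import Mathlib

/-! ROW w-H2b. -/

set_option autoImplicit false

namespace WQ

open scoped Pointwise

open LaurentPolynomial in
/-- the affine map `f ↦ d + t^c f` -/
noncomputable def H2b_aff (d : LaurentPolynomial ℚ) (c : ℤ) : Equiv.Perm (LaurentPolynomial ℚ) where
  toFun f := d + T c * f
  invFun f := T (-c) * (f - d)
  left_inv f := by
    show T (-c) * (d + T c * f - d) = f
    rw [add_sub_cancel_left, ← mul_assoc, ← T_add, neg_add_cancel, T_zero, one_mul]
  right_inv f := by
    show d + T c * (T (-c) * (f - d)) = f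
    rw [← mul_assoc, ← T_add, add_neg_cancel, T_zero, one_mul, add_sub_cancel]

theorem H2b_aff_apply (d : LaurentPolynomial ℚ) (c : ℤ) (f : LaurentPolynomial ℚ) :
    H2b_aff d c f = d + LaurentPolynomial.T c * f := rfl

theorem H2b_free {α : Type*} (χ : FreeGroup α →* Multiplicative ℤ) (b1 b2 : α) (h12 : b1 ≠ b2)
    (h1 : χ (FreeGroup.of b1) ≠ 1) :
    ∃ (D : FreeGroup α → LaurentPolynomial ℚ) (y : FreeGroup α), χ y = 1 ∧ D y ≠ 0 ∧
      ∀ u v, D (u * v) = D u + LaurentPolynomial.T (Multiplicative.toAdd (χ u)) * D v := by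
  classical
  let Φ : FreeGroup α →* Equiv.Perm (LaurentPolynomial ℚ) := FreeGroup.lift fun b =>
    H2b_aff (if b = b2 then 1 else 0) (Multiplicative.toAdd (χ (FreeGroup.of b)))
  have hof : ∀ b, Φ (FreeGroup.of b) =
      H2b_aff (if b = b2 then 1 else 0) (Multiplicative.toAdd (χ (FreeGroup.of b))) := fun b =>
    FreeGroup.lift_apply_of
  have key : ∀ u f, Φ u f = Φ u 0 + LaurentPolynomial.T (Multiplicative.toAdd (χ u)) * f := by
    intro u
    induction u using FreeGroup.induction_on with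
    | C1 => intro f; simp
    | of b => intro f; rw [hof, H2b_aff_apply, H2b_aff_apply, mul_zero, add_zero]
    | inv_of b _ =>
      intro f
      have e : ∀ f, Φ (FreeGroup.of b)⁻¹ f =
          LaurentPolynomial.T (-(Multiplicative.toAdd (χ (FreeGroup.of b)))) *
            (f - if b = b2 then 1 else 0) := by
        intro f
        rw [map_inv, hof]
        rfl
      rw [e, e, map_inv, toAdd_inv]
      ring
    | mul u v hu hv =>
      intro f
      rw [map_mul, Equiv.Perm.mul_apply, Equiv.Perm.mul_apply, hu (Φ v f), hu (Φ v 0), hv f,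
        map_mul, toAdd_mul, LaurentPolynomial.T_add]
      ring
  have hmul : ∀ u v, Φ (u * v) 0 =
      Φ u 0 + LaurentPolynomial.T (Multiplicative.toAdd (χ u)) * Φ v 0 := by
    intro u v
    rw [map_mul, Equiv.Perm.mul_apply, key u]
  have hD1 : Φ (FreeGroup.of b1) 0 = 0 := by
    rw [hof, H2b_aff_apply, if_neg h12, mul_zero, add_zero]
  have hD2 : Φ (FreeGroup.of b2) 0 = 1 := by
    rw [hof, H2b_aff_apply, if_pos rfl, mul_zero, add_zero]
  refine ⟨fun u => Φ u 0,
    FreeGroup.of b1 * FreeGroup.of b2 * ((FreeGroup.of b2 * FreeGroup.of b1)⁻¹), ?_, ?_, hmul⟩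
  · rw [map_mul, map_mul, map_inv, map_mul, mul_comm (χ (FreeGroup.of b2)), mul_inv_cancel]
  · intro h0
    have h0' : Φ (FreeGroup.of b1 * FreeGroup.of b2 *
        ((FreeGroup.of b2 * FreeGroup.of b1)⁻¹)) 0 = 0 := h0
    -- `D y = D(b1 b2) - D(b2 b1)` up to the unit
    have h2 : Φ (FreeGroup.of b1 * FreeGroup.of b2) 0 = Φ (FreeGroup.of b2 * FreeGroup.of b1) 0 := by
      have h3 := hmul (FreeGroup.of b1 * FreeGroup.of b2 *
        ((FreeGroup.of b2 * FreeGroup.of b1)⁻¹)) (FreeGroup.of b2 * FreeGroup.of b1)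
      rw [h0', inv_mul_cancel_right, zero_add] at h3
      rw [h3]
      have h4 : χ (FreeGroup.of b1 * FreeGroup.of b2 *
        ((FreeGroup.of b2 * FreeGroup.of b1)⁻¹)) = 1 := by
        rw [map_mul, map_mul, map_inv, map_mul, mul_comm (χ (FreeGroup.of b2)), mul_inv_cancel]
      rw [h4, toAdd_one, LaurentPolynomial.T_zero, one_mul]
    rw [hmul, hmul, hD1, hD2, mul_one, zero_add, mul_zero, add_zero] at h2
    rw [← LaurentPolynomial.T_zero] at h2
    have h5 : Multiplicative.toAdd (χ (FreeGroup.of b1)) = 0 := by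
      have h6 := congrArg (fun f : LaurentPolynomial ℚ =>
        f.coeff (Multiplicative.toAdd (χ (FreeGroup.of b1)))) h2
      simp only [LaurentPolynomial.T_apply] at h6
      by_contra h7
      rw [if_pos trivial, if_neg (fun h => h7 h.symm)] at h6
      exact one_ne_zero h6
    exact h1 (Multiplicative.toAdd.injective h5)

/-- ROW w-H2b: for a homomorphism `χ : L → ℤ` from a free group, not zero, `L` not cyclic, there are `y ∈ ker χ` and a map `D` from `L` to the Laurent polynomials over `ℚ` with `D (u v) = D u + t^χ(u) D v` and `D y ≠ 0`.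
(Basis elements `b₁`, `b₂` with `χ b₁ ≠ 0`; `D b₂ = 1`, `D b = 0` for the other basis elements; `y = [b₁, b₂]`.) -/
theorem exists_deriv {L : Type*} [Group L] (hf : IsFreeGroup L) (hnc : ¬ ∃ s : L, ∀ x, x ∈ Subgroup.zpowers s)
    (χ : L →* Multiplicative ℤ) (hχ : χ ≠ 1) :
    ∃ (D : L → LaurentPolynomial ℚ) (y : L), χ y = 1 ∧ D y ≠ 0 ∧
      ∀ u v, D (u * v) = D u + LaurentPolynomial.T (Multiplicative.toAdd (χ u)) * D v := by
  obtain ⟨ι, ⟨bs⟩⟩ := hf.nonempty_basis
  let e : L ≃* FreeGroup ι := bs.repr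
  let χ' : FreeGroup ι →* Multiplicative ℤ := χ.comp e.symm.toMonoidHom
  have hχ' : ∀ x, χ' (e x) = χ x := by
    intro x
    show χ (e.symm (e x)) = χ x
    rw [e.symm_apply_apply]
  obtain ⟨b1, hb1⟩ : ∃ b1, χ' (FreeGroup.of b1) ≠ 1 := by
    by_contra hcon
    push Not at hcon
    apply hχ
    have h1 : χ' = 1 := FreeGroup.ext_hom _ _ fun b => hcon b
    ext x
    rw [← hχ' x, h1]
    rfl
  obtain ⟨b2, hb2⟩ : ∃ b2, b1 ≠ b2 := by
    by_contra hcon
    push Not at hcon
    apply hnc
    refine ⟨e.symm (FreeGroup.of b1), fun x => ?_⟩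
    have h2 : ∀ u : FreeGroup ι, e.symm u ∈ Subgroup.zpowers (e.symm (FreeGroup.of b1)) := by
      intro u
      induction u using FreeGroup.induction_on with
      | C1 => rw [map_one]; exact one_mem _
      | of b => rw [← hcon b]; exact Subgroup.mem_zpowers _
      | inv_of b hb => rw [map_inv]; exact inv_mem hb
      | mul u v hu hv => rw [map_mul]; exact mul_mem hu hv
    have h3 := h2 (e x)
    rwa [e.symm_apply_apply] at h3
  obtain ⟨D, y, hy, hDy, hD⟩ := H2b_free χ' b1 b2 hb2 hb1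
  refine ⟨fun x => D (e x), e.symm y, ?_, ?_, ?_⟩
  · exact hy
  · show D (e (e.symm y)) ≠ 0
    rw [e.apply_symm_apply]
    exact hDy
  · intro u v
    show D (e (u * v)) = _
    rw [map_mul, hD, hχ']

end WQ
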