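import Pool.Agent.Lib.MP_0c5642_al.W.H2a
import Pool.Agent.Lib.MP_0c5642_al.W.H2b

/-! ROW w-H2c (7.2). -/

set_option autoImplicit false

namespace WQ

open scoped Pointwise

variable {G : Type*} [Group G]

/-- ROW w-H2c (7.2). `D` of the elements `τ^i y τ^(-i)`, `i = 0..e`, is `t^(i χ τ) D y`: linearly independent over `ℚ`. By `mem_ker_L` they lie in `τ^(-n) X τ^n` for one `n`, hence in a conjugate of an `e`-generated group `Z ≤ X` (on `ker χ` the map `D` is additive, so the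
`ℚ`-span of `D` of an `e`-generated subgroup of `ker χ` has dimension at most `e`). If `L` is cyclic, then `X = ⊥` since `X ≤ ker χ` and `χ τ ≠ 0`. -/
theorem not_free (χ : G →* Multiplicative ℤ) (τ : G) (hτ : χ τ ≠ 1) (X Y : Subgroup G) (hYX : Y ≤ X) (hX : X ≤ χ.ker)
    (hXL : X ≤ Y ⊔ Subgroup.zpowers τ) (hne : X ≠ ⊥)
    (hτX : X.map (MulAut.conj τ).toMonoidHom ≤ X) (e : ℕ)
    (hloc : ∀ F : Finset G, (F : Set G) ⊆ X → ∃ Z : Subgroup G, GenBy e Z ∧ (F : Set G) ⊆ Z ∧ Z ≤ X)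
    (htf : ∀ g : G, IsOfFinOrder g → g = 1) :
    ¬ IsFreeGroup (Y ⊔ Subgroup.zpowers τ : Subgroup G) := by
  classical
  intro hfree
  obtain ⟨L, hL⟩ : ∃ L : Subgroup G, L = Y ⊔ Subgroup.zpowers τ := ⟨_, rfl⟩
  rw [← hL] at hfree hXL
  have hτL : τ ∈ L := by
    rw [hL]
    exact Subgroup.mem_sup_right (Subgroup.mem_zpowers τ)
  -- `χ` is injective on cyclic subgroups not in the kernel
  have hz : ∀ (s : G) (k : ℤ), χ s ≠ 1 → χ (s ^ k) = 1 → k = 0 := by
    intro s k hs h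
    rw [map_zpow] at h
    have h1 := congrArg Multiplicative.toAdd h
    rw [toAdd_zpow, toAdd_one, smul_eq_mul] at h1
    rcases mul_eq_zero.1 h1 with h2 | h2
    · exact h2
    · exact absurd (Multiplicative.toAdd.injective (h2.trans toAdd_one.symm)) hs
  have hnc : ¬ ∃ s : L, ∀ x, x ∈ Subgroup.zpowers s := by
    rintro ⟨s, hs⟩
    have hsχ : χ (s : G) ≠ 1 := by
      intro h
      obtain ⟨k, hk⟩ := Subgroup.mem_zpowers_iff.1 (hs ⟨τ, hτL⟩)
      have h1 : ((s : G)) ^ k = τ := by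
        have := congrArg Subtype.val hk
        simpa using this
      apply hτ
      rw [← h1, map_zpow, h, one_zpow]
    apply hne
    rw [eq_bot_iff]
    intro x hx
    obtain ⟨k, hk⟩ := Subgroup.mem_zpowers_iff.1 (hs ⟨x, hXL hx⟩)
    have h1 : ((s : G)) ^ k = x := by
      have := congrArg Subtype.val hk
      simpa using this
    have h2 : χ x = 1 := hX hx
    rw [← h1] at h2
    have h3 := hz _ _ hsχ h2
    rw [h3, zpow_zero] at h1
    rw [← h1]
    exact Subgroup.mem_bot.2 rfl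
  have hχ : χ.comp L.subtype ≠ 1 := by
    intro h
    apply hτ
    have := DFunLike.congr_fun h ⟨τ, hτL⟩
    exact this
  obtain ⟨D, y, hy, hDy, hD⟩ := exists_deriv hfree hnc (χ.comp L.subtype) hχ
  have hD0 : ∀ u v : L, χ (u : G) = 1 → D (u * v) = D u + D v := by
    intro u v hu
    rw [hD]
    have : (χ.comp L.subtype) u = 1 := hu
    rw [this, toAdd_one, LaurentPolynomial.T_zero, one_mul]
  have hD1 : D 1 = 0 := by
    have h := hD0 1 1 (by rw [Subgroup.coe_one, map_one])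
    rw [mul_one] at h
    exact left_eq_add.1 h
  have hDconj : ∀ g : L, D (g * y * g⁻¹) = LaurentPolynomial.T (Multiplicative.toAdd (χ (g : G))) * D y := by
    intro g
    have h1 := hD g g⁻¹
    rw [mul_inv_cancel, hD1] at h1
    have h2 := hD (g * y) g⁻¹
    have h3 : (χ.comp L.subtype) (g * y) = χ (g : G) := by
      rw [map_mul, hy, mul_one]
      rfl
    have h4 : (χ.comp L.subtype) g = χ (g : G) := rfl
    rw [h3, hD g y, h4] at h2
    rw [h4] at h1
    rw [h2]
    linear_combination -h1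
  -- the elements
  obtain ⟨c, hc⟩ : ∃ c : ℤ, c = Multiplicative.toAdd (χ τ) := ⟨_, rfl⟩
  have hc0 : c ≠ 0 := by
    intro h
    apply hτ
    exact Multiplicative.toAdd.injective ((hc.symm.trans h).trans toAdd_one.symm)
  have hpw : ∀ k : ℕ, Multiplicative.toAdd (χ (τ ^ k)) = k * c := by
    intro k
    rw [map_pow, toAdd_pow, hc, nsmul_eq_mul]
  have hyk : χ (y : G) = 1 := hy
  have hex : ∀ i : ℕ, ∃ n : ℕ, τ ^ n * (τ ^ i * y * (τ ^ i)⁻¹) * (τ ^ n)⁻¹ ∈ X := by
    intro i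
    refine mem_ker_L χ τ hτ X Y hYX hX hτX ?_ ?_
    · rw [← hL]
      exact L.mul_mem (L.mul_mem (L.pow_mem hτL i) y.2) (L.inv_mem (L.pow_mem hτL i))
    · rw [map_mul, map_mul, hyk, map_inv, mul_one, mul_inv_cancel]
  have hup : ∀ (g : G), g ∈ X → ∀ k : ℕ, τ ^ k * g * (τ ^ k)⁻¹ ∈ X := by
    intro g hg k
    induction k with
    | zero => simpa using hg
    | succ k ih =>
      have h1 : (MulAut.conj τ).toMonoidHom (τ ^ k * g * (τ ^ k)⁻¹) ∈ X :=
        hτX (Subgroup.mem_map_of_mem _ ih)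
      have h2 : (MulAut.conj τ).toMonoidHom (τ ^ k * g * (τ ^ k)⁻¹) =
          τ ^ (k + 1) * g * (τ ^ (k + 1))⁻¹ := by
        show τ * (τ ^ k * g * (τ ^ k)⁻¹) * τ⁻¹ = _
        rw [pow_succ']
        group
      rw [← h2]
      exact h1
  choose nn hnn using hex
  obtain ⟨n, hn⟩ : ∃ n : ℕ, ∀ i ≤ e, nn i ≤ n := by
    refine ⟨(Finset.range (e + 1)).sup nn, fun i hi => Finset.le_sup (Finset.mem_range.2 (by omega))⟩
  have hmem : ∀ i ≤ e, τ ^ (n + i) * y * (τ ^ (n + i))⁻¹ ∈ X := by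
    intro i hi
    have h1 := hup _ (hnn i) (n - nn i)
    have h2 : τ ^ (n - nn i) * (τ ^ nn i * (τ ^ i * ↑y * (τ ^ i)⁻¹) * (τ ^ nn i)⁻¹) *
        (τ ^ (n - nn i))⁻¹ = τ ^ (n + i) * y * (τ ^ (n + i))⁻¹ := by
      have h3 : τ ^ (n + i) = τ ^ (n - nn i) * τ ^ nn i * τ ^ i := by
        rw [← pow_add, ← pow_add]
        congr 1
        have := hn i hi
        omega
      rw [h3]
      group
    rw [← h2]
    exact h1
  obtain ⟨Z, ⟨S, hS, hSZ⟩, hFZ, hZX⟩ := hloc
    ((Finset.range (e + 1)).image fun i => τ ^ (n + i) * y * (τ ^ (n + i))⁻¹) (by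
      intro x hx
      obtain ⟨i, hi, rfl⟩ := Finset.mem_image.1 (Finset.mem_coe.1 hx)
      exact hmem i (by have := Finset.mem_range.1 hi; omega))
  -- the span of the values on the generators
  obtain ⟨E, hE⟩ : ∃ E : G → LaurentPolynomial ℚ, E = fun g => if h : g ∈ L then D ⟨g, h⟩ else 0 := ⟨_, rfl⟩
  have hEv : ∀ (g : G) (h : g ∈ L), E g = D ⟨g, h⟩ := by
    intro g h
    rw [hE]
    exact dif_pos h
  obtain ⟨W, hW⟩ : ∃ W : Submodule ℚ (LaurentPolynomial ℚ), W = Submodule.span ℚ ((S.image E : Finset _) : Set _) :=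
    ⟨_, rfl⟩
  have hEm : ∀ u v : G, u ∈ X → v ∈ X → E (u * v) = E u + E v := by
    intro u v hu hv
    rw [hEv _ (hXL hu), hEv _ (hXL hv), hEv _ (L.mul_mem (hXL hu) (hXL hv))]
    exact hD0 ⟨u, hXL hu⟩ ⟨v, hXL hv⟩ (hX hu)
  have hE1 : E 1 = 0 := by
    rw [hEv 1 L.one_mem]
    exact hD1
  have hEi : ∀ u : G, u ∈ X → E u⁻¹ = - E u := by
    intro u hu
    have h := hEm u u⁻¹ hu (X.inv_mem hu)
    rw [mul_inv_cancel, hE1] at h
    exact eq_neg_of_add_eq_zero_right h.symm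
  have hZW : ∀ g ∈ Z, E g ∈ W := by
    intro g hg
    have hK : Z ≤ { carrier := {g | g ∈ X ∧ E g ∈ W}
                    mul_mem' := fun {u v} hu hv => ⟨X.mul_mem hu.1 hv.1, by
                      rw [hEm u v hu.1 hv.1]; exact W.add_mem hu.2 hv.2⟩
                    one_mem' := ⟨X.one_mem, by rw [hE1]; exact W.zero_mem⟩
                    inv_mem' := fun {u} hu => ⟨X.inv_mem hu.1, by
                      rw [hEi u hu.1]; exact W.neg_mem hu.2⟩ : Subgroup G } := by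
      rw [← hSZ, Subgroup.closure_le]
      intro s hs
      refine ⟨hZX (hSZ ▸ Subgroup.subset_closure hs), ?_⟩
      rw [hW]
      exact Submodule.subset_span (Finset.mem_coe.2 (Finset.mem_image_of_mem E (Finset.mem_coe.1 hs)))
    exact (hK hg).2
  have hWfin : Module.Finite ℚ W := by
    rw [hW]
    exact FiniteDimensional.span_finset ℚ _
  have hWe : Module.finrank ℚ W ≤ e := by
    rw [hW]
    exact (finrank_span_finset_le_card _).trans (Finset.card_image_le.trans hS)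
  -- linear independence
  have hval : ∀ i : Fin (e + 1), E (τ ^ (n + (i : ℕ)) * y * (τ ^ (n + (i : ℕ)))⁻¹) =
      LaurentPolynomial.T (((n + (i : ℕ) : ℕ) : ℤ) * c) * D y := by
    intro i
    have hm : τ ^ (n + (i : ℕ)) ∈ L := L.pow_mem hτL _
    rw [hEv _ (L.mul_mem (L.mul_mem hm y.2) (L.inv_mem hm)), ← hpw]
    exact hDconj ⟨τ ^ (n + (i : ℕ)), hm⟩
  have hli : LinearIndependent ℚ fun i : Fin (e + 1) =>
      (LaurentPolynomial.T (((n + (i : ℕ) : ℕ) : ℤ) * c) * D y : LaurentPolynomial ℚ) := by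
    rw [Fintype.linearIndependent_iff]
    intro g hg i
    have h1 : (∑ i : Fin (e + 1), g i • (LaurentPolynomial.T (((n + (i : ℕ) : ℕ) : ℤ) * c) : LaurentPolynomial ℚ)) *
        D y = 0 := by
      rw [Finset.sum_mul, ← hg]
      exact Finset.sum_congr rfl fun i _ => smul_mul_assoc _ _ _
    have h2 := (mul_eq_zero.1 h1).resolve_right hDy
    have h3 := congrArg (fun p : LaurentPolynomial ℚ => p.coeff (((n + (i : ℕ) : ℕ) : ℤ) * c)) h2
    simp only [AddMonoidAlgebra.coeff_sum, AddMonoidAlgebra.coeff_smul, Finsupp.coe_finsetSum, Finset.sum_apply,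
      Finsupp.coe_smul, Pi.smul_apply, LaurentPolynomial.T_apply, AddMonoidAlgebra.coeff_zero, Finsupp.coe_zero,
      Pi.zero_apply] at h3
    rw [Finset.sum_eq_single i] at h3
    · rw [if_pos rfl, smul_eq_mul, mul_one] at h3
      exact h3
    · intro j _ hj
      rw [if_neg, smul_zero]
      intro h4
      apply hj
      have h5 := mul_right_cancel₀ hc0 h4
      have h6 : n + (j : ℕ) = n + (i : ℕ) := by exact_mod_cast h5
      exact Fin.ext (by omega)
    · intro h4
      exact absurd (Finset.mem_univ _) h4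
  have hcard : e + 1 ≤ Module.finrank ℚ W := by
    have h1 := finrank_span_eq_card hli
    rw [Fintype.card_fin] at h1
    rw [← h1]
    refine Submodule.finrank_mono ?_
    rw [Submodule.span_le]
    rintro _ ⟨i, rfl⟩
    show (LaurentPolynomial.T (((n + (i : ℕ) : ℕ) : ℤ) * c) * D y : LaurentPolynomial ℚ) ∈ W
    rw [← hval i]
    refine hZW _ (hFZ ?_)
    refine Finset.mem_coe.2 (Finset.mem_image.2 ⟨i, Finset.mem_range.2 i.2, rfl⟩)
  omega

end WQ
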