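import Pool.Agent.Lib.MP_0c5642_al.W.A2

/-! ROW w-H2d. -/

set_option autoImplicit false

namespace WQ

open scoped Pointwise

variable {G : Type*} [Group G]

/-- a finite index subgroup which is infinite contains an infinite subgroup normalised by `U` -/
theorem H2d_core {U P : Subgroup G} (hPU : P ≤ U) (hi : P.relIndex U ≠ 0)
    (hinf : (P : Set G).Infinite) :
    ∃ N : Subgroup G, N ≤ P ∧ (N : Set G).Infinite ∧ ∀ u ∈ U, ∀ q ∈ N, u * q * u⁻¹ ∈ P := by
  have : (P.subgroupOf U).FiniteIndex := ⟨hi⟩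
  refine ⟨((P.subgroupOf U).normalCore).map U.subtype, ?_, ?_, ?_⟩
  · rintro _ ⟨q, hq, rfl⟩
    exact Subgroup.mem_subgroupOf.1 (Subgroup.normalCore_le _ hq)
  · intro hfin
    apply hinf
    have h1 : Finite ((P.subgroupOf U).normalCore) := by
      have h2 : Finite (((P.subgroupOf U).normalCore).map U.subtype) := hfin.to_subtype
      exact Finite.of_injective
        (fun q : (P.subgroupOf U).normalCore =>
          (⟨(q : U), Subgroup.mem_map.2 ⟨q, q.2, rfl⟩⟩ : ((P.subgroupOf U).normalCore).map U.subtype))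
        (fun q q' h => by
          have h' : ((q : U) : G) = ((q' : U) : G) := congrArg
            (fun z : ((P.subgroupOf U).normalCore).map U.subtype => (z : G)) h
          exact Subtype.ext (Subtype.ext h'))
    have h3 : Nat.card U ≠ 0 := by
      rw [← Subgroup.card_mul_index (P.subgroupOf U).normalCore]
      exact mul_ne_zero (Nat.card_pos (α := (P.subgroupOf U).normalCore)).ne'
        Subgroup.FiniteIndex.index_ne_zero
    have h4 : Finite U := Nat.finite_of_card_ne_zero h3
    exact (Set.toFinite (U : Set G)).subset hPU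
  · rintro u hu _ ⟨q, hq, rfl⟩
    have h1 := (Subgroup.normalCore_normal (P.subgroupOf U)).conj_mem q hq ⟨u, hu⟩
    exact Subgroup.mem_subgroupOf.1 (Subgroup.normalCore_le _ h1)

/-- the statement for one of the two sides -/
theorem H2d_aux {U P : Subgroup G} {F : Set G}
    (hF : ∀ g ∈ U, {x | ¬ (x ∈ F ↔ x * g ∈ F)}.Finite) (hPU : P ≤ U)
    (hi : P.relIndex U ≠ 0) (hinf : (P : Set G).Infinite)
    (hns : ∀ y, {p | p ∈ P ∧ y * p ∈ F}.Finite ∨ {p | p ∈ P ∧ y * p ∉ F}.Finite) {x : G}
    (hx : {p | p ∈ P ∧ x * p ∉ F}.Finite) : {u | u ∈ U ∧ x * u ∉ F}.Finite := by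
  obtain ⟨N, hNP, hNinf, hNconj⟩ := H2d_core hPU hi hinf
  -- every coset of `P` in `x U` is almost contained in `F`
  have key : ∀ u ∈ U, {p | p ∈ P ∧ x * u * p ∉ F}.Finite := by
    intro u hu
    rcases hns (x * u) with h | h
    · exfalso
      apply hNinf
      have hinj : Function.Injective (fun q : G => u * q * u⁻¹) := by
        intro q q' h
        exact mul_left_cancel (mul_right_cancel h)
      have hinj' : Function.Injective (fun q : G => x * (u * q * u⁻¹)) := by
        intro q q' h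
        exact hinj (mul_left_cancel h)
      refine (((hx.preimage (hinj.injOn)).union h).union
        ((hF u hu).preimage (hinj'.injOn))).subset ?_
      intro q hq
      by_contra hcon
      simp only [Set.mem_union, Set.mem_preimage, Set.mem_ofPred_eq, not_or, not_and, not_not]
        at hcon
      obtain ⟨⟨h1, h2⟩, h3⟩ := hcon
      have h4 := h3.1 (h1 (hNconj u hu q hq))
      rw [mul_assoc, inv_mul_cancel_right, ← mul_assoc] at h4
      exact h2 (hNP hq) h4
    · exact h
  -- `U` is a finite union of cosets of `P`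
  have : (P.subgroupOf U).FiniteIndex := ⟨hi⟩
  have hfin : Finite (U ⧸ P.subgroupOf U) := Subgroup.finite_quotient_of_finiteIndex
  refine (Set.finite_iUnion fun c : U ⧸ P.subgroupOf U =>
    (key (c.out : U) (c.out : U).2).image fun p => ((c.out : U) : G) * p).subset ?_
  rintro u ⟨hu, hxu⟩
  refine Set.mem_iUnion.2 ⟨QuotientGroup.mk (⟨u, hu⟩ : U), ?_⟩
  have h1 : (((QuotientGroup.mk (⟨u, hu⟩ : U) : U ⧸ P.subgroupOf U).out : U) : G)⁻¹ * u ∈ P := by
    have h2 : (QuotientGroup.mk (QuotientGroup.mk (⟨u, hu⟩ : U) : U ⧸ P.subgroupOf U).out :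
        U ⧸ P.subgroupOf U) = QuotientGroup.mk (⟨u, hu⟩ : U) := QuotientGroup.out_eq' _
    have h3 := QuotientGroup.eq.1 h2
    exact Subgroup.mem_subgroupOf.1 h3
  refine ⟨_, ⟨h1, ?_⟩, ?_⟩
  · rw [mul_assoc, mul_inv_cancel_left]
    exact hxu
  · exact mul_inv_cancel_left _ _

/-- ROW w-H2d: a subgroup with a finite index elliptic subgroup is elliptic. -/
theorem ell_of_finiteIndex {V U P : Subgroup G} {E : Set G} (hE : AI V E) (hUV : U ≤ V) (hPU : P ≤ U)
    (hi : P.relIndex U ≠ 0) (hinf : (P : Set G).Infinite) (hell : Ell P E) : Ell U E := by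
  intro x hs
  have h1 : ∀ y, {p | p ∈ P ∧ y * p ∈ E}.Finite ∨ {p | p ∈ P ∧ y * p ∉ E}.Finite := by
    intro y
    by_contra hcon
    rw [not_or] at hcon
    exact hell y ⟨hcon.1, hcon.2⟩
  have h2 : ∀ y, {p | p ∈ P ∧ y * p ∈ Eᶜ}.Finite ∨ {p | p ∈ P ∧ y * p ∉ Eᶜ}.Finite := by
    intro y
    simp only [Set.mem_compl_iff, not_not]
    exact (h1 y).symm
  rcases h1 x with h | h
  · have h3 : {u | u ∈ U ∧ x * u ∉ Eᶜ}.Finite := by
      refine H2d_aux (fun g hg => ?_) hPU hi hinf h2 ?_
      · refine (hE.2 g (hUV hg)).subset fun y hy => ?_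
        simp only [Set.mem_ofPred_eq, Set.mem_compl_iff] at hy ⊢
        tauto
      · simpa only [Set.mem_compl_iff, not_not] using h
    simp only [Set.mem_compl_iff, not_not] at h3
    exact hs.1 h3
  · exact hs.2 (H2d_aux (fun g hg => hE.2 g (hUV hg)) hPU hi hinf h1 h)

end WQ
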