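import Pool.Agent.Lib.MP_0c5642_al.W.F2e
import Pool.Agent.Lib.MP_0c5642_al.W.E6b
import Pool.Agent.Lib.MP_0c5642_al.W.F1a
import Pool.Agent.Lib.MP_0c5642_al.W.F1b

/-! ROW w-H3a. -/

set_option autoImplicit false

namespace WQ

open scoped Pointwise

variable {G : Type*} [Group G]

/-- If a translate of a basic set splits a coset of `P`, its trace on `P` is a nontrivial almost invariant set nested with its `P`-translates (`IsFP.nested_Br`), so `P` is cyclic or a
nontrivial free product by `S1`. -/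
theorem ell_of_indec (htf : ∀ g : G, IsOfFinOrder g → g = 1) {m : ℕ} {X : Fin m → Subgroup G} {M : Subgroup G}
    (h : IsFP X M) (P : Subgroup G) (hP : P ≤ M) (hnc : ¬ ∃ s, P = Subgroup.zpowers s)
    (hind : ∀ H : Fin 2 → Subgroup G, IsFP H P → ∃ j, H j = ⊥) :
    ∀ i, ∀ g ∈ M, Ell P (g • Br X i) := by
  intro i g hg x hsp
  obtain ⟨h1, h2⟩ := hsp
  obtain ⟨u0, hu0P, hu0⟩ := h1.nonempty
  rw [Set.mem_smul_set_iff_inv_smul_mem, smul_eq_mul] at hu0
  have hyu : g⁻¹ * (x * u0) ∈ M := h.Br_subset i hu0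
  have hy : g⁻¹ * x ∈ M := by
    have := M.mul_mem hyu (M.inv_mem (hP hu0P))
    have e : g⁻¹ * (x * u0) * u0⁻¹ = g⁻¹ * x := by group
    rwa [e] at this
  obtain ⟨y, hydef⟩ : ∃ y, y = g⁻¹ * x := ⟨_, rfl⟩
  rw [← hydef] at hy
  have key : ∀ u, x * u ∈ g • Br X i ↔ y * u ∈ Br X i := by
    intro u
    rw [Set.mem_smul_set_iff_inv_smul_mem, smul_eq_mul, hydef, mul_assoc]
  set E : Set G := {u | u ∈ P ∧ y * u ∈ Br X i} with hE
  have hinf : E.Infinite := by
    refine h1.mono ?_
    rintro u ⟨hu, hxu⟩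
    exact ⟨hu, (key u).mp hxu⟩
  have hco : ((P : Set G) \ E).Infinite := by
    refine h2.mono ?_
    rintro u ⟨hu, hxu⟩
    exact ⟨hu, fun hc => hxu ((key u).mpr hc.2)⟩
  have hai : AI P E := by
    refine ⟨fun u hu => hu.1, ?_⟩
    intro p hp
    have h3 := (h.AI_Br i).2 p (hP hp)
    have h4 : ((fun u => y * u) ⁻¹' {z | ¬ (z ∈ Br X i ↔ z * p ∈ Br X i)}).Finite :=
      h3.preimage (fun a _ b _ hab => mul_left_cancel hab)
    refine h4.subset ?_
    intro u hu
    simp only [Set.mem_preimage, Set.mem_setOf_eq] at hu ⊢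
    intro hc
    apply hu
    constructor
    · rintro ⟨ha, hb⟩
      exact ⟨P.mul_mem ha hp, by rw [← mul_assoc]; exact hc.mp hb⟩
    · rintro ⟨ha, hb⟩
      refine ⟨?_, hc.mpr (by rw [mul_assoc]; exact hb)⟩
      have := P.mul_mem ha (P.inv_mem hp)
      rwa [mul_inv_cancel_right] at this
  have hn : ∀ p ∈ P, Nested P E (p • E) := by
    intro p hp
    have hk : y * p * y⁻¹ ∈ M := M.mul_mem (M.mul_mem hy (hP hp)) (M.inv_mem hy)
    have hpE : ∀ u, u ∈ p • E ↔ u ∈ P ∧ y * u ∈ (y * p * y⁻¹) • Br X i := by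
      intro u
      rw [Set.mem_smul_set_iff_inv_smul_mem, Set.mem_smul_set_iff_inv_smul_mem, smul_eq_mul,
        smul_eq_mul, hE, Set.mem_setOf_eq]
      have e1 : y * (p⁻¹ * u) = (y * p * y⁻¹)⁻¹ * (y * u) := by group
      rw [e1]
      constructor
      · rintro ⟨ha, hb⟩
        refine ⟨?_, hb⟩
        have := P.mul_mem hp ha
        rwa [mul_inv_cancel_left] at this
      · rintro ⟨ha, hb⟩
        exact ⟨P.mul_mem (P.inv_mem hp) ha, hb⟩
    rcases h.nested_Br i hk with hd | hd | hd | hd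
    · left
      rw [Set.disjoint_left] at hd ⊢
      intro u hu hu'
      exact hd hu.2 ((hpE u).mp hu').2
    · right; left
      intro u hu
      exact (hpE u).mpr ⟨hu.1, hd hu.2⟩
    · right; right; left
      intro u hu
      obtain ⟨ha, hb⟩ := (hpE u).mp hu
      exact ⟨ha, hd hb⟩
    · right; right; right
      intro u hu
      rcases hd (M.mul_mem hy (hP hu)) with hc | hc
      · exact Or.inl ⟨hu, hc⟩
      · exact Or.inr ((hpE u).mpr ⟨hu, hc⟩)
  rcases S1 htf P E hai hinf hco hn with hs | ⟨H, hH, hne, _⟩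
  · exact hnc hs
  · obtain ⟨j, hj⟩ := hind H hH
    exact hne j hj

/-- free decompositions of conjugates -/
theorem IsFP.map_conj {ι : Type} {H : ι → Subgroup G} {P : Subgroup G} (h : IsFP H P) (t : G) :
    IsFP (fun i => (H i).map (MulAut.conj t).toMonoidHom) (P.map (MulAut.conj t).toMonoidHom) := by
  have hinj : Function.Injective (MulAut.conj t).toMonoidHom := (MulAut.conj t).injective
  let e : ∀ i, H i ≃* (H i).map (MulAut.conj t).toMonoidHom := fun i =>
    (H i).equivMapOfInjective _ hinj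
  let ψ : Monoid.CoprodI (fun i => H i) →*
      Monoid.CoprodI (fun i => ((H i).map (MulAut.conj t).toMonoidHom : Subgroup G)) :=
    Monoid.CoprodI.lift fun i => (Monoid.CoprodI.of (M := fun i =>
      ((H i).map (MulAut.conj t).toMonoidHom : Subgroup G)) (i := i)).comp (e i).toMonoidHom
  let φ : Monoid.CoprodI (fun i => ((H i).map (MulAut.conj t).toMonoidHom : Subgroup G)) →*
      Monoid.CoprodI (fun i => H i) :=
    Monoid.CoprodI.lift fun i => (Monoid.CoprodI.of (M := fun i => H i) (i := i)).comp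
      (e i).symm.toMonoidHom
  have hψof : ∀ i (z : H i), ψ (Monoid.CoprodI.of (M := fun i => H i) z) = Monoid.CoprodI.of (M := fun i =>
      ((H i).map (MulAut.conj t).toMonoidHom : Subgroup G)) (e i z) := fun i z =>
    Monoid.CoprodI.lift_of _ _
  have hφof : ∀ i (z : ((H i).map (MulAut.conj t).toMonoidHom : Subgroup G)),
      φ (Monoid.CoprodI.of (M := fun i => ((H i).map (MulAut.conj t).toMonoidHom : Subgroup G)) z) =
        Monoid.CoprodI.of (M := fun i => H i) ((e i).symm z) := fun i z =>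
    Monoid.CoprodI.lift_of _ _
  have hψφ : ∀ w, ψ (φ w) = w := by
    intro w
    have : ψ.comp φ = MonoidHom.id _ := by
      refine Monoid.CoprodI.ext_hom _ _ fun i => MonoidHom.ext fun z => ?_
      change ψ (φ (Monoid.CoprodI.of (M := fun i =>
        ((H i).map (MulAut.conj t).toMonoidHom : Subgroup G)) z)) = Monoid.CoprodI.of (M := fun i =>
        ((H i).map (MulAut.conj t).toMonoidHom : Subgroup G)) z
      rw [hφof, hψof, MulEquiv.apply_symm_apply]
    exact DFunLike.congr_fun this w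
  have hlift : ∀ v, Monoid.CoprodI.lift
      (fun i => ((H i).map (MulAut.conj t).toMonoidHom : Subgroup G).subtype) (ψ v) =
      MulAut.conj t (Monoid.CoprodI.lift (fun i => (H i).subtype) v) := by
    intro v
    have : (Monoid.CoprodI.lift
        (fun i => ((H i).map (MulAut.conj t).toMonoidHom : Subgroup G).subtype)).comp ψ =
        (MulAut.conj t).toMonoidHom.comp (Monoid.CoprodI.lift (fun i => (H i).subtype)) := by
      refine Monoid.CoprodI.ext_hom _ _ fun i => MonoidHom.ext fun z => ?_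
      change Monoid.CoprodI.lift (fun i => ((H i).map (MulAut.conj t).toMonoidHom : Subgroup G).subtype)
          (ψ (Monoid.CoprodI.of (M := fun i => H i) z)) =
        MulAut.conj t (Monoid.CoprodI.lift (fun i => (H i).subtype)
          (Monoid.CoprodI.of (M := fun i => H i) z))
      rw [hψof, Monoid.CoprodI.lift_of, Monoid.CoprodI.lift_of]
      rfl
    exact DFunLike.congr_fun this v
  refine ⟨?_, ?_⟩
  · intro w w' hww
    rw [← hψφ w, ← hψφ w', hlift, hlift] at hww
    have h1 := h.1 ((MulAut.conj t).injective hww)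
    rw [← hψφ w, ← hψφ w', h1]
  · rw [← Subgroup.map_iSup, h.2]

end WQ
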