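import Pool.Agent.Lib.MP_0c5642_al.W.G0

/-! ROW w-H3b. -/

set_option autoImplicit false

namespace WQ

open scoped Pointwise

variable {G : Type*} [Group G]

/-- ROW w-H3b: generation is preserved when `t` is replaced by a power. -/
theorem gen_pow (t : G) (V : ℕ → Subgroup G) (hmono : Monotone V)
    (hstep : ∀ k, (V k).map (MulAut.conj t).toMonoidHom ≤ V (k + 1))
    (hgen : ∀ R : Subgroup G, V 0 ≤ R → R.map (MulAut.conj t).toMonoidHom ≤ R → (⨆ l, V l) ≤ R)
    (n : ℕ) (hn : 0 < n) (R : Subgroup G) (hR : V n ≤ R) (hRt : R.map (MulAut.conj (t ^ n)).toMonoidHom ≤ R) :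
    (⨆ l, V l) ≤ R := by
  -- conjugation by `t ^ i` moves `V 0` into `V i`
  have hstep' : ∀ k, ∀ g ∈ V k, t * g * t⁻¹ ∈ V (k + 1) := fun k g hg =>
    hstep k ⟨g, hg, rfl⟩
  have hRt' : ∀ g ∈ R, t ^ n * g * (t ^ n)⁻¹ ∈ R := fun g hg => hRt ⟨g, hg, rfl⟩
  have hV : ∀ i, ∀ g ∈ V 0, t ^ i * g * (t ^ i)⁻¹ ∈ V i := by
    intro i
    induction i with
    | zero =>
      intro g hg
      simpa using hg
    | succ i ih =>
      intro g hg
      have h1 := hstep' i _ (ih g hg)
      have h2 : t * (t ^ i * g * (t ^ i)⁻¹) * t⁻¹ = t ^ (i + 1) * g * (t ^ (i + 1))⁻¹ := by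
        rw [pow_succ' t i, mul_inv_rev]
        group
      rwa [h2] at h1
  have hRq : ∀ q, ∀ g ∈ R, t ^ (n * q) * g * (t ^ (n * q))⁻¹ ∈ R := by
    intro q
    induction q with
    | zero =>
      intro g hg
      simpa using hg
    | succ q ih =>
      intro g hg
      have h1 := hRt' _ (ih g hg)
      have h2 : t ^ n * (t ^ (n * q) * g * (t ^ (n * q))⁻¹) * (t ^ n)⁻¹ =
          t ^ (n * (q + 1)) * g * (t ^ (n * (q + 1)))⁻¹ := by
        have e : t ^ (n * (q + 1)) = t ^ n * t ^ (n * q) := by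
          rw [← pow_add]
          congr 1
          ring
        rw [e, mul_inv_rev]
        group
      rwa [h2] at h1
  -- the subgroup of the elements whose conjugates by all powers of `t` are in `R`
  let R' : Subgroup G :=
    { carrier := {g | ∀ i : ℕ, t ^ i * g * (t ^ i)⁻¹ ∈ R}
      mul_mem' := by
        intro a b ha hb i
        have h1 := R.mul_mem (ha i) (hb i)
        have h2 : t ^ i * a * (t ^ i)⁻¹ * (t ^ i * b * (t ^ i)⁻¹) =
            t ^ i * (a * b) * (t ^ i)⁻¹ := by group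
        rwa [h2] at h1
      one_mem' := by
        intro i
        have h2 : t ^ i * 1 * (t ^ i)⁻¹ = 1 := by group
        rw [h2]
        exact R.one_mem
      inv_mem' := by
        intro a ha i
        have h1 := R.inv_mem (ha i)
        have h2 : (t ^ i * a * (t ^ i)⁻¹)⁻¹ = t ^ i * a⁻¹ * (t ^ i)⁻¹ := by group
        rwa [h2] at h1 }
  have hmem : ∀ g, g ∈ R' ↔ ∀ i : ℕ, t ^ i * g * (t ^ i)⁻¹ ∈ R := fun g => Iff.rfl
  have h0 : V 0 ≤ R' := by
    intro g hg
    rw [hmem]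
    intro i
    have e1 : i = n * (i / n) + i % n := (Nat.div_add_mod i n).symm
    have h1 : t ^ (i % n) * g * (t ^ (i % n))⁻¹ ∈ R :=
      hR (hmono (Nat.mod_lt i hn).le (hV (i % n) g hg))
    have h2 := hRq (i / n) _ h1
    have h3 : t ^ (n * (i / n)) * (t ^ (i % n) * g * (t ^ (i % n))⁻¹) *
        (t ^ (n * (i / n)))⁻¹ = t ^ i * g * (t ^ i)⁻¹ := by
      have e : t ^ i = t ^ (n * (i / n)) * t ^ (i % n) := by rw [← pow_add, ← e1]
      rw [e, mul_inv_rev]
      group
    rwa [h3] at h2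
  have h1 : R'.map (MulAut.conj t).toMonoidHom ≤ R' := by
    rintro _ ⟨g, hg, rfl⟩
    show t * g * t⁻¹ ∈ R'
    rw [hmem]
    intro i
    have h2 := (hmem g).1 hg (i + 1)
    have h3 : t ^ (i + 1) * g * (t ^ (i + 1))⁻¹ = t ^ i * (t * g * t⁻¹) * (t ^ i)⁻¹ := by
      rw [pow_succ t i, mul_inv_rev]
      group
    rwa [h3] at h2
  refine (hgen R' h0 h1).trans ?_
  intro g hg
  have h2 := (hmem g).1 hg 0
  simpa using h2

end WQ
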