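import Pool.Agent.Lib.MP_0c5642_al.W.F2a
import Pool.Agent.Lib.MP_0c5642_al.W.H2a
import Pool.Agent.Lib.MP_0c5642_al.W.H2d
import Pool.Agent.Lib.MP_0c5642_al.W.A4a

/-! ROW w-H3c (7.3): infinite index. -/

set_option autoImplicit false

namespace WQ

open scoped Pointwise

variable {G : Type*} [Group G]

theorem H3c_conj_conj (P : Subgroup G) (s t : G) :
    (P.map (MulAut.conj t).toMonoidHom).map (MulAut.conj s).toMonoidHom = P.map (MulAut.conj (s * t)).toMonoidHom := by
  rw [Subgroup.map_map]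
  congr 1
  ext x
  simp [MulAut.conj_apply, mul_assoc]

theorem H3c_conj_one (P : Subgroup G) : P.map (MulAut.conj (1 : G)).toMonoidHom = P := by
  ext x
  simp [Subgroup.mem_map]

/-- `τ^k = g' t^(n k)` -/
theorem H3c_pow (t : G) (M : Subgroup G) (hM : M.map (MulAut.conj t).toMonoidHom ≤ M) (n : ℕ) {g : G} (hg : g ∈ M) (k : ℕ) :
    ∃ g' ∈ M, (g * t ^ n) ^ k = g' * t ^ (n * k) := by
  have hMn : ∀ k : ℕ, M.map (MulAut.conj (t ^ k)).toMonoidHom ≤ M := by
    intro k
    induction k with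
    | zero => rw [pow_zero, H3c_conj_one]
    | succ k ih =>
      rw [pow_succ', ← H3c_conj_conj]
      exact (Subgroup.map_mono ih).trans hM
  induction k with
  | zero => exact ⟨1, M.one_mem, by simp⟩
  | succ k ih =>
    obtain ⟨g', hg', he⟩ := ih
    refine ⟨g * (t ^ n * g' * (t ^ n)⁻¹), M.mul_mem hg (hMn n ⟨g', hg', rfl⟩), ?_⟩
    rw [pow_succ', he, Nat.mul_succ, Nat.add_comm, pow_add]
    simp only [mul_assoc, inv_mul_cancel_left]

/-- a finitely generated subgroup of `L` in the kernel is conjugated into `X` by some power of `τ` -/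
theorem H3c_fg (χ : G →* Multiplicative ℤ) (τ : G) (hτ : χ τ ≠ 1) (X Y : Subgroup G) (hYX : Y ≤ X) (hX : X ≤ χ.ker)
    (hτX : X.map (MulAut.conj τ).toMonoidHom ≤ X) (P : Subgroup G) (hP : P.FG) (hPL : P ≤ Y ⊔ Subgroup.zpowers τ)
    (hPk : P ≤ χ.ker) : ∃ k : ℕ, P.map (MulAut.conj (τ ^ k)).toMonoidHom ≤ X := by
  classical
  obtain ⟨S, hS⟩ := hP
  have hmem : ∀ x ∈ S, x ∈ P := fun x hx => hS ▸ Subgroup.subset_closure hx
  have h1 : ∀ x : G, ∃ n : ℕ, x ∈ S → τ ^ n * x * (τ ^ n)⁻¹ ∈ X := by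
    intro x
    by_cases hx : x ∈ S
    · obtain ⟨n, hn⟩ := mem_ker_L χ τ hτ X Y hYX hX hτX (hPL (hmem x hx)) (hPk (hmem x hx))
      exact ⟨n, fun _ => hn⟩
    · exact ⟨0, fun h => absurd h hx⟩
  choose n hn using h1
  refine ⟨S.sup n, ?_⟩
  rw [← hS, MonoidHom.map_closure, Subgroup.closure_le]
  rintro _ ⟨x, hx, rfl⟩
  have h2 := hn x hx
  have hle : n x ≤ S.sup n := Finset.le_sup (f := n) hx
  obtain ⟨d, hd⟩ := Nat.exists_eq_add_of_le hle
  rw [hd]
  clear hd
  induction d with
  | zero => exact h2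
  | succ d ih =>
    apply hτX
    refine ⟨_, ih, ?_⟩
    simp only [MulEquiv.toMonoidHom_eq_coe, MonoidHom.coe_coe, MulAut.conj_apply]
    rw [← add_assoc, pow_succ' τ (n x + d)]
    simp only [mul_inv_rev, mul_assoc]

/-- (7.3): the subgroup `L = ⟨Y, τ⟩`, `τ = g⁻¹ t^n`, has infinite index. Otherwise `U ⊓ L` has finite index in `U`; by `mem_ker_L` and since `X j` is mapped into itself by `τ`, some `τ^k` conjugates the finitely generated
group `U ⊓ L` into `X j`. Since `τ^k = g' t^(n k)` with `g' ∈ M`, a finite index subgroup of `t^(nk) U t^(-nk)` is conjugate in `M` into `X j`, hence elliptic for `E = Br X i` (`IsFP.ell_Br`, `split_conj`), so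
`t^(nk) U t^(-nk)` is elliptic for `E` (`ell_of_finiteIndex`) and `E` is trivial by `NF`; but `m ≥ 2`. -/
theorem index_eq_zero (htf : ∀ g : G, IsOfFinOrder g → g = 1) (t : G) (χ : G →* Multiplicative ℤ) (hχt : χ t ≠ 1)
    (M : Subgroup G) (hMχ : M ≤ χ.ker) (hM : M.map (MulAut.conj t).toMonoidHom ≤ M)
    (U : Subgroup G) (hU : U.FG) (hUne : U ≠ ⊥) (hUM : U ≤ M)
    (hNF : ∀ k : ℕ, NF (U.map (MulAut.conj (t ^ k)).toMonoidHom) M)
    {m : ℕ} {X : Fin m → Subgroup G} (hm : 2 ≤ m) (hX : IsFP X M) (hne : ∀ i, X i ≠ ⊥)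
    (j : Fin m) (Y : Subgroup G) (hYX : Y ≤ X j)
    (n : ℕ) (hn : 0 < n) (g : G) (hg : g ∈ M)
    (hτX : (X j).map (MulAut.conj (g⁻¹ * t ^ n)).toMonoidHom ≤ X j) :
    (Y ⊔ Subgroup.zpowers (g⁻¹ * t ^ n) : Subgroup G).index = 0 := by
  classical
  by_contra hidx
  set τ := g⁻¹ * t ^ n with hτdef
  set L := Y ⊔ Subgroup.zpowers τ with hL
  have hχτ : χ τ ≠ 1 := by
    have h1 : χ g = 1 := hMχ hg
    rw [hτdef, map_mul, map_inv, h1, inv_one, one_mul, map_pow]
    intro h2
    have h3 := congrArg Multiplicative.toAdd h2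
    rw [toAdd_pow, toAdd_one, smul_eq_zero] at h3
    rcases h3 with h3 | h3
    · omega
    · exact hχt (Multiplicative.toAdd.injective h3)
  -- the finite index subgroup of `U`
  have hLf : L.FiniteIndex := ⟨hidx⟩
  have hUfg : Group.FG U := (Group.fg_iff_subgroup_fg U).mpr hU
  have hPfg : (L ⊓ U).FG := by
    have h1 : Group.FG (L.subgroupOf U) := inferInstance
    have h2 : (L.subgroupOf U).FG := (Group.fg_iff_subgroup_fg _).mp h1
    rw [← Subgroup.subgroupOf_map_subtype]
    obtain ⟨S, hS⟩ := h2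
    refine ⟨S.image U.subtype, ?_⟩
    rw [Finset.coe_image, ← MonoidHom.map_closure, hS]
  have hrel : (L ⊓ U).relIndex U ≠ 0 := by
    rw [Subgroup.inf_relIndex_right]
    exact (inferInstance : (L.subgroupOf U).FiniteIndex).index_ne_zero
  have hUinf : (U : Set G).Infinite := infinite_of_ne_bot htf hUne
  have hPinf : ((L ⊓ U : Subgroup G) : Set G).Infinite := by
    intro hfin
    apply hUinf
    have h1 : Finite (L.subgroupOf U) := by
      have h2 : Finite (L ⊓ U : Subgroup G) := hfin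
      have h3 : (((L.subgroupOf U).map U.subtype : Subgroup G) : Set G).Finite := by
        rw [Subgroup.subgroupOf_map_subtype]; exact hfin
      have h4 : ((L.subgroupOf U : Subgroup U) : Set U).Finite := by
        refine Set.Finite.of_finite_image (f := U.subtype) ?_ (Set.injOn_of_injective U.subtype_injective)
        exact h3
      exact h4
    have h2 : Finite U := by
      have h3 : (L.subgroupOf U).index ≠ 0 := (inferInstance : (L.subgroupOf U).FiniteIndex).index_ne_zero
      have h4 := Subgroup.card_mul_index (L.subgroupOf U)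
      have h5 : Nat.card U ≠ 0 := by
        rw [← h4]
        exact Nat.mul_ne_zero Nat.card_pos.ne' h3
      exact Nat.finite_of_card_ne_zero h5
    exact Set.toFinite _
  obtain ⟨k, hk⟩ := H3c_fg χ τ hχτ (X j) Y hYX ((hX.le j).trans hMχ) hτX (L ⊓ U) hPfg inf_le_left
    (inf_le_right.trans (hUM.trans hMχ))
  obtain ⟨g', hg', hτk⟩ := H3c_pow t M hM n (M.inv_mem hg) k
  rw [← hτdef] at hτk
  have hMn : ∀ k : ℕ, M.map (MulAut.conj (t ^ k)).toMonoidHom ≤ M := by
    intro k
    induction k with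
    | zero => rw [pow_zero, H3c_conj_one]
    | succ k ih =>
      rw [pow_succ', ← H3c_conj_conj]
      exact (Subgroup.map_mono ih).trans hM
  set P' := (L ⊓ U).map (MulAut.conj (t ^ (n * k))).toMonoidHom with hP'
  have hP'X : P' ≤ (X j).map (MulAut.conj g'⁻¹).toMonoidHom := by
    rw [hτk, ← H3c_conj_conj] at hk
    have h1 := Subgroup.map_mono (f := (MulAut.conj g'⁻¹).toMonoidHom) hk
    rw [H3c_conj_conj, inv_mul_cancel, H3c_conj_one] at h1
    exact h1
  -- two factors
  obtain ⟨i, i', hii⟩ : ∃ i i' : Fin m, i' ≠ i := ⟨⟨0, by omega⟩, ⟨1, by omega⟩, by simp [Fin.ext_iff]⟩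
  have hai := hX.AI_Br i
  have hellX : Ell ((X j).map (MulAut.conj g'⁻¹).toMonoidHom) (Br X i) := by
    intro x hx
    rw [split_conj hai (M.inv_mem hg')] at hx
    exact hX.ell_Br i j _ hx
  have hellP : Ell P' (Br X i) := hellX.mono hP'X
  have hinj : Function.Injective (MulAut.conj (t ^ (n * k))).toMonoidHom := (MulAut.conj (t ^ (n * k))).injective
  have hellU : Ell (U.map (MulAut.conj (t ^ (n * k))).toMonoidHom) (Br X i) := by
    refine ell_of_finiteIndex hai ((Subgroup.map_mono hUM).trans (hMn (n * k))) (Subgroup.map_mono inf_le_right) ?_ ?_ hellP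
    · rw [Subgroup.relIndex_map_map_of_injective _ _ hinj]
      exact hrel
    · rw [Subgroup.coe_map]
      exact hPinf.image hinj.injOn
  rcases hNF (n * k) (Br X i) hai hellU with hfin | hfin
  · apply infinite_of_ne_bot htf (hne i')
    exact hfin.subset (fun x hx => hX.mem_Br_of_mem hii.symm hx)
  · apply infinite_of_ne_bot htf (hne i)
    refine ((hfin.union (Set.finite_singleton 1))).subset ?_
    intro x hx
    by_cases hxB : x ∈ Br X i
    · right
      exact hX.mem_Br_self hx hxB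
    · left
      exact ⟨hX.le i hx, hxB⟩

end WQ
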