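import Pool.Agent.Lib.MP_0c5642_al.W.B0

/-! ROW w-I1a: a surjection onto `ℤ` killing `r`. -/

set_option autoImplicit false

namespace WQ

open scoped Pointwise

theorem I1a_orth (p q : ℤ) : ∃ u v x y : ℤ, u * p + v * q = 0 ∧ u * x + v * y = 1 := by
  by_cases h : p = 0 ∧ q = 0
  · exact ⟨1, 0, 1, 0, by rw [h.1, h.2]; ring, by ring⟩
  · have hg : (Int.gcd p q : ℤ) ≠ 0 := by
      intro h0
      apply h
      exact Int.gcd_eq_zero_iff.1 (by exact_mod_cast h0)
    obtain ⟨a, ha⟩ := Int.gcd_dvd_left (a := p) (b := q)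
    obtain ⟨b, hb⟩ := Int.gcd_dvd_right (a := p) (b := q)
    have hbez := Int.gcd_eq_gcd_ab p q
    refine ⟨b, -a, Int.gcdB p q, -Int.gcdA p q, ?_, ?_⟩
    · have e1 : b * p - a * q = 0 := by
        have h1 : b * ((Int.gcd p q : ℤ) * a) - a * ((Int.gcd p q : ℤ) * b) = 0 := by ring
        rw [← ha, ← hb] at h1
        exact h1
      linarith [e1]
    · have h2 : (Int.gcd p q : ℤ) * (b * Int.gcdB p q + -a * -Int.gcdA p q) = (Int.gcd p q : ℤ) * 1 := by
        have e2 : (Int.gcd p q : ℤ) * (b * Int.gcdB p q + -a * -Int.gcdA p q) =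
            ((Int.gcd p q : ℤ) * a) * Int.gcdA p q + ((Int.gcd p q : ℤ) * b) * Int.gcdB p q := by ring
        rw [e2, ← ha, ← hb, mul_one]
        exact hbez.symm
      exact mul_left_cancel₀ hg h2

/-- ROW w-I1a: a surjection of the free group of rank two onto `ℤ` killing `r`. (Exponent sums `p`, `q` of `r`; primitive vector orthogonal to `(p, q)`.) -/
theorem exists_surj (r : FreeGroup (Fin 2)) :
    ∃ χ : FreeGroup (Fin 2) →* Multiplicative ℤ, Function.Surjective χ ∧ χ r = 1 := by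
  obtain ⟨α, ha0, ha1⟩ : ∃ α : FreeGroup (Fin 2) →* Multiplicative ℤ,
      α (FreeGroup.of 0) = Multiplicative.ofAdd 1 ∧ α (FreeGroup.of 1) = 1 :=
    ⟨FreeGroup.lift ![Multiplicative.ofAdd 1, 1], by simp, by simp⟩
  obtain ⟨β, hb0, hb1⟩ : ∃ β : FreeGroup (Fin 2) →* Multiplicative ℤ,
      β (FreeGroup.of 0) = 1 ∧ β (FreeGroup.of 1) = Multiplicative.ofAdd 1 :=
    ⟨FreeGroup.lift ![1, Multiplicative.ofAdd 1], by simp, by simp⟩
  obtain ⟨u, v, x, y, h1, h2⟩ := I1a_orth (Multiplicative.toAdd (α r)) (Multiplicative.toAdd (β r))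
  refine ⟨α ^ u * β ^ v, ?_, ?_⟩
  · intro n
    refine ⟨FreeGroup.of 0 ^ (x * Multiplicative.toAdd n) * FreeGroup.of 1 ^ (y * Multiplicative.toAdd n), ?_⟩
    rw [MonoidHom.mul_apply]
    change (α _) ^ u * (β _) ^ v = n
    rw [map_mul, map_mul, map_zpow, map_zpow, map_zpow, map_zpow, ha0, ha1, hb0, hb1]
    apply Multiplicative.toAdd.injective
    simp only [one_zpow, mul_one, one_mul, toAdd_mul, toAdd_zpow, toAdd_ofAdd, smul_eq_mul]
    have : u * (x * Multiplicative.toAdd n) + v * (y * Multiplicative.toAdd n) =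
        (u * x + v * y) * Multiplicative.toAdd n := by ring
    rw [this, h2, one_mul]
  · rw [MonoidHom.mul_apply]
    change (α r) ^ u * (β r) ^ v = 1
    apply Multiplicative.toAdd.injective
    simp only [toAdd_mul, toAdd_zpow, toAdd_one, smul_eq_mul]
    exact h1

end WQ
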