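import Pool.Agent.Lib.MP_0c5642_al.W.B0

/-! ROW w-I1b: standard form of a surjection onto `ℤ`. -/

set_option autoImplicit false

namespace WQ

open scoped Pointwise

theorem I1b_aut {a b c d : FreeGroup (Fin 2)}
    (h1 : FreeGroup.lift ![a, b] c = FreeGroup.of 0) (h2 : FreeGroup.lift ![a, b] d = FreeGroup.of 1)
    (h3 : FreeGroup.lift ![c, d] a = FreeGroup.of 0) (h4 : FreeGroup.lift ![c, d] b = FreeGroup.of 1) :
    ∃ α : FreeGroup (Fin 2) ≃* FreeGroup (Fin 2), α (FreeGroup.of 0) = a ∧ α (FreeGroup.of 1) = b := by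
  have e1 : (FreeGroup.lift ![c, d]).comp (FreeGroup.lift ![a, b]) = MonoidHom.id (FreeGroup (Fin 2)) := by
    refine FreeGroup.ext_hom _ _ fun i => ?_
    rw [MonoidHom.comp_apply, FreeGroup.lift_apply_of, MonoidHom.id_apply]
    fin_cases i
    · exact h3
    · exact h4
  have e2 : (FreeGroup.lift ![a, b]).comp (FreeGroup.lift ![c, d]) = MonoidHom.id (FreeGroup (Fin 2)) := by
    refine FreeGroup.ext_hom _ _ fun i => ?_
    rw [MonoidHom.comp_apply, FreeGroup.lift_apply_of, MonoidHom.id_apply]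
    fin_cases i
    · exact h1
    · exact h2
  refine ⟨MonoidHom.toMulEquiv (FreeGroup.lift ![a, b]) (FreeGroup.lift ![c, d]) e1 e2, ?_, ?_⟩
  · exact FreeGroup.lift_apply_of
  · exact FreeGroup.lift_apply_of

theorem I1b_swap : ∃ α : FreeGroup (Fin 2) ≃* FreeGroup (Fin 2),
    α (FreeGroup.of 0) = FreeGroup.of 1 ∧ α (FreeGroup.of 1) = FreeGroup.of 0 := by
  apply I1b_aut (c := FreeGroup.of 1) (d := FreeGroup.of 0) <;> simp [FreeGroup.lift_apply_of]

theorem I1b_inv : ∃ α : FreeGroup (Fin 2) ≃* FreeGroup (Fin 2),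
    α (FreeGroup.of 0) = FreeGroup.of 0 ∧ α (FreeGroup.of 1) = (FreeGroup.of 1)⁻¹ := by
  apply I1b_aut (c := FreeGroup.of 0) (d := (FreeGroup.of 1)⁻¹) <;> simp [FreeGroup.lift_apply_of]

theorem I1b_nu (ε : ℤ) : ∃ α : FreeGroup (Fin 2) ≃* FreeGroup (Fin 2),
    α (FreeGroup.of 0) = FreeGroup.of 0 ∧ α (FreeGroup.of 1) = FreeGroup.of 1 * (FreeGroup.of 0) ^ ε := by
  apply I1b_aut (c := FreeGroup.of 0) (d := FreeGroup.of 1 * (FreeGroup.of 0) ^ (-ε)) <;>
    simp [FreeGroup.lift_apply_of]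

theorem I1b_mu (ε : ℤ) : ∃ α : FreeGroup (Fin 2) ≃* FreeGroup (Fin 2),
    α (FreeGroup.of 0) = FreeGroup.of 0 * (FreeGroup.of 1) ^ ε ∧ α (FreeGroup.of 1) = FreeGroup.of 1 := by
  apply I1b_aut (c := FreeGroup.of 0 * (FreeGroup.of 1) ^ (-ε)) (d := FreeGroup.of 1) <;>
    simp [FreeGroup.lift_apply_of]

theorem I1b_eps (p q : ℤ) (hp : p ≠ 0) (h : p.natAbs ≤ q.natAbs) : ∃ ε : ℤ, (q + ε * p).natAbs < q.natAbs := by
  have h1 : ∃ ε : ℤ, (ε = 1 ∨ ε = -1) ∧ (q + ε * p).natAbs < q.natAbs := by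
    rcases le_or_gt 0 p with h0 | h0 <;> rcases le_or_gt 0 q with h2 | h2
    · exact ⟨-1, Or.inr rfl, by omega⟩
    · exact ⟨1, Or.inl rfl, by omega⟩
    · exact ⟨1, Or.inl rfl, by omega⟩
    · exact ⟨-1, Or.inr rfl, by omega⟩
  obtain ⟨ε, _, h⟩ := h1
  exact ⟨ε, h⟩

theorem I1b_euclid (N : ℕ) : ∀ χ : FreeGroup (Fin 2) →* Multiplicative ℤ,
    (Multiplicative.toAdd (χ (FreeGroup.of 0))).natAbs + (Multiplicative.toAdd (χ (FreeGroup.of 1))).natAbs ≤ N →
      ∃ α : FreeGroup (Fin 2) ≃* FreeGroup (Fin 2), χ (α (FreeGroup.of 0)) = 1 := by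
  induction N with
  | zero =>
    intro χ h
    refine ⟨MulEquiv.refl _, ?_⟩
    have h0 : Multiplicative.toAdd (χ (FreeGroup.of 0)) = 0 := by omega
    exact h0
  | succ N ih =>
    intro χ h
    by_cases hp : Multiplicative.toAdd (χ (FreeGroup.of 0)) = 0
    · exact ⟨MulEquiv.refl _, hp⟩
    by_cases hq : Multiplicative.toAdd (χ (FreeGroup.of 1)) = 0
    · obtain ⟨α, h1, _⟩ := I1b_swap
      exact ⟨α, by rw [h1]; exact hq⟩
    rcases le_or_gt (Multiplicative.toAdd (χ (FreeGroup.of 0))).natAbs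
      (Multiplicative.toAdd (χ (FreeGroup.of 1))).natAbs with hle | hlt
    · obtain ⟨ε, hε⟩ := I1b_eps _ _ hp hle
      obtain ⟨ν, h1, h2⟩ := I1b_nu ε
      obtain ⟨α, hα⟩ := ih (χ.comp ν.toMonoidHom) (by
        have e1 : (χ.comp ν.toMonoidHom) (FreeGroup.of 0) = χ (FreeGroup.of 0) := congrArg χ h1
        have e2 : (χ.comp ν.toMonoidHom) (FreeGroup.of 1) = χ (FreeGroup.of 1) * χ (FreeGroup.of 0) ^ ε := by
          have e3 : (χ.comp ν.toMonoidHom) (FreeGroup.of 1) = χ (ν (FreeGroup.of 1)) := rfl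
          rw [e3, h2, map_mul, map_zpow]
        rw [e1, e2, toAdd_mul, toAdd_zpow, smul_eq_mul]
        omega)
      exact ⟨α.trans ν, hα⟩
    · obtain ⟨ε, hε⟩ := I1b_eps _ _ hq hlt.le
      obtain ⟨ν, h1, h2⟩ := I1b_mu ε
      obtain ⟨α, hα⟩ := ih (χ.comp ν.toMonoidHom) (by
        have e1 : (χ.comp ν.toMonoidHom) (FreeGroup.of 1) = χ (FreeGroup.of 1) := congrArg χ h2
        have e2 : (χ.comp ν.toMonoidHom) (FreeGroup.of 0) = χ (FreeGroup.of 0) * χ (FreeGroup.of 1) ^ ε := by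
          have e3 : (χ.comp ν.toMonoidHom) (FreeGroup.of 0) = χ (ν (FreeGroup.of 0)) := rfl
          rw [e3, h1, map_mul, map_zpow]
        rw [e1, e2, toAdd_mul, toAdd_zpow, smul_eq_mul]
        omega)
      exact ⟨α.trans ν, hα⟩

/-- ROW w-I1b: every surjection onto `ℤ` is standard after an automorphism (Euclid's algorithm with Nielsen moves on `(χ (of 0), χ (of 1))`). -/
theorem exists_aut (χ : FreeGroup (Fin 2) →* Multiplicative ℤ) (h : Function.Surjective χ) :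
    ∃ α : FreeGroup (Fin 2) ≃* FreeGroup (Fin 2),
      χ (α (FreeGroup.of 0)) = 1 ∧ χ (α (FreeGroup.of 1)) = Multiplicative.ofAdd 1 := by
  obtain ⟨α, hα⟩ := I1b_euclid _ χ le_rfl
  obtain ⟨w, hw⟩ := h (Multiplicative.ofAdd 1)
  have hc : (Subgroup.zpowers (χ (α (FreeGroup.of 1)))).comap (χ.comp α.toMonoidHom) = ⊤ := by
    rw [eq_top_iff, ← FreeGroup.closure_range_of, Subgroup.closure_le]
    rintro _ ⟨i, rfl⟩
    show χ (α (FreeGroup.of i)) ∈ Subgroup.zpowers (χ (α (FreeGroup.of 1)))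
    fin_cases i
    · show χ (α (FreeGroup.of 0)) ∈ Subgroup.zpowers (χ (α (FreeGroup.of 1)))
      rw [hα]
      exact Subgroup.one_mem _
    · exact Subgroup.mem_zpowers _
  have hm : α.symm w ∈ (Subgroup.zpowers (χ (α (FreeGroup.of 1)))).comap (χ.comp α.toMonoidHom) := by
    rw [hc]
    exact Subgroup.mem_top _
  obtain ⟨n, hn⟩ := Subgroup.mem_zpowers_iff.1 (Subgroup.mem_comap.1 hm)
  have hn' : (χ (α (FreeGroup.of 1))) ^ n = Multiplicative.ofAdd 1 := by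
    rw [hn]
    show χ (α (α.symm w)) = _
    rw [MulEquiv.apply_symm_apply, hw]
  have hmul : n * Multiplicative.toAdd (χ (α (FreeGroup.of 1))) = 1 := by
    have e := congrArg Multiplicative.toAdd hn'
    rw [toAdd_zpow, smul_eq_mul] at e
    exact e
  have hu : Multiplicative.toAdd (χ (α (FreeGroup.of 1))) = 1 ∨
      Multiplicative.toAdd (χ (α (FreeGroup.of 1))) = -1 :=
    Int.isUnit_iff.1 (IsUnit.of_mul_eq_one_right n hmul)
  rcases hu with hu | hu
  · exact ⟨α, hα, hu⟩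
  · obtain ⟨β, hb0, hb1⟩ := I1b_inv
    refine ⟨β.trans α, ?_, ?_⟩
    · show χ (α (β (FreeGroup.of 0))) = 1
      rw [hb0, hα]
    · show χ (α (β (FreeGroup.of 1))) = Multiplicative.ofAdd 1
      rw [hb1, map_inv, map_inv]
      have e : Multiplicative.toAdd ((χ (α (FreeGroup.of 1)))⁻¹) = 1 := by
        rw [toAdd_inv, hu, neg_neg]
      exact e

end WQ
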