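import Pool.Agent.Lib.MP_0c5642_al.W.B0

/-! ROW w-I1c: windows. -/

set_option autoImplicit false

namespace WQ

open scoped Pointwise

/-- the standard map to the integers -/
private noncomputable def I1c_chi : FreeGroup (Fin 2) →* Multiplicative ℤ :=
  FreeGroup.lift (fun i : Fin 2 => if i = 0 then (1 : Multiplicative ℤ) else Multiplicative.ofAdd 1)

private theorem I1c_conj {G : Type*} [Group G] (a t : G) {i j : ℤ} (k : ℤ) {x : G} (hx : x ∈ VI a t i j) :
    t ^ k * x * (t ^ k)⁻¹ ∈ VI a t (i + k) (j + k) := by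
  rw [← VI_conj]
  exact ⟨x, hx, rfl⟩

private theorem I1c_main (w : FreeGroup (Fin 2)) :
    ∃ (p : ℤ) (M : ℕ), I1c_chi w = Multiplicative.ofAdd p ∧
      w * ((FreeGroup.of (1 : Fin 2)) ^ p)⁻¹ ∈ VI (FreeGroup.of (0 : Fin 2)) (FreeGroup.of 1) (-M) (M + 1) := by
  have ha0 : (FreeGroup.of (0 : Fin 2)) ∈ VI (FreeGroup.of (0 : Fin 2)) (FreeGroup.of 1) (-((0 : ℕ) : ℤ)) (((0 : ℕ) : ℤ) + 1) := by
    have h1 := aa_mem_VI (FreeGroup.of (0 : Fin 2)) (FreeGroup.of 1) (i := -((0 : ℕ) : ℤ)) (j := ((0 : ℕ) : ℤ) + 1) (k := 0)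
      (by simp) (by simp)
    simpa [aa] using h1
  induction w using FreeGroup.induction_on with
  | C1 => exact ⟨0, 0, by simp, by simp [Subgroup.one_mem]⟩
  | of i =>
    fin_cases i
    · refine ⟨0, 0, ?_, ?_⟩
      · simp [I1c_chi]
      · simpa using ha0
    · refine ⟨1, 0, ?_, ?_⟩
      · simp [I1c_chi]
      · simp
  | inv_of i _ =>
    fin_cases i
    · refine ⟨0, 0, ?_, ?_⟩
      · simp [I1c_chi]
      · simpa using ha0
    · refine ⟨-1, 0, ?_, ?_⟩
      · simp [I1c_chi]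
      · simp
  | mul u v hu hv =>
    obtain ⟨p, M, hp, hM⟩ := hu
    obtain ⟨q, N, hq, hN⟩ := hv
    refine ⟨p + q, M + N + p.natAbs, ?_, ?_⟩
    · rw [map_mul, hp, hq, ofAdd_add]
    · have h1 := I1c_conj _ _ p hN
      have h2 : u * v * ((FreeGroup.of (1 : Fin 2)) ^ (p + q))⁻¹ =
          (u * ((FreeGroup.of (1 : Fin 2)) ^ p)⁻¹) *
            ((FreeGroup.of (1 : Fin 2)) ^ p * (v * ((FreeGroup.of (1 : Fin 2)) ^ q)⁻¹) * ((FreeGroup.of (1 : Fin 2)) ^ p)⁻¹) := by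
        rw [add_comm p q, zpow_add]
        group
      rw [h2]
      have h3 : ((M + N + p.natAbs : ℕ) : ℤ) = M + N + |p| := by
        push_cast
        ring
      have h4 := le_abs_self p
      have h5 := neg_abs_le p
      refine Subgroup.mul_mem _ (VI_mono _ _ ?_ ?_ hM) (VI_mono _ _ ?_ ?_ h1)
      · rw [h3]
        linarith
      · rw [h3]
        linarith
      · rw [h3]
        linarith
      · rw [h3]
        linarith

/-- ROW w-I1c: an element of the kernel of the standard map has a conjugate in some `VI a t 0 (N+1)`, `N ≥ 1` (write it as a product of `t^i a^± t^-i`), and it is the value of a nontrivial word. -/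
theorem exists_window (r : FreeGroup (Fin 2)) (hr1 : r ≠ 1)
    (hr : FreeGroup.lift (fun i : Fin 2 => if i = 0 then (1 : Multiplicative ℤ) else Multiplicative.ofAdd 1) r = 1) :
    ∃ (k : ℤ) (N : ℕ), 1 ≤ N ∧
      (FreeGroup.of (1 : Fin 2)) ^ k * r * ((FreeGroup.of (1 : Fin 2)) ^ k)⁻¹ ∈ VI (FreeGroup.of (0 : Fin 2)) (FreeGroup.of 1) 0 (N + 1) := by
  obtain ⟨p, M, hp, hM⟩ := I1c_main r
  have hp0 : p = 0 := by
    have h1 : I1c_chi r = 1 := hr
    rw [h1] at hp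
    have h2 := congrArg Multiplicative.toAdd hp
    simpa using h2.symm
  subst hp0
  rw [zpow_zero, inv_one, mul_one] at hM
  refine ⟨M, 2 * M + 1, by omega, ?_⟩
  refine VI_mono _ _ ?_ ?_ (I1c_conj _ _ (M : ℤ) hM)
  · omega
  · push_cast
    omega

theorem exists_word (r : FreeGroup (Fin 2)) (hr1 : r ≠ 1) (N : ℕ)
    (hr : r ∈ VI (FreeGroup.of (0 : Fin 2)) (FreeGroup.of 1) 0 (N + 1)) :
    ∃ w : FreeGroup ℤ, w ≠ 1 ∧ w ∈ Subgroup.closure (FreeGroup.of '' Set.Icc (0 : ℤ) N) ∧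
      FreeGroup.lift (aa (FreeGroup.of (0 : Fin 2)) (FreeGroup.of 1)) w = r := by
  have h1 : VI (FreeGroup.of (0 : Fin 2)) (FreeGroup.of 1) 0 (N + 1) =
      (Subgroup.closure (FreeGroup.of '' Set.Icc (0 : ℤ) N)).map
        (FreeGroup.lift (aa (FreeGroup.of (0 : Fin 2)) (FreeGroup.of 1))) := by
    rw [MonoidHom.map_closure, Set.image_image, VI]
    have h2 : Set.Icc (0 : ℤ) N = Set.Ico 0 ((N : ℤ) + 1) := by
      ext z
      simp only [Set.mem_Icc, Set.mem_Ico]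
      omega
    rw [h2]
    simp only [FreeGroup.lift_apply_of]
  rw [h1] at hr
  obtain ⟨w, hw, hwr⟩ := hr
  refine ⟨w, ?_, hw, hwr⟩
  rintro rfl
  apply hr1
  rw [← hwr]
  exact map_one _

end WQ
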