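import Pool.Agent.Lib.MP_0c5642_al.W.G2b
import Pool.Agent.Lib.MP_0c5642_al.W.G2c
import Pool.Agent.Lib.MP_0c5642_al.W.G3b
import Pool.Agent.Lib.MP_0c5642_al.W.H1a
import Pool.Agent.Lib.MP_0c5642_al.W.H1b
import Pool.Agent.Lib.MP_0c5642_al.W.H2c
import Pool.Agent.Lib.MP_0c5642_al.W.H3a
import Pool.Agent.Lib.MP_0c5642_al.W.H3b
import Pool.Agent.Lib.MP_0c5642_al.W.H3c

/-! Assembly, section 7. -/

set_option autoImplicit false

namespace WQ

open scoped Pointwise

variable {G : Type*} [Group G]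

theorem J1_conj_conj (P : Subgroup G) (s t : G) :
    (P.map (MulAut.conj t).toMonoidHom).map (MulAut.conj s).toMonoidHom = P.map (MulAut.conj (s * t)).toMonoidHom := by
  rw [Subgroup.map_map]
  congr 1
  ext x
  simp [MulAut.conj_apply, mul_assoc]

theorem J1_conj_one (P : Subgroup G) : P.map (MulAut.conj (1 : G)).toMonoidHom = P := by
  ext x
  simp [Subgroup.mem_map]

theorem J1_conj_inv (P : Subgroup G) (t : G) :
    (P.map (MulAut.conj t).toMonoidHom).map (MulAut.conj t⁻¹).toMonoidHom = P := by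
  rw [J1_conj_conj, inv_mul_cancel, J1_conj_one]

theorem J1_conj_bot {P : Subgroup G} {t : G} (h : P.map (MulAut.conj t).toMonoidHom = ⊥) : P = ⊥ := by
  have := J1_conj_inv P t
  rw [h, Subgroup.map_bot] at this
  exact this.symm

theorem J1_conj_mem {P : Subgroup G} {g : G} (hg : g ∈ P) : P.map (MulAut.conj g).toMonoidHom = P := by
  apply le_antisymm
  · rintro _ ⟨x, hx, rfl⟩
    exact P.mul_mem (P.mul_mem hg hx) (P.inv_mem hg)
  · intro x hx
    refine ⟨g⁻¹ * x * g, P.mul_mem (P.mul_mem (P.inv_mem hg) hx) hg, ?_⟩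
    simp [MulAut.conj_apply, mul_assoc]

theorem J1_cyclic_of_le {P : Subgroup G} {s : G} (h : P ≤ Subgroup.zpowers s) : ∃ z, P = Subgroup.zpowers z := by
  have hc : IsCyclic (Subgroup.zpowers s) := inferInstance
  have hP : IsCyclic P := by
    have : IsCyclic (P.subgroupOf (Subgroup.zpowers s)) := inferInstance
    exact (Subgroup.subgroupOfEquivOfLe h).isCyclic.mp this
  obtain ⟨z, hz⟩ := hP.exists_generator
  refine ⟨z, ?_⟩
  ext x
  constructor
  · intro hx
    obtain ⟨n, hn⟩ := hz ⟨x, hx⟩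
    exact ⟨n, congrArg Subtype.val hn⟩
  · rintro ⟨n, rfl⟩
    exact P.zpow_mem z.2 n

theorem J1_cyclic_conj {P : Subgroup G} {t : G} (h : ∃ s, P.map (MulAut.conj t).toMonoidHom = Subgroup.zpowers s) :
    ∃ s, P = Subgroup.zpowers s := by
  obtain ⟨s, hs⟩ := h
  refine ⟨MulAut.conj t⁻¹ s, ?_⟩
  rw [← J1_conj_inv P t, hs, MonoidHom.map_zpowers]
  rfl

/-- section 7 -/
theorem ending (t : G) (χ : G →* Multiplicative ℤ) (V : ℕ → Subgroup G) (h : Chain V)
    (hχt : χ t ≠ 1) (hVχ : ∀ k, V k ≤ χ.ker)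
    (hstep : ∀ k, (V k).map (MulAut.conj t).toMonoidHom ≤ V (k + 1))
    (hgen : ∀ R : Subgroup G, V 0 ≤ R → R.map (MulAut.conj t).toMonoidHom ≤ R → (⨆ l, V l) ≤ R)
    (hNFt : ∀ k : ℕ, NF ((V 0).map (MulAut.conj (t ^ k)).toMonoidHom) (⨆ l, V l))
    (e : ℕ) (he : ∀ k, GenBy e (V k)) (hMO : ∀ l, MO (V 0) (V l))
    (hnfg : ¬ (⨆ l, V l : Subgroup G).FG) :
    ∃ L : Subgroup G, L.FG ∧ L.index = 0 ∧ ¬ IsFreeGroup L := by
  classical
  have hVM : ∀ k, V k ≤ ⨆ l, V l := fun k => le_iSup V k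
  have hM : (⨆ l, V l : Subgroup G).map (MulAut.conj t).toMonoidHom ≤ ⨆ l, V l := by
    rw [Subgroup.map_iSup]
    exact iSup_le fun k => (hstep k).trans (hVM (k + 1))
  have hMχ : (⨆ l, V l : Subgroup G) ≤ χ.ker := iSup_le hVχ
  obtain ⟨m, X, hm, hX, hne, hcl⟩ := h.exists_max hMO hnfg he
  generalize hMdef : (⨆ l, V l : Subgroup G) = M at *
  have hXM : ∀ i, X i ≤ M := fun i => hX.le i
  let C : Set (Fin m) := {i | ¬ ∃ s, X i = Subgroup.zpowers s}
  have hfg : ∀ i, i ∉ C → (X i).FG := by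
    intro i hi
    have : ∃ s, X i = Subgroup.zpowers s := not_not.mp hi
    obtain ⟨s, hs⟩ := this
    rw [hs, Subgroup.zpowers_eq_closure]
    exact ⟨{s}, by simp⟩
  have hCne : C.Nonempty := by
    by_contra hcon
    rw [Set.not_nonempty_iff_eq_empty] at hcon
    apply hnfg
    have h1 : ∀ i, (X i).FG := fun i => hfg i (by rw [hcon]; exact Set.notMem_empty i)
    rw [← hX.2]
    choose S hS using h1
    refine ⟨Finset.univ.biUnion S, ?_⟩
    rw [Finset.coe_biUnion]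
    simp only [Subgroup.closure_iUnion, hS, Finset.coe_univ, Set.mem_univ, iSup_pos]
  have hK : ∀ i ∈ C, ∃ i' ∈ C, ∃ g ∈ M,
      (X i).map (MulAut.conj t).toMonoidHom ≤ (X i').map (MulAut.conj g).toMonoidHom := by
    intro i hi
    have h1 : (X i).map (MulAut.conj t).toMonoidHom ≤ M := (Subgroup.map_mono (hXM i)).trans hM
    have h2 : (X i).map (MulAut.conj t).toMonoidHom ≠ ⊥ := fun h3 => hne i (J1_conj_bot h3)
    have hell := ell_of_indec h.tf hX _ h1 (fun hc => hi (J1_cyclic_conj hc)) (by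
      intro H hH
      have h3 := hH.map_conj t⁻¹
      rw [J1_conj_inv] at h3
      obtain ⟨j, hj⟩ := hcl i _ h3
      exact ⟨j, J1_conj_bot hj⟩)
    obtain ⟨i', g, hg, hle⟩ := hX.le_conj h.tf _ h1 h2 hell
    refine ⟨i', ?_, g, hg, hle⟩
    rintro ⟨s, hs⟩
    apply hi
    apply J1_cyclic_conj (t := t)
    rw [hs, MonoidHom.map_zpowers] at hle
    exact J1_cyclic_of_le hle
  choose! σ hσC hσ using hK
  obtain ⟨n, hn, hidem⟩ := exists_iterate_idem σ
  have hit := iterate_incl t M hM X C σ hσC hσ n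
  choose! g hgM hg using hit
  obtain ⟨i, hi⟩ := hCne
  have hCn : ∀ k : ℕ, ∀ i ∈ C, σ^[k] i ∈ C := by
    intro k
    induction k with
    | zero => intro i hi; exact hi
    | succ k ih => intro i hi; rw [Function.iterate_succ_apply]; exact ih _ (hσC i hi)
  have hMn : ∀ k : ℕ, M.map (MulAut.conj (t ^ k)).toMonoidHom ≤ M := by
    intro k
    induction k with
    | zero => rw [pow_zero, J1_conj_one]
    | succ k ih =>
      rw [pow_succ', ← J1_conj_conj]
      exact (Subgroup.map_mono ih).trans hM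
  set j := σ^[n] i with hjdef
  have hjC : j ∈ C := hCn n i hi
  have hjj : σ^[n] j = j := hidem i
  obtain ⟨Y, hY, hYX, hXY⟩ := periodic_factor (t ^ n) M (V n) (h.fg n) (hMdef ▸ hVM n) (hMn n)
    (fun R hR hRt => by
      rw [← hMdef]
      exact gen_pow t V h.mono hstep (by rw [hMdef]; exact hgen) n hn R hR hRt)
    X hX C hfg (σ^[n]) (fun k hk => ⟨hCn n k hk, hidem k⟩) g hgM hg j hjC hjj
  set τ : G := (g j)⁻¹ * t ^ n with hτdef
  have hτX : (X j).map (MulAut.conj τ).toMonoidHom ≤ X j := by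
    rw [hτdef, ← J1_conj_conj]
    refine (Subgroup.map_mono (hg j hjC)).trans ?_
    rw [hjj, J1_conj_inv]
  have hL : ∀ k : ℕ, Y.map (MulAut.conj (τ ^ k)).toMonoidHom ≤ Y ⊔ Subgroup.zpowers τ := by
    rintro k _ ⟨x, hx, rfl⟩
    have h1 : τ ^ k ∈ Y ⊔ Subgroup.zpowers τ :=
      Subgroup.pow_mem _ (Subgroup.mem_sup_right (Subgroup.mem_zpowers τ)) k
    have h2 : x ∈ Y ⊔ Subgroup.zpowers τ := Subgroup.mem_sup_left hx
    exact Subgroup.mul_mem _ (Subgroup.mul_mem _ h1 h2) (Subgroup.inv_mem _ h1)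
  refine ⟨Y ⊔ Subgroup.zpowers τ, ?_, ?_, ?_⟩
  · obtain ⟨S, hS⟩ := hY
    refine ⟨S ∪ {τ}, ?_⟩
    rw [Finset.coe_union, Subgroup.closure_union, hS, Finset.coe_singleton, Subgroup.zpowers_eq_closure]
  · exact index_eq_zero h.tf t χ hχt M hMχ hM (V 0) (h.fg 0) h.ne (hMdef ▸ hVM 0) hNFt hm hX hne j Y hYX n hn
      (g j) (hgM j hjC) hτX
  · refine not_free χ τ ?_ (X j) Y hYX ((hXM j).trans hMχ) ?_ (hne j) hτX e ?_ h.tf
    · have h1 : χ (g j) = 1 := hMχ (hgM j hjC)
      rw [hτdef, map_mul, map_inv, h1, inv_one, one_mul, map_pow]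
      intro h2
      have h3 := congrArg Multiplicative.toAdd h2
      rw [toAdd_pow, toAdd_one, smul_eq_zero] at h3
      rcases h3 with h3 | h3
      · omega
      · apply hχt
        exact Multiplicative.toAdd.injective h3
    · rw [hXY]
      exact iSup_le hL
    · intro F hF
      exact h.locally_genBy he (hMdef.symm ▸ hX) j F hF

end WQ
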