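import Pool.Agent.Lib.MP_0c5642_al.Main
import Pool.Agent.Lib.MP_0c5642_al.W.B2
import Pool.Agent.Lib.MP_0c5642_al.W.B3b
import Pool.Agent.Lib.MP_0c5642_al.W.C1b
import Pool.Agent.Lib.MP_0c5642_al.W.C3
import Pool.Agent.Lib.MP_0c5642_al.W.C4b
import Pool.Agent.Lib.MP_0c5642_al.W.C4c
import Pool.Agent.Lib.MP_0c5642_al.W.I1b
import Pool.Agent.Lib.MP_0c5642_al.W.I1c
import Pool.Agent.Lib.MP_0c5642_al.W.J1

/-! Assembly, groups with a standard presentation. -/

set_option autoImplicit false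

namespace WQ

open scoped Pointwise

variable {G : Type*} [Group G]

/-- `G` is an ascending HNN extension of a finitely generated free group with respect to `χ` or `-χ` -/
def Asc (χ : G →* Multiplicative ℤ) : Prop :=
  ∃ (P : Subgroup G) (s : G), P.FG ∧ IsFreeGroup P ∧ P ≤ χ.ker ∧
    (χ s = Multiplicative.ofAdd 1 ∨ χ s = Multiplicative.ofAdd (-1)) ∧
    P.map (MulAut.conj s).toMonoidHom ≤ P ∧ P ⊔ Subgroup.zpowers s = ⊤

theorem J2_toAdd_pow {χ : G →* Multiplicative ℤ} {g : G} (h : χ g ≠ 1) {n : ℕ} (hn : χ (g ^ n) = 1) : n = 0 := by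
  rw [map_pow] at hn
  have h3 := congrArg Multiplicative.toAdd hn
  rw [toAdd_pow, toAdd_one, smul_eq_zero] at h3
  rcases h3 with h3 | h3
  · exact h3
  · exact absurd (Multiplicative.toAdd.injective h3) h

/-- subgroups of the kernel have infinite index -/
theorem J2_index {χ : G →* Multiplicative ℤ} {t : G} (ht : χ t ≠ 1) {H : Subgroup G} (hH : H ≤ χ.ker) : H.index = 0 := by
  by_contra hne
  obtain ⟨n, hn0, _, hn⟩ := Subgroup.exists_pow_mem_of_index_ne_zero hne t
  have h1 : χ (t ^ n) = 1 := hH hn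
  have := J2_toAdd_pow ht h1
  omega

theorem J2_aa_ker {χ : G →* Multiplicative ℤ} {a t : G} (ha : χ a = 1) (i : ℤ) : aa a t i ∈ χ.ker := by
  rw [MonoidHom.mem_ker, aa, map_mul, map_mul, map_inv, ha, mul_one, mul_inv_cancel]

theorem J2_VI_ker {χ : G →* Multiplicative ℤ} {a t : G} (ha : χ a = 1) (J : Set ℤ) :
    Subgroup.closure (aa a t '' J) ≤ χ.ker := by
  rw [Subgroup.closure_le]
  rintro _ ⟨i, _, rfl⟩
  exact J2_aa_ker ha i

theorem J2_genBy (a t : G) (N : ℕ) : GenBy N (VI a t 0 N) := by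
  classical
  refine ⟨(Finset.Ico (0 : ℤ) N).image (aa a t), ?_, ?_⟩
  · refine Finset.card_image_le.trans ?_
    simp
  · rw [Finset.coe_image, Finset.coe_Ico]
    rfl

/-- one side -/
theorem J2_side (a t : G) (χ : G →* Multiplicative ℤ) (ha : χ a = 1) (ht : χ t ≠ 1) (hgen : Subgroup.closure {a, t} = ⊤)
    (CH : ∀ H : Subgroup G, H.FG → H.index = 0 → IsFreeGroup H) (htf : ∀ g : G, IsOfFinOrder g → g = 1)
    (ha1 : a ≠ 1) (N : ℕ) (hN : 1 ≤ N)
    (hNF : ∀ (i : ℤ) (J : Set ℤ), J.OrdConnected → Set.Ico i (i + N) ⊆ J →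
      NF (VI a t i (i + N)) (Subgroup.closure (aa a t '' J)))
    (hMO : ∀ l : ℕ, MO (VI a t 0 N) (VI a t 0 (N + l))) :
    ∃ P : Subgroup G, P.FG ∧ IsFreeGroup P ∧ P ≤ χ.ker ∧ P.map (MulAut.conj t).toMonoidHom ≤ P ∧
      P ⊔ Subgroup.zpowers t = ⊤ := by
  set V : ℕ → Subgroup G := fun k => VI a t 0 (N + k) with hV
  have hV0 : V 0 = VI a t 0 N := by simp [hV]
  have hfree : ∀ H : Subgroup G, H.FG → H ≤ χ.ker → IsFreeGroup H := fun H h1 h2 => CH H h1 (J2_index ht h2)
  have hVker : ∀ k, V k ≤ χ.ker := fun k => J2_VI_ker ha _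
  have hsup : (⨆ l, V l) = Subgroup.closure (aa a t '' Set.Ici 0) := VI_iSup a t N
  have haV : a ∈ V 0 := by
    rw [hV0]
    have := aa_mem_VI a t (i := 0) (j := N) (k := 0) le_rfl (by exact_mod_cast hN)
    simpa [aa] using this
  have hchain : Chain V := by
    refine ⟨?_, fun k => VI_fg a t _ _, fun k => hfree _ (VI_fg a t _ _) (hVker k), ?_, ?_, ?_, htf⟩
    · intro k l hkl
      exact VI_mono a t le_rfl (by have : (k : ℤ) ≤ l := by exact_mod_cast hkl
                                   linarith)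
    · intro h0
      apply ha1
      rw [h0] at haV
      exact Subgroup.mem_bot.mp haV
    · intro k l hkl
      have h1 := hNF 0 (Set.Ico 0 (N + l)) Set.ordConnected_Ico (by
        rw [zero_add]
        exact Set.Ico_subset_Ico_right (by linarith [Int.natCast_nonneg l]))
      refine h1.mono ?_
      rw [zero_add]
      exact VI_mono a t le_rfl (by linarith [Int.natCast_nonneg k])
    · rw [hsup, hV0]
      have h1 := hNF 0 (Set.Ici 0) Set.ordConnected_Ici (by
        intro x hx
        exact hx.1)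
      rwa [zero_add] at h1
  have hstep : ∀ k, (V k).map (MulAut.conj t).toMonoidHom ≤ V (k + 1) := by
    intro k
    have h1 := VI_conj a t 0 (N + k) 1
    rw [zpow_one] at h1
    change (VI a t 0 (N + k)).map _ ≤ VI a t 0 (N + (k + 1 : ℕ))
    rw [h1]
    exact VI_mono a t (by norm_num) (by push_cast; linarith)
  have hgen' : ∀ R : Subgroup G, V 0 ≤ R → R.map (MulAut.conj t).toMonoidHom ≤ R → (⨆ l, V l) ≤ R := by
    intro R hR hRt
    rw [hsup, Subgroup.closure_le]
    rintro _ ⟨i, hi, rfl⟩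
    obtain ⟨n, rfl⟩ := Int.eq_ofNat_of_zero_le hi
    clear hi
    induction n with
    | zero =>
      have : aa a t ((0 : ℕ) : ℤ) = a := by simp [aa]
      rw [this]
      exact hR haV
    | succ n ih =>
      apply hRt
      refine ⟨_, ih, ?_⟩
      have h1 := aa_conj a t (n : ℤ) 1
      rw [zpow_one] at h1
      push_cast
      exact h1
  have hNFt : ∀ k : ℕ, NF ((V 0).map (MulAut.conj (t ^ k)).toMonoidHom) (⨆ l, V l) := by
    intro k
    rw [hV0, hsup]
    have h1 := VI_conj a t 0 N k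
    rw [zpow_natCast] at h1
    rw [h1]
    have h2 := hNF (0 + k) (Set.Ici 0) Set.ordConnected_Ici (by
      intro x hx
      exact le_trans (by simp) hx.1)
    have e : (0 : ℤ) + k + N = N + k := by ring
    rw [e] at h2
    exact h2
  have he : ∀ k, GenBy N (V k) := by
    intro k
    induction k with
    | zero => rw [hV0]; exact J2_genBy a t N
    | succ k ih =>
      refine GenBy.step (V k) (V (k + 1)) (aa a t (N + k)) ?_ (hchain.free (k + 1)) (hchain.nf k (k + 1) (Nat.le_succ k)) N ih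
      have h1 := VI_succ a t (i := 0) (j := N + k) (by positivity)
      rw [← h1]
      simp only [hV]
      push_cast
      rw [add_assoc]
  by_cases hfg : (⨆ l, V l : Subgroup G).FG
  · have hle : (⨆ l, V l : Subgroup G) ≤ χ.ker := iSup_le hVker
    refine ⟨⨆ l, V l, hfg, hfree _ hfg hle, hle, ?_, ?_⟩
    · rw [Subgroup.map_iSup]
      exact iSup_le fun k => (hstep k).trans (le_iSup V (k + 1))
    · rw [eq_top_iff, ← hgen, Subgroup.closure_le]
      rintro x (rfl | hx)
      · exact Subgroup.mem_sup_left ((le_iSup V 0) haV)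
      · rw [Set.mem_singleton_iff.mp hx]
        exact Subgroup.mem_sup_right (Subgroup.mem_zpowers t)
  · exfalso
    obtain ⟨L, h1, h2, h3⟩ := ending t χ V hchain ht hVker hstep hgen' hNFt N he (by
      intro l
      rw [hV0]
      exact hMO l) hfg
    exact h3 (CH L h1 h2)

end WQ
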