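import Pool.Agent.Lib.MP_0c5642_al.W.J2

/-! Assembly: the theorem. -/

set_option autoImplicit false

namespace WQ

open scoped Pointwise

/-- torsion-freeness from indicability of finitely generated subgroups -/
theorem J3_tf {G : Type*} [Group G] (h : ∀ H : Subgroup G, H.FG → H ≠ ⊥ → ∃ f : H →* Multiplicative ℤ, f ≠ 1)
    (g : G) (hg : IsOfFinOrder g) : g = 1 := by
  by_contra hne
  obtain ⟨f, hf⟩ := h (Subgroup.zpowers g) ⟨{g}, by rw [Finset.coe_singleton, Subgroup.zpowers_eq_closure]⟩ (by
    rw [Ne, Subgroup.zpowers_eq_bot]; exact hne)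
  apply hf
  obtain ⟨n, hn, hgn⟩ := isOfFinOrder_iff_pow_eq_one.mp hg
  ext ⟨x, hx⟩
  obtain ⟨k, rfl⟩ := hx
  set y : Subgroup.zpowers g := ⟨g ^ k, ⟨k, rfl⟩⟩ with hy
  have h1 : y ^ n = 1 := by
    apply Subtype.ext
    change (g ^ k) ^ n = 1
    rw [← zpow_natCast, ← zpow_mul, mul_comm, zpow_mul, zpow_natCast, hgn, one_zpow]
  have h2 : f y ^ n = 1 := by rw [← map_pow, h1, map_one]
  have h3 := congrArg Multiplicative.toAdd h2
  rw [toAdd_pow, toAdd_one, smul_eq_zero] at h3
  rcases h3 with h3 | h3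
  · omega
  · exact h3

theorem J3_closure_inv {G : Type*} [Group G] {a t : G} (h : Subgroup.closure {a, t} = ⊤) :
    Subgroup.closure {a, t⁻¹} = ⊤ := by
  rw [eq_top_iff, ← h, Subgroup.closure_le]
  rintro x (rfl | hx)
  · exact Subgroup.subset_closure (Or.inl rfl)
  · rw [Set.mem_singleton_iff.mp hx]
    have : t⁻¹ ∈ Subgroup.closure {a, t⁻¹} := Subgroup.subset_closure (Or.inr rfl)
    simpa using Subgroup.inv_mem _ this

/-- a group generated by one element of infinite order under `χ` is free -/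
theorem J3_free_cyclic {G : Type*} [Group G] {t : G} {χ : G →* Multiplicative ℤ} (ht : χ t = Multiplicative.ofAdd 1)
    (h : Subgroup.closure {1, t} = ⊤) : IsFreeGroup G := by
  have h1 : ∀ x : G, x ∈ Subgroup.zpowers t := by
    intro x
    have : Subgroup.closure {1, t} ≤ Subgroup.zpowers t := by
      rw [Subgroup.closure_le]
      rintro y (rfl | hy)
      · exact Subgroup.one_mem _
      · rw [Set.mem_singleton_iff.mp hy]; exact Subgroup.mem_zpowers t
    exact this (h ▸ Subgroup.mem_top x)
  let f : FreeGroup Unit →* G := FreeGroup.lift (fun _ => t)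
  have hs : Function.Surjective f := by
    intro x
    obtain ⟨k, rfl⟩ := h1 x
    exact ⟨FreeGroup.of () ^ k, by simp [f]⟩
  have hi : Function.Injective f := by
    rw [← MonoidHom.ker_eq_bot_iff, eq_bot_iff]
    intro w hw
    have h2 : w = FreeGroup.of () ^ (FreeGroup.freeGroupUnitEquivInt w) := by
      have := (FreeGroup.freeGroupUnitEquivInt.symm_apply_apply w).symm
      exact this
    rw [h2] at hw ⊢
    rw [MonoidHom.mem_ker, map_zpow] at hw
    have h3 : t ^ (FreeGroup.freeGroupUnitEquivInt w) = 1 := by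
      have : f (FreeGroup.of ()) = t := by simp [f]
      rw [← this]
      exact hw
    have h4 := congrArg χ h3
    rw [map_zpow, ht, map_one χ] at h4
    have h5 := congrArg Multiplicative.toAdd h4
    rw [toAdd_zpow, toAdd_ofAdd, toAdd_one, smul_eq_mul, mul_one] at h5
    rw [h5, zpow_zero]
    exact Subgroup.mem_bot.mpr rfl
  exact IsFreeGroup.ofMulEquiv (MulEquiv.ofBijective f ⟨hi, hs⟩)

theorem J3_std {G : Type} [Group G] (r : FreeGroup (Fin 2)) (hr1 : r ≠ 1) (π : FreeGroup (Fin 2) →* G) (hπ : Function.Surjective π)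
    (hker : π.ker = Subgroup.normalClosure {r}) (N : ℕ) (hN : 1 ≤ N)
    (hr : r ∈ VI (FreeGroup.of (0 : Fin 2)) (FreeGroup.of 1) 0 (N + 1))
    (χ : G →* Multiplicative ℤ) (ha : χ (π (FreeGroup.of 0)) = 1) (ht : χ (π (FreeGroup.of 1)) = Multiplicative.ofAdd 1)
    (hfree : ¬ IsFreeGroup G)
    (CH : ∀ H : Subgroup G, H.FG → H.index = 0 → IsFreeGroup H) : Asc χ := by
  set a := π (FreeGroup.of 0) with hadef
  set t := π (FreeGroup.of 1) with htdef
  have ht1 : χ t ≠ 1 := by
    rw [ht]
    intro h
    have := congrArg Multiplicative.toAdd h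
    simp at this
  have hχ : χ ≠ 1 := fun h => ht1 (by rw [h]; rfl)
  have hind : ∀ H : Subgroup G, H.FG → H ≠ ⊥ → ∃ f : H →* Multiplicative ℤ, f ≠ 1 :=
    fun K hK hKne => MP0c5642.indicable χ hχ CH K hK hKne
  have hup : UniqueProds G := MP0c5642.uniqueProds_of_indicable hind
  have hdom : NoZeroDivisors (MonoidAlgebra ℚ G) := inferInstance
  have htf : ∀ g : G, IsOfFinOrder g → g = 1 := J3_tf hind
  have hgen : Subgroup.closure {a, t} = ⊤ := by
    have e : ({a, t} : Set G) = π '' (Set.range (FreeGroup.of : Fin 2 → FreeGroup (Fin 2))) := by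
      rw [← Set.range_comp]
      ext x
      simp only [Set.mem_insert_iff, Set.mem_singleton_iff, Set.mem_range, Fin.exists_fin_two, Function.comp_apply]
      constructor
      · rintro (h | h)
        · exact Or.inl h.symm
        · exact Or.inr h.symm
      · rintro (h | h)
        · exact Or.inl h.symm
        · exact Or.inr h.symm
    rw [e, ← MonoidHom.map_closure, FreeGroup.closure_range_of, ← MonoidHom.range_eq_map]
    exact MonoidHom.range_eq_top.mpr hπ
  have ha1 : a ≠ 1 := by
    intro h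
    rw [h] at hgen
    exact hfree (J3_free_cyclic ht hgen)
  -- the word
  obtain ⟨w, hw1, hwN, hwr⟩ := exists_word r hr1 N hr
  have hrel : FreeGroup.lift (aa a t) w = 1 := by
    have h1 : FreeGroup.lift (aa a t) = π.comp (FreeGroup.lift (aa (FreeGroup.of (0 : Fin 2)) (FreeGroup.of 1))) := by
      ext i
      simp [aa, hadef, htdef]
    rw [h1, MonoidHom.comp_apply, hwr]
    have : r ∈ π.ker := by rw [hker]; exact Subgroup.subset_normalClosure rfl
    exact this
  have hNF : ∀ (i : ℤ) (J : Set ℤ), J.OrdConnected → Set.Ico i (i + N) ⊆ J →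
      NF (VI a t i (i + N)) (Subgroup.closure (aa a t '' J)) :=
    fun i J hJ hiJ => NF_window hdom a t N hN w hw1 hwN hrel i J hJ hiJ
  obtain ⟨S, hS⟩ := bset_pres r π hπ hker N hr
  have hfr : ∀ i j : ℤ, IsFreeGroup (VI a t i j) := fun i j =>
    CH _ (VI_fg a t i j) (J2_index ht1 (J2_VI_ker ha _))
  have hVne : ∀ i j : ℤ, i < j → VI a t i j ≠ ⊥ := by
    intro i j hij h0
    apply ha1
    have h1 := aa_mem_VI a t (i := i) (j := j) (k := i) le_rfl hij
    rw [h0, Subgroup.mem_bot, aa] at h1
    have h2 : a = (t ^ i)⁻¹ * (t ^ i * a * (t ^ i)⁻¹) * t ^ i := by group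
    rw [h2, h1]
    group
  -- one of the two sides
  have hside : ∀ l : ℕ, MO (VI a t 0 N) (VI a t (-l) N) ∨ MO (VI a t 0 N) (VI a t 0 (N + l)) := by
    intro l
    have hl : (0 : ℤ) ≤ l := Int.natCast_nonneg l
    have hN' : (1 : ℤ) ≤ N := by exact_mod_cast hN
    obtain ⟨b, hb⟩ := exists_MO (fun b : Bool => if b then VI a t l (N + 2 * l) else VI a t 0 (N + l)) (VI a t l (N + l))
      (VI a t 0 (N + 2 * l)) (by
        intro b
        cases b
        · exact VI_mono a t hl le_rfl
        · exact VI_mono a t le_rfl (by linarith)) (by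
        intro b
        cases b
        · exact VI_mono a t le_rfl (by linarith)
        · exact VI_mono a t hl le_rfl) (VI_fg a t _ _) (fun b c g hg => alt_window a t N S hS l b c g hg) (by
        have h1 := hNF l (Set.Ico 0 (N + 2 * l)) Set.ordConnected_Ico
          (Set.Ico_subset_Ico hl (by linarith))
        have e : (l : ℤ) + N = N + l := by ring
        rw [e] at h1
        exact h1) (hfr _ _) (hVne _ _ (by linarith))
    have hc := hb.conj (t ^ (-(l : ℤ)))
    cases b
    · left
      have h1 := VI_conj a t l (N + l) (-(l : ℤ))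
      have h2 := VI_conj a t 0 (N + l) (-(l : ℤ))
      simp only [Bool.false_eq_true, if_false] at hc
      rw [h1, h2] at hc
      have e1 : (l : ℤ) + -l = 0 := by ring
      have e2 : (N : ℤ) + l + -l = N := by ring
      rw [e1, e2, zero_add] at hc
      exact hc
    · right
      have h1 := VI_conj a t l (N + l) (-(l : ℤ))
      have h2 := VI_conj a t l (N + 2 * l) (-(l : ℤ))
      simp only [if_true] at hc
      rw [h1, h2] at hc
      have e1 : (l : ℤ) + -l = 0 := by ring
      have e2 : (N : ℤ) + l + -l = N := by ring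
      have e3 : (N : ℤ) + 2 * l + -l = N + l := by ring
      rw [e1, e2, e3] at hc
      exact hc
  by_cases hall : ∀ l : ℕ, MO (VI a t 0 N) (VI a t 0 (N + l))
  · obtain ⟨P, h1, h2, h3, h4, h5⟩ := J2_side a t χ ha ht1 hgen CH htf ha1 N hN hNF hall
    exact ⟨P, t, h1, h2, h3, Or.inl ht, h4, h5⟩
  · push Not at hall
    obtain ⟨l₀, hl₀⟩ := hall
    -- the other side for all `l`
    have hall' : ∀ l : ℕ, MO (VI a t 0 N) (VI a t (-l) N) := by
      intro l
      have hl : (0 : ℤ) ≤ l := Int.natCast_nonneg l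
      have hl0 : (0 : ℤ) ≤ l₀ := Int.natCast_nonneg l₀
      rcases hside (l + l₀) with h | h
      · exact h.mono (VI_mono a t (by linarith) le_rfl) (VI_mono a t (by push_cast; linarith) le_rfl)
      · exact absurd (h.mono (VI_mono a t le_rfl (by linarith)) (VI_mono a t le_rfl (by push_cast; linarith))) hl₀
    have ht' : χ t⁻¹ ≠ 1 := by
      rw [map_inv]
      exact fun h => ht1 (inv_eq_one.mp h)
    have haa : ∀ J : Set ℤ, aa a t⁻¹ '' J = aa a t '' (-J) := by
      intro J
      ext x
      constructor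
      · rintro ⟨i, hi, rfl⟩
        exact ⟨-i, by simpa using hi, (aa_inv a t i).symm⟩
      · rintro ⟨i, hi, rfl⟩
        refine ⟨-i, hi, ?_⟩
        rw [aa_inv, neg_neg]
    obtain ⟨P, h1, h2, h3, h4, h5⟩ := J2_side a t⁻¹ χ ha ht' (J3_closure_inv hgen) CH htf ha1 N hN (by
      intro i J hJ hiJ
      rw [VI_inv, haa]
      have h1 := hNF (1 - (i + N)) (-J) (by
        constructor
        intro x hx y hy z hz
        exact hJ.out hy hx ⟨neg_le_neg hz.2, neg_le_neg hz.1⟩) (by
        intro x hx
        apply hiJ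
        have h2 := hx.1
        have h3 := hx.2
        constructor
        · linarith
        · linarith)
      have e : 1 - (i + (N : ℤ)) + N = 1 - i := by ring
      rw [e] at h1
      exact h1) (by
      intro l
      have h1 := (hall' l).conj (t ^ (1 - (N : ℤ)))
      rw [VI_conj, VI_conj] at h1
      rw [VI_inv, VI_inv]
      have e1 : (0 : ℤ) + (1 - N) = 1 - N := by ring
      have e2 : (N : ℤ) + (1 - N) = 1 - 0 := by ring
      have e3 : -(l : ℤ) + (1 - N) = 1 - (N + l) := by ring
      rw [e1, e2, e3] at h1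
      exact h1)
    refine ⟨P, t⁻¹, h1, h2, h3, Or.inr ?_, h4, h5⟩
    rw [map_inv, ht]
    rfl

end WQ
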