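import Pool.Agent.Lib.MP_0c5642_al.W.J3
import Pool.Agent.Lib.MP_0c5642_al.W.I1a

/-! Assembly: the theorem for one-relator presentations. -/

set_option autoImplicit false

namespace WQ

theorem J4_ker {G : Type*} [Group G] (p : FreeGroup (Fin 2) →* G) (r : FreeGroup (Fin 2))
    (hker : p.ker = Subgroup.normalClosure {r}) (α : FreeGroup (Fin 2) ≃* FreeGroup (Fin 2)) :
    (p.comp α.toMonoidHom).ker = Subgroup.normalClosure {α.symm r} := by
  have h1 : (p.comp α.toMonoidHom).ker = (Subgroup.normalClosure {r}).comap α.toMonoidHom := by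
    rw [← hker, MonoidHom.comap_ker]
  rw [h1]
  have h2 : Subgroup.map α.toMonoidHom (Subgroup.normalClosure {α.symm r}) = Subgroup.normalClosure {r} := by
    rw [Subgroup.map_normalClosure _ _ α.surjective]
    simp
  rw [← h2, Subgroup.comap_map_eq_self_of_injective α.injective]

theorem J4_conj_mem (S : Set (FreeGroup (Fin 2))) (x s : FreeGroup (Fin 2)) (h : x ∈ Subgroup.normalClosure S) :
    s * x * s⁻¹ ∈ Subgroup.normalClosure S :=
  (Subgroup.normalClosure_normal (s := S)).conj_mem x h s

theorem J4_closure_conj (r s : FreeGroup (Fin 2)) :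
    Subgroup.normalClosure {s * r * s⁻¹} = Subgroup.normalClosure ({r} : Set (FreeGroup (Fin 2))) := by
  have h1 : ∀ y : FreeGroup (Fin 2), y ∈ Subgroup.normalClosure ({y} : Set (FreeGroup (Fin 2))) :=
    fun y => Subgroup.subset_normalClosure (Set.mem_singleton y)
  apply le_antisymm
  · apply Subgroup.normalClosure_le_normal
    rw [Set.singleton_subset_iff]
    exact J4_conj_mem _ _ _ (h1 r)
  · apply Subgroup.normalClosure_le_normal
    rw [Set.singleton_subset_iff]
    have h := J4_conj_mem _ _ s⁻¹ (h1 (s * r * s⁻¹))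
    have e : s⁻¹ * (s * r * s⁻¹) * s⁻¹⁻¹ = r := by group
    rw [e] at h
    exact h

/-- Theorem W -/
theorem theoremW (r : FreeGroup (Fin 2))
    (hfree : ¬ IsFreeGroup (FreeGroup (Fin 2) ⧸ Subgroup.normalClosure ({r} : Set (FreeGroup (Fin 2)))))
    (χ : (FreeGroup (Fin 2) ⧸ Subgroup.normalClosure ({r} : Set (FreeGroup (Fin 2)))) →* Multiplicative ℤ)
    (hχ : Function.Surjective χ) (hasc : ¬ Asc χ) :
    ∃ H : Subgroup (FreeGroup (Fin 2) ⧸ Subgroup.normalClosure ({r} : Set (FreeGroup (Fin 2)))),
      H.FG ∧ ¬ IsFreeGroup H ∧ H.index = 0 := by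
  by_contra hcon
  have CH : ∀ H : Subgroup (FreeGroup (Fin 2) ⧸ Subgroup.normalClosure ({r} : Set (FreeGroup (Fin 2)))),
      H.FG → H.index = 0 → IsFreeGroup H := by
    intro H h1 h2
    by_contra h3
    exact hcon ⟨H, h1, h3, h2⟩
  set G := FreeGroup (Fin 2) ⧸ Subgroup.normalClosure ({r} : Set (FreeGroup (Fin 2))) with hG
  let p : FreeGroup (Fin 2) →* G := QuotientGroup.mk' _
  have hp : Function.Surjective p := QuotientGroup.mk'_surjective _
  have hker : p.ker = Subgroup.normalClosure ({r} : Set (FreeGroup (Fin 2))) := QuotientGroup.ker_mk' _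
  have hr1 : r ≠ 1 := by
    intro h
    apply hfree
    have hinj : Function.Injective p := by
      rw [← MonoidHom.ker_eq_bot_iff, hker, h, eq_bot_iff]
      exact Subgroup.normalClosure_le_normal (by simp)
    exact IsFreeGroup.ofMulEquiv (MulEquiv.ofBijective p ⟨hinj, hp⟩)
  obtain ⟨α, hα0, hα1⟩ := exists_aut (χ.comp p) (hχ.comp hp)
  let π : FreeGroup (Fin 2) →* G := p.comp α.toMonoidHom
  have hπ : Function.Surjective π := hp.comp α.surjective
  have hπker : π.ker = Subgroup.normalClosure {α.symm r} := J4_ker p r hker α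
  set r' := α.symm r with hr'
  have hr'1 : r' ≠ 1 := by
    intro h
    apply hr1
    rw [← α.apply_symm_apply r, ← hr', h, map_one]
  have hstd : χ.comp π = FreeGroup.lift (fun i : Fin 2 => if i = 0 then (1 : Multiplicative ℤ) else Multiplicative.ofAdd 1) := by
    ext i
    rw [FreeGroup.lift_apply_of]
    fin_cases i
    · exact hα0
    · exact hα1
  have hr'π : π r' = 1 := by
    have : r' ∈ π.ker := by rw [hπker]; exact Subgroup.subset_normalClosure rfl
    exact this
  obtain ⟨k, N, hN, hwin⟩ := exists_window r' hr'1 (by rw [← hstd, MonoidHom.comp_apply, hr'π, map_one])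
  set s := (FreeGroup.of (1 : Fin 2)) ^ k with hs
  apply hasc
  refine J3_std (s * r' * s⁻¹) ?_ π hπ ?_ N hN hwin χ hα0 hα1 hfree CH
  · intro h
    apply hr'1
    have e : r' = s⁻¹ * (s * r' * s⁻¹) * s := by group
    rw [e, h]
    group
  · rw [hπker, J4_closure_conj]

/-- every two-generator one-relator group has an epimorphism onto the integers -/
theorem exists_epi (r : FreeGroup (Fin 2)) :
    ∃ χ : (FreeGroup (Fin 2) ⧸ Subgroup.normalClosure ({r} : Set (FreeGroup (Fin 2)))) →* Multiplicative ℤ,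
      Function.Surjective χ := by
  obtain ⟨χ, hχ, hr⟩ := exists_surj r
  refine ⟨QuotientGroup.lift _ χ (fun g hg => ?_), fun z => ?_⟩
  · have : Subgroup.normalClosure ({r} : Set (FreeGroup (Fin 2))) ≤ χ.ker := by
      apply Subgroup.normalClosure_le_normal
      intro x hx
      rw [Set.mem_singleton_iff] at hx
      rw [hx]; exact hr
    exact this hg
  · obtain ⟨w, hw⟩ := hχ z
    exact ⟨QuotientGroup.mk w, by rw [QuotientGroup.lift_mk]; exact hw⟩

end WQ
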