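import Pool.Agent.Lib.MP_0c5642_al.W.J4

/-! Ascending HNN extensions. -/

set_option autoImplicit false

namespace WQ

variable {G : Type*} [Group G]

/-- the ascending HNN extension of the free group of rank `n` given by an injective endomorphism -/
abbrev AscHNN {n : ℕ} (φ : FreeGroup (Fin n) →* FreeGroup (Fin n)) (hφ : Function.Injective φ) : Type :=
  HNNExtension (FreeGroup (Fin n)) ⊤ φ.range (Subgroup.topEquiv.trans (MonoidHom.ofInjective hφ))

theorem J5_rel {n : ℕ} (φ : FreeGroup (Fin n) →* FreeGroup (Fin n)) (hφ : Function.Injective φ) (x : FreeGroup (Fin n)) :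
    (HNNExtension.t : AscHNN φ hφ) * HNNExtension.of x = HNNExtension.of (φ x) * HNNExtension.t := by
  have h := HNNExtension.t_mul_of (φ := Subgroup.topEquiv.trans (MonoidHom.ofInjective hφ)) (⟨x, Subgroup.mem_top x⟩ : (⊤ : Subgroup (FreeGroup (Fin n))))
  exact h

theorem J5_rel_pow {n : ℕ} (φ : FreeGroup (Fin n) →* FreeGroup (Fin n)) (hφ : Function.Injective φ) (j : ℕ)
    (x : FreeGroup (Fin n)) :
    ∃ y, (HNNExtension.t : AscHNN φ hφ) ^ j * HNNExtension.of x = HNNExtension.of y * HNNExtension.t ^ j := by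
  induction j with
  | zero => exact ⟨x, by simp⟩
  | succ j ih =>
    obtain ⟨y, hy⟩ := ih
    refine ⟨φ y, ?_⟩
    rw [pow_succ', mul_assoc, hy, ← mul_assoc, J5_rel, mul_assoc]

/-- the normal form -/
def J5Form {n : ℕ} (φ : FreeGroup (Fin n) →* FreeGroup (Fin n)) (hφ : Function.Injective φ) (w : AscHNN φ hφ) : Prop :=
  ∃ (i j : ℕ) (x : FreeGroup (Fin n)), w = (HNNExtension.t ^ i)⁻¹ * HNNExtension.of x * HNNExtension.t ^ j

theorem J5_of {n : ℕ} {φ : FreeGroup (Fin n) →* FreeGroup (Fin n)} {hφ : Function.Injective φ} {u : AscHNN φ hφ}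
    (hu : J5Form φ hφ u) (y : FreeGroup (Fin n)) : J5Form φ hφ (u * HNNExtension.of y) := by
  obtain ⟨i, j, x, rfl⟩ := hu
  obtain ⟨z, hz⟩ := J5_rel_pow φ hφ j y
  refine ⟨i, j, x * z, ?_⟩
  rw [mul_assoc, hz, map_mul]
  simp only [mul_assoc]

theorem J5_t {n : ℕ} {φ : FreeGroup (Fin n) →* FreeGroup (Fin n)} {hφ : Function.Injective φ} {u : AscHNN φ hφ}
    (hu : J5Form φ hφ u) : J5Form φ hφ (u * HNNExtension.t) := by
  obtain ⟨i, j, x, rfl⟩ := hu
  exact ⟨i, j + 1, x, by rw [pow_succ]; simp only [mul_assoc]⟩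

theorem J5_t_inv {n : ℕ} {φ : FreeGroup (Fin n) →* FreeGroup (Fin n)} {hφ : Function.Injective φ} {u : AscHNN φ hφ}
    (hu : J5Form φ hφ u) : J5Form φ hφ (u * HNNExtension.t⁻¹) := by
  obtain ⟨i, j, x, rfl⟩ := hu
  cases j with
  | zero =>
    refine ⟨i + 1, 0, φ x, ?_⟩
    have h := J5_rel φ hφ x
    have h2 : (HNNExtension.of x : AscHNN φ hφ) * HNNExtension.t⁻¹ = HNNExtension.t⁻¹ * HNNExtension.of (φ x) := by
      rw [mul_inv_eq_iff_eq_mul, mul_assoc, ← h, inv_mul_cancel_left]
    rw [pow_zero, mul_one, mul_one, mul_assoc, h2, pow_succ', mul_inv_rev, mul_assoc]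
  | succ j =>
    refine ⟨i, j, x, ?_⟩
    rw [pow_succ, mul_assoc, mul_assoc, mul_inv_cancel_right, ← mul_assoc]

theorem J5_form {n : ℕ} (φ : FreeGroup (Fin n) →* FreeGroup (Fin n)) (hφ : Function.Injective φ) (w : AscHNN φ hφ) :
    J5Form φ hφ w := by
  have key : ∀ v : AscHNN φ hφ, ∀ u : AscHNN φ hφ, J5Form φ hφ u → J5Form φ hφ (u * v) ∧ J5Form φ hφ (u * v⁻¹) := by
    intro v
    induction v using HNNExtension.induction_on with
    | of y =>
      intro u hu
      refine ⟨J5_of hu y, ?_⟩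
      rw [← map_inv]
      exact J5_of hu y⁻¹
    | t => intro u hu; exact ⟨J5_t hu, J5_t_inv hu⟩
    | mul v₁ v₂ h₁ h₂ =>
      intro u hu
      refine ⟨?_, ?_⟩
      · rw [← mul_assoc]
        exact (h₂ _ (h₁ _ hu).1).1
      · rw [mul_inv_rev, ← mul_assoc]
        exact (h₁ _ (h₂ _ hu).2).2
    | inv v hv =>
      intro u hu
      rw [inv_inv]
      exact ⟨(hv u hu).2, (hv u hu).1⟩
  have := (key w 1 ⟨0, 0, 1, by simp⟩).1
  rwa [one_mul] at this

theorem J5_supp {ι : Type*} (x : FreeGroup ι) : ∃ T : Set ι, T.Finite ∧ x ∈ Subgroup.closure (FreeGroup.of '' T) := by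
  induction x using FreeGroup.induction_on with
  | C1 => exact ⟨∅, Set.finite_empty, Subgroup.one_mem _⟩
  | of i => exact ⟨{i}, Set.finite_singleton i, Subgroup.subset_closure ⟨i, rfl, rfl⟩⟩
  | inv_of i _ => exact ⟨{i}, Set.finite_singleton i, Subgroup.inv_mem _ (Subgroup.subset_closure ⟨i, rfl, rfl⟩)⟩
  | mul x y hx hy =>
    obtain ⟨T, hT, hx⟩ := hx
    obtain ⟨T', hT', hy⟩ := hy
    refine ⟨T ∪ T', hT.union hT', Subgroup.mul_mem _ ?_ ?_⟩
    · exact Subgroup.closure_mono (Set.image_mono Set.subset_union_left) hx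
    · exact Subgroup.closure_mono (Set.image_mono Set.subset_union_right) hy

theorem J5_fin {ι : Type*} (h : Group.FG (FreeGroup ι)) : Finite ι := by
  classical
  obtain ⟨S, hS⟩ := h.out
  choose T hT hTx using (fun x : FreeGroup ι => J5_supp x)
  have hfin : (⋃ x ∈ S, T x).Finite := Set.Finite.biUnion S.finite_toSet (fun x _ => hT x)
  have htop : Subgroup.closure (FreeGroup.of '' (⋃ x ∈ S, T x)) = ⊤ := by
    rw [eq_top_iff, ← hS, Subgroup.closure_le]
    intro x hx
    exact Subgroup.closure_mono (Set.image_mono (Set.subset_biUnion_of_mem (u := T) hx)) (hTx x)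
  have huniv : (⋃ x ∈ S, T x) = Set.univ := by
    rw [Set.eq_univ_iff_forall]
    intro i
    by_contra hi
    let f : FreeGroup ι →* Multiplicative ℤ := FreeGroup.lift (fun j => if j = i then Multiplicative.ofAdd 1 else 1)
    have h1 : Subgroup.closure (FreeGroup.of '' (⋃ x ∈ S, T x)) ≤ f.ker := by
      rw [Subgroup.closure_le]
      rintro _ ⟨j, hj, rfl⟩
      have hji : j ≠ i := fun h => hi (h ▸ hj)
      simp [f, hji]
    have h2 : f (FreeGroup.of i) = 1 := h1 (htop ▸ Subgroup.mem_top _)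
    have h3 : f (FreeGroup.of i) = Multiplicative.ofAdd 1 := by simp [f]
    rw [h3] at h2
    have h4 := congrArg Multiplicative.toAdd h2
    simp at h4
  rw [huniv] at hfin
  exact Set.finite_univ_iff.mp hfin

/-- A group which is an ascending HNN extension in the internal sense is isomorphic to an ascending HNN extension in the sense of Mathlib. -/
theorem Asc.exists_equiv {G : Type} [Group G] {χ : G →* Multiplicative ℤ} (h : Asc χ) :
    ∃ (n : ℕ) (φ : FreeGroup (Fin n) →* FreeGroup (Fin n)) (hφ : Function.Injective φ) (e : G ≃* AscHNN φ hφ),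
      ∀ x, χ (e.symm (HNNExtension.of x)) = 1 := by
  obtain ⟨P, s, hP, hPf, hPχ, hs, hsP, htop⟩ := h
  -- a finite basis
  have hPfg : Group.FG P := (Group.fg_iff_subgroup_fg P).mpr hP
  obtain ⟨ι, ⟨b⟩⟩ := hPf.nonempty_basis
  have hfin : Finite ι := J5_fin (Group.fg_of_surjective (f := b.repr.toMonoidHom) b.repr.surjective)
  obtain ⟨n, ⟨e⟩⟩ := Finite.exists_equiv_fin ι
  let c : P ≃* FreeGroup (Fin n) := b.repr.trans (FreeGroup.freeGroupCongr e)
  -- the endomorphism
  let ψ : P →* P := ((MulAut.conj s).toMonoidHom.comp P.subtype).codRestrict P (fun x => hsP ⟨x, x.2, rfl⟩)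
  have hψ : ∀ x : P, ((ψ x : P) : G) = s * x * s⁻¹ := fun x => rfl
  let φ : FreeGroup (Fin n) →* FreeGroup (Fin n) := (c.toMonoidHom.comp ψ).comp c.symm.toMonoidHom
  have hψi : Function.Injective ψ := by
    intro x y hxy
    have h1 := congrArg Subtype.val hxy
    rw [hψ, hψ] at h1
    exact Subtype.ext (mul_left_cancel (mul_right_cancel h1))
  have hφ : Function.Injective φ := c.injective.comp (hψi.comp c.symm.injective)
  have hφc : ∀ x, φ x = c (ψ (c.symm x)) := fun x => rfl
  let f : FreeGroup (Fin n) →* G := P.subtype.comp c.symm.toMonoidHom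
  have hf : ∀ x, f x = ((c.symm x : P) : G) := fun x => rfl
  let Φ : AscHNN φ hφ →* G := HNNExtension.lift f s (by
    rintro ⟨x, hx⟩
    change s * f x = f (φ x) * s
    rw [hf, hf, hφc, c.symm_apply_apply, hψ, inv_mul_cancel_right])
  have hΦof : ∀ x, Φ (HNNExtension.of x) = f x := fun x => HNNExtension.lift_of _ _ _ x
  have hΦt : Φ HNNExtension.t = s := HNNExtension.lift_t _ _ _
  have hsurj : Function.Surjective Φ := by
    rw [← MonoidHom.range_eq_top, eq_top_iff, ← htop, sup_le_iff]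
    constructor
    · intro x hx
      refine ⟨HNNExtension.of (c ⟨x, hx⟩), ?_⟩
      rw [hΦof, hf, c.symm_apply_apply]
    · rw [Subgroup.zpowers_le]
      exact ⟨_, hΦt⟩
  have hχs : χ s ≠ 1 := by
    intro h
    rcases hs with hs | hs
    · rw [hs] at h
      have h4 := congrArg Multiplicative.toAdd h
      simp at h4
    · rw [hs] at h
      have h4 := congrArg Multiplicative.toAdd h
      simp at h4
  have hinj : Function.Injective Φ := by
    rw [injective_iff_map_eq_one]
    intro w hw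
    obtain ⟨i, j, x, rfl⟩ := J5_form φ hφ w
    rw [map_mul, map_mul, map_inv, map_pow, map_pow, hΦof, hΦt] at hw
    have hfx : χ (f x) = 1 := hPχ (c.symm x).2
    have h1 := congrArg χ hw
    rw [map_mul, map_mul, map_inv, map_pow, map_pow, hfx, map_one, mul_one] at h1
    have h2 : χ s ^ j = χ s ^ i := by
      rw [inv_mul_eq_one] at h1
      exact h1.symm
    have hij : j = i := by
      have h3 := congrArg Multiplicative.toAdd h2
      rw [toAdd_pow, toAdd_pow] at h3
      have h4 : Multiplicative.toAdd (χ s) ≠ 0 := fun h => hχs (Multiplicative.toAdd.injective h)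
      simp only [smul_eq_mul, nsmul_eq_mul] at h3
      have h5 := mul_right_cancel₀ h4 h3
      exact_mod_cast h5
    subst hij
    have h3 : f x = 1 := by
      rw [mul_assoc, inv_mul_eq_one] at hw
      exact mul_eq_right.mp hw.symm
    have h4 : c.symm x = 1 := Subtype.ext h3
    have h5 : x = 1 := by rw [← c.apply_symm_apply x, h4, map_one]
    rw [h5, map_one, mul_one, inv_mul_cancel]
  refine ⟨n, φ, hφ, (MulEquiv.ofBijective Φ ⟨hinj, hsurj⟩).symm, fun x => ?_⟩
  rw [MulEquiv.symm_symm]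
  change χ (Φ (HNNExtension.of x)) = 1
  rw [hΦof]
  exact hPχ (c.symm x).2

end WQ
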