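import Pool.Agent.Lib.MP_0c5642_al.W.J5

/-! Free groups with commuting powers; Baumslag-Solitar groups. -/

set_option autoImplicit false

namespace WQ

open Matrix ModularGroup in
theorem K1_mat (m l : ℕ) (hm : 0 < m) (hl : 0 < l) :
    ModularGroup.T ^ m * (ModularGroup.S * ModularGroup.T * ModularGroup.S⁻¹) ^ l ≠
      (ModularGroup.S * ModularGroup.T * ModularGroup.S⁻¹) ^ l * ModularGroup.T ^ m := by
  intro h
  rw [conj_pow] at h
  have h1 := congrArg (fun A : Matrix.SpecialLinearGroup (Fin 2) ℤ => (A : Matrix (Fin 2) (Fin 2) ℤ) 0 0) h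
  have hT : ∀ k : ℕ, ((ModularGroup.T ^ k : Matrix.SpecialLinearGroup (Fin 2) ℤ) : Matrix (Fin 2) (Fin 2) ℤ) = !![1, (k : ℤ); 0, 1] := by
    intro k
    have := ModularGroup.coe_T_zpow (k : ℤ)
    rw [zpow_natCast] at this
    exact this
  have hS : ((ModularGroup.S : Matrix.SpecialLinearGroup (Fin 2) ℤ) : Matrix (Fin 2) (Fin 2) ℤ) = !![0, -1; 1, 0] := rfl
  have hSi : ((ModularGroup.S⁻¹ : Matrix.SpecialLinearGroup (Fin 2) ℤ) : Matrix (Fin 2) (Fin 2) ℤ) = !![0, 1; -1, 0] := by
    rw [Matrix.SpecialLinearGroup.coe_inv, hS, Matrix.adjugate_fin_two_of]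
    simp
  simp only [Matrix.SpecialLinearGroup.coe_mul, hT, hS, hSi] at h1
  simp [Matrix.mul_apply, Fin.sum_univ_two] at h1
  omega

/-- a free group in which any two elements have commuting positive powers has at most one generator -/
theorem K1_comm {W : Type*} [Group W] [IsFreeGroup W]
    (h : ∀ g k : W, ∃ m l : ℕ, 0 < m ∧ 0 < l ∧ g ^ m * k ^ l = k ^ l * g ^ m) :
    Subsingleton (IsFreeGroup.Generators W) := by
  classical
  refine ⟨fun i j => ?_⟩
  by_contra hij
  obtain ⟨m, l, hm, hl, hml⟩ := h (IsFreeGroup.of i) (IsFreeGroup.of j)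
  let f : W →* Matrix.SpecialLinearGroup (Fin 2) ℤ :=
    IsFreeGroup.lift (fun a => if a = i then ModularGroup.T else ModularGroup.S * ModularGroup.T * ModularGroup.S⁻¹)
  have hi : f (IsFreeGroup.of i) = ModularGroup.T := by
    rw [IsFreeGroup.lift_of, if_pos rfl]
  have hj : f (IsFreeGroup.of j) = ModularGroup.S * ModularGroup.T * ModularGroup.S⁻¹ := by
    rw [IsFreeGroup.lift_of, if_neg (Ne.symm hij)]
  have h1 := congrArg f hml
  rw [map_mul, map_mul, map_pow, map_pow, hi, hj] at h1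
  exact K1_mat m l hm hl h1

end WQ
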