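import Pool.Agent.Lib.MP_0c5642_al.W.J3

/-! Recognition of Baumslag-Solitar groups. -/

set_option autoImplicit false

namespace WQ

/-- the relator of the Baumslag-Solitar group `BS(1,m)` -/
def bsr (m : ℤ) : FreeGroup (Fin 2) :=
  FreeGroup.of (1 : Fin 2) * FreeGroup.of (0 : Fin 2) * (FreeGroup.of (1 : Fin 2))⁻¹ * (FreeGroup.of (0 : Fin 2) ^ m)⁻¹

/-- the Baumslag-Solitar group `BS(1,m)` -/
abbrev BSG (m : ℤ) : Type := FreeGroup (Fin 2) ⧸ Subgroup.normalClosure ({bsr m} : Set (FreeGroup (Fin 2)))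

def K2A (m : ℤ) : BSG m := QuotientGroup.mk (FreeGroup.of 0)
def K2T (m : ℤ) : BSG m := QuotientGroup.mk (FreeGroup.of 1)

theorem K2_rel (m : ℤ) : K2T m * K2A m = K2A m ^ m * K2T m := by
  have h : (QuotientGroup.mk (bsr m) : BSG m) = 1 :=
    (QuotientGroup.eq_one_iff _).mpr (Subgroup.subset_normalClosure rfl)
  have h2 : K2T m * K2A m * (K2T m)⁻¹ * (K2A m ^ m)⁻¹ = 1 := h
  rw [mul_inv_eq_one, mul_inv_eq_iff_eq_mul] at h2
  exact h2

theorem K2_rel_zpow (m : ℤ) (z : ℤ) : K2T m * K2A m ^ z = K2A m ^ (m * z) * K2T m := by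
  have h : K2T m * K2A m * (K2T m)⁻¹ = K2A m ^ m := by rw [mul_inv_eq_iff_eq_mul]; exact K2_rel m
  have h2 : K2T m * K2A m ^ z * (K2T m)⁻¹ = K2A m ^ (m * z) := by
    rw [← conj_zpow, h, ← zpow_mul]
  rwa [mul_inv_eq_iff_eq_mul] at h2

theorem K2_rel_pow (m : ℤ) (j : ℕ) (z : ℤ) : ∃ y : ℤ, K2T m ^ j * K2A m ^ z = K2A m ^ y * K2T m ^ j := by
  induction j with
  | zero => exact ⟨z, by simp⟩
  | succ j ih =>
    obtain ⟨y, hy⟩ := ih
    refine ⟨m * y, ?_⟩
    rw [pow_succ', mul_assoc, hy, ← mul_assoc, K2_rel_zpow, mul_assoc]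

/-- the normal form -/
def K2Form (m : ℤ) (w : BSG m) : Prop :=
  ∃ (i j : ℕ) (x : ℤ), w = (K2T m ^ i)⁻¹ * K2A m ^ x * K2T m ^ j

theorem K2_A {m : ℤ} {u : BSG m} (hu : K2Form m u) (y : ℤ) : K2Form m (u * K2A m ^ y) := by
  obtain ⟨i, j, x, rfl⟩ := hu
  obtain ⟨z, hz⟩ := K2_rel_pow m j y
  refine ⟨i, j, x + z, ?_⟩
  rw [mul_assoc, hz, zpow_add]
  simp only [mul_assoc]

theorem K2_T {m : ℤ} {u : BSG m} (hu : K2Form m u) : K2Form m (u * K2T m) := by
  obtain ⟨i, j, x, rfl⟩ := hu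
  exact ⟨i, j + 1, x, by rw [pow_succ]; simp only [mul_assoc]⟩

theorem K2_T_inv {m : ℤ} {u : BSG m} (hu : K2Form m u) : K2Form m (u * (K2T m)⁻¹) := by
  obtain ⟨i, j, x, rfl⟩ := hu
  cases j with
  | zero =>
    refine ⟨i + 1, 0, m * x, ?_⟩
    have h := K2_rel_zpow m x
    have h2 : K2A m ^ x * (K2T m)⁻¹ = (K2T m)⁻¹ * K2A m ^ (m * x) := by
      rw [mul_inv_eq_iff_eq_mul, mul_assoc, ← h, inv_mul_cancel_left]
    rw [pow_zero, mul_one, mul_one, mul_assoc, h2, pow_succ', mul_inv_rev, mul_assoc]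
  | succ j =>
    refine ⟨i, j, x, ?_⟩
    rw [pow_succ, mul_assoc, mul_assoc, mul_inv_cancel_right, ← mul_assoc]

theorem K2_form (m : ℤ) (w : BSG m) : K2Form m w := by
  have key : ∀ v : FreeGroup (Fin 2), ∀ u : BSG m, K2Form m u →
      K2Form m (u * QuotientGroup.mk v) ∧ K2Form m (u * (QuotientGroup.mk v)⁻¹) := by
    intro v
    induction v using FreeGroup.induction_on with
    | C1 =>
      intro u hu
      have h1 : (QuotientGroup.mk (1 : FreeGroup (Fin 2)) : BSG m) = 1 := rfl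
      rw [h1, inv_one, mul_one]
      exact ⟨hu, hu⟩
    | of i =>
      intro u hu
      fin_cases i
      · have h1 := K2_A hu 1
        have h2 := K2_A hu (-1)
        rw [zpow_one] at h1
        rw [zpow_neg_one] at h2
        exact ⟨h1, h2⟩
      · exact ⟨K2_T hu, K2_T_inv hu⟩
    | inv_of i h =>
      intro u hu
      have h1 : (QuotientGroup.mk ((FreeGroup.of i)⁻¹ : FreeGroup (Fin 2)) : BSG m) = (QuotientGroup.mk (FreeGroup.of i))⁻¹ := rfl
      rw [h1, inv_inv]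
      exact ⟨(h u hu).2, (h u hu).1⟩
    | mul x y hx hy =>
      intro u hu
      have h1 : (QuotientGroup.mk (x * y : FreeGroup (Fin 2)) : BSG m) = QuotientGroup.mk x * QuotientGroup.mk y := rfl
      rw [h1]
      refine ⟨?_, ?_⟩
      · rw [← mul_assoc]
        exact (hy _ (hx _ hu).1).1
      · rw [mul_inv_rev, ← mul_assoc]
        exact (hx _ (hy _ hu).2).2
  obtain ⟨v, rfl⟩ := QuotientGroup.mk_surjective w
  have := (key v 1 ⟨0, 0, 0, by simp⟩).1
  rwa [one_mul] at this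

theorem K2_bs {G : Type} [Group G] (χ : G →* Multiplicative ℤ) (a t : G) (ha : χ a = 1) (ht : χ t ≠ 1)
    (htf : ∀ g : G, IsOfFinOrder g → g = 1) (ha1 : a ≠ 1) (m : ℤ) (hrel : t * a * t⁻¹ = a ^ m)
    (hgen : Subgroup.closure {a, t} = ⊤) : Nonempty (G ≃* BSG m) := by
  let f : FreeGroup (Fin 2) →* G := FreeGroup.lift (fun i => if i = 0 then a else t)
  have hf0 : f (FreeGroup.of 0) = a := by simp [f]
  have hf1 : f (FreeGroup.of 1) = t := by simp [f]
  have hle : Subgroup.normalClosure ({bsr m} : Set (FreeGroup (Fin 2))) ≤ f.ker := by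
    apply Subgroup.normalClosure_le_normal
    rw [Set.singleton_subset_iff]
    change f (bsr m) = 1
    rw [bsr, map_mul, map_mul, map_mul, map_inv, map_inv, map_zpow, hf0, hf1, hrel, mul_inv_cancel]
  let Φ : BSG m →* G := QuotientGroup.lift _ f hle
  have hΦA : Φ (K2A m) = a := hf0
  have hΦT : Φ (K2T m) = t := hf1
  have hsurj : Function.Surjective Φ := by
    rw [← MonoidHom.range_eq_top, eq_top_iff, ← hgen, Subgroup.closure_le]
    rintro x (rfl | hx)
    · exact ⟨_, hΦA⟩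
    · rw [Set.mem_singleton_iff.mp hx]
      exact ⟨_, hΦT⟩
  have hinj : Function.Injective Φ := by
    rw [injective_iff_map_eq_one]
    intro w hw
    obtain ⟨i, j, x, rfl⟩ := K2_form m w
    rw [map_mul, map_mul, map_inv, map_pow, map_pow, map_zpow, hΦA, hΦT] at hw
    have h1 := congrArg χ hw
    rw [map_mul, map_mul, map_inv, map_pow, map_pow, map_zpow, ha, one_zpow, map_one, mul_one] at h1
    have h2 : χ t ^ j = χ t ^ i := by
      rw [inv_mul_eq_one] at h1
      exact h1.symm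
    have hij : j = i := by
      have h3 := congrArg Multiplicative.toAdd h2
      rw [toAdd_pow, toAdd_pow] at h3
      have h4 : Multiplicative.toAdd (χ t) ≠ 0 := fun h => ht (Multiplicative.toAdd.injective h)
      simp only [nsmul_eq_mul] at h3
      have h5 := mul_right_cancel₀ h4 h3
      exact_mod_cast h5
    subst hij
    have h3 : a ^ x = 1 := by
      rw [mul_assoc, inv_mul_eq_one] at hw
      exact mul_eq_right.mp hw.symm
    have h4 : x = 0 := by
      by_contra hx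
      apply ha1
      apply htf
      rw [isOfFinOrder_iff_zpow_eq_one]
      exact ⟨x, hx, h3⟩
    rw [h4, zpow_zero, mul_one, inv_mul_cancel]
  exact ⟨(MulEquiv.ofBijective Φ ⟨hinj, hsurj⟩).symm⟩

end WQ
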