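import Pool.Agent.Lib.MP_0c5642_al.W.J5
import Pool.Agent.Lib.MP_0c5642_al.W.K1
import Pool.Agent.Lib.MP_0c5642_al.W.K2

/-! Ascending HNN extensions with base of minimal rank in finite index subgroups. -/

set_option autoImplicit false

namespace WQ

open scoped Pointwise

variable {G : Type*} [Group G]

/-- some subgroup of finite index is an ascending HNN extension with base free of rank `n` in the kernel of `χ` -/
def AscN (χ : G →* Multiplicative ℤ) (n : ℕ) : Prop :=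
  ∃ (P : Subgroup G) (s : G), (P ⊔ Subgroup.zpowers s : Subgroup G).index ≠ 0 ∧ P ≤ χ.ker ∧ χ s ≠ 1 ∧
    P.map (MulAut.conj s).toMonoidHom ≤ P ∧ Nonempty (P ≃* FreeGroup (Fin n))

theorem K3_basis {P : Subgroup G} (hP : P.FG) (hPf : IsFreeGroup P) : ∃ n : ℕ, Nonempty (P ≃* FreeGroup (Fin n)) := by
  have hPfg : Group.FG P := (Group.fg_iff_subgroup_fg P).mpr hP
  obtain ⟨ι, ⟨b⟩⟩ := hPf.nonempty_basis
  have hfin : Finite ι := J5_fin (Group.fg_of_surjective (f := b.repr.toMonoidHom) b.repr.surjective)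
  obtain ⟨n, ⟨e⟩⟩ := Finite.exists_equiv_fin ι
  exact ⟨n, ⟨b.repr.trans (FreeGroup.freeGroupCongr e)⟩⟩

theorem Asc.ascN {χ : G →* Multiplicative ℤ} (h : Asc χ) : ∃ n, AscN χ n := by
  obtain ⟨P, s, hP, hPf, hPχ, hs, hsP, htop⟩ := h
  obtain ⟨n, hn⟩ := K3_basis hP hPf
  refine ⟨n, P, s, ?_, hPχ, ?_, hsP, hn⟩
  · rw [htop, Subgroup.index_top]
    exact one_ne_zero
  · intro h
    rcases hs with hs | hs
    · rw [hs] at h
      have h4 := congrArg Multiplicative.toAdd h
      simp at h4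
    · rw [hs] at h
      have h4 := congrArg Multiplicative.toAdd h
      simp at h4

theorem K3_rank {P : Subgroup G} {b e : ℕ} (hP : Nonempty (P ≃* FreeGroup (Fin b))) (he : GenBy e P) : b ≤ e := by
  obtain ⟨c⟩ := hP
  let Ψ : FreeGroup (Fin b) →* Multiplicative (Fin b → ℤ) :=
    FreeGroup.lift (fun i => Multiplicative.ofAdd (Pi.single i 1))
  have hΨ : Function.Surjective Ψ := by
    intro z
    refine ⟨(List.ofFn (fun i => FreeGroup.of i ^ (Multiplicative.toAdd z i))).prod, ?_⟩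
    rw [map_list_prod, List.map_ofFn, List.prod_ofFn]
    apply Multiplicative.toAdd.injective
    rw [toAdd_prod]
    have h1 : ∀ i : Fin b, Multiplicative.toAdd ((⇑Ψ ∘ fun i => FreeGroup.of i ^ (Multiplicative.toAdd z i)) i) =
        Pi.single i (Multiplicative.toAdd z i) := by
      intro i
      simp only [Function.comp_apply, map_zpow, Ψ, FreeGroup.lift_apply_of, toAdd_zpow, toAdd_ofAdd]
      ext j
      by_cases hij : j = i
      · subst hij
        simp
      · simp [hij]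
    rw [Finset.sum_congr rfl (fun i _ => h1 i)]
    exact Finset.univ_sum_single _
  exact F3_rank P he (Ψ.comp c.toMonoidHom) (hΨ.comp c.surjective)

/-- conjugating into the base -/
theorem K3_into {χ : G →* Multiplicative ℤ} {P : Subgroup G} {s : G} (hs : χ s ≠ 1) (hP : P ≤ χ.ker)
    (hsP : P.map (MulAut.conj s).toMonoidHom ≤ P) (hi : (P ⊔ Subgroup.zpowers s : Subgroup G).index ≠ 0)
    {g : G} (hg : χ g = 1) : ∃ m : ℕ, 0 < m ∧ ∃ n : ℕ, ∀ N : ℕ, n ≤ N → s ^ N * g ^ m * (s ^ N)⁻¹ ∈ P := by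
  obtain ⟨m, hm, _, hgm⟩ := Subgroup.exists_pow_mem_of_index_ne_zero hi g
  refine ⟨m, hm, ?_⟩
  obtain ⟨n, hn⟩ := mem_ker_L χ s hs P P le_rfl hP hsP hgm (by rw [map_pow, hg, one_pow])
  refine ⟨n, fun N hN => ?_⟩
  obtain ⟨d, rfl⟩ := Nat.exists_eq_add_of_le hN
  clear hN
  induction d with
  | zero => exact hn
  | succ d ih =>
    apply hsP
    refine ⟨_, ih, ?_⟩
    simp only [MulEquiv.toMonoidHom_eq_coe, MonoidHom.coe_coe, MulAut.conj_apply]
    rw [← add_assoc, pow_succ' s (n + d)]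
    simp only [mul_inv_rev, mul_assoc]

/-- a group generated by one element which is not in the kernel is free -/
theorem K3_free_cyclic {χ : G →* Multiplicative ℤ} {s : G}
    (hs : χ s = Multiplicative.ofAdd 1 ∨ χ s = Multiplicative.ofAdd (-1)) (h : Subgroup.closure {1, s} = ⊤) :
    IsFreeGroup G := by
  rcases hs with hs | hs
  · exact J3_free_cyclic hs h
  · refine J3_free_cyclic (t := s⁻¹) (χ := χ) ?_ (J3_closure_inv h)
    rw [map_inv, hs]
    rfl

theorem K3_zero {χ : G →* Multiplicative ℤ} (h : Asc χ) (htf : ∀ g : G, IsOfFinOrder g → g = 1) (h0 : AscN χ 0) :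
    IsFreeGroup G := by
  obtain ⟨P, s, hi, hPχ, hs, hsP, ⟨c⟩⟩ := h0
  have hP : ∀ x ∈ P, x = 1 := by
    intro x hx
    have h1 : c ⟨x, hx⟩ = c 1 := Subsingleton.elim _ _
    exact congrArg Subtype.val (c.injective h1)
  have hker : ∀ g : G, χ g = 1 → g = 1 := by
    intro g hg
    obtain ⟨m, hm, n, hn⟩ := K3_into hs hPχ hsP hi hg
    have h1 := hP _ (hn n le_rfl)
    have h2 : g ^ m = 1 := by
      have h3 : g ^ m = (s ^ n)⁻¹ * (s ^ n * g ^ m * (s ^ n)⁻¹) * s ^ n := by group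
      rw [h3, h1]
      group
    apply htf
    exact isOfFinOrder_iff_pow_eq_one.mpr ⟨m, hm, h2⟩
  obtain ⟨P0, s0, hP0, hP0f, hP0χ, hs0, hsP0, htop⟩ := h
  apply K3_free_cyclic hs0
  rw [eq_top_iff, ← htop, sup_le_iff]
  constructor
  · intro x hx
    rw [hker x (hP0χ hx)]
    exact Subgroup.one_mem _
  · rw [Subgroup.zpowers_le]
    exact Subgroup.subset_closure (Or.inr rfl)

theorem K3_one {G : Type} [Group G] {χ : G →* Multiplicative ℤ} (h : Asc χ) (htf : ∀ g : G, IsOfFinOrder g → g = 1)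
    (h1 : AscN χ 1) (hfree : ¬ IsFreeGroup G) : ∃ m : ℤ, Nonempty (G ≃* BSG m) := by
  obtain ⟨P, s, hi, hPχ, hs, hsP, ⟨c⟩⟩ := h1
  have hcomm : ∀ x ∈ P, ∀ y ∈ P, x * y = y * x := by
    intro x hx y hy
    have key : ∀ w : FreeGroup (Fin 1), w ∈ Subgroup.zpowers (FreeGroup.of (0 : Fin 1)) := by
      intro w
      have h1 : (⊤ : Subgroup (FreeGroup (Fin 1))) ≤ Subgroup.zpowers (FreeGroup.of (0 : Fin 1)) := by
        rw [← FreeGroup.closure_range_of, Subgroup.closure_le]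
        rintro _ ⟨i, rfl⟩
        rw [Subsingleton.elim i 0]
        exact Subgroup.mem_zpowers _
      exact h1 (Subgroup.mem_top w)
    obtain ⟨i, hi⟩ := key (c ⟨x, hx⟩)
    obtain ⟨j, hj⟩ := key (c ⟨y, hy⟩)
    have h2 : c (⟨x, hx⟩ * ⟨y, hy⟩) = c (⟨y, hy⟩ * ⟨x, hx⟩) := by
      rw [map_mul, map_mul, ← hi, ← hj]
      exact zpow_mul_comm _ _ _
    exact congrArg Subtype.val (c.injective h2)
  have hK : ∀ g k : G, χ g = 1 → χ k = 1 → ∃ m l : ℕ, 0 < m ∧ 0 < l ∧ g ^ m * k ^ l = k ^ l * g ^ m := by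
    intro g k hg hk
    obtain ⟨m, hm, n, hn⟩ := K3_into hs hPχ hsP hi hg
    obtain ⟨l, hl, n', hn'⟩ := K3_into hs hPχ hsP hi hk
    refine ⟨m, l, hm, hl, ?_⟩
    have h3 := hcomm _ (hn (max n n') (le_max_left _ _)) _ (hn' (max n n') (le_max_right _ _))
    have h4 : s ^ (max n n') * (g ^ m * k ^ l) * (s ^ (max n n'))⁻¹ = s ^ (max n n') * (k ^ l * g ^ m) * (s ^ (max n n'))⁻¹ := by
      have e1 : s ^ (max n n') * (g ^ m * k ^ l) * (s ^ (max n n'))⁻¹ =
          s ^ (max n n') * g ^ m * (s ^ (max n n'))⁻¹ * (s ^ (max n n') * k ^ l * (s ^ (max n n'))⁻¹) := by group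
      have e2 : s ^ (max n n') * (k ^ l * g ^ m) * (s ^ (max n n'))⁻¹ =
          s ^ (max n n') * k ^ l * (s ^ (max n n'))⁻¹ * (s ^ (max n n') * g ^ m * (s ^ (max n n'))⁻¹) := by group
      rw [e1, e2, h3]
    exact mul_left_cancel (mul_right_cancel h4)
  obtain ⟨P0, s0, hP0, hP0f, hP0χ, hs0, hsP0, htop⟩ := h
  have hsub : Subsingleton (IsFreeGroup.Generators P0) := by
    apply K1_comm
    intro g k
    obtain ⟨m, l, hm, hl, hml⟩ := hK g k (hP0χ g.2) (hP0χ k.2)
    exact ⟨m, l, hm, hl, Subtype.ext hml⟩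
  obtain ⟨x0, hx0P, hx0⟩ : ∃ x0 ∈ P0, ∀ y ∈ P0, y ∈ Subgroup.zpowers x0 := by
    have hcl : Subgroup.closure (Set.range fun i => ((IsFreeGroup.basis P0 i : P0) : G)) = P0 := B3b_closure _
    by_cases hne : Nonempty (IsFreeGroup.Generators P0)
    · obtain ⟨i⟩ := hne
      refine ⟨(IsFreeGroup.basis P0 i : P0), Subtype.mem _, fun y hy => ?_⟩
      rw [← hcl] at hy
      have h2 : Subgroup.closure (Set.range fun i => ((IsFreeGroup.basis P0 i : P0) : G)) ≤
          Subgroup.zpowers ((IsFreeGroup.basis P0 i : P0) : G) := by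
        rw [Subgroup.closure_le]
        rintro _ ⟨j, rfl⟩
        rw [Subsingleton.elim j i]
        exact Subgroup.mem_zpowers _
      exact h2 hy
    · refine ⟨1, P0.one_mem, fun y hy => ?_⟩
      rw [← hcl] at hy
      have h2 : Subgroup.closure (Set.range fun i => ((IsFreeGroup.basis P0 i : P0) : G)) ≤
          Subgroup.zpowers (1 : G) := by
        rw [Subgroup.closure_le]
        rintro _ ⟨j, rfl⟩
        exact absurd ⟨j⟩ hne
      exact h2 hy
  have hgen : Subgroup.closure {x0, s0} = ⊤ := by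
    rw [eq_top_iff, ← htop, sup_le_iff]
    constructor
    · intro y hy
      have h2 : Subgroup.zpowers x0 ≤ Subgroup.closure {x0, s0} := by
        rw [Subgroup.zpowers_le]
        exact Subgroup.subset_closure (Or.inl rfl)
      exact h2 (hx0 y hy)
    · rw [Subgroup.zpowers_le]
      exact Subgroup.subset_closure (Or.inr rfl)
  have hx1 : x0 ≠ 1 := by
    rintro rfl
    exact hfree (K3_free_cyclic hs0 hgen)
  have hχs : χ s0 ≠ 1 := by
    intro h
    rcases hs0 with hs | hs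
    · rw [hs] at h
      have h4 := congrArg Multiplicative.toAdd h
      simp at h4
    · rw [hs] at h
      have h4 := congrArg Multiplicative.toAdd h
      simp at h4
  obtain ⟨m, hm⟩ := hx0 (s0 * x0 * s0⁻¹) (hsP0 ⟨x0, hx0P, rfl⟩)
  exact ⟨m, K2_bs χ x0 s0 (hP0χ hx0P) hχs htf hx1 m hm.symm hgen⟩

/-- If all finitely generated subgroups of infinite index are free, a base of minimal rank contains no nontrivial subgroup of smaller rank which is mapped
into itself by an element outside the kernel. -/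
theorem K3_min {χ : G →* Multiplicative ℤ} (CH : ∀ H : Subgroup G, H.FG → H.index = 0 → IsFreeGroup H)
    (htf : ∀ g : G, IsOfFinOrder g → g = 1) {n : ℕ} (hmin : ∀ k, k < n → ¬ AscN χ k)
    (B : Subgroup G) (hBχ : B ≤ χ.ker) {e : ℕ} (he : e < n) (hB : GenBy e B) (hne : B ≠ ⊥) (τ : G) (hτ : χ τ ≠ 1) :
    ¬ B.map (MulAut.conj τ).toMonoidHom ≤ B := by
  intro hle
  have hBfg : B.FG := by
    obtain ⟨S, _, hS⟩ := hB
    exact ⟨S, hS⟩
  have hHfg : (B ⊔ Subgroup.zpowers τ : Subgroup G).FG := by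
    classical
    obtain ⟨S, hS⟩ := hBfg
    refine ⟨S ∪ {τ}, ?_⟩
    rw [Finset.coe_union, Subgroup.closure_union, hS, Finset.coe_singleton, Subgroup.zpowers_eq_closure]
  by_cases hi : (B ⊔ Subgroup.zpowers τ : Subgroup G).index = 0
  · exact not_free χ τ hτ B B le_rfl hBχ le_sup_left hne hle e (fun F hF => ⟨B, hB, hF, le_rfl⟩) htf (CH _ hHfg hi)
  · have hBf : IsFreeGroup B := CH B hBfg (J2_index hτ hBχ)
    obtain ⟨b, hb⟩ := K3_basis hBfg hBf
    have hbe : b ≤ e := K3_rank hb hB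
    exact hmin b (by omega) ⟨B, τ, hi, hBχ, hτ, hle, hb⟩

end WQ
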