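import Pool.Agent.Lib.MP_0c5642_al.W.K3

/-! The theorem with the irreducible remainder. -/

set_option autoImplicit false

namespace WQ

open scoped Pointwise

/-- an ascending HNN extension in the internal sense is isomorphic to one in the sense of Mathlib -/
theorem K4_equiv {G : Type} [Group G] (χ : G →* Multiplicative ℤ) (P : Subgroup G) (s : G) {n : ℕ}
    (c : P ≃* FreeGroup (Fin n)) (hPχ : P ≤ χ.ker) (hχs : χ s ≠ 1) (hsP : P.map (MulAut.conj s).toMonoidHom ≤ P)
    (htop : P ⊔ Subgroup.zpowers s = ⊤) :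
    ∃ (φ : FreeGroup (Fin n) →* FreeGroup (Fin n)) (hφ : Function.Injective φ) (e : G ≃* AscHNN φ hφ),
      (∀ x, e.symm (HNNExtension.of x) = ((c.symm x : P) : G)) ∧ e.symm HNNExtension.t = s := by
  let ψ : P →* P := ((MulAut.conj s).toMonoidHom.comp P.subtype).codRestrict P (fun x => hsP ⟨x, x.2, rfl⟩)
  have hψ : ∀ x : P, ((ψ x : P) : G) = s * x * s⁻¹ := fun x => rfl
  let φ : FreeGroup (Fin n) →* FreeGroup (Fin n) := (c.toMonoidHom.comp ψ).comp c.symm.toMonoidHom
  have hψi : Function.Injective ψ := by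
    intro x y hxy
    have h1 := congrArg Subtype.val hxy
    rw [hψ, hψ] at h1
    exact Subtype.ext (mul_left_cancel (mul_right_cancel h1))
  have hφ : Function.Injective φ := c.injective.comp (hψi.comp c.symm.injective)
  have hφc : ∀ x, φ x = c (ψ (c.symm x)) := fun x => rfl
  let f : FreeGroup (Fin n) →* G := P.subtype.comp c.symm.toMonoidHom
  have hf : ∀ x, f x = ((c.symm x : P) : G) := fun x => rfl
  let Φ : AscHNN φ hφ →* G := HNNExtension.lift f s (by
    rintro ⟨x, hx⟩
    change s * f x = f (φ x) * s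
    rw [hf, hf, hφc, c.symm_apply_apply, hψ, inv_mul_cancel_right])
  have hΦof : ∀ x, Φ (HNNExtension.of x) = f x := fun x => HNNExtension.lift_of _ _ _ x
  have hΦt : Φ HNNExtension.t = s := HNNExtension.lift_t _ _ _
  have hsurj : Function.Surjective Φ := by
    rw [← MonoidHom.range_eq_top, eq_top_iff, ← htop, sup_le_iff]
    constructor
    · intro x hx
      refine ⟨HNNExtension.of (c ⟨x, hx⟩), ?_⟩
      rw [hΦof, hf, c.symm_apply_apply]
    · rw [Subgroup.zpowers_le]
      exact ⟨_, hΦt⟩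
  have hinj : Function.Injective Φ := by
    rw [injective_iff_map_eq_one]
    intro w hw
    obtain ⟨i, j, x, rfl⟩ := J5_form φ hφ w
    rw [map_mul, map_mul, map_inv, map_pow, map_pow, hΦof, hΦt] at hw
    have hfx : χ (f x) = 1 := hPχ (c.symm x).2
    have h1 := congrArg χ hw
    rw [map_mul, map_mul, map_inv, map_pow, map_pow, hfx, map_one, mul_one] at h1
    have h2 : χ s ^ j = χ s ^ i := by
      rw [inv_mul_eq_one] at h1
      exact h1.symm
    have hij : j = i := by
      have h3 := congrArg Multiplicative.toAdd h2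
      rw [toAdd_pow, toAdd_pow] at h3
      have h4 : Multiplicative.toAdd (χ s) ≠ 0 := fun h => hχs (Multiplicative.toAdd.injective h)
      simp only [nsmul_eq_mul] at h3
      have h5 := mul_right_cancel₀ h4 h3
      exact_mod_cast h5
    subst hij
    have h3 : f x = 1 := by
      rw [mul_assoc, inv_mul_eq_one] at hw
      exact mul_eq_right.mp hw.symm
    have h4 : c.symm x = 1 := Subtype.ext h3
    have h5 : x = 1 := by rw [← c.apply_symm_apply x, h4, map_one]
    rw [h5, map_one, mul_one, inv_mul_cancel]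
  refine ⟨φ, hφ, (MulEquiv.ofBijective Φ ⟨hinj, hsurj⟩).symm, fun x => ?_, ?_⟩
  · rw [MulEquiv.symm_symm]
    exact hΦof x
  · rw [MulEquiv.symm_symm]
    exact hΦt

/-- the same for the subgroup generated by `P` and `s` -/
theorem K4_sub {G : Type} [Group G] (χ : G →* Multiplicative ℤ) (P : Subgroup G) (s : G) {n : ℕ}
    (c : P ≃* FreeGroup (Fin n)) (hPχ : P ≤ χ.ker) (hχs : χ s ≠ 1) (hsP : P.map (MulAut.conj s).toMonoidHom ≤ P) :
    ∃ (φ : FreeGroup (Fin n) →* FreeGroup (Fin n)) (hφ : Function.Injective φ)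
      (e : (P ⊔ Subgroup.zpowers s : Subgroup G) ≃* AscHNN φ hφ),
      (∀ x, ((e.symm (HNNExtension.of x) : (P ⊔ Subgroup.zpowers s : Subgroup G)) : G) = ((c.symm x : P) : G)) ∧
      ((e.symm HNNExtension.t : (P ⊔ Subgroup.zpowers s : Subgroup G)) : G) = s := by
  set L : Subgroup G := P ⊔ Subgroup.zpowers s with hL
  have hPL : P ≤ L := le_sup_left
  have hsL : s ∈ L := Subgroup.mem_sup_right (Subgroup.mem_zpowers s)
  let q : P.subgroupOf L ≃* P := Subgroup.subgroupOfEquivOfLe hPL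
  obtain ⟨φ, hφ, e, h1, h2⟩ := K4_equiv (χ.comp L.subtype) (P.subgroupOf L) ⟨s, hsL⟩ (q.trans c) (by
    intro x hx
    exact hPχ hx) hχs (by
    rintro _ ⟨x, hx, rfl⟩
    exact hsP ⟨(x : G), hx, rfl⟩) (by
    apply Subgroup.map_injective L.subtype_injective
    rw [Subgroup.map_sup, Subgroup.subgroupOf_map_subtype, MonoidHom.map_zpowers, inf_of_le_left hPL,
      ← MonoidHom.range_eq_map, Subgroup.range_subtype]
    exact hL.symm)
  refine ⟨φ, hφ, e, fun x => ?_, ?_⟩
  · rw [h1]
    rfl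
  · rw [h2]

/-- the structure of a group all of whose finitely generated subgroups of infinite index are free -/
theorem K4_core {G : Type} [Group G] (hfree : ¬ IsFreeGroup G) (hbs : ∀ m : ℤ, ¬ Nonempty (G ≃* BSG m))
    (χ : G →* Multiplicative ℤ) (hχ : χ ≠ 1) (hasc : Asc χ) (CH : ∀ H : Subgroup G, H.FG → H.index = 0 → IsFreeGroup H) :
    ∃ (L : Subgroup G) (n : ℕ) (φ : FreeGroup (Fin n) →* FreeGroup (Fin n)) (hφ : Function.Injective φ)
      (e : L ≃* AscHNN φ hφ),
      L.index ≠ 0 ∧ 2 ≤ n ∧ (∀ x, χ ((e.symm (HNNExtension.of x) : L) : G) = 1) ∧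
      ∀ (S : Finset (FreeGroup (Fin n))) (k : ℕ) (x : FreeGroup (Fin n)), S.card < n →
        Subgroup.closure (S : Set (FreeGroup (Fin n))) ≠ ⊥ → 0 < k →
        ∃ y ∈ Subgroup.closure (S : Set (FreeGroup (Fin n))),
          x * φ^[k] y * x⁻¹ ∉ Subgroup.closure (S : Set (FreeGroup (Fin n))) := by
  classical
  have htf : ∀ g : G, IsOfFinOrder g → g = 1 :=
    J3_tf (fun K hK hKne => MP0c5642.indicable χ hχ CH K hK hKne)
  have hex : ∃ n, AscN χ n := hasc.ascN
  obtain ⟨P, s, hi, hPχ, hs, hsP, ⟨c⟩⟩ := Nat.find_spec hex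
  have hmin : ∀ k, k < Nat.find hex → ¬ AscN χ k := fun k hk => Nat.find_min hex hk
  have h2 : 2 ≤ Nat.find hex := by
    by_contra hlt
    have h01 : Nat.find hex = 0 ∨ Nat.find hex = 1 := by omega
    rcases h01 with h0 | h0
    · exact hfree (K3_zero hasc htf (h0 ▸ Nat.find_spec hex))
    · obtain ⟨m, hm⟩ := K3_one hasc htf (h0 ▸ Nat.find_spec hex) hfree
      exact hbs m hm
  obtain ⟨φ, hφ, e, he1, he2⟩ := K4_sub χ P s c hPχ hs hsP
  refine ⟨P ⊔ Subgroup.zpowers s, Nat.find hex, φ, hφ, e, hi, h2, fun x => ?_, ?_⟩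
  · rw [he1]
    exact hPχ (c.symm x).2
  · intro S k x hS hne hk
    by_contra hcon
    push Not at hcon
    let f : FreeGroup (Fin (Nat.find hex)) →* G := P.subtype.comp c.symm.toMonoidHom
    have hf : ∀ y, f y = ((c.symm y : P) : G) := fun y => rfl
    have hfinj : Function.Injective f := P.subtype_injective.comp c.symm.injective
    have hsf : ∀ y, s * f y * s⁻¹ = f (φ y) := by
      intro y
      have h1 := J5_rel φ hφ y
      have h3 := congrArg (fun z => ((e.symm z : (P ⊔ Subgroup.zpowers s : Subgroup G)) : G)) h1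
      simp only [map_mul, Subgroup.coe_mul, he1, he2] at h3
      rw [mul_inv_eq_iff_eq_mul, hf, hf]
      exact h3
    have hskf : ∀ (k : ℕ) (y), s ^ k * f y * (s ^ k)⁻¹ = f (φ^[k] y) := by
      intro k
      induction k with
      | zero => intro y; simp
      | succ k ih =>
        intro y
        rw [Function.iterate_succ_apply, ← ih, ← hsf, pow_succ]
        simp only [mul_inv_rev, mul_assoc]
    set B : Subgroup G := (Subgroup.closure (S : Set (FreeGroup (Fin (Nat.find hex))))).map f with hB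
    have hBχ : B ≤ χ.ker := by
      rintro _ ⟨y, _, rfl⟩
      exact hPχ (c.symm y).2
    have hBgen : GenBy S.card B := by
      refine ⟨S.image f, Finset.card_image_le, ?_⟩
      rw [Finset.coe_image, hB, MonoidHom.map_closure]
    have hBne : B ≠ ⊥ := by
      intro h
      apply hne
      rw [hB, Subgroup.map_eq_bot_iff_of_injective _ hfinj] at h
      exact h
    have hτ : χ (f x * s ^ k) ≠ 1 := by
      have h1 : χ (f x) = 1 := hPχ (c.symm x).2
      rw [map_mul, h1, one_mul]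
      intro h
      have := J2_toAdd_pow hs h
      omega
    apply K3_min CH htf hmin B hBχ hS hBgen hBne (f x * s ^ k) hτ
    rintro _ ⟨_, ⟨y, hy, rfl⟩, rfl⟩
    refine ⟨x * φ^[k] y * x⁻¹, hcon y hy, ?_⟩
    rw [map_mul, map_mul, map_inv, ← hskf]
    simp only [MulEquiv.toMonoidHom_eq_coe, MonoidHom.coe_coe, MulAut.conj_apply, mul_inv_rev, mul_assoc]

/-- Theorem W with the irreducible remainder -/
theorem theoremW2 (r : FreeGroup (Fin 2))
    (hfree : ¬ IsFreeGroup (FreeGroup (Fin 2) ⧸ Subgroup.normalClosure ({r} : Set (FreeGroup (Fin 2)))))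
    (hbs : ∀ m : ℤ, ¬ Nonempty ((FreeGroup (Fin 2) ⧸ Subgroup.normalClosure ({r} : Set (FreeGroup (Fin 2)))) ≃* BSG m))
    (χ : (FreeGroup (Fin 2) ⧸ Subgroup.normalClosure ({r} : Set (FreeGroup (Fin 2)))) →* Multiplicative ℤ)
    (hχ : Function.Surjective χ)
    (hrem : ¬ ∃ (L : Subgroup (FreeGroup (Fin 2) ⧸ Subgroup.normalClosure ({r} : Set (FreeGroup (Fin 2)))))
      (n : ℕ) (φ : FreeGroup (Fin n) →* FreeGroup (Fin n)) (hφ : Function.Injective φ) (e : L ≃* AscHNN φ hφ),
      L.index ≠ 0 ∧ 2 ≤ n ∧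
      (∀ x, χ ((e.symm (HNNExtension.of x) : L) : FreeGroup (Fin 2) ⧸ Subgroup.normalClosure ({r} : Set (FreeGroup (Fin 2)))) = 1) ∧
      ∀ (S : Finset (FreeGroup (Fin n))) (k : ℕ) (x : FreeGroup (Fin n)), S.card < n →
        Subgroup.closure (S : Set (FreeGroup (Fin n))) ≠ ⊥ → 0 < k →
        ∃ y ∈ Subgroup.closure (S : Set (FreeGroup (Fin n))), x * φ^[k] y * x⁻¹ ∉ Subgroup.closure (S : Set (FreeGroup (Fin n)))) :
    ∃ H : Subgroup (FreeGroup (Fin 2) ⧸ Subgroup.normalClosure ({r} : Set (FreeGroup (Fin 2)))),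
      H.FG ∧ ¬ IsFreeGroup H ∧ H.index = 0 := by
  by_cases hasc : Asc χ
  swap
  · exact theoremW r hfree χ hχ hasc
  by_contra hcon
  have CH : ∀ H : Subgroup (FreeGroup (Fin 2) ⧸ Subgroup.normalClosure ({r} : Set (FreeGroup (Fin 2)))),
      H.FG → H.index = 0 → IsFreeGroup H := by
    intro H h1 h2
    by_contra h3
    exact hcon ⟨H, h1, h3, h2⟩
  have hχ1 : χ ≠ 1 := by
    rintro rfl
    obtain ⟨g, hg⟩ := hχ (Multiplicative.ofAdd 1)
    have h4 := congrArg Multiplicative.toAdd hg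
    simp at h4
  exact hrem (K4_core hfree hbs χ hχ1 hasc CH)

end WQ
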